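import Mathlib

/-!
# Three Fourier coefficients of a measure on the half circle

If `μ` is a probability measure on `[0, π]` and `μ * μ` exceeds `c / π` times Lebesgue measure on
`[0, π]`, then the Fourier coefficients `g_k` satisfy `‖g_k ^ 2 - c e_k‖ ≤ 1 - c` with
`e_k = 2 i / (π k)` for odd `k` and `e_k = 0` for even `k`.  For `c = 100/107` this is impossible
already for `k = 1, 2, 3`.
-/

set_option autoImplicit false

namespace Pool.Agent.H893R3.Dig

/-- a square root lies in one of two small discs -/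
lemma disc {g s : ℂ} {ε S ρ : ℝ} (h : ‖g ^ 2 - s ^ 2‖ ≤ ε) (hS : S ≤ ‖s‖)
    (hρ0 : 0 ≤ ρ) (hρ : ε ≤ ρ * (2 * S - ρ)) : ‖g - s‖ ≤ ρ ∨ ‖g - (-s)‖ ≤ ρ := by
  by_contra hcon
  push Not at hcon
  obtain ⟨h1, h2⟩ := hcon
  have e1 : g ^ 2 - s ^ 2 = (g - s) * (g - (-s)) := by ring
  rw [e1, norm_mul] at h
  have h3 : 2 * ‖s‖ ≤ ‖g - s‖ + ‖g - (-s)‖ := by
    have e2 : (g - (-s)) - (g - s) = 2 * s := by ring
    have h4 : ‖(g - (-s)) - (g - s)‖ ≤ ‖g - (-s)‖ + ‖g - s‖ := norm_sub_le _ _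
    rw [e2, norm_mul, Complex.norm_ofNat] at h4
    linarith
  nlinarith [mul_pos (sub_pos.mpr h1) (sub_pos.mpr h2)]

/-- linear functionals on a disc -/
lemma lin {g s : ℂ} {ρ : ℝ} (h : ‖g - s‖ ≤ ρ) (u v N : ℝ) (hN0 : 0 ≤ N)
    (hN : u ^ 2 + v ^ 2 ≤ N ^ 2) :
    u * g.re + v * g.im ≤ u * s.re + v * s.im + N * ρ := by
  have hρ0 : 0 ≤ ρ := (norm_nonneg _).trans h
  have h1 : (g.re - s.re) ^ 2 + (g.im - s.im) ^ 2 ≤ ρ ^ 2 := by
    have h2 : ‖g - s‖ ^ 2 ≤ ρ ^ 2 := by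
      have := norm_nonneg (g - s)
      nlinarith
    have h3 : ‖g - s‖ ^ 2 = (g.re - s.re) ^ 2 + (g.im - s.im) ^ 2 := by
      rw [← Complex.normSq_eq_norm_sq, Complex.normSq_apply, Complex.sub_re, Complex.sub_im]
      ring
    linarith
  have h4 : (u * (g.re - s.re) + v * (g.im - s.im)) ^ 2 ≤ (N * ρ) ^ 2 := by
    have h5 : (u * (g.re - s.re) + v * (g.im - s.im)) ^ 2 ≤
        (u ^ 2 + v ^ 2) * ((g.re - s.re) ^ 2 + (g.im - s.im) ^ 2) := by
      nlinarith [sq_nonneg (u * (g.im - s.im) - v * (g.re - s.re))]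
    have h6 : (u ^ 2 + v ^ 2) * ((g.re - s.re) ^ 2 + (g.im - s.im) ^ 2) ≤ N ^ 2 * ρ ^ 2 :=
      mul_le_mul hN h1 (by positivity) (by positivity)
    calc _ ≤ _ := h5
      _ ≤ _ := h6
      _ = _ := by ring
  have h7 := abs_le_of_sq_le_sq h4 (by positivity)
  have h8 := le_abs_self (u * (g.re - s.re) + v * (g.im - s.im))
  linarith [abs_le.mp h7]

/-- the first test function, nonnegative on `[0, π]` -/
lemma test_plus (t : ℝ) (ht0 : 0 ≤ t) (ht : t ≤ Real.pi) :
    0 ≤ 5544 + (-13476 * Real.cos t + -8803 / 4 * Real.sin t) +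
      (6744 * Real.cos (2 * t) + 9245 * Real.sin (2 * t)) +
      (1188 * Real.cos (3 * t) + -16103 / 4 * Real.sin (3 * t)) := by
  have hs := Real.sin_nonneg_of_nonneg_of_le_pi ht0 ht
  have hc := Real.cos_le_one t
  have h := Real.sin_sq_add_cos_sq t
  rw [Real.cos_two_mul, Real.sin_two_mul, Real.cos_three_mul, Real.sin_three_mul]
  have h1 : (55 * Real.cos t + 48 * Real.sin t) ≤ 73 := by
    nlinarith [sq_nonneg (48 * Real.cos t - 55 * Real.sin t)]
  have h2 : (-5 * Real.cos t + 12 * Real.sin t) ≤ 13 := by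
    nlinarith [sq_nonneg (12 * Real.cos t + 5 * Real.sin t)]
  have h3 : 0 ≤ (13 * Real.sin t + 12 * (1 - Real.cos t)) *
      (73 - 55 * Real.cos t - 48 * Real.sin t) * (13 + 5 * Real.cos t - 12 * Real.sin t) := by
    apply mul_nonneg (mul_nonneg _ _) _ <;> linarith
  refine h3.trans (le_of_eq ?_)
  linear_combination (-8615 * Real.sin t - 12588 - 1452 * Real.cos t) * h

/-- the second test function, nonnegative on `[0, π]` -/
lemma test_minus (t : ℝ) (ht0 : 0 ≤ t) (ht : t ≤ Real.pi) :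
    0 ≤ 13 + (-311 / 4 * Real.cos t + 31 / 4 * Real.sin t) +
      (5 * Real.cos (2 * t) + 193 / 2 * Real.sin (2 * t)) +
      (239 / 4 * Real.cos (3 * t) + -1 / 4 * Real.sin (3 * t)) := by
  have hs := Real.sin_nonneg_of_nonneg_of_le_pi ht0 ht
  have hc := Real.cos_le_one t
  have h := Real.sin_sq_add_cos_sq t
  rw [Real.cos_two_mul, Real.sin_two_mul, Real.cos_three_mul, Real.sin_three_mul]
  have h1 : (5 * Real.cos t + 12 * Real.sin t) ≤ 13 := by
    nlinarith [sq_nonneg (12 * Real.cos t - 5 * Real.sin t)]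
  have h2 : (-12 * Real.cos t + 5 * Real.sin t) ≤ 13 := by
    nlinarith [sq_nonneg (5 * Real.cos t + 12 * Real.sin t)]
  have h3 : 0 ≤ (Real.sin t + (1 - Real.cos t)) *
      (13 - 5 * Real.cos t - 12 * Real.sin t) * (13 + 12 * Real.cos t - 5 * Real.sin t) := by
    apply mul_nonneg (mul_nonneg _ _) _ <;> linarith
  refine h3.trans (le_of_eq ?_)
  linear_combination (59 * Real.sin t - 161 - 179 * Real.cos t) * h

/-- the contradiction -/
theorem numeric {g1 g2 g3 : ℂ} (h1 : ‖g1 ^ 2 - ((200 / 107 / Real.pi : ℝ) : ℂ) * Complex.I‖ ≤ 6548 / 100000)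
    (h2 : ‖g2 ^ 2‖ ≤ 6548 / 100000)
    (h3 : ‖g3 ^ 2 - ((200 / 321 / Real.pi : ℝ) : ℂ) * Complex.I‖ ≤ 6548 / 100000)
    (him : 0 ≤ g1.im)
    (hp : 0 ≤ 5544 + (-13476 * g1.re + -8803 / 4 * g1.im) + (6744 * g2.re + 9245 * g2.im) +
      (1188 * g3.re + -16103 / 4 * g3.im))
    (hm : 0 ≤ 13 + (-311 / 4 * g1.re + 31 / 4 * g1.im) + (5 * g2.re + 193 / 2 * g2.im) +
      (239 / 4 * g3.re + -1 / 4 * g3.im)) : False := by
  have hpi1 := Real.pi_gt_d6
  have hpi2 := Real.pi_lt_d6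
  have hpi0 := Real.pi_pos
  -- the centres
  set s1 : ℂ := ⟨54542 / 100000, 54542 / 100000⟩ with hs1
  set s3 : ℂ := ⟨3149 / 10000, 3149 / 10000⟩ with hs3
  have e1 : s1 ^ 2 = ((2 * (54542 / 100000) ^ 2 : ℝ) : ℂ) * Complex.I := by
    rw [hs1]
    apply Complex.ext
    · simp [pow_two]
    · simp [pow_two]; norm_num
  have e3 : s3 ^ 2 = ((2 * (3149 / 10000) ^ 2 : ℝ) : ℂ) * Complex.I := by
    rw [hs3]
    apply Complex.ext
    · simp [pow_two]
    · simp [pow_two]; norm_num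
  have d1 : |200 / 107 / Real.pi - 2 * (54542 / 100000) ^ 2| ≤ 1 / 100000 := by
    have a1 : 200 / 107 / Real.pi ≤ 594974 / 1000000 := by
      rw [div_le_iff₀ hpi0]; nlinarith
    have a2 : 594957 / 1000000 ≤ 200 / 107 / Real.pi := by
      rw [le_div_iff₀ hpi0]; nlinarith
    rw [abs_le]
    constructor <;> norm_num <;> linarith
  have d3 : |200 / 321 / Real.pi - 2 * (3149 / 10000) ^ 2| ≤ 1 / 100000 := by
    have a1 : 200 / 321 / Real.pi ≤ 198330 / 1000000 := by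
      rw [div_le_iff₀ hpi0]; nlinarith
    have a2 : 198315 / 1000000 ≤ 200 / 321 / Real.pi := by
      rw [le_div_iff₀ hpi0]; nlinarith
    rw [abs_le]
    constructor <;> norm_num <;> linarith
  have f1 : ‖g1 ^ 2 - s1 ^ 2‖ ≤ 655 / 10000 := by
    have e : g1 ^ 2 - s1 ^ 2 = (g1 ^ 2 - ((200 / 107 / Real.pi : ℝ) : ℂ) * Complex.I) +
        ((200 / 107 / Real.pi - 2 * (54542 / 100000) ^ 2 : ℝ) : ℂ) * Complex.I := by
      rw [e1]; push_cast; ring
    rw [e]
    refine (norm_add_le _ _).trans ?_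
    rw [norm_mul, Complex.norm_I, mul_one, Complex.norm_real, Real.norm_eq_abs]
    linarith
  have f3 : ‖g3 ^ 2 - s3 ^ 2‖ ≤ 655 / 10000 := by
    have e : g3 ^ 2 - s3 ^ 2 = (g3 ^ 2 - ((200 / 321 / Real.pi : ℝ) : ℂ) * Complex.I) +
        ((200 / 321 / Real.pi - 2 * (3149 / 10000) ^ 2 : ℝ) : ℂ) * Complex.I := by
      rw [e3]; push_cast; ring
    rw [e]
    refine (norm_add_le _ _).trans ?_
    rw [norm_mul, Complex.norm_I, mul_one, Complex.norm_real, Real.norm_eq_abs]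
    linarith
  have n1 : (7713 : ℝ) / 10000 ≤ ‖s1‖ := by
    apply le_of_sq_le_sq _ (norm_nonneg _)
    rw [← Complex.normSq_eq_norm_sq, Complex.normSq_apply, hs1]
    norm_num
  have n3 : (4453 : ℝ) / 10000 ≤ ‖s3‖ := by
    apply le_of_sq_le_sq _ (norm_nonneg _)
    rw [← Complex.normSq_eq_norm_sq, Complex.normSq_apply, hs3]
    norm_num
  have g2b : ‖g2 - 0‖ ≤ 25594 / 100000 := by
    rw [sub_zero]
    rw [norm_pow] at h2
    apply le_of_sq_le_sq _ (by norm_num)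
    linarith
  have l2p := lin g2b 6744 9245 11443.5 (by norm_num) (by norm_num)
  have l2m := lin g2b 5 (193 / 2) 96.7 (by norm_num) (by norm_num)
  rcases disc (ρ := 4372 / 100000) f1 n1 (by norm_num) (by norm_num) with c1 | c1
  · have l1p := lin c1 (-13476) (-8803 / 4) 13655 (by norm_num) (by norm_num)
    have l1m := lin c1 (-311 / 4) (31 / 4) 78.2 (by norm_num) (by norm_num)
    rcases disc (ρ := 8092 / 100000) f3 n3 (by norm_num) (by norm_num) with c3 | c3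
    · have l3p := lin c3 1188 (-16103 / 4) 4197.5 (by norm_num) (by norm_num)
      simp only [hs1, hs3, Complex.zero_re, Complex.zero_im] at l1p l2p l3p
      norm_num at l1p l2p l3p
      linarith
    · have l3m := lin c3 (239 / 4) (-1 / 4) 59.8 (by norm_num) (by norm_num)
      simp only [hs1, hs3, Complex.zero_re, Complex.zero_im, Complex.neg_re, Complex.neg_im]
        at l1m l2m l3m
      norm_num at l1m l2m l3m
      linarith
  · have l1 := lin c1 0 1 1 (by norm_num) (by norm_num)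
    simp only [hs1, Complex.neg_im] at l1
    norm_num at l1
    linarith

end Pool.Agent.H893R3.Dig
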