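import Pool.Agent.H394R2.Ones3
import Pool.Agent.H893R3.Dig.Num

/-!
# Digit sums and half integer frequencies
-/

set_option autoImplicit false
set_option linter.unusedSectionVars false

open Finset

namespace Pool.Agent.H893R3.Dig

open Pool.Agent.H394R2.Ones

section
variable {b : ℕ} {y : ℝ} (hb : 2 ≤ b) (hy0 : 0 < y) (hy1 : y < 1) (hirr : Irrational y)
  {τ D : ℝ} {n : ℕ} {d : ℕ → ℝ} (hτ0 : 0 ≤ τ) (hd0 : ∀ m, 0 ≤ d m)
  (hd : ∀ m, τ - d m ≤ T b y m) (hD : ∑ m ∈ range n, d m ≤ D)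

include hb hy0 hy1 in
lemma r_sum_G (G : ℕ → ℝ) (n : ℕ) :
    ∑ m ∈ range (n + 1), (r b y m : ℝ) * G m =
      ((b : ℝ) - 1) * ∑ m ∈ range n, T b y m * G m +
        b * ∑ m ∈ range n, T b y m * (G (m + 1) - G m) + T b y 0 * G 0 - T b y n * G n := by
  induction n with
  | zero => simp [r_zero hy0 hy1]
  | succ n ih =>
    rw [sum_range_succ, ih, sum_range_succ _ n, sum_range_succ _ n]
    have h1 := T_succ hb hy0 hy1 (b := b) n
    have h2 : (r b y (n + 1) : ℝ) = b * T b y n - T b y (n + 1) := by linarith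
    rw [h2]
    ring

include hb hy0 hy1 hirr hτ0 hd0 hd hD in
/-- the pair sum against a nonnegative test function -/
lemma pair_lower (hn : 0 < n) (G : ℕ → ℝ) (hG0 : ∀ m, 0 ≤ G m) {M L : ℝ}
    (hM : ∀ m, G m ≤ M) (hL : ∀ m, |G (m + 1) - G m| * n ≤ L) :
    ((b : ℝ) - 1) * τ * ∑ m ∈ range n, G m -
      (((b : ℝ) - 1) * M * D + (b * L + M) * (K b y n + 1)) ≤
      ∑ p ∈ range (n + 1) ×ˢ range (n + 1), ((x b y p.1 : ℝ) * x b y p.2) * G (p.1 + p.2) := by
  have hbR : (2 : ℝ) ≤ b := by exact_mod_cast hb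
  have hn0 : (0 : ℝ) < n := by exact_mod_cast hn
  have hM0 : 0 ≤ M := (hG0 0).trans (hM 0)
  rw [pair_sum n (fun i j => ((x b y i : ℝ) * x b y j) * G (i + j))]
  have h1 : 0 ≤ ∑ p ∈ (range (n + 1) ×ˢ range (n + 1)).filter (fun p => ¬ p.1 + p.2 ≤ n),
      ((x b y p.1 : ℝ) * x b y p.2) * G (p.1 + p.2) :=
    sum_nonneg fun p _ => mul_nonneg (by positivity) (hG0 _)
  have h2 : ∑ m ∈ range (n + 1), ∑ p ∈ antidiagonal m,
      ((x b y p.1 : ℝ) * x b y p.2) * G (p.1 + p.2) =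
      ∑ m ∈ range (n + 1), (r b y m : ℝ) * G m := by
    refine sum_congr rfl fun m _ => ?_
    unfold r
    push_cast
    rw [sum_mul]
    refine sum_congr rfl fun p hp => ?_
    rw [HasAntidiagonal.mem_antidiagonal] at hp
    rw [hp]
  rw [h2, r_sum_G hb hy0 hy1]
  have h3 : τ * ∑ m ∈ range n, G m - M * D ≤ ∑ m ∈ range n, T b y m * G m := by
    have h4 : ∀ m ∈ range n, τ * G m - M * d m ≤ T b y m * G m := by
      intro m _
      have e1 := hd m
      have e2 := hG0 m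
      have e3 := hM m
      have e4 := hd0 m
      nlinarith
    have h5 := sum_le_sum h4
    rw [sum_sub_distrib, ← mul_sum, ← mul_sum] at h5
    have h6 := mul_le_mul_of_nonneg_left hD hM0
    linarith
  have h7 : |∑ m ∈ range n, T b y m * (G (m + 1) - G m)| ≤ L * (K b y n + 1) := by
    have h8 : |∑ m ∈ range n, T b y m * (G (m + 1) - G m)| * n ≤
        ∑ m ∈ range n, T b y m * L := by
      have e0 : |∑ m ∈ range n, T b y m * (G (m + 1) - G m)| ≤
          ∑ m ∈ range n, T b y m * |G (m + 1) - G m| := by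
        refine (abs_sum_le_sum_abs _ _).trans (sum_le_sum fun m _ => ?_)
        rw [abs_mul, abs_of_pos (T_pos hb hy0 hy1 hirr m)]
      calc _ ≤ (∑ m ∈ range n, T b y m * |G (m + 1) - G m|) * n :=
            mul_le_mul_of_nonneg_right e0 hn0.le
        _ = ∑ m ∈ range n, T b y m * (|G (m + 1) - G m| * n) := by
            rw [sum_mul]; exact sum_congr rfl fun m _ => by ring
        _ ≤ _ := sum_le_sum fun m _ =>
            mul_le_mul_of_nonneg_left (hL m) (T_pos hb hy0 hy1 hirr m).le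
    have h9 := T_sum_le hb hy0 hy1 hirr n
    have hL0 : 0 ≤ L := (mul_nonneg (abs_nonneg _) hn0.le).trans (hL 0)
    rw [← sum_mul] at h8
    have h10 : |∑ m ∈ range n, T b y m * (G (m + 1) - G m)| * n ≤ (L * (K b y n + 1)) * n := by
      calc _ ≤ _ := h8
        _ ≤ (n * (K b y n + 1)) * L := mul_le_mul_of_nonneg_right h9 hL0
        _ = _ := by ring
    exact le_of_mul_le_mul_right h10 hn0
  have h11 := mul_le_mul_of_nonneg_left h3 (by linarith : (0 : ℝ) ≤ (b : ℝ) - 1)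
  have h12 := neg_abs_le (∑ m ∈ range n, T b y m * (G (m + 1) - G m))
  have h13 : -(b * (L * (K b y n + 1))) ≤
      b * ∑ m ∈ range n, T b y m * (G (m + 1) - G m) := by
    have : -(L * (K b y n + 1)) ≤ ∑ m ∈ range n, T b y m * (G (m + 1) - G m) := by linarith
    have := mul_le_mul_of_nonneg_left this (by linarith : (0 : ℝ) ≤ (b : ℝ))
    linarith
  have h14 : 0 ≤ T b y 0 * G 0 := mul_nonneg (T_pos hb hy0 hy1 hirr 0).le (hG0 0)
  have h15 : T b y n * G n ≤ (K b y n + 1) * M :=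
    mul_le_mul (T_le hb hy0 hy1 n) (hM n) (hG0 n) (by positivity)
  nlinarith

lemma F_sq_eq (n : ℕ) (w : ℂ) :
    F b y n w ^ 2 = ∑ p ∈ range (n + 1) ×ˢ range (n + 1),
      (((x b y p.1 : ℝ) * x b y p.2 : ℝ) : ℂ) * w ^ (p.1 + p.2) := by
  unfold F
  rw [sq, sum_mul_sum, ← sum_product']
  refine sum_congr rfl fun p _ => ?_
  push_cast
  rw [pow_add]
  ring

lemma K_sq_eq (n : ℕ) :
    (K b y n : ℝ) ^ 2 = ∑ p ∈ range (n + 1) ×ˢ range (n + 1),
      ((x b y p.1 : ℝ) * x b y p.2) := by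
  unfold K
  rw [sq]
  push_cast
  rw [sum_mul_sum, ← sum_product']

include hb hy0 hy1 hirr hτ0 hd0 hd hD in
lemma F_near (hn : 0 < n) {w : ℂ} (hw1 : ‖w‖ = 1) (hwd : ‖w - 1‖ * n ≤ 13) :
    ‖F b y n w ^ 2 - (((b : ℝ) - 1) * τ : ℝ) * ∑ m ∈ range n, w ^ m‖ ≤
      (K b y n : ℝ) ^ 2 - ((b : ℝ) - 1) * τ * n +
        (2 * ((b : ℝ) - 1) * D + (13 * b + 2) * (K b y n + 1)) := by
  set z : ℂ := F b y n w ^ 2 - (((b : ℝ) - 1) * τ : ℝ) * ∑ m ∈ range n, w ^ m with hz
  obtain ⟨c, hc, hcz⟩ := RCLike.exists_norm_eq_mul_self z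
  have hwp : ∀ m : ℕ, ‖w ^ m‖ = 1 := fun m => by rw [norm_pow, hw1, one_pow]
  have hcw : ∀ m : ℕ, |(c * w ^ m).re| ≤ 1 := by
    intro m
    refine (Complex.abs_re_le_norm _).trans ?_
    rw [norm_mul, hc, hwp, mul_one]
  have key := pair_lower hb hy0 hy1 hirr hτ0 hd0 hd hD hn (fun m => 1 - (c * w ^ m).re)
    (fun m => by have := (abs_le.mp (hcw m)).2; linarith) (M := 2) (L := 13)
    (fun m => by have := (abs_le.mp (hcw m)).1; linarith)
    (fun m => by
      have e : (1 - (c * w ^ (m + 1)).re) - (1 - (c * w ^ m).re) =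
          -((c * w ^ m) * (w - 1)).re := by
        rw [show (c * w ^ m) * (w - 1) = c * w ^ (m + 1) - c * w ^ m by ring, Complex.sub_re]
        ring
      rw [e, abs_neg]
      refine le_trans (mul_le_mul_of_nonneg_right (Complex.abs_re_le_norm _) (Nat.cast_nonneg n)) ?_
      rw [norm_mul, norm_mul, hc, hwp, one_mul, one_mul]
      exact hwd)
  have e1 : ∑ p ∈ range (n + 1) ×ˢ range (n + 1),
      ((x b y p.1 : ℝ) * x b y p.2) * (1 - (c * w ^ (p.1 + p.2)).re) =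
      (K b y n : ℝ) ^ 2 - (c * F b y n w ^ 2).re := by
    rw [K_sq_eq, F_sq_eq, mul_sum, Complex.re_sum, ← sum_sub_distrib]
    refine sum_congr rfl fun p _ => ?_
    have : c * ((((x b y p.1 : ℝ) * x b y p.2 : ℝ) : ℂ) * w ^ (p.1 + p.2)) =
        (((x b y p.1 : ℝ) * x b y p.2 : ℝ) : ℂ) * (c * w ^ (p.1 + p.2)) := by ring
    rw [this, Complex.re_ofReal_mul]
    ring
  have e2 : ∑ m ∈ range n, (1 - (c * w ^ m).re) = n - (c * ∑ m ∈ range n, w ^ m).re := by
    rw [sum_sub_distrib, mul_sum, Complex.re_sum]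
    simp
  rw [e1, e2] at key
  have e3 : ‖z‖ = (c * z).re := by
    have := congrArg Complex.re hcz
    simpa using this
  have e4 : (c * z).re = (c * F b y n w ^ 2).re -
      ((b : ℝ) - 1) * τ * (c * ∑ m ∈ range n, w ^ m).re := by
    rw [hz, mul_sub, Complex.sub_re]
    congr 1
    rw [show c * ((((b : ℝ) - 1) * τ : ℝ) * ∑ m ∈ range n, w ^ m) =
      ((((b : ℝ) - 1) * τ : ℝ) : ℂ) * (c * ∑ m ∈ range n, w ^ m) by ring,
      Complex.re_ofReal_mul]
  rw [e3, e4]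
  nlinarith

end

/-- geometric sums: even frequencies -/
lemma geom_even {n : ℕ} {w : ℂ} (hwn : w ^ n = 1) (hw : w ≠ 1) : ∑ m ∈ range n, w ^ m = 0 := by
  have h := mul_neg_geom_sum w n
  rw [hwn, sub_self] at h
  rcases mul_eq_zero.mp h with h | h
  · exact absurd (by linear_combination -h) hw
  · exact h

/-- geometric sums: odd frequencies -/
lemma geom_odd {n : ℕ} {θ : ℝ} (h0 : 0 < θ) (h1 : θ ≤ 1 / 2)
    (hwn : Complex.exp (Complex.I * θ) ^ n = -1) :
    ‖∑ m ∈ range n, Complex.exp (Complex.I * θ) ^ m - ((2 / θ : ℝ) : ℂ) * Complex.I‖ ≤ 4 := by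
  set w := Complex.exp (Complex.I * θ) with hw
  have hθn : ‖Complex.I * (θ : ℂ)‖ = θ := by
    rw [norm_mul, Complex.norm_I, one_mul, Complex.norm_real, Real.norm_eq_abs, abs_of_pos h0]
  have h2 : ‖w - 1 - Complex.I * θ‖ ≤ θ ^ 2 := by
    have := Complex.norm_exp_sub_one_sub_id_le (x := Complex.I * θ) (by rw [hθn]; linarith)
    rwa [hθn] at this
  have h3 : θ / 2 ≤ ‖w - 1‖ := by
    have h4 : ‖Complex.I * (θ : ℂ)‖ ≤ ‖w - 1‖ + ‖w - 1 - Complex.I * θ‖ := by
      have e : Complex.I * (θ : ℂ) = (w - 1) - (w - 1 - Complex.I * θ) := by ring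
      calc ‖Complex.I * (θ : ℂ)‖ = ‖(w - 1) - (w - 1 - Complex.I * θ)‖ := by rw [← e]
        _ ≤ _ := norm_sub_le _ _
    rw [hθn] at h4
    nlinarith
  have hw1 : w - 1 ≠ 0 := by
    intro h
    rw [h, norm_zero] at h3
    linarith
  have hθc : (θ : ℂ) ≠ 0 := by exact_mod_cast h0.ne'
  have hgeom : (w - 1) * ∑ m ∈ range n, w ^ m = -2 := by
    have h := mul_neg_geom_sum w n
    rw [hwn] at h
    linear_combination -h
  have h5 : (∑ m ∈ range n, w ^ m - ((2 / θ : ℝ) : ℂ) * Complex.I) * ((w - 1) * θ) =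
      -2 * Complex.I * (w - 1 - Complex.I * θ) := by
    have e : ((2 / θ : ℝ) : ℂ) * θ = 2 := by
      push_cast
      field_simp
    calc _ = ((w - 1) * ∑ m ∈ range n, w ^ m) * θ -
          (((2 / θ : ℝ) : ℂ) * θ) * Complex.I * (w - 1) := by ring
      _ = -2 * θ - 2 * Complex.I * (w - 1) := by rw [hgeom, e]
      _ = _ := by linear_combination (-2 * (θ : ℂ)) * Complex.I_sq
  have h6 := congrArg norm h5
  rw [norm_mul, norm_mul, norm_mul, norm_mul, norm_neg, Complex.norm_I, Complex.norm_ofNat,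
    Complex.norm_real, Real.norm_eq_abs, abs_of_pos h0, mul_one] at h6
  set X := ‖∑ m ∈ range n, w ^ m - ((2 / θ : ℝ) : ℂ) * Complex.I‖ with hX
  have hX0 : 0 ≤ X := norm_nonneg _
  have h7 : X * (θ / 2 * θ) ≤ 2 * θ ^ 2 := by
    calc X * (θ / 2 * θ) ≤ X * (‖w - 1‖ * θ) :=
          mul_le_mul_of_nonneg_left (mul_le_mul_of_nonneg_right h3 h0.le) hX0
      _ = 2 * ‖w - 1 - Complex.I * θ‖ := h6
      _ ≤ _ := by linarith
  have h8 : 0 < θ ^ 2 := by positivity
  nlinarith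

end Pool.Agent.H893R3.Dig
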