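import Mathlib

/-!
# Squares of trigonometric polynomials of degree five
-/

set_option autoImplicit false

namespace Pool.Agent.H893R3.Dig

lemma expand_ring {R : Type} [CommRing R] (q0 q1 q2 q3 q4 q5 r0 r1 r2 r3 r4 r5 z w : R)
    (h : z * w = 1) :
    (q0 + q1 * z + q2 * z ^ 2 + q3 * z ^ 3 + q4 * z ^ 4 + q5 * z ^ 5) *
      (r0 + r1 * w + r2 * w ^ 2 + r3 * w ^ 3 + r4 * w ^ 4 + r5 * w ^ 5) =
    (q0 * r0 + q1 * r1 + q2 * r2 + q3 * r3 + q4 * r4 + q5 * r5) +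
    ((q1 * r0 + q2 * r1 + q3 * r2 + q4 * r3 + q5 * r4) * z +
      (q2 * r0 + q3 * r1 + q4 * r2 + q5 * r3) * z ^ 2 + (q3 * r0 + q4 * r1 + q5 * r2) * z ^ 3 +
      (q4 * r0 + q5 * r1) * z ^ 4 + (q5 * r0) * z ^ 5) +
    ((r1 * q0 + r2 * q1 + r3 * q2 + r4 * q3 + r5 * q4) * w +
      (r2 * q0 + r3 * q1 + r4 * q2 + r5 * q3) * w ^ 2 + (r3 * q0 + r4 * q1 + r5 * q2) * w ^ 3 +
      (r4 * q0 + r5 * q1) * w ^ 4 + (r5 * q0) * w ^ 5) := by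
  linear_combination (q1 * r1 * z ^ 0 * ((z * w) ^ 0) +
    q1 * r2 * w ^ 1 * ((z * w) ^ 0) +
    q1 * r3 * w ^ 2 * ((z * w) ^ 0) +
    q1 * r4 * w ^ 3 * ((z * w) ^ 0) +
    q1 * r5 * w ^ 4 * ((z * w) ^ 0) +
    q2 * r1 * z ^ 1 * ((z * w) ^ 0) +
    q2 * r2 * z ^ 0 * ((z * w) ^ 0 + (z * w) ^ 1) +
    q2 * r3 * w ^ 1 * ((z * w) ^ 0 + (z * w) ^ 1) +
    q2 * r4 * w ^ 2 * ((z * w) ^ 0 + (z * w) ^ 1) +
    q2 * r5 * w ^ 3 * ((z * w) ^ 0 + (z * w) ^ 1) +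
    q3 * r1 * z ^ 2 * ((z * w) ^ 0) +
    q3 * r2 * z ^ 1 * ((z * w) ^ 0 + (z * w) ^ 1) +
    q3 * r3 * z ^ 0 * ((z * w) ^ 0 + (z * w) ^ 1 + (z * w) ^ 2) +
    q3 * r4 * w ^ 1 * ((z * w) ^ 0 + (z * w) ^ 1 + (z * w) ^ 2) +
    q3 * r5 * w ^ 2 * ((z * w) ^ 0 + (z * w) ^ 1 + (z * w) ^ 2) +
    q4 * r1 * z ^ 3 * ((z * w) ^ 0) +
    q4 * r2 * z ^ 2 * ((z * w) ^ 0 + (z * w) ^ 1) +
    q4 * r3 * z ^ 1 * ((z * w) ^ 0 + (z * w) ^ 1 + (z * w) ^ 2) +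
    q4 * r4 * z ^ 0 * ((z * w) ^ 0 + (z * w) ^ 1 + (z * w) ^ 2 + (z * w) ^ 3) +
    q4 * r5 * w ^ 1 * ((z * w) ^ 0 + (z * w) ^ 1 + (z * w) ^ 2 + (z * w) ^ 3) +
    q5 * r1 * z ^ 4 * ((z * w) ^ 0) +
    q5 * r2 * z ^ 3 * ((z * w) ^ 0 + (z * w) ^ 1) +
    q5 * r3 * z ^ 2 * ((z * w) ^ 0 + (z * w) ^ 1 + (z * w) ^ 2) +
    q5 * r4 * z ^ 1 * ((z * w) ^ 0 + (z * w) ^ 1 + (z * w) ^ 2 + (z * w) ^ 3) +
    q5 * r5 * z ^ 0 * ((z * w) ^ 0 + (z * w) ^ 1 + (z * w) ^ 2 + (z * w) ^ 3 + (z * w) ^ 4)) * h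

open ComplexConjugate

/-- square norm -/
noncomputable def nn (q : Fin 6 → ℂ) : ℝ :=
  Complex.normSq (q 0) + Complex.normSq (q 1) + Complex.normSq (q 2) + Complex.normSq (q 3) +
    Complex.normSq (q 4) + Complex.normSq (q 5)

/-- correlations -/
noncomputable def A1 (q : Fin 6 → ℂ) : ℂ :=
  q 1 * conj (q 0) + q 2 * conj (q 1) + q 3 * conj (q 2) + q 4 * conj (q 3) + q 5 * conj (q 4)
/-- correlations -/
noncomputable def A2 (q : Fin 6 → ℂ) : ℂ :=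
  q 2 * conj (q 0) + q 3 * conj (q 1) + q 4 * conj (q 2) + q 5 * conj (q 3)
/-- correlations -/
noncomputable def A3 (q : Fin 6 → ℂ) : ℂ := q 3 * conj (q 0) + q 4 * conj (q 1) + q 5 * conj (q 2)
/-- correlations -/
noncomputable def A4 (q : Fin 6 → ℂ) : ℂ := q 4 * conj (q 0) + q 5 * conj (q 1)
/-- correlations -/
noncomputable def A5 (q : Fin 6 → ℂ) : ℂ := q 5 * conj (q 0)

/-- value of the squared trigonometric polynomial -/
noncomputable def GG (q : Fin 6 → ℂ) (z1 z2 z3 z4 z5 : ℂ) : ℝ :=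
  nn q + 2 * (A1 q * z1 + A2 q * z2 + A3 q * z3 + A4 q * z4 + A5 q * z5).re

lemma GG_eq (q : Fin 6 → ℂ) {z : ℂ} (hz : ‖z‖ = 1) :
    GG q z (z ^ 2) (z ^ 3) (z ^ 4) (z ^ 5) =
      Complex.normSq (q 0 + q 1 * z + q 2 * z ^ 2 + q 3 * z ^ 3 + q 4 * z ^ 4 + q 5 * z ^ 5) := by
  have hzz : z * conj z = 1 := by
    rw [Complex.mul_conj, Complex.normSq_eq_norm_sq, hz]; norm_num
  have h := expand_ring (q 0) (q 1) (q 2) (q 3) (q 4) (q 5) (conj (q 0)) (conj (q 1)) (conj (q 2))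
    (conj (q 3)) (conj (q 4)) (conj (q 5)) z (conj z) hzz
  have h1 : (q 0 + q 1 * z + q 2 * z ^ 2 + q 3 * z ^ 3 + q 4 * z ^ 4 + q 5 * z ^ 5) *
      conj (q 0 + q 1 * z + q 2 * z ^ 2 + q 3 * z ^ 3 + q 4 * z ^ 4 + q 5 * z ^ 5) =
      ((nn q : ℝ) : ℂ) + (A1 q * z + A2 q * z ^ 2 + A3 q * z ^ 3 + A4 q * z ^ 4 + A5 q * z ^ 5) +
        conj (A1 q * z + A2 q * z ^ 2 + A3 q * z ^ 3 + A4 q * z ^ 4 + A5 q * z ^ 5) := by
    simp only [map_add, map_mul, map_pow, Complex.conj_conj, A1, A2, A3, A4, A5, nn,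
      Complex.ofReal_add, ← Complex.mul_conj]
    rw [h]
  rw [Complex.mul_conj] at h1
  have h2 := congrArg Complex.re h1
  rw [Complex.ofReal_re, Complex.add_re, Complex.add_re, Complex.ofReal_re, Complex.conj_re] at h2
  unfold GG
  linarith

lemma GG_nonneg (q : Fin 6 → ℂ) {z : ℂ} (hz : ‖z‖ = 1) :
    0 ≤ GG q z (z ^ 2) (z ^ 3) (z ^ 4) (z ^ 5) := by
  rw [GG_eq q hz]; exact Complex.normSq_nonneg _

lemma mul_conj_le (a b : ℂ) : ‖a * conj b‖ ≤ (Complex.normSq a + Complex.normSq b) / 2 := by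
  rw [norm_mul, Complex.norm_conj, Complex.normSq_eq_norm_sq, Complex.normSq_eq_norm_sq]
  nlinarith [sq_nonneg (‖a‖ - ‖b‖)]

lemma A_le (q : Fin 6 → ℂ) : ‖A1 q‖ ≤ nn q ∧ ‖A2 q‖ ≤ nn q ∧ ‖A3 q‖ ≤ nn q ∧ ‖A4 q‖ ≤ nn q ∧
    ‖A5 q‖ ≤ nn q := by
  have n0 := Complex.normSq_nonneg (q 0)
  have n1 := Complex.normSq_nonneg (q 1)
  have n2 := Complex.normSq_nonneg (q 2)
  have n3 := Complex.normSq_nonneg (q 3)
  have n4 := Complex.normSq_nonneg (q 4)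
  have n5 := Complex.normSq_nonneg (q 5)
  unfold A1 A2 A3 A4 A5 nn
  refine ⟨?_, ?_, ?_, ?_, ?_⟩
  · refine (norm_add_le _ _).trans ?_
    refine (add_le_add_left (norm_add_le _ _) _).trans ?_
    refine (add_le_add_left (add_le_add_left (norm_add_le _ _) _) _).trans ?_
    refine (add_le_add_left (add_le_add_left (add_le_add_left (norm_add_le _ _) _) _) _).trans ?_
    have := mul_conj_le (q 1) (q 0)
    have := mul_conj_le (q 2) (q 1)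
    have := mul_conj_le (q 3) (q 2)
    have := mul_conj_le (q 4) (q 3)
    have := mul_conj_le (q 5) (q 4)
    linarith
  · refine (norm_add_le _ _).trans ?_
    refine (add_le_add_left (norm_add_le _ _) _).trans ?_
    refine (add_le_add_left (add_le_add_left (norm_add_le _ _) _) _).trans ?_
    have := mul_conj_le (q 2) (q 0)
    have := mul_conj_le (q 3) (q 1)
    have := mul_conj_le (q 4) (q 2)
    have := mul_conj_le (q 5) (q 3)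
    linarith
  · refine (norm_add_le _ _).trans ?_
    refine (add_le_add_left (norm_add_le _ _) _).trans ?_
    have := mul_conj_le (q 3) (q 0)
    have := mul_conj_le (q 4) (q 1)
    have := mul_conj_le (q 5) (q 2)
    linarith
  · refine (norm_add_le _ _).trans ?_
    have := mul_conj_le (q 4) (q 0)
    have := mul_conj_le (q 5) (q 1)
    linarith
  · have := mul_conj_le (q 5) (q 0)
    linarith

end Pool.Agent.H893R3.Dig
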