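import Pool.Agent.H893R3.Dig.Main3
import Pool.Agent.H893R3.Dig.J1

/-!
# Positivity of the Toeplitz forms of the digit measure
-/

set_option autoImplicit false
set_option linter.unusedSectionVars false

open Finset

namespace Pool.Agent.H893R3.Dig

open Pool.Agent.H394R2.Ones

lemma GG_add (q : Fin 6 → ℂ) (a1 a2 a3 a4 a5 b1 b2 b3 b4 b5 : ℂ) :
    GG q b1 b2 b3 b4 b5 - GG q a1 a2 a3 a4 a5 =
      2 * (A1 q * (b1 - a1) + A2 q * (b2 - a2) + A3 q * (b3 - a3) + A4 q * (b4 - a4) +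
        A5 q * (b5 - a5)).re := by
  unfold GG
  rw [show A1 q * (b1 - a1) + A2 q * (b2 - a2) + A3 q * (b3 - a3) + A4 q * (b4 - a4) +
      A5 q * (b5 - a5) = (A1 q * b1 + A2 q * b2 + A3 q * b3 + A4 q * b4 + A5 q * b5) -
      (A1 q * a1 + A2 q * a2 + A3 q * a3 + A4 q * a4 + A5 q * a5) by ring, Complex.sub_re]
  ring

lemma re_bound (q : Fin 6 → ℂ) {d1 d2 d3 d4 d5 : ℂ} {e1 e2 e3 e4 e5 : ℝ}
    (h1 : ‖d1‖ ≤ e1) (h2 : ‖d2‖ ≤ e2) (h3 : ‖d3‖ ≤ e3) (h4 : ‖d4‖ ≤ e4) (h5 : ‖d5‖ ≤ e5) :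
    |2 * (A1 q * d1 + A2 q * d2 + A3 q * d3 + A4 q * d4 + A5 q * d5).re| ≤
      2 * (e1 + e2 + e3 + e4 + e5) * nn q := by
  obtain ⟨a1, a2, a3, a4, a5⟩ := A_le q
  have hn : 0 ≤ nn q := (norm_nonneg _).trans a1
  rw [abs_mul, abs_of_pos (by norm_num : (0 : ℝ) < 2)]
  have k1 : ‖A1 q * d1‖ ≤ nn q * e1 := by rw [norm_mul]; exact mul_le_mul a1 h1 (norm_nonneg _) hn
  have k2 : ‖A2 q * d2‖ ≤ nn q * e2 := by rw [norm_mul]; exact mul_le_mul a2 h2 (norm_nonneg _) hn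
  have k3 : ‖A3 q * d3‖ ≤ nn q * e3 := by rw [norm_mul]; exact mul_le_mul a3 h3 (norm_nonneg _) hn
  have k4 : ‖A4 q * d4‖ ≤ nn q * e4 := by rw [norm_mul]; exact mul_le_mul a4 h4 (norm_nonneg _) hn
  have k5 : ‖A5 q * d5‖ ≤ nn q * e5 := by rw [norm_mul]; exact mul_le_mul a5 h5 (norm_nonneg _) hn
  have k6 : |(A1 q * d1 + A2 q * d2 + A3 q * d3 + A4 q * d4 + A5 q * d5).re| ≤
      ‖A1 q * d1‖ + ‖A2 q * d2‖ + ‖A3 q * d3‖ + ‖A4 q * d4‖ + ‖A5 q * d5‖ := by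
    refine (Complex.abs_re_le_norm _).trans ?_
    refine (norm_add_le _ _).trans ?_
    refine (add_le_add_left (norm_add_le _ _) _).trans ?_
    refine (add_le_add_left (add_le_add_left (norm_add_le _ _) _) _).trans ?_
    exact (add_le_add_left (add_le_add_left (add_le_add_left (norm_add_le _ _) _) _) _)
  nlinarith

section
variable {b : ℕ} {y : ℝ} (hb : 2 ≤ b) (hy0 : 0 < y) (hy1 : y < 1) (hirr : Irrational y)
  {τ D : ℝ} {n : ℕ} {d : ℕ → ℝ} (hτ0 : 0 ≤ τ) (hd0 : ∀ m, 0 ≤ d m)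
  (hd : ∀ m, τ - d m ≤ T b y m) (hD : ∑ m ∈ range n, d m ≤ D)

/-- the point on the circle -/
noncomputable def ww (n : ℕ) : ℂ := Complex.exp (Complex.I * ((Real.pi / n : ℝ) : ℂ))

lemma ww_norm (n : ℕ) : ‖ww n‖ = 1 := norm_w _

lemma ww_pow (n k : ℕ) : ww n ^ k = Complex.exp (Complex.I * ((k * (Real.pi / n) : ℝ) : ℂ)) := by
  unfold ww
  rw [← Complex.exp_nat_mul]
  congr 1
  push_cast
  ring

lemma FF_eq (n k : ℕ) : FF b y n (k * (Real.pi / n)) = F b y n (ww n ^ k) := by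
  unfold FF; rw [ww_pow]

lemma F_sum (n k : ℕ) : F b y n (ww n ^ k) = ∑ i ∈ range (n + 1), (x b y i : ℂ) * (ww n ^ i) ^ k := by
  unfold F
  refine sum_congr rfl fun i _ => ?_
  rw [← pow_mul, ← pow_mul, mul_comm k i]

/-- positivity of the Toeplitz form of the measure -/
lemma toep_mu (n : ℕ) (q : Fin 6 → ℂ) :
    0 ≤ nn q * K b y n + 2 * (A1 q * F b y n (ww n) + A2 q * F b y n (ww n ^ 2) +
      A3 q * F b y n (ww n ^ 3) + A4 q * F b y n (ww n ^ 4) + A5 q * F b y n (ww n ^ 5)).re := by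
  have h1 : 0 ≤ ∑ i ∈ range (n + 1), (x b y i : ℝ) *
      GG q (ww n ^ i) ((ww n ^ i) ^ 2) ((ww n ^ i) ^ 3) ((ww n ^ i) ^ 4) ((ww n ^ i) ^ 5) :=
    sum_nonneg fun i _ => mul_nonneg (Nat.cast_nonneg _)
      (GG_nonneg q (by rw [norm_pow, ww_norm, one_pow]))
  refine h1.trans (le_of_eq ?_)
  have e1 : F b y n (ww n) = ∑ i ∈ range (n + 1), (x b y i : ℂ) * (ww n ^ i) ^ 1 := by
    have := F_sum (b := b) (y := y) n 1
    rwa [pow_one] at this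
  rw [e1, F_sum, F_sum, F_sum, F_sum]
  unfold K
  simp only [mul_sum, ← sum_add_distrib, Complex.re_sum, Nat.cast_sum]
  refine sum_congr rfl fun i _ => ?_
  unfold GG
  rw [show A1 q * ((x b y i : ℂ) * (ww n ^ i) ^ 1) + A2 q * ((x b y i : ℂ) * (ww n ^ i) ^ 2) +
      A3 q * ((x b y i : ℂ) * (ww n ^ i) ^ 3) + A4 q * ((x b y i : ℂ) * (ww n ^ i) ^ 4) +
      A5 q * ((x b y i : ℂ) * (ww n ^ i) ^ 5) = ((x b y i : ℝ) : ℂ) * (A1 q * ww n ^ i +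
      A2 q * (ww n ^ i) ^ 2 + A3 q * (ww n ^ i) ^ 3 + A4 q * (ww n ^ i) ^ 4 +
      A5 q * (ww n ^ i) ^ 5) by push_cast; ring, Complex.re_ofReal_mul]
  ring

lemma ww_sub (hn : 0 < n) (k : ℕ) (hk : 0 < k) : ‖ww n ^ k - 1‖ ≤ k * (Real.pi / n) := by
  rw [ww_pow]
  have hn0 : (0 : ℝ) < n := by exact_mod_cast hn
  have hk0 : (0 : ℝ) < k := by exact_mod_cast hk
  have hpi := Real.pi_pos
  have h0 : 0 < (k : ℝ) * (Real.pi / n) := by positivity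
  have := Real.norm_exp_I_mul_ofReal_sub_one_le (x := (k : ℝ) * (Real.pi / n))
  rw [Real.norm_eq_abs, abs_of_pos h0] at this
  exact this

include hb hy0 hy1 hirr hτ0 hd0 hd hD in
/-- positivity of the Toeplitz form of the squares, unnormalised -/
lemma toep_nu (hn : 0 < n) (p : Fin 6 → ℂ) :
    ((b : ℝ) - 1) * τ * GG p 0 0 0 0 0 * n + ((b : ℝ) - 1) * τ *
      (2 * (A1 p * ∑ m ∈ range n, (ww n ^ 1) ^ m + A2 p * ∑ m ∈ range n, (ww n ^ 2) ^ m +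
        A3 p * ∑ m ∈ range n, (ww n ^ 3) ^ m + A4 p * ∑ m ∈ range n, (ww n ^ 4) ^ m +
        A5 p * ∑ m ∈ range n, (ww n ^ 5) ^ m).re) -
      (11 * ((b : ℝ) - 1) * D + (95 * b + 11) * (K b y n + 1)) * nn p ≤
      nn p * (K b y n : ℝ) ^ 2 + 2 * (A1 p * F b y n (ww n ^ 1) ^ 2 + A2 p * F b y n (ww n ^ 2) ^ 2 +
        A3 p * F b y n (ww n ^ 3) ^ 2 + A4 p * F b y n (ww n ^ 4) ^ 2 +
        A5 p * F b y n (ww n ^ 5) ^ 2).re := by
  have hn0 : (0 : ℝ) < n := by exact_mod_cast hn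
  have hpi := Real.pi_pos
  have hpi2 := Real.pi_lt_d2
  obtain ⟨a1, a2, a3, a4, a5⟩ := A_le p
  have hnn : 0 ≤ nn p := (norm_nonneg _).trans a1
  set G : ℕ → ℝ := fun m => GG p ((ww n ^ 1) ^ m) ((ww n ^ 2) ^ m) ((ww n ^ 3) ^ m)
    ((ww n ^ 4) ^ m) ((ww n ^ 5) ^ m) with hG
  have hG0 : ∀ m, 0 ≤ G m := by
    intro m
    have := GG_nonneg p (z := ww n ^ m) (by rw [norm_pow, ww_norm, one_pow])
    rw [hG]
    simp only
    convert this using 2 <;> rw [← pow_mul] <;> (try rw [← pow_mul]) <;> congr 1 <;> ring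
  have hnorm : ∀ k m : ℕ, ‖(ww n ^ k) ^ m‖ = 1 := by
    intro k m
    rw [norm_pow, norm_pow, ww_norm, one_pow, one_pow]
  have hGM : ∀ m, G m ≤ 11 * nn p := by
    intro m
    have h1 := re_bound p (hnorm 1 m).le (hnorm 2 m).le (hnorm 3 m).le (hnorm 4 m).le
      (hnorm 5 m).le
    have h2 := le_abs_self (2 * (A1 p * (ww n ^ 1) ^ m + A2 p * (ww n ^ 2) ^ m +
      A3 p * (ww n ^ 3) ^ m + A4 p * (ww n ^ 4) ^ m + A5 p * (ww n ^ 5) ^ m).re)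
    rw [hG]
    unfold GG
    linarith
  have hGL : ∀ m, |G (m + 1) - G m| * n ≤ 95 * nn p := by
    intro m
    have hstep : ∀ k : ℕ, 0 < k → ‖(ww n ^ k) ^ (m + 1) - (ww n ^ k) ^ m‖ ≤ k * (Real.pi / n) := by
      intro k hk
      have e : (ww n ^ k) ^ (m + 1) - (ww n ^ k) ^ m = (ww n ^ k) ^ m * (ww n ^ k - 1) := by ring
      rw [e, norm_mul, hnorm, one_mul]
      exact ww_sub hn k hk
    have h1 := re_bound p (hstep 1 one_pos) (hstep 2 two_pos) (hstep 3 three_pos)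
      (hstep 4 four_pos) (hstep 5 (by norm_num))
    have h2 : |G (m + 1) - G m| ≤ 30 * (Real.pi / n) * nn p := by
      rw [hG]
      simp only
      rw [GG_add]
      refine h1.trans (le_of_eq ?_)
      push_cast
      ring
    calc |G (m + 1) - G m| * n ≤ (30 * (Real.pi / n) * nn p) * n :=
          mul_le_mul_of_nonneg_right h2 hn0.le
      _ = 30 * Real.pi * nn p := by field_simp
      _ ≤ _ := by nlinarith
  have key := pair_lower hb hy0 hy1 hirr hτ0 hd0 hd hD hn G hG0 hGM hGL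
  have e1 : ∑ m ∈ range n, G m = GG p 0 0 0 0 0 * n +
      2 * (A1 p * ∑ m ∈ range n, (ww n ^ 1) ^ m + A2 p * ∑ m ∈ range n, (ww n ^ 2) ^ m +
        A3 p * ∑ m ∈ range n, (ww n ^ 3) ^ m + A4 p * ∑ m ∈ range n, (ww n ^ 4) ^ m +
        A5 p * ∑ m ∈ range n, (ww n ^ 5) ^ m).re := by
    rw [hG]
    unfold GG
    simp only [mul_sum, ← sum_add_distrib, Complex.re_sum]
    rw [sum_add_distrib]
    simp
    ring
  have e2 : ∑ p' ∈ range (n + 1) ×ˢ range (n + 1),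
      ((x b y p'.1 : ℝ) * x b y p'.2) * G (p'.1 + p'.2) =
      nn p * (K b y n : ℝ) ^ 2 + 2 * (A1 p * F b y n (ww n ^ 1) ^ 2 + A2 p * F b y n (ww n ^ 2) ^ 2 +
        A3 p * F b y n (ww n ^ 3) ^ 2 + A4 p * F b y n (ww n ^ 4) ^ 2 +
        A5 p * F b y n (ww n ^ 5) ^ 2).re := by
    rw [K_sq_eq, F_sq_eq, F_sq_eq, F_sq_eq, F_sq_eq, F_sq_eq]
    simp only [mul_sum, ← sum_add_distrib, Complex.re_sum]
    refine sum_congr rfl fun p' _ => ?_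
    rw [hG]
    unfold GG
    simp only
    rw [show A1 p * ((((x b y p'.1 : ℝ) * x b y p'.2 : ℝ) : ℂ) * (ww n ^ 1) ^ (p'.1 + p'.2)) +
      A2 p * ((((x b y p'.1 : ℝ) * x b y p'.2 : ℝ) : ℂ) * (ww n ^ 2) ^ (p'.1 + p'.2)) +
      A3 p * ((((x b y p'.1 : ℝ) * x b y p'.2 : ℝ) : ℂ) * (ww n ^ 3) ^ (p'.1 + p'.2)) +
      A4 p * ((((x b y p'.1 : ℝ) * x b y p'.2 : ℝ) : ℂ) * (ww n ^ 4) ^ (p'.1 + p'.2)) +
      A5 p * ((((x b y p'.1 : ℝ) * x b y p'.2 : ℝ) : ℂ) * (ww n ^ 5) ^ (p'.1 + p'.2)) =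
      (((x b y p'.1 : ℝ) * x b y p'.2 : ℝ) : ℂ) * (A1 p * (ww n ^ 1) ^ (p'.1 + p'.2) +
        A2 p * (ww n ^ 2) ^ (p'.1 + p'.2) + A3 p * (ww n ^ 3) ^ (p'.1 + p'.2) +
        A4 p * (ww n ^ 4) ^ (p'.1 + p'.2) + A5 p * (ww n ^ 5) ^ (p'.1 + p'.2)) by ring,
      Complex.re_ofReal_mul]
    ring
  rw [e1, e2] at key
  linarith

end

end Pool.Agent.H893R3.Dig
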