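import Pool.Agent.H893R3.Dig.J2

/-!
# Positivity of the Toeplitz forms, normalised
-/

set_option autoImplicit false
set_option linter.unusedSectionVars false

open Finset

namespace Pool.Agent.H893R3.Dig

open Pool.Agent.H394R2.Ones

lemma ww_n {n : ℕ} (hn : 0 < n) : ww n ^ n = -1 := by
  have hn0 : (n : ℂ) ≠ 0 := by exact_mod_cast hn.ne'
  unfold ww
  rw [← Complex.exp_nat_mul]
  have : (n : ℂ) * (Complex.I * ((Real.pi / n : ℝ) : ℂ)) = Real.pi * Complex.I := by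
    push_cast
    field_simp
  rw [this, Complex.exp_pi_mul_I]

lemma S_even {n k : ℕ} (hn : 20 ≤ n) (hk0 : 0 < k) (hk5 : k ≤ 5) (hk : k % 2 = 0) :
    ∑ m ∈ range n, (ww n ^ k) ^ m = 0 := by
  have hn0 : (0 : ℝ) < n := by exact_mod_cast (by omega : 0 < n)
  have hn20 : (20 : ℝ) ≤ n := by exact_mod_cast hn
  have hk0R : (0 : ℝ) < k := by exact_mod_cast hk0
  have hk5R : (k : ℝ) ≤ 5 := by exact_mod_cast hk5
  have hpi := Real.pi_pos
  apply geom_even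
  · rw [← pow_mul, mul_comm, pow_mul, ww_n (by omega)]
    exact Even.neg_one_pow (Nat.even_iff.mpr hk)
  · intro h
    rw [ww_pow] at h
    have h1 := congrArg Complex.im h
    rw [mul_comm, Complex.exp_ofReal_mul_I_im] at h1
    have h2 : 0 < Real.sin ((k : ℝ) * (Real.pi / n)) := by
      apply Real.sin_pos_of_pos_of_lt_pi (by positivity)
      rw [mul_div_assoc', div_lt_iff₀ hn0]
      nlinarith
    rw [Complex.one_im] at h1
    linarith

lemma S_odd {n k : ℕ} (hn : 40 ≤ n) (hk0 : 0 < k) (hk5 : k ≤ 5) (hk : k % 2 = 1) :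
    ‖∑ m ∈ range n, (ww n ^ k) ^ m - ((n * (2 / (k * Real.pi)) : ℝ) : ℂ) * Complex.I‖ ≤ 4 := by
  have hn0 : (0 : ℝ) < n := by exact_mod_cast (by omega : 0 < n)
  have hn20 : (40 : ℝ) ≤ n := by exact_mod_cast hn
  have hk0R : (0 : ℝ) < k := by exact_mod_cast hk0
  have hk5R : (k : ℝ) ≤ 5 := by exact_mod_cast hk5
  have hpi := Real.pi_pos
  have hpi2 := Real.pi_lt_d2
  have h0 : 0 < (k : ℝ) * (Real.pi / n) := by positivity
  have h1 : (k : ℝ) * (Real.pi / n) ≤ 1 / 2 := by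
    rw [mul_div_assoc', div_le_iff₀ hn0]
    nlinarith
  have h2 := geom_odd (n := n) h0 h1 (by
    rw [← ww_pow, ← pow_mul, mul_comm, pow_mul, ww_n (by omega)]
    exact Odd.neg_one_pow (Nat.odd_iff.mpr hk))
  rw [← ww_pow] at h2
  have e : (2 : ℝ) / (k * (Real.pi / n)) = n * (2 / (k * Real.pi)) := by field_simp
  rw [e] at h2
  exact h2

section
variable {b : ℕ} {y : ℝ} (hb : 2 ≤ b) (hy0 : 0 < y) (hy1 : y < 1) (hirr : Irrational y)
  {τ D : ℝ} {n : ℕ} {d : ℕ → ℝ} (hτ0 : 0 ≤ τ) (hd0 : ∀ m, 0 ≤ d m)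
  (hd : ∀ m, τ - d m ≤ T b y m) (hD : ∑ m ∈ range n, d m ≤ D)

lemma sum_G_nonneg (n : ℕ) (p : Fin 6 → ℂ) :
    0 ≤ nn p * n + 2 * (A1 p * ∑ m ∈ range n, (ww n ^ 1) ^ m + A2 p * ∑ m ∈ range n, (ww n ^ 2) ^ m +
        A3 p * ∑ m ∈ range n, (ww n ^ 3) ^ m + A4 p * ∑ m ∈ range n, (ww n ^ 4) ^ m +
        A5 p * ∑ m ∈ range n, (ww n ^ 5) ^ m).re := by
  have h1 : 0 ≤ ∑ m ∈ range n, GG p (ww n ^ m) ((ww n ^ m) ^ 2) ((ww n ^ m) ^ 3)
      ((ww n ^ m) ^ 4) ((ww n ^ m) ^ 5) :=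
    sum_nonneg fun m _ => GG_nonneg p (by rw [norm_pow, ww_norm, one_pow])
  refine h1.trans (le_of_eq ?_)
  unfold GG
  simp only [mul_sum, ← sum_add_distrib, Complex.re_sum]
  rw [sum_add_distrib, sum_const, card_range, nsmul_eq_mul, mul_comm (n : ℝ)]
  congr 1
  refine sum_congr rfl fun m _ => ?_
  have e : ∀ k : ℕ, (ww n ^ k) ^ m = (ww n ^ m) ^ k := fun k => by
    rw [← pow_mul, ← pow_mul, mul_comm]
  rw [e, e, e, e, e, pow_one]

include hb hy0 hy1 hirr hτ0 hd0 hd hD in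
/-- positivity of the Toeplitz form of the squares, normalised -/
theorem toep_norm (hn : 1000000 ≤ n) (hK : 0 < K b y n) {c : ℝ} (hc0 : 0 ≤ c) (hc1 : c ≤ 1)
    (hc : c * (K b y n : ℝ) ^ 2 ≤ ((b : ℝ) - 1) * τ * n)
    (herr : 11 * ((b : ℝ) - 1) * D + (95 * b + 11) * (K b y n + 1) ≤ (K b y n : ℝ) ^ 2 / 20000)
    (p : Fin 6 → ℂ) :
    0 ≤ (1 - c + 1 / 10000) * nn p + 2 * (
      A1 p * ((F b y n (ww n ^ 1) / (K b y n : ℝ)) ^ 2 -
        ((c * (2 / ((1 : ℕ) * Real.pi)) : ℝ) : ℂ) * Complex.I) +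
      A2 p * (F b y n (ww n ^ 2) / (K b y n : ℝ)) ^ 2 +
      A3 p * ((F b y n (ww n ^ 3) / (K b y n : ℝ)) ^ 2 -
        ((c * (2 / ((3 : ℕ) * Real.pi)) : ℝ) : ℂ) * Complex.I) +
      A4 p * (F b y n (ww n ^ 4) / (K b y n : ℝ)) ^ 2 +
      A5 p * ((F b y n (ww n ^ 5) / (K b y n : ℝ)) ^ 2 -
        ((c * (2 / ((5 : ℕ) * Real.pi)) : ℝ) : ℂ) * Complex.I)).re := by
  have hn0 : (0 : ℝ) < n := by exact_mod_cast (by omega : 0 < n)
  have hnR : (1000000 : ℝ) ≤ n := by exact_mod_cast hn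
  have hK0 : (0 : ℝ) < K b y n := by exact_mod_cast hK
  obtain ⟨a1, a2, a3, a4, a5⟩ := A_le p
  have hnn : 0 ≤ nn p := (norm_nonneg _).trans a1
  have key := toep_nu hb hy0 hy1 hirr hτ0 hd0 hd hD (by omega) p
  have hT := sum_G_nonneg n p
  have h00 : GG p 0 0 0 0 0 = nn p := by unfold GG; simp
  rw [h00, S_even (k := 2) (by omega) (by norm_num) (by norm_num) (by norm_num),
    S_even (k := 4) (by omega) (by norm_num) (by norm_num) (by norm_num)] at key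
  rw [S_even (k := 2) (by omega) (by norm_num) (by norm_num) (by norm_num),
    S_even (k := 4) (by omega) (by norm_num) (by norm_num) (by norm_num)] at hT
  have s1 := S_odd (n := n) (k := 1) (by omega) (by norm_num) (by norm_num) (by norm_num)
  have s3 := S_odd (n := n) (k := 3) (by omega) (by norm_num) (by norm_num) (by norm_num)
  have s5 := S_odd (n := n) (k := 5) (by omega) (by norm_num) (by norm_num) (by norm_num)
  set S1 := ∑ m ∈ range n, (ww n ^ 1) ^ m with hS1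
  set S3 := ∑ m ∈ range n, (ww n ^ 3) ^ m with hS3
  set S5 := ∑ m ∈ range n, (ww n ^ 5) ^ m with hS5
  set E1 : ℂ := ((2 / ((1 : ℕ) * Real.pi) : ℝ) : ℂ) * Complex.I with hE1
  set E3 : ℂ := ((2 / ((3 : ℕ) * Real.pi) : ℝ) : ℂ) * Complex.I with hE3
  set E5 : ℂ := ((2 / ((5 : ℕ) * Real.pi) : ℝ) : ℂ) * Complex.I with hE5
  have s1' : ‖S1 - n * E1‖ ≤ 4 := by
    rw [hE1]; refine le_trans (le_of_eq ?_) s1; congr 1; push_cast; ring
  have s3' : ‖S3 - n * E3‖ ≤ 4 := by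
    rw [hE3]; refine le_trans (le_of_eq ?_) s3; congr 1; push_cast; ring
  have s5' : ‖S5 - n * E5‖ ≤ 4 := by
    rw [hE5]; refine le_trans (le_of_eq ?_) s5; congr 1; push_cast; ring
  have hb1 := re_bound p s1' (by rw [norm_zero] : ‖(0 : ℂ)‖ ≤ 0) s3'
    (by rw [norm_zero] : ‖(0 : ℂ)‖ ≤ 0) s5'
  -- real parts
  set X : ℝ := (A1 p * E1 + A3 p * E3 + A5 p * E5).re with hX
  set Y : ℝ := (A1 p * S1 + A2 p * 0 + A3 p * S3 + A4 p * 0 + A5 p * S5).re with hY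
  have hXY : (A1 p * (S1 - n * E1) + A2 p * 0 + A3 p * (S3 - n * E3) + A4 p * 0 +
      A5 p * (S5 - n * E5)).re = Y - n * X := by
    rw [hX, hY, show A1 p * (S1 - n * E1) + A2 p * 0 + A3 p * (S3 - n * E3) + A4 p * 0 +
      A5 p * (S5 - n * E5) = (A1 p * S1 + A2 p * 0 + A3 p * S3 + A4 p * 0 + A5 p * S5) -
      ((n : ℝ) : ℂ) * (A1 p * E1 + A3 p * E3 + A5 p * E5) by push_cast; ring, Complex.sub_re,
      Complex.re_ofReal_mul]
  rw [hXY] at hb1
  have hb2 : 2 * (Y - n * X) ≥ -(24 * nn p) := by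
    have := (abs_le.mp hb1).1
    linarith
  -- the squares
  set A : ℝ := (K b y n : ℝ) with hA
  set Z : ℝ := (A1 p * F b y n (ww n ^ 1) ^ 2 + A2 p * F b y n (ww n ^ 2) ^ 2 +
        A3 p * F b y n (ww n ^ 3) ^ 2 + A4 p * F b y n (ww n ^ 4) ^ 2 +
        A5 p * F b y n (ww n ^ 5) ^ 2).re with hZ
  have hAc : (A : ℂ) ≠ 0 := by exact_mod_cast hK0.ne'
  have hA2 : 0 < A ^ 2 := by positivity
  have hgoal : (A1 p * ((F b y n (ww n ^ 1) / A) ^ 2 -
        ((c * (2 / ((1 : ℕ) * Real.pi)) : ℝ) : ℂ) * Complex.I) +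
      A2 p * (F b y n (ww n ^ 2) / A) ^ 2 +
      A3 p * ((F b y n (ww n ^ 3) / A) ^ 2 -
        ((c * (2 / ((3 : ℕ) * Real.pi)) : ℝ) : ℂ) * Complex.I) +
      A4 p * (F b y n (ww n ^ 4) / A) ^ 2 +
      A5 p * ((F b y n (ww n ^ 5) / A) ^ 2 -
        ((c * (2 / ((5 : ℕ) * Real.pi)) : ℝ) : ℂ) * Complex.I)).re = Z / A ^ 2 - c * X := by
    rw [hZ, hX, ← Complex.re_ofReal_mul, ← Complex.div_ofReal_re, ← Complex.sub_re]
    congr 1
    rw [hE1, hE3, hE5]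
    push_cast
    field_simp
    ring
  rw [hgoal]
  -- the inequality
  have k1 : c * A ^ 2 * (nn p * n + 2 * Y) ≤ ((b : ℝ) - 1) * τ * n * (nn p * n + 2 * Y) :=
    mul_le_mul_of_nonneg_right hc hT
  have k2 : ((b : ℝ) - 1) * τ * (nn p * n + 2 * Y) ≤
      nn p * A ^ 2 + 2 * Z + A ^ 2 / 20000 * nn p := by
    have := mul_le_mul_of_nonneg_right herr hnn
    linarith
  have k3 : ((b : ℝ) - 1) * τ * n * (nn p * n + 2 * Y) ≤
      n * (nn p * A ^ 2 + 2 * Z + A ^ 2 / 20000 * nn p) := by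
    have := mul_le_mul_of_nonneg_left k2 hn0.le
    linarith
  have k4 : c * A ^ 2 * (nn p * n + 2 * n * X - 24 * nn p) ≤
      n * (nn p * A ^ 2 + 2 * Z + A ^ 2 / 20000 * nn p) := by
    have : nn p * n + 2 * n * X - 24 * nn p ≤ nn p * n + 2 * Y := by linarith
    exact ((mul_le_mul_of_nonneg_left this (by positivity)).trans k1).trans k3
  have k5 : c * A ^ 2 * (24 * nn p) ≤ n * (A ^ 2 / 20000 * nn p) := by
    have e1 : c * A ^ 2 * (24 * nn p) ≤ 1 * A ^ 2 * (24 * nn p) := by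
      apply mul_le_mul_of_nonneg_right _ (by positivity)
      exact mul_le_mul_of_nonneg_right hc1 hA2.le
    have e2 : 1000000 * (A ^ 2 / 20000 * nn p) ≤ n * (A ^ 2 / 20000 * nn p) :=
      mul_le_mul_of_nonneg_right hnR (by positivity)
    have e3 : 0 ≤ A ^ 2 * nn p := by positivity
    linarith
  have k6 : n * (c * A ^ 2 * (nn p + 2 * X)) ≤
      n * (nn p * A ^ 2 + 2 * Z + A ^ 2 / 10000 * nn p) := by linarith
  have k7 := le_of_mul_le_mul_left k6 hn0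
  have k8 : 0 ≤ A ^ 2 * ((1 - c + 1 / 10000) * nn p + 2 * (Z / A ^ 2 - c * X)) := by
    have : A ^ 2 * ((1 - c + 1 / 10000) * nn p + 2 * (Z / A ^ 2 - c * X)) =
        (nn p * A ^ 2 + 2 * Z + A ^ 2 / 10000 * nn p) - c * A ^ 2 * (nn p + 2 * X) := by
      field_simp
      ring
    rw [this]
    linarith
  exact nonneg_of_mul_nonneg_right k8 hA2

/-- positivity of the Toeplitz form of the measure, normalised -/
theorem toep_mu_norm (hK : 0 < K b y n) (q : Fin 6 → ℂ) :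
    0 ≤ nn q + 2 * (A1 q * (F b y n (ww n ^ 1) / (K b y n : ℝ)) +
      A2 q * (F b y n (ww n ^ 2) / (K b y n : ℝ)) + A3 q * (F b y n (ww n ^ 3) / (K b y n : ℝ)) +
      A4 q * (F b y n (ww n ^ 4) / (K b y n : ℝ)) +
      A5 q * (F b y n (ww n ^ 5) / (K b y n : ℝ))).re := by
  have hK0 : (0 : ℝ) < K b y n := by exact_mod_cast hK
  have h := toep_mu (b := b) (y := y) n q
  set A : ℝ := (K b y n : ℝ) with hA
  have hAc : (A : ℂ) ≠ 0 := by exact_mod_cast hK0.ne'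
  have e : A1 q * (F b y n (ww n ^ 1) / A) + A2 q * (F b y n (ww n ^ 2) / A) +
      A3 q * (F b y n (ww n ^ 3) / A) + A4 q * (F b y n (ww n ^ 4) / A) +
      A5 q * (F b y n (ww n ^ 5) / A) = (A1 q * F b y n (ww n) + A2 q * F b y n (ww n ^ 2) +
      A3 q * F b y n (ww n ^ 3) + A4 q * F b y n (ww n ^ 4) + A5 q * F b y n (ww n ^ 5)) / A := by
    rw [pow_one]
    field_simp
  rw [e, Complex.div_ofReal_re]
  have h2 := div_nonneg h hK0.le
  refine h2.trans (le_of_eq ?_)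
  field_simp

end

end Pool.Agent.H893R3.Dig
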