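import Pool.Agent.H893R3.Dig.J1

/-!
# The certificate lemma
-/

set_option autoImplicit false
set_option linter.unusedVariables false

namespace Pool.Agent.H893R3.Dig

/-- one frequency -/
lemma term {g s c t A G : ℂ} {ρ η : ℝ} (h : ‖g - s‖ ≤ ρ) (ht : ‖s ^ 2 - c - t‖ ≤ η) {N M : ℝ}
    (hN : ‖A + 2 * G * s‖ ≤ N) (hM : ‖G‖ ≤ M) :
    (A * g + G * (g ^ 2 - c)).re ≤ (A * s + G * t).re + N * ρ + M * (ρ ^ 2 + η) := by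
  have hρ : 0 ≤ ρ := (norm_nonneg _).trans h
  have hη : 0 ≤ η := (norm_nonneg _).trans ht
  have hM0 : 0 ≤ M := (norm_nonneg _).trans hM
  have hN0 : 0 ≤ N := (norm_nonneg _).trans hN
  have e : A * g + G * (g ^ 2 - c) = (A * s + G * t) + (A + 2 * G * s) * (g - s) +
      G * ((g - s) ^ 2 + (s ^ 2 - c - t)) := by ring
  rw [e, Complex.add_re, Complex.add_re]
  have h1 : ((A + 2 * G * s) * (g - s)).re ≤ N * ρ := by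
    refine (Complex.re_le_norm _).trans ?_
    rw [norm_mul]
    exact mul_le_mul hN h (norm_nonneg _) hN0
  have h2 : (G * ((g - s) ^ 2 + (s ^ 2 - c - t))).re ≤ M * (ρ ^ 2 + η) := by
    refine (Complex.re_le_norm _).trans ?_
    rw [norm_mul]
    refine mul_le_mul hM ?_ (norm_nonneg _) hM0
    refine (norm_add_le _ _).trans ?_
    rw [norm_pow]
    have := pow_le_pow_left₀ (norm_nonneg _) h 2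
    linarith
  linarith

lemma norm_le_of {z : ℂ} {N : ℝ} (hN0 : 0 ≤ N) (h : z.re ^ 2 + z.im ^ 2 ≤ N ^ 2) : ‖z‖ ≤ N := by
  apply le_of_sq_le_sq _ hN0
  rw [← Complex.normSq_eq_norm_sq, Complex.normSq_apply]
  linarith

lemma vec_nn (a0 a1 a2 a3 a4 a5 b0 b1 b2 b3 b4 b5 : ℝ) :
    nn ![⟨a0, b0⟩, ⟨a1, b1⟩, ⟨a2, b2⟩, ⟨a3, b3⟩, ⟨a4, b4⟩, ⟨a5, b5⟩] = a0 ^ 2 + b0 ^ 2 + a1 ^ 2 + b1 ^ 2 + a2 ^ 2 + b2 ^ 2 +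
      a3 ^ 2 + b3 ^ 2 + a4 ^ 2 + b4 ^ 2 + a5 ^ 2 + b5 ^ 2 := by
  unfold nn
  simp [Complex.normSq_apply]
  ring

lemma vec_A1 (a0 a1 a2 a3 a4 a5 b0 b1 b2 b3 b4 b5 : ℝ) :
    A1 ![⟨a0, b0⟩, ⟨a1, b1⟩, ⟨a2, b2⟩, ⟨a3, b3⟩, ⟨a4, b4⟩, ⟨a5, b5⟩] =
      ⟨a1 * a0 + b1 * b0 + a2 * a1 + b2 * b1 + a3 * a2 + b3 * b2 + a4 * a3 + b4 * b3 + a5 * a4 + b5 * b4,
        (b1 * a0 - a1 * b0) + (b2 * a1 - a2 * b1) + (b3 * a2 - a3 * b2) + (b4 * a3 - a4 * b3) + (b5 * a4 - a5 * b4)⟩ := by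
  unfold A1
  apply Complex.ext
  · simp
    try ring
  · simp
    try ring

lemma vec_A2 (a0 a1 a2 a3 a4 a5 b0 b1 b2 b3 b4 b5 : ℝ) :
    A2 ![⟨a0, b0⟩, ⟨a1, b1⟩, ⟨a2, b2⟩, ⟨a3, b3⟩, ⟨a4, b4⟩, ⟨a5, b5⟩] =
      ⟨a2 * a0 + b2 * b0 + a3 * a1 + b3 * b1 + a4 * a2 + b4 * b2 + a5 * a3 + b5 * b3,
        (b2 * a0 - a2 * b0) + (b3 * a1 - a3 * b1) + (b4 * a2 - a4 * b2) + (b5 * a3 - a5 * b3)⟩ := by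
  unfold A2
  apply Complex.ext
  · simp
    try ring
  · simp
    try ring

lemma vec_A3 (a0 a1 a2 a3 a4 a5 b0 b1 b2 b3 b4 b5 : ℝ) :
    A3 ![⟨a0, b0⟩, ⟨a1, b1⟩, ⟨a2, b2⟩, ⟨a3, b3⟩, ⟨a4, b4⟩, ⟨a5, b5⟩] =
      ⟨a3 * a0 + b3 * b0 + a4 * a1 + b4 * b1 + a5 * a2 + b5 * b2,
        (b3 * a0 - a3 * b0) + (b4 * a1 - a4 * b1) + (b5 * a2 - a5 * b2)⟩ := by
  unfold A3
  apply Complex.ext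
  · simp
    try ring
  · simp
    try ring

lemma vec_A4 (a0 a1 a2 a3 a4 a5 b0 b1 b2 b3 b4 b5 : ℝ) :
    A4 ![⟨a0, b0⟩, ⟨a1, b1⟩, ⟨a2, b2⟩, ⟨a3, b3⟩, ⟨a4, b4⟩, ⟨a5, b5⟩] =
      ⟨a4 * a0 + b4 * b0 + a5 * a1 + b5 * b1,
        (b4 * a0 - a4 * b0) + (b5 * a1 - a5 * b1)⟩ := by
  unfold A4
  apply Complex.ext
  · simp
    try ring
  · simp
    try ring

lemma vec_A5 (a0 a1 a2 a3 a4 a5 b0 b1 b2 b3 b4 b5 : ℝ) :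
    A5 ![⟨a0, b0⟩, ⟨a1, b1⟩, ⟨a2, b2⟩, ⟨a3, b3⟩, ⟨a4, b4⟩, ⟨a5, b5⟩] =
      ⟨a5 * a0 + b5 * b0,
        (b5 * a0 - a5 * b0)⟩ := by
  unfold A5
  apply Complex.ext
  · simp
    try ring
  · simp
    try ring

/-- a certificate kills a region -/
theorem kill {g1 g2 g3 g4 g5 c1 c3 c5 : ℂ} {ε : ℝ}
    (HP : ∀ q : Fin 6 → ℂ, 0 ≤ nn q + 2 * (A1 q * g1 + A2 q * g2 + A3 q * g3 + A4 q * g4 +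
      A5 q * g5).re)
    (HG : ∀ p : Fin 6 → ℂ, 0 ≤ ε * nn p + 2 * (A1 p * (g1 ^ 2 - c1) + A2 p * g2 ^ 2 +
      A3 p * (g3 ^ 2 - c3) + A4 p * g4 ^ 2 + A5 p * (g5 ^ 2 - c5)).re)
    {x1 y1 x2 y2 x3 y3 x4 y4 x5 y5 ρ1 ρ2 ρ3 ρ4 ρ5 η : ℝ}
    (h1 : ‖g1 - ⟨x1, y1⟩‖ ≤ ρ1) (h2 : ‖g2 - ⟨x2, y2⟩‖ ≤ ρ2) (h3 : ‖g3 - ⟨x3, y3⟩‖ ≤ ρ3)
    (h4 : ‖g4 - ⟨x4, y4⟩‖ ≤ ρ4) (h5 : ‖g5 - ⟨x5, y5⟩‖ ≤ ρ5)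
    {m1 m3 m5 : ℝ} (t1 : ‖(⟨0, m1⟩ : ℂ) - c1‖ ≤ η) (t3 : ‖(⟨0, m3⟩ : ℂ) - c3‖ ≤ η)
    (t5 : ‖(⟨0, m5⟩ : ℂ) - c5‖ ≤ η)
    (a0 a1 a2 a3 a4 a5 b0 b1 b2 b3 b4 b5 u0 u1 u2 u3 u4 u5 v0 v1 v2 v3 v4 v5 : ℝ)
    (R1 R2 R3 R4 R5 I1 I2 I3 I4 I5 P1 P2 P3 P4 P5 Q1 Q2 Q3 Q4 Q5 : ℝ)
    (N1 N2 N3 N4 N5 M1 M2 M3 M4 M5 : ℝ)
    (hR1 : R1 = a1 * a0 + b1 * b0 + a2 * a1 + b2 * b1 + a3 * a2 + b3 * b2 + a4 * a3 + b4 * b3 + a5 * a4 + b5 * b4)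
    (hI1 : I1 = (b1 * a0 - a1 * b0) + (b2 * a1 - a2 * b1) + (b3 * a2 - a3 * b2) + (b4 * a3 - a4 * b3) + (b5 * a4 - a5 * b4))
    (hP1 : P1 = u1 * u0 + v1 * v0 + u2 * u1 + v2 * v1 + u3 * u2 + v3 * v2 + u4 * u3 + v4 * v3 + u5 * u4 + v5 * v4)
    (hQ1 : Q1 = (v1 * u0 - u1 * v0) + (v2 * u1 - u2 * v1) + (v3 * u2 - u3 * v2) + (v4 * u3 - u4 * v3) + (v5 * u4 - u5 * v4))
    (hR2 : R2 = a2 * a0 + b2 * b0 + a3 * a1 + b3 * b1 + a4 * a2 + b4 * b2 + a5 * a3 + b5 * b3)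
    (hI2 : I2 = (b2 * a0 - a2 * b0) + (b3 * a1 - a3 * b1) + (b4 * a2 - a4 * b2) + (b5 * a3 - a5 * b3))
    (hP2 : P2 = u2 * u0 + v2 * v0 + u3 * u1 + v3 * v1 + u4 * u2 + v4 * v2 + u5 * u3 + v5 * v3)
    (hQ2 : Q2 = (v2 * u0 - u2 * v0) + (v3 * u1 - u3 * v1) + (v4 * u2 - u4 * v2) + (v5 * u3 - u5 * v3))
    (hR3 : R3 = a3 * a0 + b3 * b0 + a4 * a1 + b4 * b1 + a5 * a2 + b5 * b2)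
    (hI3 : I3 = (b3 * a0 - a3 * b0) + (b4 * a1 - a4 * b1) + (b5 * a2 - a5 * b2))
    (hP3 : P3 = u3 * u0 + v3 * v0 + u4 * u1 + v4 * v1 + u5 * u2 + v5 * v2)
    (hQ3 : Q3 = (v3 * u0 - u3 * v0) + (v4 * u1 - u4 * v1) + (v5 * u2 - u5 * v2))
    (hR4 : R4 = a4 * a0 + b4 * b0 + a5 * a1 + b5 * b1)
    (hI4 : I4 = (b4 * a0 - a4 * b0) + (b5 * a1 - a5 * b1))
    (hP4 : P4 = u4 * u0 + v4 * v0 + u5 * u1 + v5 * v1)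
    (hQ4 : Q4 = (v4 * u0 - u4 * v0) + (v5 * u1 - u5 * v1))
    (hR5 : R5 = a5 * a0 + b5 * b0)
    (hI5 : I5 = (b5 * a0 - a5 * b0))
    (hP5 : P5 = u5 * u0 + v5 * v0)
    (hQ5 : Q5 = (v5 * u0 - u5 * v0))
    (hN10 : 0 ≤ N1) (hN1 : (R1 + (2 * P1 * x1 - 2 * Q1 * y1)) ^ 2 +
      (I1 + (2 * P1 * y1 + 2 * Q1 * x1)) ^ 2 ≤ N1 ^ 2)
    (hM10 : 0 ≤ M1) (hM1 : P1 ^ 2 + Q1 ^ 2 ≤ M1 ^ 2)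
    (hN20 : 0 ≤ N2) (hN2 : (R2 + (2 * P2 * x2 - 2 * Q2 * y2)) ^ 2 +
      (I2 + (2 * P2 * y2 + 2 * Q2 * x2)) ^ 2 ≤ N2 ^ 2)
    (hM20 : 0 ≤ M2) (hM2 : P2 ^ 2 + Q2 ^ 2 ≤ M2 ^ 2)
    (hN30 : 0 ≤ N3) (hN3 : (R3 + (2 * P3 * x3 - 2 * Q3 * y3)) ^ 2 +
      (I3 + (2 * P3 * y3 + 2 * Q3 * x3)) ^ 2 ≤ N3 ^ 2)
    (hM30 : 0 ≤ M3) (hM3 : P3 ^ 2 + Q3 ^ 2 ≤ M3 ^ 2)
    (hN40 : 0 ≤ N4) (hN4 : (R4 + (2 * P4 * x4 - 2 * Q4 * y4)) ^ 2 +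
      (I4 + (2 * P4 * y4 + 2 * Q4 * x4)) ^ 2 ≤ N4 ^ 2)
    (hM40 : 0 ≤ M4) (hM4 : P4 ^ 2 + Q4 ^ 2 ≤ M4 ^ 2)
    (hN50 : 0 ≤ N5) (hN5 : (R5 + (2 * P5 * x5 - 2 * Q5 * y5)) ^ 2 +
      (I5 + (2 * P5 * y5 + 2 * Q5 * x5)) ^ 2 ≤ N5 ^ 2)
    (hM50 : 0 ≤ M5) (hM5 : P5 ^ 2 + Q5 ^ 2 ≤ M5 ^ 2)
    (hneg : (a0 ^ 2 + b0 ^ 2 + a1 ^ 2 + b1 ^ 2 + a2 ^ 2 + b2 ^ 2 + a3 ^ 2 + b3 ^ 2 + a4 ^ 2 +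
      b4 ^ 2 + a5 ^ 2 + b5 ^ 2) + ε * (u0 ^ 2 + v0 ^ 2 + u1 ^ 2 + v1 ^ 2 + u2 ^ 2 + v2 ^ 2 +
      u3 ^ 2 + v3 ^ 2 + u4 ^ 2 + v4 ^ 2 + u5 ^ 2 + v5 ^ 2) + 2 * (
      (R1 * x1 - I1 * y1) + (P1 * (x1 ^ 2 - y1 ^ 2) - Q1 * (2 * x1 * y1 - m1)) + N1 * ρ1 + M1 * (ρ1 ^ 2 + η) +
      (R2 * x2 - I2 * y2) + (P2 * (x2 ^ 2 - y2 ^ 2) - Q2 * (2 * x2 * y2)) + N2 * ρ2 + M2 * ρ2 ^ 2 +
      (R3 * x3 - I3 * y3) + (P3 * (x3 ^ 2 - y3 ^ 2) - Q3 * (2 * x3 * y3 - m3)) + N3 * ρ3 + M3 * (ρ3 ^ 2 + η) +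
      (R4 * x4 - I4 * y4) + (P4 * (x4 ^ 2 - y4 ^ 2) - Q4 * (2 * x4 * y4)) + N4 * ρ4 + M4 * ρ4 ^ 2 +
      (R5 * x5 - I5 * y5) + (P5 * (x5 ^ 2 - y5 ^ 2) - Q5 * (2 * x5 * y5 - m5)) + N5 * ρ5 + M5 * (ρ5 ^ 2 + η)) < 0) : False := by
  have kP := HP ![⟨a0, b0⟩, ⟨a1, b1⟩, ⟨a2, b2⟩, ⟨a3, b3⟩, ⟨a4, b4⟩, ⟨a5, b5⟩]
  have kG := HG ![⟨u0, v0⟩, ⟨u1, v1⟩, ⟨u2, v2⟩, ⟨u3, v3⟩, ⟨u4, v4⟩, ⟨u5, v5⟩]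
  rw [vec_nn, vec_A1, vec_A2, vec_A3, vec_A4, vec_A5] at kP kG
  rw [← hR1, ← hI1, ← hR2, ← hI2, ← hR3, ← hI3, ← hR4, ← hI4, ← hR5, ← hI5] at kP
  rw [← hP1, ← hQ1, ← hP2, ← hQ2, ← hP3, ← hQ3, ← hP4, ← hQ4, ← hP5, ← hQ5] at kG
  have w1 := term (A := ⟨R1, I1⟩) (G := ⟨P1, Q1⟩) (t := (⟨x1, y1⟩ : ℂ) ^ 2 - (⟨0, m1⟩ : ℂ)) (c := c1) (η := η) h1
    (by rw [show (⟨x1, y1⟩ : ℂ) ^ 2 - c1 - ((⟨x1, y1⟩ : ℂ) ^ 2 - (⟨0, m1⟩ : ℂ)) = (⟨0, m1⟩ : ℂ) - c1 by ring]; exact t1)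
    (norm_le_of hN10 (by simpa using hN1)) (norm_le_of hM10 hM1)
  have w2 := term (A := ⟨R2, I2⟩) (G := ⟨P2, Q2⟩) (t := (⟨x2, y2⟩ : ℂ) ^ 2) (c := 0) (η := 0) h2
    (by rw [sub_zero, sub_self, norm_zero])
    (norm_le_of hN20 (by simpa using hN2)) (norm_le_of hM20 hM2)
  have w3 := term (A := ⟨R3, I3⟩) (G := ⟨P3, Q3⟩) (t := (⟨x3, y3⟩ : ℂ) ^ 2 - (⟨0, m3⟩ : ℂ)) (c := c3) (η := η) h3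
    (by rw [show (⟨x3, y3⟩ : ℂ) ^ 2 - c3 - ((⟨x3, y3⟩ : ℂ) ^ 2 - (⟨0, m3⟩ : ℂ)) = (⟨0, m3⟩ : ℂ) - c3 by ring]; exact t3)
    (norm_le_of hN30 (by simpa using hN3)) (norm_le_of hM30 hM3)
  have w4 := term (A := ⟨R4, I4⟩) (G := ⟨P4, Q4⟩) (t := (⟨x4, y4⟩ : ℂ) ^ 2) (c := 0) (η := 0) h4
    (by rw [sub_zero, sub_self, norm_zero])
    (norm_le_of hN40 (by simpa using hN4)) (norm_le_of hM40 hM4)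
  have w5 := term (A := ⟨R5, I5⟩) (G := ⟨P5, Q5⟩) (t := (⟨x5, y5⟩ : ℂ) ^ 2 - (⟨0, m5⟩ : ℂ)) (c := c5) (η := η) h5
    (by rw [show (⟨x5, y5⟩ : ℂ) ^ 2 - c5 - ((⟨x5, y5⟩ : ℂ) ^ 2 - (⟨0, m5⟩ : ℂ)) = (⟨0, m5⟩ : ℂ) - c5 by ring]; exact t5)
    (norm_le_of hN50 (by simpa using hN5)) (norm_le_of hM50 hM5)
  simp only [Complex.add_re, sub_zero] at kP kG w1 w2 w3 w4 w5
  have z1 : ((⟨R1, I1⟩ : ℂ) * ⟨x1, y1⟩).re = R1 * x1 - I1 * y1 := by simp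
  have z2 : ((⟨R2, I2⟩ : ℂ) * ⟨x2, y2⟩).re = R2 * x2 - I2 * y2 := by simp
  have z3 : ((⟨R3, I3⟩ : ℂ) * ⟨x3, y3⟩).re = R3 * x3 - I3 * y3 := by simp
  have z4 : ((⟨R4, I4⟩ : ℂ) * ⟨x4, y4⟩).re = R4 * x4 - I4 * y4 := by simp
  have z5 : ((⟨R5, I5⟩ : ℂ) * ⟨x5, y5⟩).re = R5 * x5 - I5 * y5 := by simp
  have z6 : ((⟨P2, Q2⟩ : ℂ) * (⟨x2, y2⟩ : ℂ) ^ 2).re = P2 * (x2 ^ 2 - y2 ^ 2) - Q2 * (2 * x2 * y2) := by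
    simp only [pow_two, Complex.mul_re, Complex.mul_im]
    ring
  have z7 : ((⟨P4, Q4⟩ : ℂ) * (⟨x4, y4⟩ : ℂ) ^ 2).re = P4 * (x4 ^ 2 - y4 ^ 2) - Q4 * (2 * x4 * y4) := by
    simp only [pow_two, Complex.mul_re, Complex.mul_im]
    ring
  have y1' : ((⟨P1, Q1⟩ : ℂ) * ((⟨x1, y1⟩ : ℂ) ^ 2 - (⟨0, m1⟩ : ℂ))).re =
      P1 * (x1 ^ 2 - y1 ^ 2) - Q1 * (2 * x1 * y1 - m1) := by
    simp only [pow_two, Complex.mul_re, Complex.mul_im, Complex.sub_re, Complex.sub_im]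
    ring
  have y3' : ((⟨P3, Q3⟩ : ℂ) * ((⟨x3, y3⟩ : ℂ) ^ 2 - (⟨0, m3⟩ : ℂ))).re =
      P3 * (x3 ^ 2 - y3 ^ 2) - Q3 * (2 * x3 * y3 - m3) := by
    simp only [pow_two, Complex.mul_re, Complex.mul_im, Complex.sub_re, Complex.sub_im]
    ring
  have y5' : ((⟨P5, Q5⟩ : ℂ) * ((⟨x5, y5⟩ : ℂ) ^ 2 - (⟨0, m5⟩ : ℂ))).re =
      P5 * (x5 ^ 2 - y5 ^ 2) - Q5 * (2 * x5 * y5 - m5) := by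
    simp only [pow_two, Complex.mul_re, Complex.mul_im, Complex.sub_re, Complex.sub_im]
    ring
  rw [z1, y1'] at w1
  rw [z2, z6] at w2
  rw [z3, y3'] at w3
  rw [z4, z7] at w4
  rw [z5, y5'] at w5
  linarith

/-- a box lies in a disc -/
lemma box_disc {g : ℂ} {l u l' u' x y r : ℝ} (h1 : l ≤ g.re) (h2 : g.re ≤ u) (h3 : l' ≤ g.im)
    (h4 : g.im ≤ u') (hx : x = (l + u) / 2) (hy : y = (l' + u') / 2) (hr0 : 0 ≤ r)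
    (hr : ((u - l) / 2) ^ 2 + ((u' - l') / 2) ^ 2 ≤ r ^ 2) : ‖g - ⟨x, y⟩‖ ≤ r := by
  apply norm_le_of hr0
  simp only [Complex.sub_re, Complex.sub_im]
  have e1 : (g.re - x) ^ 2 ≤ ((u - l) / 2) ^ 2 := by
    apply sq_le_sq'
    · rw [hx]; linarith
    · rw [hx]; linarith
  have e2 : (g.im - y) ^ 2 ≤ ((u' - l') / 2) ^ 2 := by
    apply sq_le_sq'
    · rw [hy]; linarith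
    · rw [hy]; linarith
  linarith

/-- a box outside the disc -/
lemma box_out {g : ℂ} {x y x' y' r r' : ℝ} (h1 : ‖g - ⟨x, y⟩‖ ≤ r) (h2 : ‖g - ⟨x', y'⟩‖ ≤ r')
    (h : (r + r') ^ 2 < (x - x') ^ 2 + (y - y') ^ 2) : False := by
  have h3 : ‖(⟨x, y⟩ : ℂ) - ⟨x', y'⟩‖ ≤ r + r' := by
    have e : (⟨x, y⟩ : ℂ) - ⟨x', y'⟩ = (g - ⟨x', y'⟩) - (g - ⟨x, y⟩) := by ring
    rw [e]
    refine (norm_sub_le _ _).trans ?_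
    linarith
  have h4 : ‖(⟨x, y⟩ : ℂ) - ⟨x', y'⟩‖ ^ 2 = (x - x') ^ 2 + (y - y') ^ 2 := by
    rw [← Complex.normSq_eq_norm_sq, Complex.normSq_apply]
    simp only [Complex.sub_re, Complex.sub_im]
    ring
  have h5 := pow_le_pow_left₀ (norm_nonneg _) h3 2
  linarith

/-- coordinates in a disc -/
lemma disc_box {g : ℂ} {x y r : ℝ} (h : ‖g - ⟨x, y⟩‖ ≤ r) :
    x - r ≤ g.re ∧ g.re ≤ x + r ∧ y - r ≤ g.im ∧ g.im ≤ y + r := by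
  have h1 := (Complex.abs_re_le_norm (g - ⟨x, y⟩)).trans h
  have h2 := (Complex.abs_im_le_norm (g - ⟨x, y⟩)).trans h
  simp only [Complex.sub_re, Complex.sub_im] at h1 h2
  have h3 := abs_le.mp h1
  have h4 := abs_le.mp h2
  refine ⟨by linarith, by linarith, by linarith, by linarith⟩

end Pool.Agent.H893R3.Dig
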