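import Pool.Agent.H893R3.Dig.J4

/-!
# Certificates
-/

set_option autoImplicit false
set_option linter.unusedVariables false
set_option maxRecDepth 4000

namespace Pool.Agent.H893R3.Dig

section
variable {g1 g2 g3 g4 g5 c1 c3 c5 : ℂ}
    (HP : ∀ q : Fin 6 → ℂ, 0 ≤ nn q + 2 * (A1 q * g1 + A2 q * g2 + A3 q * g3 + A4 q * g4 +
      A5 q * g5).re)
    (HG : ∀ p : Fin 6 → ℂ, 0 ≤ (901 / 10000) * nn p + 2 * (A1 p * (g1 ^ 2 - c1) + A2 p * g2 ^ 2 +
      A3 p * (g3 ^ 2 - c3) + A4 p * g4 ^ 2 + A5 p * (g5 ^ 2 - c5)).re)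
    (t1 : ‖(⟨0, (7241481 / 12500000)⟩ : ℂ) - c1‖ ≤ 1 / 100000) (t3 : ‖(⟨0, (965531329 / 5000000000)⟩ : ℂ) - c3‖ ≤ 1 / 100000)
    (t5 : ‖(⟨0, (579316761 / 5000000000)⟩ : ℂ) - c5‖ ≤ 1 / 100000)

include HP HG t1 t3 t5 in
lemma leaf_pm_32
    (h1 : ‖g1 - ⟨(2691 / 5000), (2691 / 5000)⟩‖ ≤ (309 / 5000))
    (h2 : ‖g2 - ⟨(1 / 10), (9 / 50)⟩‖ ≤ (5657 / 200000))
    (h3 : ‖g3 - ⟨(25073 / 100000), (25073 / 100000)⟩‖ ≤ (42427 / 500000))
    (h4 : ‖g4 - ⟨(-1 / 25), (7 / 25)⟩‖ ≤ (56569 / 1000000))
    (h5 : ‖g5 - ⟨(-33069 / 100000), (-15069 / 100000)⟩‖ ≤ (1591 / 12500)) : False :=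
  kill HP HG h1 h2 h3 h4 h5 t1 t3 t5
    2257 (-1635) 114 (-708) (-1037) 1389 0 2535 (-1950) 2149 (-2332) 190 5830 (-55) 1872 (-1272) 1617 (-1180) 0 (-2811) (-502) (-3503) (-1079) (-1919)
    (-19251842) 10716673 (-6026235) (-4129874) 3134973 14406828 (-11527464) 14022118 (-9095089) 428830 2250288 32622552 (-5717248) 14886319 (-6879400) (-15633892) (-9210313) (-20002486) (-9502005) (-11187770)
    1494 20621056 1599459 1452 10800128 15795012 33897799 20803519 17660425 13133634
    (by norm_num) (by norm_num) (by norm_num) (by norm_num) (by norm_num) (by norm_num) (by norm_num) (by norm_num) (by norm_num) (by norm_num) (by norm_num) (by norm_num) (by norm_num) (by norm_num) (by norm_num) (by norm_num) (by norm_num) (by norm_num) (by norm_num) (by norm_num) (by norm_num) (by norm_num) (by norm_num) (by norm_num) (by norm_num) (by norm_num) (by norm_num) (by norm_num) (by norm_num) (by norm_num) (by norm_num) (by norm_num) (by norm_num) (by norm_num) (by norm_num) (by norm_num)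 (by norm_num) (by norm_num) (by norm_num) (by norm_num) (by norm_num)

include HP HG t1 t3 t5 in
lemma leaf_pm_33
    (h1 : ‖g1 - ⟨(2691 / 5000), (2691 / 5000)⟩‖ ≤ (309 / 5000))
    (h2 : ‖g2 - ⟨(1 / 10), (11 / 50)⟩‖ ≤ (5657 / 200000))
    (h3 : ‖g3 - ⟨(25073 / 100000), (25073 / 100000)⟩‖ ≤ (42427 / 500000))
    (h4 : ‖g4 - ⟨(-1 / 25), (7 / 25)⟩‖ ≤ (56569 / 1000000))
    (h5 : ‖g5 - ⟨(-33069 / 100000), (-15069 / 100000)⟩‖ ≤ (1591 / 12500)) : False :=
  kill HP HG h1 h2 h3 h4 h5 t1 t3 t5
    2431 (-1222) (-378) (-1142) (-864) 1519 0 2725 (-1433) 1669 (-2474) 109 5605 (-462) 3013 (-109) 2333 (-840) 0 (-1874) 475 (-3628) (-1479) (-1933)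
    (-13098192) 7343688 (-9192423) (-3659577) 3692689 15069437 (-5373820) 11570492 (-10286767) 264979 (-912681) 37168383 (-2366240) 17086987 (-4708200) (-13082961) (-4266980) (-20704729) (-8970909) (-10834465)
    4910 19491976 3832 2853 9531889 13114758 37412509 20839504 19298766 11813246
    (by norm_num) (by norm_num) (by norm_num) (by norm_num) (by norm_num) (by norm_num) (by norm_num) (by norm_num) (by norm_num) (by norm_num) (by norm_num) (by norm_num) (by norm_num) (by norm_num) (by norm_num) (by norm_num) (by norm_num) (by norm_num) (by norm_num) (by norm_num) (by norm_num) (by norm_num) (by norm_num) (by norm_num) (by norm_num) (by norm_num) (by norm_num) (by norm_num) (by norm_num) (by norm_num) (by norm_num) (by norm_num) (by norm_num) (by norm_num) (by norm_num) (by norm_num) (by norm_num) (by norm_num) (by norm_num) (by norm_num) (by norm_num)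

include HP HG t1 t3 t5 in
lemma leaf_pm_34
    (h1 : ‖g1 - ⟨(629 / 1250), (629 / 1250)⟩‖ ≤ (24749 / 500000))
    (h2 : ‖g2 - ⟨(7 / 50), (9 / 50)⟩‖ ≤ (5657 / 200000))
    (h3 : ‖g3 - ⟨(25073 / 100000), (25073 / 100000)⟩‖ ≤ (42427 / 500000))
    (h4 : ‖g4 - ⟨(-1 / 25), (7 / 25)⟩‖ ≤ (56569 / 1000000))
    (h5 : ‖g5 - ⟨(-37569 / 100000), (-19569 / 100000)⟩‖ ≤ (1591 / 25000)) : False :=
  kill HP HG h1 h2 h3 h4 h5 t1 t3 t5
    3128 (-1103) (-2920) 561 (-651) 1485 0 3885 (-1781) (-282) (-789) (-444) 5021 (-1515) 1029 (-219) 580 (-2709) 0 (-3518) 280 (-2604) (-815) (-1476)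
    (-9043619) (-6583691) (-4137840) (-5399223) 4645080 28118002 (-6125272) 6458571 (-7747485) (-1388832) (-9478301) 19464661 (-2311970) 12208883 (-13601889) (-18461362) (-3151529) (-10559803) (-11386237) (-7410996)
    3103 1053 4323 529 15279566 20752352 19718143 10809933 16694407 15489812
    (by norm_num) (by norm_num) (by norm_num) (by norm_num) (by norm_num) (by norm_num) (by norm_num) (by norm_num) (by norm_num) (by norm_num) (by norm_num) (by norm_num) (by norm_num) (by norm_num) (by norm_num) (by norm_num) (by norm_num) (by norm_num) (by norm_num) (by norm_num) (by norm_num) (by norm_num) (by norm_num) (by norm_num) (by norm_num) (by norm_num) (by norm_num) (by norm_num) (by norm_num) (by norm_num) (by norm_num) (by norm_num) (by norm_num) (by norm_num) (by norm_num) (by norm_num) (by norm_num) (by norm_num) (by norm_num) (by norm_num) (by norm_num)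

include HP HG t1 t3 t5 in
lemma leaf_pm_35
    (h1 : ‖g1 - ⟨(629 / 1250), (629 / 1250)⟩‖ ≤ (24749 / 500000))
    (h2 : ‖g2 - ⟨(7 / 50), (9 / 50)⟩‖ ≤ (5657 / 200000))
    (h3 : ‖g3 - ⟨(25073 / 100000), (25073 / 100000)⟩‖ ≤ (42427 / 500000))
    (h4 : ‖g4 - ⟨(-1 / 25), (7 / 25)⟩‖ ≤ (56569 / 1000000))
    (h5 : ‖g5 - ⟨(-37569 / 100000), (-10569 / 100000)⟩‖ ≤ (1591 / 25000)) : False :=
  kill HP HG h1 h2 h3 h4 h5 t1 t3 t5
    3065 (-1414) (-2574) 615 (-654) 1388 0 3669 (-2139) (-37) (-938) (-286) 5263 (-886) 1350 (-29) 366 (-2486) 0 (-2939) 1150 (-2312) (-1089) (-2673)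
    (-11053120) (-4340693) (-3592749) (-5016476) 4254220 26012680 (-7869180) 7317549 (-7563138) (-876590) (-7428743) 19419532 (-3706382) 11984801 (-13083818) (-18414856) 454486 (-10877178) (-10669483) (-14067999)
    4948 1197760 5456 1941 16694397 19856817 19424850 11491313 16045976 19211843
    (by norm_num) (by norm_num) (by norm_num) (by norm_num) (by norm_num) (by norm_num) (by norm_num) (by norm_num) (by norm_num) (by norm_num) (by norm_num) (by norm_num) (by norm_num) (by norm_num) (by norm_num) (by norm_num) (by norm_num) (by norm_num) (by norm_num) (by norm_num) (by norm_num) (by norm_num) (by norm_num) (by norm_num) (by norm_num) (by norm_num) (by norm_num) (by norm_num) (by norm_num) (by norm_num) (by norm_num) (by norm_num) (by norm_num) (by norm_num) (by norm_num) (by norm_num) (by norm_num) (by norm_num) (by norm_num) (by norm_num) (by norm_num)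

include HP HG t1 t3 t5 in
lemma leaf_pm_36
    (h1 : ‖g1 - ⟨(629 / 1250), (629 / 1250)⟩‖ ≤ (24749 / 500000))
    (h2 : ‖g2 - ⟨(7 / 50), (9 / 50)⟩‖ ≤ (5657 / 200000))
    (h3 : ‖g3 - ⟨(25073 / 100000), (25073 / 100000)⟩‖ ≤ (42427 / 500000))
    (h4 : ‖g4 - ⟨(-1 / 25), (7 / 25)⟩‖ ≤ (56569 / 1000000))
    (h5 : ‖g5 - ⟨(-28569 / 100000), (-19569 / 100000)⟩‖ ≤ (1591 / 25000)) : False :=
  kill HP HG h1 h2 h3 h4 h5 t1 t3 t5
    2850 (-1223) (-2436) 618 (-713) 1267 0 3747 (-2292) 176 (-1111) (-171) 5152 0 798 (-47) 415 (-612) 0 (-3567) 2187 (-2428) (-1385) (-2884)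
    (-12352846) (-2002752) (-4224098) (-4222328) 3610950 24565928 (-8319564) 7852484 (-7704666) (-487350) (-6064936) 17105263 (-2097533) 12425308 (-3153024) (-18337238) 7736552 (-11991739) (-9318524) (-14858368)
    7840 4826 1078722 2260 9245232 19314186 18773499 12173802 15531361 15189229
    (by norm_num) (by norm_num) (by norm_num) (by norm_num) (by norm_num) (by norm_num) (by norm_num) (by norm_num) (by norm_num) (by norm_num) (by norm_num) (by norm_num) (by norm_num) (by norm_num) (by norm_num) (by norm_num) (by norm_num) (by norm_num) (by norm_num) (by norm_num) (by norm_num) (by norm_num) (by norm_num) (by norm_num) (by norm_num) (by norm_num) (by norm_num) (by norm_num) (by norm_num) (by norm_num) (by norm_num) (by norm_num) (by norm_num) (by norm_num) (by norm_num) (by norm_num) (by norm_num) (by norm_num) (by norm_num) (by norm_num) (by norm_num)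

include HP HG t1 t3 t5 in
lemma leaf_pm_37
    (h1 : ‖g1 - ⟨(629 / 1250), (629 / 1250)⟩‖ ≤ (24749 / 500000))
    (h2 : ‖g2 - ⟨(7 / 50), (9 / 50)⟩‖ ≤ (5657 / 200000))
    (h3 : ‖g3 - ⟨(25073 / 100000), (25073 / 100000)⟩‖ ≤ (42427 / 500000))
    (h4 : ‖g4 - ⟨(-1 / 25), (7 / 25)⟩‖ ≤ (56569 / 1000000))
    (h5 : ‖g5 - ⟨(-28569 / 100000), (-10569 / 100000)⟩‖ ≤ (1591 / 25000)) : False :=
  kill HP HG h1 h2 h3 h4 h5 t1 t3 t5
    2822 (-1389) (-2304) 566 (-645) 1328 0 3574 (-2328) 257 (-1084) (-142) 5307 (-191) 1002 128 336 (-843) 0 (-3024) 2275 (-2224) (-1376) (-3414)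
    (-12288424) (-1644758) (-4110195) (-4172290) 3747616 23362799 (-8375165) 7954912 (-7608082) (-400724) (-5498315) 16709646 (-3835392) 12268101 (-4473801) (-17708429) 8430305 (-12026891) (-9199590) (-18118098)
    7534 1251 2561 2791 11174586 18542382 18715831 12623643 15334235 18662272
    (by norm_num) (by norm_num) (by norm_num) (by norm_num) (by norm_num) (by norm_num) (by norm_num) (by norm_num) (by norm_num) (by norm_num) (by norm_num) (by norm_num) (by norm_num) (by norm_num) (by norm_num) (by norm_num) (by norm_num) (by norm_num) (by norm_num) (by norm_num) (by norm_num) (by norm_num) (by norm_num) (by norm_num) (by norm_num) (by norm_num) (by norm_num) (by norm_num) (by norm_num) (by norm_num) (by norm_num) (by norm_num) (by norm_num) (by norm_num) (by norm_num) (by norm_num) (by norm_num) (by norm_num) (by norm_num) (by norm_num) (by norm_num)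

include HP HG t1 t3 t5 in
lemma leaf_pm_38
    (h1 : ‖g1 - ⟨(629 / 1250), (1433 / 2500)⟩‖ ≤ (24749 / 500000))
    (h2 : ‖g2 - ⟨(7 / 50), (9 / 50)⟩‖ ≤ (5657 / 200000))
    (h3 : ‖g3 - ⟨(25073 / 100000), (25073 / 100000)⟩‖ ≤ (42427 / 500000))
    (h4 : ‖g4 - ⟨(-1 / 25), (7 / 25)⟩‖ ≤ (56569 / 1000000))
    (h5 : ‖g5 - ⟨(-37569 / 100000), (-19569 / 100000)⟩‖ ≤ (1591 / 25000)) : False :=
  kill HP HG h1 h2 h3 h4 h5 t1 t3 t5
    3142 (-1295) (-2905) 517 (-594) 1401 0 4017 (-1919) (-240) (-924) (-372) 5157 (-1505) 1386 50 1158 (-2401) 0 (-2489) 386 (-2969) (-1363) (-1288)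
    (-9630667) (-6448782) (-4674101) (-5174967) 4401942 29360451 (-6107237) 6597777 (-8049285) (-1168824) (-8804870) 19245085 (-1917387) 12791143 (-12381957) (-15495398) (-2945678) (-11235938) (-11066640) (-6642216)
    3743443 3807 2268 1311 14088132 17822265 19469215 11398363 16914014 14051046
    (by norm_num) (by norm_num) (by norm_num) (by norm_num) (by norm_num) (by norm_num) (by norm_num) (by norm_num) (by norm_num) (by norm_num) (by norm_num) (by norm_num) (by norm_num) (by norm_num) (by norm_num) (by norm_num) (by norm_num) (by norm_num) (by norm_num) (by norm_num) (by norm_num) (by norm_num) (by norm_num) (by norm_num) (by norm_num) (by norm_num) (by norm_num) (by norm_num) (by norm_num) (by norm_num) (by norm_num) (by norm_num) (by norm_num) (by norm_num) (by norm_num) (by norm_num) (by norm_num) (by norm_num) (by norm_num) (by norm_num) (by norm_num)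

include HP HG t1 t3 t5 in
lemma leaf_pm_39
    (h1 : ‖g1 - ⟨(629 / 1250), (1433 / 2500)⟩‖ ≤ (24749 / 500000))
    (h2 : ‖g2 - ⟨(7 / 50), (9 / 50)⟩‖ ≤ (5657 / 200000))
    (h3 : ‖g3 - ⟨(25073 / 100000), (25073 / 100000)⟩‖ ≤ (42427 / 500000))
    (h4 : ‖g4 - ⟨(-1 / 25), (7 / 25)⟩‖ ≤ (56569 / 1000000))
    (h5 : ‖g5 - ⟨(-37569 / 100000), (-10569 / 100000)⟩‖ ≤ (1591 / 25000)) : False :=
  kill HP HG h1 h2 h3 h4 h5 t1 t3 t5
    3023 (-1467) (-2600) 752 (-636) 1349 0 3784 (-2370) 13 (-922) (-217) 5148 (-928) 1428 (-110) 438 (-2566) 0 (-2804) 973 (-2277) (-1053) (-2653)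
    (-12722779) (-4063425) (-3275650) (-4722739) 4078027 27199376 (-9319990) 7559827 (-7573483) (-655991) (-7184219) 19762168 (-4265749) 12075084 (-13209768) (-17229206) (-667190) (-10808426) (-10153924) (-13657644)
    1636358 2940812 5292 2696 16652299 18667045 19773428 11619755 15776877 19000769
    (by norm_num) (by norm_num) (by norm_num) (by norm_num) (by norm_num) (by norm_num) (by norm_num) (by norm_num) (by norm_num) (by norm_num) (by norm_num) (by norm_num) (by norm_num) (by norm_num) (by norm_num) (by norm_num) (by norm_num) (by norm_num) (by norm_num) (by norm_num) (by norm_num) (by norm_num) (by norm_num) (by norm_num) (by norm_num) (by norm_num) (by norm_num) (by norm_num) (by norm_num) (by norm_num) (by norm_num) (by norm_num) (by norm_num) (by norm_num) (by norm_num) (by norm_num) (by norm_num) (by norm_num) (by norm_num) (by norm_num) (by norm_num)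

include HP HG t1 t3 t5 in
lemma leaf_pm_40
    (h1 : ‖g1 - ⟨(629 / 1250), (1433 / 2500)⟩‖ ≤ (24749 / 500000))
    (h2 : ‖g2 - ⟨(7 / 50), (9 / 50)⟩‖ ≤ (5657 / 200000))
    (h3 : ‖g3 - ⟨(25073 / 100000), (25073 / 100000)⟩‖ ≤ (42427 / 500000))
    (h4 : ‖g4 - ⟨(-1 / 25), (7 / 25)⟩‖ ≤ (56569 / 1000000))
    (h5 : ‖g5 - ⟨(-28569 / 100000), (-19569 / 100000)⟩‖ ≤ (1591 / 25000)) : False :=
  kill HP HG h1 h2 h3 h4 h5 t1 t3 t5
    2897 (-1386) (-2575) 617 (-530) 1319 0 3973 (-2370) 160 (-1098) (-88) 5230 (-240) 1194 (-10) 1288 (-390) 0 (-2553) 2110 (-2631) (-1569) (-2649)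
    (-12935413) (-2912504) (-5028190) (-3713168) 3821143 26977602 (-8233077) 7443668 (-8299325) (-254936) (-4722820) 18164664 (-2410813) 13592737 (-2039700) (-14550026) 6050544 (-12435312) (-8565780) (-13854270)
    6993287 4608 1688 4313 8470628 15297330 19145864 12666847 16066583 14003613
    (by norm_num) (by norm_num) (by norm_num) (by norm_num) (by norm_num) (by norm_num) (by norm_num) (by norm_num) (by norm_num) (by norm_num) (by norm_num) (by norm_num) (by norm_num) (by norm_num) (by norm_num) (by norm_num) (by norm_num) (by norm_num) (by norm_num) (by norm_num) (by norm_num) (by norm_num) (by norm_num) (by norm_num) (by norm_num) (by norm_num) (by norm_num) (by norm_num) (by norm_num) (by norm_num) (by norm_num) (by norm_num) (by norm_num) (by norm_num) (by norm_num) (by norm_num) (by norm_num) (by norm_num) (by norm_num) (by norm_num) (by norm_num)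

include HP HG t1 t3 t5 in
lemma leaf_pm_41
    (h1 : ‖g1 - ⟨(629 / 1250), (1433 / 2500)⟩‖ ≤ (24749 / 500000))
    (h2 : ‖g2 - ⟨(7 / 50), (9 / 50)⟩‖ ≤ (5657 / 200000))
    (h3 : ‖g3 - ⟨(25073 / 100000), (25073 / 100000)⟩‖ ≤ (42427 / 500000))
    (h4 : ‖g4 - ⟨(-1 / 25), (7 / 25)⟩‖ ≤ (56569 / 1000000))
    (h5 : ‖g5 - ⟨(-28569 / 100000), (-10569 / 100000)⟩‖ ≤ (1591 / 25000)) : False :=
  kill HP HG h1 h2 h3 h4 h5 t1 t3 t5
    2822 (-1584) (-2159) 664 (-682) 1240 0 3683 (-2536) 357 (-1145) (-60) 5234 (-78) 1130 (-84) 473 (-818) 0 (-2888) 2120 (-2233) (-1342) (-3434)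
    (-14367801) (-651545) (-3787939) (-4109744) 3499280 24219102 (-9907609) 8607120 (-7703070) (-169320) (-4269364) 17796160 (-4805274) 12456878 (-4281412) (-15916023) 6970304 (-12363082) (-9118560) (-17973556)
    3333177 2391713 2917 2269 11212759 16478692 19112521 13264104 15437680 18476450
    (by norm_num) (by norm_num) (by norm_num) (by norm_num) (by norm_num) (by norm_num) (by norm_num) (by norm_num) (by norm_num) (by norm_num) (by norm_num) (by norm_num) (by norm_num) (by norm_num) (by norm_num) (by norm_num) (by norm_num) (by norm_num) (by norm_num) (by norm_num) (by norm_num) (by norm_num) (by norm_num) (by norm_num) (by norm_num) (by norm_num) (by norm_num) (by norm_num) (by norm_num) (by norm_num) (by norm_num) (by norm_num) (by norm_num) (by norm_num) (by norm_num) (by norm_num) (by norm_num) (by norm_num) (by norm_num) (by norm_num) (by norm_num)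

include HP HG t1 t3 t5 in
lemma leaf_pm_42
    (h1 : ‖g1 - ⟨(1433 / 2500), (629 / 1250)⟩‖ ≤ (24749 / 500000))
    (h2 : ‖g2 - ⟨(7 / 50), (9 / 50)⟩‖ ≤ (5657 / 200000))
    (h3 : ‖g3 - ⟨(25073 / 100000), (25073 / 100000)⟩‖ ≤ (42427 / 500000))
    (h4 : ‖g4 - ⟨(-1 / 25), (7 / 25)⟩‖ ≤ (56569 / 1000000))
    (h5 : ‖g5 - ⟨(-33069 / 100000), (-15069 / 100000)⟩‖ ≤ (1591 / 12500)) : False :=
  kill HP HG h1 h2 h3 h4 h5 t1 t3 t5
    2391 (-1766) (-627) (-87) (-631) 1096 0 3130 (-2504) 1503 (-1882) 315 6029 (-2138) 928 31 2380 137 0 (-534) 2388 (-3490) (-1201) (-348)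
    (-18719862) 8845133 (-6460283) (-2458307) 2620536 15684209 (-10443755) 11439194 (-8486632) 753165 (-19445332) 7951713 (-4964095) 14241946 825973 (-3536960) 15544800 (-17852652) (-6423647) (-2098092)
    38284865 6356474 3758 2782 2378726 19764388 17460543 18529961 15623581 2254822
    (by norm_num) (by norm_num) (by norm_num) (by norm_num) (by norm_num) (by norm_num) (by norm_num) (by norm_num) (by norm_num) (by norm_num) (by norm_num) (by norm_num) (by norm_num) (by norm_num) (by norm_num) (by norm_num) (by norm_num) (by norm_num) (by norm_num) (by norm_num) (by norm_num) (by norm_num) (by norm_num) (by norm_num) (by norm_num) (by norm_num) (by norm_num) (by norm_num) (by norm_num) (by norm_num) (by norm_num) (by norm_num) (by norm_num) (by norm_num) (by norm_num) (by norm_num) (by norm_num) (by norm_num) (by norm_num) (by norm_num) (by norm_num)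

include HP HG t1 t3 t5 in
lemma leaf_pm_43
    (h1 : ‖g1 - ⟨(1433 / 2500), (1433 / 2500)⟩‖ ≤ (24749 / 500000))
    (h2 : ‖g2 - ⟨(7 / 50), (9 / 50)⟩‖ ≤ (5657 / 200000))
    (h3 : ‖g3 - ⟨(25073 / 100000), (25073 / 100000)⟩‖ ≤ (42427 / 500000))
    (h4 : ‖g4 - ⟨(-1 / 25), (7 / 25)⟩‖ ≤ (56569 / 1000000))
    (h5 : ‖g5 - ⟨(-33069 / 100000), (-15069 / 100000)⟩‖ ≤ (1591 / 12500)) : False :=
  kill HP HG h1 h2 h3 h4 h5 t1 t3 t5
    2885 (-2175) (-1889) 750 (-347) 982 0 4243 (-3292) 768 (-1348) 283 5305 (-1015) 1453 (-112) 2814 224 0 18 1275 (-2832) (-1133) (-451)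
    (-22097014) 2224552 (-5587723) (-1936176) 2833070 28915461 (-13487948) 9318058 (-8671131) 816455 (-6575149) 11667180 (-3720317) 14692792 1188320 1883937 5091152 (-14865320) (-5556832) (-2392555)
    39558852 8671782 2168 1398 2433711 6839723 12729608 15323789 15708486 2671409
    (by norm_num) (by norm_num) (by norm_num) (by norm_num) (by norm_num) (by norm_num) (by norm_num) (by norm_num) (by norm_num) (by norm_num) (by norm_num) (by norm_num) (by norm_num) (by norm_num) (by norm_num) (by norm_num) (by norm_num) (by norm_num) (by norm_num) (by norm_num) (by norm_num) (by norm_num) (by norm_num) (by norm_num) (by norm_num) (by norm_num) (by norm_num) (by norm_num) (by norm_num) (by norm_num) (by norm_num) (by norm_num) (by norm_num) (by norm_num) (by norm_num) (by norm_num) (by norm_num) (by norm_num) (by norm_num) (by norm_num) (by norm_num)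

include HP HG t1 t3 t5 in
lemma leaf_pm_44
    (h1 : ‖g1 - ⟨(2691 / 5000), (2691 / 5000)⟩‖ ≤ (309 / 5000))
    (h2 : ‖g2 - ⟨(7 / 50), (11 / 50)⟩‖ ≤ (5657 / 200000))
    (h3 : ‖g3 - ⟨(25073 / 100000), (25073 / 100000)⟩‖ ≤ (42427 / 500000))
    (h4 : ‖g4 - ⟨(-1 / 25), (7 / 25)⟩‖ ≤ (56569 / 1000000))
    (h5 : ‖g5 - ⟨(-33069 / 100000), (-15069 / 100000)⟩‖ ≤ (1591 / 12500)) : False :=
  kill HP HG h1 h2 h3 h4 h5 t1 t3 t5
    2681 (-910) (-956) (-1303) (-896) 1654 0 2568 (-861) 1100 (-2393) (-183) 6319 (-728) 1543 400 2407 (-108) 0 (-1578) 1702 (-3564) (-1745) (-1260)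
    (-5991107) 2007981 (-10246868) (-4377260) 4434374 16175512 (-27936) 9026700 (-10496575) (-490623) (-4737296) 20274460 1217750 17276737 (-682452) (-10296368) 6302569 (-19212674) (-10279799) (-7961940)
    9941 11734909 3484 2822 5566921 11333895 21231489 19251228 20103729 7991135
    (by norm_num) (by norm_num) (by norm_num) (by norm_num) (by norm_num) (by norm_num) (by norm_num) (by norm_num) (by norm_num) (by norm_num) (by norm_num) (by norm_num) (by norm_num) (by norm_num) (by norm_num) (by norm_num) (by norm_num) (by norm_num) (by norm_num) (by norm_num) (by norm_num) (by norm_num) (by norm_num) (by norm_num) (by norm_num) (by norm_num) (by norm_num) (by norm_num) (by norm_num) (by norm_num) (by norm_num) (by norm_num) (by norm_num) (by norm_num) (by norm_num) (by norm_num) (by norm_num) (by norm_num) (by norm_num) (by norm_num) (by norm_num)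

include HP HG t1 t3 t5 in
lemma leaf_pm_45
    (h1 : ‖g1 - ⟨(2691 / 5000), (2691 / 5000)⟩‖ ≤ (309 / 5000))
    (h2 : ‖g2 - ⟨(3 / 25), (1 / 5)⟩‖ ≤ (56569 / 1000000))
    (h3 : ‖g3 - ⟨(25073 / 100000), (37073 / 100000)⟩‖ ≤ (42427 / 500000))
    (h4 : ‖g4 - ⟨(-1 / 25), (7 / 25)⟩‖ ≤ (56569 / 1000000))
    (h5 : ‖g5 - ⟨(-33069 / 100000), (-15069 / 100000)⟩‖ ≤ (1591 / 12500)) : False :=
  kill HP HG h1 h2 h3 h4 h5 t1 t3 t5
    2898 (-1395) (-682) (-592) (-1814) 1764 0 3081 (-1809) 2361 (-2240) (-529) 5450 (-313) 597 1650 1901 320 0 (-2656) 2128 (-2394) (-1883) (-1159)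
    (-18761842) 9119696 (-6332613) (-9347601) 5112072 21392305 (-12317607) 19107766 (-11188449) (-1533042) (-1218792) 9526183 11123423 13338594 1744000 (-18652705) 10413573 (-8781748) (-9049663) (-6316550)
    4804 9408515 23662566 6128483 2951765 18692482 14113493 14172143 16118763 6552888
    (by norm_num) (by norm_num) (by norm_num) (by norm_num) (by norm_num) (by norm_num) (by norm_num) (by norm_num) (by norm_num) (by norm_num) (by norm_num) (by norm_num) (by norm_num) (by norm_num) (by norm_num) (by norm_num) (by norm_num) (by norm_num) (by norm_num) (by norm_num) (by norm_num) (by norm_num) (by norm_num) (by norm_num) (by norm_num) (by norm_num) (by norm_num) (by norm_num) (by norm_num) (by norm_num) (by norm_num) (by norm_num) (by norm_num) (by norm_num) (by norm_num) (by norm_num) (by norm_num) (by norm_num) (by norm_num) (by norm_num) (by norm_num)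

include HP HG t1 t3 t5 in
lemma leaf_pm_46
    (h1 : ‖g1 - ⟨(2691 / 5000), (2691 / 5000)⟩‖ ≤ (309 / 5000))
    (h2 : ‖g2 - ⟨(3 / 25), (1 / 5)⟩‖ ≤ (56569 / 1000000))
    (h3 : ‖g3 - ⟨(37073 / 100000), (25073 / 100000)⟩‖ ≤ (42427 / 500000))
    (h4 : ‖g4 - ⟨(-1 / 25), (7 / 25)⟩‖ ≤ (56569 / 1000000))
    (h5 : ‖g5 - ⟨(-33069 / 100000), (-15069 / 100000)⟩‖ ≤ (1591 / 12500)) : False :=
  kill HP HG h1 h2 h3 h4 h5 t1 t3 t5
    2800 (-963) (-1552) (-393) (-1029) 1568 0 3128 (-1575) 902 (-1641) (-294) 6640 (-351) (-199) (-289) 1837 71 0 (-2475) 1592 (-2905) (-1830) (-1063)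
    (-9145941) 2154486 (-7213007) (-5310816) 4390400 17559587 (-4421959) 10250483 (-9216382) (-823200) (-3907266) 5758527 259078 14803684 471440 (-12404580) 8828388 (-14001790) (-11602362) (-7058320)
    1619 5185 1432 2897 4185648 13005397 10540450 14004187 18808612 7074047
    (by norm_num) (by norm_num) (by norm_num) (by norm_num) (by norm_num) (by norm_num) (by norm_num) (by norm_num) (by norm_num) (by norm_num) (by norm_num) (by norm_num) (by norm_num) (by norm_num) (by norm_num) (by norm_num) (by norm_num) (by norm_num) (by norm_num) (by norm_num) (by norm_num) (by norm_num) (by norm_num) (by norm_num) (by norm_num) (by norm_num) (by norm_num) (by norm_num) (by norm_num) (by norm_num) (by norm_num) (by norm_num) (by norm_num) (by norm_num) (by norm_num) (by norm_num) (by norm_num) (by norm_num) (by norm_num) (by norm_num) (by norm_num)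

include HP HG t1 t3 t5 in
lemma leaf_pm_47
    (h1 : ‖g1 - ⟨(2691 / 5000), (2691 / 5000)⟩‖ ≤ (309 / 5000))
    (h2 : ‖g2 - ⟨(3 / 25), (1 / 5)⟩‖ ≤ (56569 / 1000000))
    (h3 : ‖g3 - ⟨(37073 / 100000), (37073 / 100000)⟩‖ ≤ (42427 / 500000))
    (h4 : ‖g4 - ⟨(-1 / 25), (7 / 25)⟩‖ ≤ (56569 / 1000000))
    (h5 : ‖g5 - ⟨(-33069 / 100000), (-15069 / 100000)⟩‖ ≤ (1591 / 12500)) : False :=
  kill HP HG h1 h2 h3 h4 h5 t1 t3 t5
    3099 (-1173) (-1120) (-1428) (-1521) 2190 0 3365 (-1470) 1952 (-3029) (-374) 5165 (-718) 49 843 2338 4 0 (-2693) 2043 (-1442) (-1526) (-1673)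
    (-14476761) 7071426 (-14736844) (-8540959) 6786810 26132613 (-4624204) 18358610 (-16317519) (-1159026) (-5416374) 2943899 3367186 16578287 20660 (-18857561) 7601771 (-146177) (-6669804) (-8641045)
    9610 5007312 24033589 8936122 6170910 19620009 8151900 3370358 17869692 8641070
    (by norm_num) (by norm_num) (by norm_num) (by norm_num) (by norm_num) (by norm_num) (by norm_num) (by norm_num) (by norm_num) (by norm_num) (by norm_num) (by norm_num) (by norm_num) (by norm_num) (by norm_num) (by norm_num) (by norm_num) (by norm_num) (by norm_num) (by norm_num) (by norm_num) (by norm_num) (by norm_num) (by norm_num) (by norm_num) (by norm_num) (by norm_num) (by norm_num) (by norm_num) (by norm_num) (by norm_num) (by norm_num) (by norm_num) (by norm_num) (by norm_num) (by norm_num) (by norm_num) (by norm_num) (by norm_num) (by norm_num) (by norm_num)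

include HP HG t1 t3 t5 in
lemma leaf_pm_48
    (h1 : ‖g1 - ⟨(2691 / 5000), (2691 / 5000)⟩‖ ≤ (309 / 5000))
    (h2 : ‖g2 - ⟨(3 / 25), (1 / 5)⟩‖ ≤ (56569 / 1000000))
    (h3 : ‖g3 - ⟨(31073 / 100000), (31073 / 100000)⟩‖ ≤ (593 / 5000))
    (h4 : ‖g4 - ⟨(-1 / 25), (7 / 25)⟩‖ ≤ (56569 / 1000000))
    (h5 : ‖g5 - ⟨(-15069 / 100000), (-33069 / 100000)⟩‖ ≤ (1591 / 12500)) : False :=
  kill HP HG h1 h2 h3 h4 h5 t1 t3 t5
    2381 (-1215) (-423) (-1107) (-660) 1515 0 2583 (-1272) 1475 (-2321) 190 6516 291 (-597) (-117) 1758 1534 0 (-2569) 2461 (-2487) (-1686) (-1670)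
    (-11206230) 5982404 (-8711535) (-2921415) 3607215 13689945 (-4264068) 9883480 (-9670396) 452390 (-1150750) 1240044 (-945128) 16191752 9995544 (-11564598) 15702138 (-14957800) (-7531100) (-10881720)
    4513 960 3251 846 7202584 11621711 15751027 14987630 17857500 14775749
    (by norm_num) (by norm_num) (by norm_num) (by norm_num) (by norm_num) (by norm_num) (by norm_num) (by norm_num) (by norm_num) (by norm_num) (by norm_num) (by norm_num) (by norm_num) (by norm_num) (by norm_num) (by norm_num) (by norm_num) (by norm_num) (by norm_num) (by norm_num) (by norm_num) (by norm_num) (by norm_num) (by norm_num) (by norm_num) (by norm_num) (by norm_num) (by norm_num) (by norm_num) (by norm_num) (by norm_num) (by norm_num) (by norm_num) (by norm_num) (by norm_num) (by norm_num) (by norm_num) (by norm_num) (by norm_num) (by norm_num) (by norm_num)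

include HP HG t1 t3 t5 in
lemma leaf_pm_49
    (h1 : ‖g1 - ⟨(2691 / 5000), (2691 / 5000)⟩‖ ≤ (309 / 5000))
    (h2 : ‖g2 - ⟨(3 / 25), (1 / 5)⟩‖ ≤ (56569 / 1000000))
    (h3 : ‖g3 - ⟨(31073 / 100000), (31073 / 100000)⟩‖ ≤ (593 / 5000))
    (h4 : ‖g4 - ⟨(-1 / 25), (7 / 25)⟩‖ ≤ (56569 / 1000000))
    (h5 : ‖g5 - ⟨(-15069 / 100000), (-15069 / 100000)⟩‖ ≤ (1591 / 12500)) : False :=
  kill HP HG h1 h2 h3 h4 h5 t1 t3 t5
    2625 (-1521) (-1482) (-81) (-727) 1275 0 3243 (-2167) 926 (-1710) 28 5421 546 144 320 852 903 0 (-2846) 3174 (-2136) (-1763) (-3203)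
    (-13152062) 3941606 (-6602614) (-3756846) 3346875 18038755 (-7058245) 10110750 (-8666163) 73500 (-2273645) 8691894 (-2818880) 14227468 4895163 (-14489857) 14896446 (-13444416) (-8736123) (-17363463)
    6036 69373 3833 2817 5096791 14667155 17246830 13736754 16695530 18040302
    (by norm_num) (by norm_num) (by norm_num) (by norm_num) (by norm_num) (by norm_num) (by norm_num) (by norm_num) (by norm_num) (by norm_num) (by norm_num) (by norm_num) (by norm_num) (by norm_num) (by norm_num) (by norm_num) (by norm_num) (by norm_num) (by norm_num) (by norm_num) (by norm_num) (by norm_num) (by norm_num) (by norm_num) (by norm_num) (by norm_num) (by norm_num) (by norm_num) (by norm_num) (by norm_num) (by norm_num) (by norm_num) (by norm_num) (by norm_num) (by norm_num) (by norm_num) (by norm_num) (by norm_num) (by norm_num) (by norm_num) (by norm_num)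

include HP HG t1 t3 t5 in
lemma leaf_pm_50
    (h1 : ‖g1 - ⟨(2691 / 5000), (2691 / 5000)⟩‖ ≤ (309 / 5000))
    (h2 : ‖g2 - ⟨(3 / 25), (7 / 25)⟩‖ ≤ (56569 / 1000000))
    (h3 : ‖g3 - ⟨(31073 / 100000), (31073 / 100000)⟩‖ ≤ (593 / 5000))
    (h4 : ‖g4 - ⟨(-2 / 25), (6 / 25)⟩‖ ≤ (56569 / 500000))
    (h5 : ‖g5 - ⟨(-24069 / 100000), (-24069 / 100000)⟩‖ ≤ (9 / 50)) : False :=
  kill HP HG h1 h2 h3 h4 h5 t1 t3 t5
    2992 (-1614) (-85) (-2592) 194 1100 0 2433 (-541) 831 (-2318) (-293) 6027 (-809) 1990 961 2519 416 0 (-1526) 1945 (-3172) (-1743) (-718)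
    (-7773934) 4093856 (-13643061) (-1907821) 3291200 15226608 3493770 6375607 (-9138854) (-876656) (-3462040) 20356700 5845224 15941137 2507232 (-10683701) 8016678 (-16101503) (-9289383) (-4327386)
    555 17406619 4407 950 1244 11230637 21878354 17129654 18450271 5001249
    (by norm_num) (by norm_num) (by norm_num) (by norm_num) (by norm_num) (by norm_num) (by norm_num) (by norm_num) (by norm_num) (by norm_num) (by norm_num) (by norm_num) (by norm_num) (by norm_num) (by norm_num) (by norm_num) (by norm_num) (by norm_num) (by norm_num) (by norm_num) (by norm_num) (by norm_num) (by norm_num) (by norm_num) (by norm_num) (by norm_num) (by norm_num) (by norm_num) (by norm_num) (by norm_num) (by norm_num) (by norm_num) (by norm_num) (by norm_num) (by norm_num) (by norm_num) (by norm_num) (by norm_num) (by norm_num) (by norm_num) (by norm_num)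

include HP HG t1 t3 t5 in
lemma leaf_pm_51
    (h1 : ‖g1 - ⟨(2691 / 5000), (2691 / 5000)⟩‖ ≤ (309 / 5000))
    (h2 : ‖g2 - ⟨(2 / 25), (6 / 25)⟩‖ ≤ (56569 / 500000))
    (h3 : ‖g3 - ⟨(31073 / 100000), (31073 / 100000)⟩‖ ≤ (593 / 5000))
    (h4 : ‖g4 - ⟨(4 / 25), (-4 / 25)⟩‖ ≤ (56569 / 250000))
    (h5 : ‖g5 - ⟨(-24069 / 100000), (-24069 / 100000)⟩‖ ≤ (9 / 50)) : False :=
  kill HP HG h1 h2 h3 h4 h5 t1 t3 t5
    3242 (-1259) (-1049) (-1267) (-1651) 2390 0 3416 (-1304) 1773 (-3090) (-341) 5125 157 (-464) (-98) (-1572) 1329 0 (-3240) 1186 (-2201) (-286) (-1732)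
    (-14477313) 6379399 (-14646891) (-9526408) 7748380 27578091 (-4848620) 18752461 (-17752701) (-1105522) (-6486071) 8809956 (-2493222) (-2236167) 6811125 (-17113812) 10507134 (-17190853) 2568286 (-8876500)
    3736106 2943553 8537987 18752974 225977 18301686 13711864 17370711 3405369 11188552
    (by norm_num) (by norm_num) (by norm_num) (by norm_num) (by norm_num) (by norm_num) (by norm_num) (by norm_num) (by norm_num) (by norm_num) (by norm_num) (by norm_num) (by norm_num) (by norm_num) (by norm_num) (by norm_num) (by norm_num) (by norm_num) (by norm_num) (by norm_num) (by norm_num) (by norm_num) (by norm_num) (by norm_num) (by norm_num) (by norm_num) (by norm_num) (by norm_num) (by norm_num) (by norm_num) (by norm_num) (by norm_num) (by norm_num) (by norm_num) (by norm_num) (by norm_num) (by norm_num) (by norm_num) (by norm_num) (by norm_num) (by norm_num)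

include HP HG t1 t3 t5 in
lemma leaf_pm_52
    (h1 : ‖g1 - ⟨(2691 / 5000), (2691 / 5000)⟩‖ ≤ (309 / 5000))
    (h2 : ‖g2 - ⟨(2 / 25), (6 / 25)⟩‖ ≤ (56569 / 500000))
    (h3 : ‖g3 - ⟨(31073 / 100000), (31073 / 100000)⟩‖ ≤ (593 / 5000))
    (h4 : ‖g4 - ⟨(4 / 25), (4 / 25)⟩‖ ≤ (56569 / 250000))
    (h5 : ‖g5 - ⟨(-24069 / 100000), (-24069 / 100000)⟩‖ ≤ (9 / 50)) : False :=
  kill HP HG h1 h2 h3 h4 h5 t1 t3 t5
    3420 (-1278) (-2432) 216 (-1405) 1819 0 4012 (-1836) 644 (-1274) (-747) 4737 216 91 (-814) (-546) 804 0 (-4092) 935 (-2790) 376 (-1925)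
    (-13064345) (-341900) (-5629294) (-10126746) 6220980 28651577 (-8782744) 14623900 (-10700242) (-2554740) (-7233276) 16690091 (-7239157) 5464362 3808548 (-19382930) 4850403 (-16296161) 4655280 (-9118725)
    13675 4576 2469 12371543 2445 20688603 17380609 17831721 7178502 9882115
    (by norm_num) (by norm_num) (by norm_num) (by norm_num) (by norm_num) (by norm_num) (by norm_num) (by norm_num) (by norm_num) (by norm_num) (by norm_num) (by norm_num) (by norm_num) (by norm_num) (by norm_num) (by norm_num) (by norm_num) (by norm_num) (by norm_num) (by norm_num) (by norm_num) (by norm_num) (by norm_num) (by norm_num) (by norm_num) (by norm_num) (by norm_num) (by norm_num) (by norm_num) (by norm_num) (by norm_num) (by norm_num) (by norm_num) (by norm_num) (by norm_num) (by norm_num) (by norm_num) (by norm_num) (by norm_num) (by norm_num) (by norm_num)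

include HP HG t1 t3 t5 in
lemma leaf_pm_53
    (h1 : ‖g1 - ⟨(2691 / 5000), (2691 / 5000)⟩‖ ≤ (309 / 5000))
    (h2 : ‖g2 - ⟨(6 / 25), (2 / 25)⟩‖ ≤ (56569 / 500000))
    (h3 : ‖g3 - ⟨(31073 / 100000), (31073 / 100000)⟩‖ ≤ (593 / 5000))
    (h4 : ‖g4 - ⟨0, 0⟩‖ ≤ (30017 / 100000))
    (h5 : ‖g5 - ⟨(-24069 / 100000), (-24069 / 100000)⟩‖ ≤ (9 / 50)) : False :=
  kill HP HG h1 h2 h3 h4 h5 t1 t3 t5
    2877 (-1669) (-2583) 1066 (-439) 1117 0 4393 (-3026) 141 (-978) 110 4608 481 (-2378) (-406) (-656) 796 0 (-4041) 1770 (-1272) (-629) (-653)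
    (-18167863) (-3291435) (-3714852) (-2644046) 3213609 31961174 (-12466546) 7062378 (-7904277) 316470 (-6410927) (-5058880) (-2693293) (-1199) 3667968 (-23285626) 9838194 (-8670907) 4111 (-3009024)
    5754 11241188 19 8334781 923 24152027 11062655 9079563 4283 4744283
    (by norm_num) (by norm_num) (by norm_num) (by norm_num) (by norm_num) (by norm_num) (by norm_num) (by norm_num) (by norm_num) (by norm_num) (by norm_num) (by norm_num) (by norm_num) (by norm_num) (by norm_num) (by norm_num) (by norm_num) (by norm_num) (by norm_num) (by norm_num) (by norm_num) (by norm_num) (by norm_num) (by norm_num) (by norm_num) (by norm_num) (by norm_num) (by norm_num) (by norm_num) (by norm_num) (by norm_num) (by norm_num) (by norm_num) (by norm_num) (by norm_num) (by norm_num) (by norm_num) (by norm_num) (by norm_num) (by norm_num) (by norm_num)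

include HP HG t1 t3 t5 in
lemma leaf_pm_54
    (h1 : ‖g1 - ⟨(2691 / 5000), (2691 / 5000)⟩‖ ≤ (309 / 5000))
    (h2 : ‖g2 - ⟨(6 / 25), (6 / 25)⟩‖ ≤ (56569 / 500000))
    (h3 : ‖g3 - ⟨(31073 / 100000), (31073 / 100000)⟩‖ ≤ (593 / 5000))
    (h4 : ‖g4 - ⟨(-4 / 25), (-4 / 25)⟩‖ ≤ (56569 / 250000))
    (h5 : ‖g5 - ⟨(-24069 / 100000), (-24069 / 100000)⟩‖ ≤ (9 / 50)) : False :=
  kill HP HG h1 h2 h3 h4 h5 t1 t3 t5
    3011 (-2113) (-1741) (-39) (-81) 1418 0 4098 (-2813) 668 (-2166) 689 4983 607 (-1274) 343 (-1966) 1322 0 (-3339) 1106 (-2037) (-1349) (-458)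
    (-19073330) 4216649 (-13229439) (-416603) 4269598 27299031 (-7152547) 9709329 (-13788647) 2074579 (-4039110) 3060484 2829342 (-7464862) 6587526 (-19788644) 11848858 (-18412328) (-2585915) (-2282214)
    2687363 4317 38063 10634184 2092 20196655 12237729 18628446 7900071 6971657
    (by norm_num) (by norm_num) (by norm_num) (by norm_num) (by norm_num) (by norm_num) (by norm_num) (by norm_num) (by norm_num) (by norm_num) (by norm_num) (by norm_num) (by norm_num) (by norm_num) (by norm_num) (by norm_num) (by norm_num) (by norm_num) (by norm_num) (by norm_num) (by norm_num) (by norm_num) (by norm_num) (by norm_num) (by norm_num) (by norm_num) (by norm_num) (by norm_num) (by norm_num) (by norm_num) (by norm_num) (by norm_num) (by norm_num) (by norm_num) (by norm_num) (by norm_num) (by norm_num) (by norm_num) (by norm_num) (by norm_num) (by norm_num)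

include HP HG t1 t3 t5 in
lemma leaf_pm_55
    (h1 : ‖g1 - ⟨(2691 / 5000), (2691 / 5000)⟩‖ ≤ (309 / 5000))
    (h2 : ‖g2 - ⟨(6 / 25), (6 / 25)⟩‖ ≤ (56569 / 500000))
    (h3 : ‖g3 - ⟨(31073 / 100000), (31073 / 100000)⟩‖ ≤ (593 / 5000))
    (h4 : ‖g4 - ⟨(-6 / 25), (2 / 25)⟩‖ ≤ (56569 / 500000))
    (h5 : ‖g5 - ⟨(-24069 / 100000), (-24069 / 100000)⟩‖ ≤ (9 / 50)) : False :=
  kill HP HG h1 h2 h3 h4 h5 t1 t3 t5
    2802 (-2285) (-1007) (-518) 518 984 0 3829 (-2822) 790 (-2293) 900 5114 1172 (-1890) 490 (-1522) 1072 0 (-3228) 1131 (-1795) (-2317) (-47)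
    (-20248549) 7537434 (-14945651) 2649096 2757168 22276671 (-5201685) 7340211 (-12249222) 2521800 (-938035) (-2431222) 6122115 (-6375408) 5482208 (-19756982) 13263636 (-17931772) (-8443806) (-240358)
    8185 4444 3041 11609794 2875 19779238 13484617 18948054 10580345 5487475
    (by norm_num) (by norm_num) (by norm_num) (by norm_num) (by norm_num) (by norm_num) (by norm_num) (by norm_num) (by norm_num) (by norm_num) (by norm_num) (by norm_num) (by norm_num) (by norm_num) (by norm_num) (by norm_num) (by norm_num) (by norm_num) (by norm_num) (by norm_num) (by norm_num) (by norm_num) (by norm_num) (by norm_num) (by norm_num) (by norm_num) (by norm_num) (by norm_num) (by norm_num) (by norm_num) (by norm_num) (by norm_num) (by norm_num) (by norm_num) (by norm_num) (by norm_num) (by norm_num) (by norm_num) (by norm_num) (by norm_num) (by norm_num)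

include HP HG t1 t3 t5 in
lemma leaf_pm_56
    (h1 : ‖g1 - ⟨(2691 / 5000), (2691 / 5000)⟩‖ ≤ (309 / 5000))
    (h2 : ‖g2 - ⟨(1 / 5), (1 / 5)⟩‖ ≤ (56569 / 1000000))
    (h3 : ‖g3 - ⟨(31073 / 100000), (31073 / 100000)⟩‖ ≤ (593 / 5000))
    (h4 : ‖g4 - ⟨(-6 / 25), (6 / 25)⟩‖ ≤ (56569 / 500000))
    (h5 : ‖g5 - ⟨(-24069 / 100000), (-24069 / 100000)⟩‖ ≤ (9 / 50)) : False :=
  kill HP HG h1 h2 h3 h4 h5 t1 t3 t5
    2347 (-1743) (-15) (-1707) 465 1103 0 2713 (-1438) 1129 (-2724) 788 6525 368 (-1470) (-206) 392 707 0 (-2670) 1670 (-2456) (-2613) (-118)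
    (-15066635) 8920041 (-13356725) 1306670 2588741 13938814 (-2592615) 7710444 (-10759151) 1849436 524894 (-7905822) 4540466 3133036 4613175 (-13475585) 14390092 (-16947574) (-15205559) (-769950)
    3719 2001 2769 7366100 2660 13485804 16418794 17545259 15524978 4676987
    (by norm_num) (by norm_num) (by norm_num) (by norm_num) (by norm_num) (by norm_num) (by norm_num) (by norm_num) (by norm_num) (by norm_num) (by norm_num) (by norm_num) (by norm_num) (by norm_num) (by norm_num) (by norm_num) (by norm_num) (by norm_num) (by norm_num) (by norm_num) (by norm_num) (by norm_num) (by norm_num) (by norm_num) (by norm_num) (by norm_num) (by norm_num) (by norm_num) (by norm_num) (by norm_num) (by norm_num) (by norm_num) (by norm_num) (by norm_num) (by norm_num) (by norm_num) (by norm_num) (by norm_num) (by norm_num) (by norm_num) (by norm_num)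

include HP HG t1 t3 t5 in
lemma leaf_pm_57
    (h1 : ‖g1 - ⟨(2691 / 5000), (2691 / 5000)⟩‖ ≤ (309 / 5000))
    (h2 : ‖g2 - ⟨(1 / 5), (7 / 25)⟩‖ ≤ (56569 / 1000000))
    (h3 : ‖g3 - ⟨(31073 / 100000), (31073 / 100000)⟩‖ ≤ (593 / 5000))
    (h4 : ‖g4 - ⟨(-6 / 25), (6 / 25)⟩‖ ≤ (56569 / 500000))
    (h5 : ‖g5 - ⟨(-24069 / 100000), (-24069 / 100000)⟩‖ ≤ (9 / 50)) : False :=
  kill HP HG h1 h2 h3 h4 h5 t1 t3 t5
    2561 (-1427) (-751) (-2174) 672 1221 0 3020 (-958) 438 (-2920) 753 5917 (-678) 446 1262 1044 887 0 (-1470) 2711 (-2980) (-2698) (-210)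
    (-8381096) 2469795 (-16983303) 2252685 3126981 19082756 4151892 3863333 (-12240071) 1928433 (-4965036) 1060486 10551774 5884662 5248379 (-12750660) 18261215 (-16767053) (-14517796) (-1242570)
    13597 14105709 5799 6848623 2371 13683235 18291982 19810957 15665110 5393465
    (by norm_num) (by norm_num) (by norm_num) (by norm_num) (by norm_num) (by norm_num) (by norm_num) (by norm_num) (by norm_num) (by norm_num) (by norm_num) (by norm_num) (by norm_num) (by norm_num) (by norm_num) (by norm_num) (by norm_num) (by norm_num) (by norm_num) (by norm_num) (by norm_num) (by norm_num) (by norm_num) (by norm_num) (by norm_num) (by norm_num) (by norm_num) (by norm_num) (by norm_num) (by norm_num) (by norm_num) (by norm_num) (by norm_num) (by norm_num) (by norm_num) (by norm_num) (by norm_num) (by norm_num) (by norm_num) (by norm_num) (by norm_num)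

include HP HG t1 t3 t5 in
lemma leaf_pm_58
    (h1 : ‖g1 - ⟨(2691 / 5000), (2691 / 5000)⟩‖ ≤ (309 / 5000))
    (h2 : ‖g2 - ⟨(7 / 25), (1 / 5)⟩‖ ≤ (56569 / 1000000))
    (h3 : ‖g3 - ⟨(31073 / 100000), (31073 / 100000)⟩‖ ≤ (593 / 5000))
    (h4 : ‖g4 - ⟨(-6 / 25), (6 / 25)⟩‖ ≤ (56569 / 500000))
    (h5 : ‖g5 - ⟨(-24069 / 100000), (-24069 / 100000)⟩‖ ≤ (9 / 50)) : False :=
  kill HP HG h1 h2 h3 h4 h5 t1 t3 t5
    2729 (-1359) (-3204) 583 377 977 0 4263 (-2320) (-933) (-1009) 362 4965 (-1309) (-1445) 1245 882 765 0 (-1977) 3332 (-1419) (-2218) (-351)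
    (-7783748) (-12148575) (-7192851) 1244296 2666233 33672912 (-2318599) (-1675285) (-7410470) 987898 (-12023497) (-13213139) 7136916 4071672 3798225 (-19254707) 21776942 (-4440044) (-9040506) (-1742715)
    5054 28629253 1906 3797227 1909 22700402 25471990 8405330 9915103 4178944
    (by norm_num) (by norm_num) (by norm_num) (by norm_num) (by norm_num) (by norm_num) (by norm_num) (by norm_num) (by norm_num) (by norm_num) (by norm_num) (by norm_num) (by norm_num) (by norm_num) (by norm_num) (by norm_num) (by norm_num) (by norm_num) (by norm_num) (by norm_num) (by norm_num) (by norm_num) (by norm_num) (by norm_num) (by norm_num) (by norm_num) (by norm_num) (by norm_num) (by norm_num) (by norm_num) (by norm_num) (by norm_num) (by norm_num) (by norm_num) (by norm_num) (by norm_num) (by norm_num) (by norm_num) (by norm_num) (by norm_num) (by norm_num)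

include HP HG t1 t3 t5 in
lemma leaf_pm_59
    (h1 : ‖g1 - ⟨(2691 / 5000), (2691 / 5000)⟩‖ ≤ (309 / 5000))
    (h2 : ‖g2 - ⟨(6 / 25), (6 / 25)⟩‖ ≤ (56569 / 500000))
    (h3 : ‖g3 - ⟨(31073 / 100000), (31073 / 100000)⟩‖ ≤ (593 / 5000))
    (h4 : ‖g4 - ⟨(-2 / 25), (2 / 25)⟩‖ ≤ (56569 / 500000))
    (h5 : ‖g5 - ⟨(-24069 / 100000), (-24069 / 100000)⟩‖ ≤ (9 / 50)) : False :=
  kill HP HG h1 h2 h3 h4 h5 t1 t3 t5
    3007 (-1922) (-1840) (-113) (-283) 1461 0 4034 (-2687) 770 (-2050) 335 4908 861 (-1449) 78 (-1445) 1143 0 (-3744) 1432 (-2240) (-1151) (-717)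
    (-17590136) 3912413 (-11653950) (-2307633) 4393227 26346586 (-7255153) 10706419 (-12701894) 1007345 (-4064749) 3482833 765072 (-3423489) 5609844 (-20408512) 11633081 (-17992854) (-1987053) (-3519036)
    4240 568 3351 13011868 1511 20809362 12143258 18009113 3958366 6622233
    (by norm_num) (by norm_num) (by norm_num) (by norm_num) (by norm_num) (by norm_num) (by norm_num) (by norm_num) (by norm_num) (by norm_num) (by norm_num) (by norm_num) (by norm_num) (by norm_num) (by norm_num) (by norm_num) (by norm_num) (by norm_num) (by norm_num) (by norm_num) (by norm_num) (by norm_num) (by norm_num) (by norm_num) (by norm_num) (by norm_num) (by norm_num) (by norm_num) (by norm_num) (by norm_num) (by norm_num) (by norm_num) (by norm_num) (by norm_num) (by norm_num) (by norm_num) (by norm_num) (by norm_num) (by norm_num) (by norm_num) (by norm_num)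

include HP HG t1 t3 t5 in
lemma leaf_pm_60
    (h1 : ‖g1 - ⟨(2691 / 5000), (2691 / 5000)⟩‖ ≤ (309 / 5000))
    (h2 : ‖g2 - ⟨(1 / 5), (1 / 5)⟩‖ ≤ (56569 / 1000000))
    (h3 : ‖g3 - ⟨(31073 / 100000), (31073 / 100000)⟩‖ ≤ (593 / 5000))
    (h4 : ‖g4 - ⟨(-3 / 25), (1 / 5)⟩‖ ≤ (56569 / 1000000))
    (h5 : ‖g5 - ⟨(-24069 / 100000), (-24069 / 100000)⟩‖ ≤ (9 / 50)) : False :=
  kill HP HG h1 h2 h3 h4 h5 t1 t3 t5
    2803 (-1780) (-1261) (-634) (-191) 1407 0 3759 (-2293) 1054 (-2392) 497 5153 1324 (-1942) 82 (-1307) 1076 0 (-3391) 1796 (-2187) (-1942) (-514)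
    (-16839130) 6913430 (-13342498) (-1171610) 3943821 21563719 (-5139920) 10529625 (-12878349) 1393091 (-2194132) (-2219729) 2264664 (-3567373) 5544628 (-17837622) 15067062 (-19207164) (-7038946) (-2648642)
    1612 1622 1486 12861296 1012 17972061 15229694 19340214 7891319 6144771
    (by norm_num) (by norm_num) (by norm_num) (by norm_num) (by norm_num) (by norm_num) (by norm_num) (by norm_num) (by norm_num) (by norm_num) (by norm_num) (by norm_num) (by norm_num) (by norm_num) (by norm_num) (by norm_num) (by norm_num) (by norm_num) (by norm_num) (by norm_num) (by norm_num) (by norm_num) (by norm_num) (by norm_num) (by norm_num) (by norm_num) (by norm_num) (by norm_num) (by norm_num) (by norm_num) (by norm_num) (by norm_num) (by norm_num) (by norm_num) (by norm_num) (by norm_num) (by norm_num) (by norm_num) (by norm_num) (by norm_num) (by norm_num)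

include HP HG t1 t3 t5 in
lemma leaf_pm_61
    (h1 : ‖g1 - ⟨(2691 / 5000), (2691 / 5000)⟩‖ ≤ (309 / 5000))
    (h2 : ‖g2 - ⟨(9 / 50), (9 / 50)⟩‖ ≤ (5657 / 200000))
    (h3 : ‖g3 - ⟨(25073 / 100000), (25073 / 100000)⟩‖ ≤ (42427 / 500000))
    (h4 : ‖g4 - ⟨(-3 / 25), (7 / 25)⟩‖ ≤ (56569 / 1000000))
    (h5 : ‖g5 - ⟨(-33069 / 100000), (-33069 / 100000)⟩‖ ≤ (1591 / 12500)) : False :=
  kill HP HG h1 h2 h3 h4 h5 t1 t3 t5
    2492 (-1207) (-1372) (-211) (-852) 1593 0 2902 (-1535) 942 (-1910) (-191) 6795 (-234) (-512) (-403) 1420 389 0 (-2586) 1583 (-3049) (-2057) (-494)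
    (-9574762) 3154086 (-6932679) (-4600217) 3969756 15860720 (-4497497) 9832645 (-9152069) (-475972) (-2916020) 1866144 1267567 10835358 2643255 (-11810043) 10618260 (-16927356) (-12855765) (-3356730)
    9666 4554 2953296 1849 4356 12164715 10780999 16974750 16812962 4272521
    (by norm_num) (by norm_num) (by norm_num) (by norm_num) (by norm_num) (by norm_num) (by norm_num) (by norm_num) (by norm_num) (by norm_num) (by norm_num) (by norm_num) (by norm_num) (by norm_num) (by norm_num) (by norm_num) (by norm_num) (by norm_num) (by norm_num) (by norm_num) (by norm_num) (by norm_num) (by norm_num) (by norm_num) (by norm_num) (by norm_num) (by norm_num) (by norm_num) (by norm_num) (by norm_num) (by norm_num) (by norm_num) (by norm_num) (by norm_num) (by norm_num) (by norm_num) (by norm_num) (by norm_num) (by norm_num) (by norm_num) (by norm_num)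

include HP HG t1 t3 t5 in
lemma leaf_pm_62
    (h1 : ‖g1 - ⟨(2691 / 5000), (2691 / 5000)⟩‖ ≤ (309 / 5000))
    (h2 : ‖g2 - ⟨(9 / 50), (11 / 50)⟩‖ ≤ (5657 / 200000))
    (h3 : ‖g3 - ⟨(25073 / 100000), (25073 / 100000)⟩‖ ≤ (42427 / 500000))
    (h4 : ‖g4 - ⟨(-3 / 25), (7 / 25)⟩‖ ≤ (56569 / 1000000))
    (h5 : ‖g5 - ⟨(-33069 / 100000), (-33069 / 100000)⟩‖ ≤ (1591 / 12500)) : False :=
  kill HP HG h1 h2 h3 h4 h5 t1 t3 t5
    2674 (-360) (-1252) (-1332) (-935) 1776 0 2671 (-490) 862 (-2268) (-267) 6410 (-951) 592 822 2080 476 0 (-1227) 2635 (-3296) (-2174) (-644)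
    (-2340026) (-879772) (-11375718) (-3852707) 4749024 17035401 3143310 6823377 (-10712208) (-713958) (-6824983) 5073956 4543290 13670312 3051160 (-8997817) 15305160 (-18143234) (-12738844) (-4128040)
    3924 12328539 3612 519 1927 11293410 16124297 18703434 18685706 5133254
    (by norm_num) (by norm_num) (by norm_num) (by norm_num) (by norm_num) (by norm_num) (by norm_num) (by norm_num) (by norm_num) (by norm_num) (by norm_num) (by norm_num) (by norm_num) (by norm_num) (by norm_num) (by norm_num) (by norm_num) (by norm_num) (by norm_num) (by norm_num) (by norm_num) (by norm_num) (by norm_num) (by norm_num) (by norm_num) (by norm_num) (by norm_num) (by norm_num) (by norm_num) (by norm_num) (by norm_num) (by norm_num) (by norm_num) (by norm_num) (by norm_num) (by norm_num) (by norm_num) (by norm_num) (by norm_num) (by norm_num) (by norm_num)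

include HP HG t1 t3 t5 in
lemma leaf_pm_63
    (h1 : ‖g1 - ⟨(2691 / 5000), (2691 / 5000)⟩‖ ≤ (309 / 5000))
    (h2 : ‖g2 - ⟨(11 / 50), (9 / 50)⟩‖ ≤ (5657 / 200000))
    (h3 : ‖g3 - ⟨(25073 / 100000), (25073 / 100000)⟩‖ ≤ (42427 / 500000))
    (h4 : ‖g4 - ⟨(-3 / 25), (7 / 25)⟩‖ ≤ (56569 / 1000000))
    (h5 : ‖g5 - ⟨(-33069 / 100000), (-33069 / 100000)⟩‖ ≤ (1591 / 12500)) : False :=
  kill HP HG h1 h2 h3 h4 h5 t1 t3 t5
    3097 (-726) (-3558) 653 (-76) 965 0 4325 (-1561) (-1145) (-677) (-141) 5208 (-1390) (-974) 1041 1483 371 0 (-2210) 3119 (-1541) (-1503) (-497)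
    (-6205014) (-14326534) (-4063877) (-1545787) 2988605 35144324 (-3524390) (-717820) (-6167928) (-436677) (-13441453) (-8094183) 4770291 8306144 1932168 (-19202333) 17579131 (-3331999) (-6316884) (-2588376)
    7679 24251144 3543 1859 2928 23439332 19353079 5818754 10435280 3230010
    (by norm_num) (by norm_num) (by norm_num) (by norm_num) (by norm_num) (by norm_num) (by norm_num) (by norm_num) (by norm_num) (by norm_num) (by norm_num) (by norm_num) (by norm_num) (by norm_num) (by norm_num) (by norm_num) (by norm_num) (by norm_num) (by norm_num) (by norm_num) (by norm_num) (by norm_num) (by norm_num) (by norm_num) (by norm_num) (by norm_num) (by norm_num) (by norm_num) (by norm_num) (by norm_num) (by norm_num) (by norm_num) (by norm_num) (by norm_num) (by norm_num) (by norm_num) (by norm_num) (by norm_num) (by norm_num) (by norm_num) (by norm_num)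

end

end Pool.Agent.H893R3.Dig
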