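import Pool.Agent.H893R3.Dig.J4

/-!
# Certificates
-/

set_option autoImplicit false
set_option linter.unusedVariables false
set_option maxRecDepth 4000

namespace Pool.Agent.H893R3.Dig

section
variable {g1 g2 g3 g4 g5 c1 c3 c5 : ℂ}
    (HP : ∀ q : Fin 6 → ℂ, 0 ≤ nn q + 2 * (A1 q * g1 + A2 q * g2 + A3 q * g3 + A4 q * g4 +
      A5 q * g5).re)
    (HG : ∀ p : Fin 6 → ℂ, 0 ≤ (901 / 10000) * nn p + 2 * (A1 p * (g1 ^ 2 - c1) + A2 p * g2 ^ 2 +
      A3 p * (g3 ^ 2 - c3) + A4 p * g4 ^ 2 + A5 p * (g5 ^ 2 - c5)).re)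
    (t1 : ‖(⟨0, (7241481 / 12500000)⟩ : ℂ) - c1‖ ≤ 1 / 100000) (t3 : ‖(⟨0, (965531329 / 5000000000)⟩ : ℂ) - c3‖ ≤ 1 / 100000)
    (t5 : ‖(⟨0, (579316761 / 5000000000)⟩ : ℂ) - c5‖ ≤ 1 / 100000)

include HP HG t1 t3 t5 in
lemma leaf_pm_64
    (h1 : ‖g1 - ⟨(2691 / 5000), (2691 / 5000)⟩‖ ≤ (309 / 5000))
    (h2 : ‖g2 - ⟨(11 / 50), (11 / 50)⟩‖ ≤ (5657 / 200000))
    (h3 : ‖g3 - ⟨(25073 / 100000), (25073 / 100000)⟩‖ ≤ (42427 / 500000))
    (h4 : ‖g4 - ⟨(-3 / 25), (7 / 25)⟩‖ ≤ (56569 / 1000000))
    (h5 : ‖g5 - ⟨(-33069 / 100000), (-33069 / 100000)⟩‖ ≤ (1591 / 12500)) : False :=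
  kill HP HG h1 h2 h3 h4 h5 t1 t3 t5
    3005 (-836) (-3065) 11 (-203) 1350 0 3905 (-1318) (-598) (-1017) (-269) 5700 (-1287) (-140) 1007 1721 431 0 (-1804) 2902 (-2528) (-1938) (-645)
    (-3736725) (-9416398) (-7551830) (-2789060) 4056750 27947542 150275 2449722 (-8102951) (-808345) (-11244092) (-1333936) 5088995 10418583 2456700 (-14714273) 17328595 (-9971172) (-9438961) (-3676500)
    6126 19037057 1525 4890 1638 18518624 17379862 11194738 14058480 4421768
    (by norm_num) (by norm_num) (by norm_num) (by norm_num) (by norm_num) (by norm_num) (by norm_num) (by norm_num) (by norm_num) (by norm_num) (by norm_num) (by norm_num) (by norm_num) (by norm_num) (by norm_num) (by norm_num) (by norm_num) (by norm_num) (by norm_num) (by norm_num) (by norm_num) (by norm_num) (by norm_num) (by norm_num) (by norm_num) (by norm_num) (by norm_num) (by norm_num) (by norm_num) (by norm_num) (by norm_num) (by norm_num) (by norm_num) (by norm_num) (by norm_num) (by norm_num) (by norm_num) (by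 norm_num) (by norm_num) (by norm_num) (by norm_num)

include HP HG t1 t3 t5 in
lemma leaf_pm_65
    (h1 : ‖g1 - ⟨(2691 / 5000), (2691 / 5000)⟩‖ ≤ (309 / 5000))
    (h2 : ‖g2 - ⟨(1 / 5), (1 / 5)⟩‖ ≤ (56569 / 1000000))
    (h3 : ‖g3 - ⟨(25073 / 100000), (37073 / 100000)⟩‖ ≤ (42427 / 500000))
    (h4 : ‖g4 - ⟨(-3 / 25), (7 / 25)⟩‖ ≤ (56569 / 1000000))
    (h5 : ‖g5 - ⟨(-33069 / 100000), (-33069 / 100000)⟩‖ ≤ (1591 / 12500)) : False :=
  kill HP HG h1 h2 h3 h4 h5 t1 t3 t5
    2591 (-1257) (-727) (-1087) (-1210) 1696 0 2758 (-1335) 1791 (-2504) (-261) 6126 (-560) 10 1151 1897 459 0 (-1782) 2538 (-2418) (-2809) (-626)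
    (-12193724) 6333787 (-9086036) (-5986820) 4394336 17527489 (-5261097) 13579096 (-10837355) (-676251) (-2479484) (-1342719) 9410146 12479514 2811834 (-13809814) 14499610 (-11030376) (-16039436) (-3834876)
    6699 3556 15500923 663 1706 14030639 14561648 14498967 20322446 4755280
    (by norm_num) (by norm_num) (by norm_num) (by norm_num) (by norm_num) (by norm_num) (by norm_num) (by norm_num) (by norm_num) (by norm_num) (by norm_num) (by norm_num) (by norm_num) (by norm_num) (by norm_num) (by norm_num) (by norm_num) (by norm_num) (by norm_num) (by norm_num) (by norm_num) (by norm_num) (by norm_num) (by norm_num) (by norm_num) (by norm_num) (by norm_num) (by norm_num) (by norm_num) (by norm_num) (by norm_num) (by norm_num) (by norm_num) (by norm_num) (by norm_num) (by norm_num) (by norm_num) (by norm_num) (by norm_num) (by norm_num) (by norm_num)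

include HP HG t1 t3 t5 in
lemma leaf_pm_66
    (h1 : ‖g1 - ⟨(2691 / 5000), (2691 / 5000)⟩‖ ≤ (309 / 5000))
    (h2 : ‖g2 - ⟨(1 / 5), (1 / 5)⟩‖ ≤ (56569 / 1000000))
    (h3 : ‖g3 - ⟨(37073 / 100000), (25073 / 100000)⟩‖ ≤ (42427 / 500000))
    (h4 : ‖g4 - ⟨(-3 / 25), (7 / 25)⟩‖ ≤ (56569 / 1000000))
    (h5 : ‖g5 - ⟨(-33069 / 100000), (-33069 / 100000)⟩‖ ≤ (1591 / 12500)) : False :=
  kill HP HG h1 h2 h3 h4 h5 t1 t3 t5
    2543 (-1202) (-729) (-985) (-860) 1655 0 2556 (-1231) 1418 (-2280) (-132) 6870 (-222) (-708) (-414) 1572 426 0 (-2531) 1542 (-2801) (-2094) (-500)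
    (-9862637) 4570800 (-8342818) (-4513682) 4208665 14948837 (-3930519) 10678227 (-9869556) (-335676) (-2365638) (-800509) 1034142 11970568 2926620 (-11524614) 10626282 (-15102162) (-13196574) (-3435000)
    4717 226 3032 3646 1338 11764905 10656392 15137528 17816960 4512686
    (by norm_num) (by norm_num) (by norm_num) (by norm_num) (by norm_num) (by norm_num) (by norm_num) (by norm_num) (by norm_num) (by norm_num) (by norm_num) (by norm_num) (by norm_num) (by norm_num) (by norm_num) (by norm_num) (by norm_num) (by norm_num) (by norm_num) (by norm_num) (by norm_num) (by norm_num) (by norm_num) (by norm_num) (by norm_num) (by norm_num) (by norm_num) (by norm_num) (by norm_num) (by norm_num) (by norm_num) (by norm_num) (by norm_num) (by norm_num) (by norm_num) (by norm_num) (by norm_num) (by norm_num) (by norm_num) (by norm_num) (by norm_num)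

include HP HG t1 t3 t5 in
lemma leaf_pm_67
    (h1 : ‖g1 - ⟨(2691 / 5000), (2691 / 5000)⟩‖ ≤ (309 / 5000))
    (h2 : ‖g2 - ⟨(1 / 5), (1 / 5)⟩‖ ≤ (56569 / 1000000))
    (h3 : ‖g3 - ⟨(37073 / 100000), (37073 / 100000)⟩‖ ≤ (42427 / 500000))
    (h4 : ‖g4 - ⟨(-3 / 25), (7 / 25)⟩‖ ≤ (56569 / 1000000))
    (h5 : ‖g5 - ⟨(-33069 / 100000), (-33069 / 100000)⟩‖ ≤ (1591 / 12500)) : False :=
  kill HP HG h1 h2 h3 h4 h5 t1 t3 t5
    2641 (-1158) (-853) (-1514) (-868) 1766 0 3003 (-1348) 1581 (-2876) 14 6092 (-929) (-158) 885 2659 583 0 (-1831) 2173 (-1143) (-2698) (-574)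
    (-11764250) 6213844 (-13155228) (-4295374) 4664006 19457437 (-2374402) 12481059 (-12915026) 36974 (-3579140) (-4802707) 6521831 16708015 3551636 (-14506803) 10726854 (-764252) (-14835497) (-3496808)
    10414 5156 18457309 3254 2414 14941807 11752932 6566458 22343898 4984154
    (by norm_num) (by norm_num) (by norm_num) (by norm_num) (by norm_num) (by norm_num) (by norm_num) (by norm_num) (by norm_num) (by norm_num) (by norm_num) (by norm_num) (by norm_num) (by norm_num) (by norm_num) (by norm_num) (by norm_num) (by norm_num) (by norm_num) (by norm_num) (by norm_num) (by norm_num) (by norm_num) (by norm_num) (by norm_num) (by norm_num) (by norm_num) (by norm_num) (by norm_num) (by norm_num) (by norm_num) (by norm_num) (by norm_num) (by norm_num) (by norm_num) (by norm_num) (by norm_num) (by norm_num) (by norm_num) (by norm_num) (by norm_num)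

include HP HG t1 t3 t5 in
lemma leaf_pm_68
    (h1 : ‖g1 - ⟨(629 / 1250), (629 / 1250)⟩‖ ≤ (24749 / 500000))
    (h2 : ‖g2 - ⟨(9 / 50), (9 / 50)⟩‖ ≤ (5657 / 200000))
    (h3 : ‖g3 - ⟨(25073 / 100000), (25073 / 100000)⟩‖ ≤ (42427 / 500000))
    (h4 : ‖g4 - ⟨(-3 / 25), (7 / 25)⟩‖ ≤ (56569 / 1000000))
    (h5 : ‖g5 - ⟨(-37569 / 100000), (-19569 / 100000)⟩‖ ≤ (1591 / 25000)) : False :=
  kill HP HG h1 h2 h3 h4 h5 t1 t3 t5
    3060 (-1186) (-2949) 592 (-396) 1361 0 3928 (-2057) (-273) (-1106) (-206) 4951 (-1607) 1199 233 321 (-2740) 0 (-3092) 642 (-2888) (-1162) (-1145)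
    (-9639403) (-6493600) (-5653039) (-3635074) 4164660 28889757 (-5599395) 5438895 (-8486052) (-630360) (-9561244) 16798729 210290 9532791 (-13565740) (-19140299) (-1239231) (-11052397) (-12385127) (-5668895)
    4625 2026 5625 1027781 15074875 21395524 16844376 11054398 15628995 14702574
    (by norm_num) (by norm_num) (by norm_num) (by norm_num) (by norm_num) (by norm_num) (by norm_num) (by norm_num) (by norm_num) (by norm_num) (by norm_num) (by norm_num) (by norm_num) (by norm_num) (by norm_num) (by norm_num) (by norm_num) (by norm_num) (by norm_num) (by norm_num) (by norm_num) (by norm_num) (by norm_num) (by norm_num) (by norm_num) (by norm_num) (by norm_num) (by norm_num) (by norm_num) (by norm_num) (by norm_num) (by norm_num) (by norm_num) (by norm_num) (by norm_num) (by norm_num) (by norm_num) (by norm_num) (by norm_num) (by norm_num) (by norm_num)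

include HP HG t1 t3 t5 in
lemma leaf_pm_69
    (h1 : ‖g1 - ⟨(629 / 1250), (629 / 1250)⟩‖ ≤ (24749 / 500000))
    (h2 : ‖g2 - ⟨(9 / 50), (9 / 50)⟩‖ ≤ (5657 / 200000))
    (h3 : ‖g3 - ⟨(25073 / 100000), (25073 / 100000)⟩‖ ≤ (42427 / 500000))
    (h4 : ‖g4 - ⟨(-3 / 25), (7 / 25)⟩‖ ≤ (56569 / 1000000))
    (h5 : ‖g5 - ⟨(-37569 / 100000), (-10569 / 100000)⟩‖ ≤ (1591 / 25000)) : False :=
  kill HP HG h1 h2 h3 h4 h5 t1 t3 t5
    2926 (-1556) (-2651) 734 (-283) 1235 0 3888 (-2437) (-92) (-1005) 16 5156 (-943) 1037 268 (-31) (-2400) 0 (-3102) 1402 (-2320) (-1137) (-2262)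
    (-12105433) (-5152190) (-4632385) (-2687510) 3613610 27980939 (-7741354) 5362171 (-7767206) 46816 (-7887901) 15269107 (-722109) 9120088 (-12374400) (-19916114) 2937985 (-9966785) (-11174106) (-11662872)
    1050 1384502 4049 1381341 15481311 21421265 15549193 9992910 14423476 17004363
    (by norm_num) (by norm_num) (by norm_num) (by norm_num) (by norm_num) (by norm_num) (by norm_num) (by norm_num) (by norm_num) (by norm_num) (by norm_num) (by norm_num) (by norm_num) (by norm_num) (by norm_num) (by norm_num) (by norm_num) (by norm_num) (by norm_num) (by norm_num) (by norm_num) (by norm_num) (by norm_num) (by norm_num) (by norm_num) (by norm_num) (by norm_num) (by norm_num) (by norm_num) (by norm_num) (by norm_num) (by norm_num) (by norm_num) (by norm_num) (by norm_num) (by norm_num) (by norm_num) (by norm_num) (by norm_num) (by norm_num) (by norm_num)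

include HP HG t1 t3 t5 in
lemma leaf_pm_70
    (h1 : ‖g1 - ⟨(629 / 1250), (629 / 1250)⟩‖ ≤ (24749 / 500000))
    (h2 : ‖g2 - ⟨(9 / 50), (9 / 50)⟩‖ ≤ (5657 / 200000))
    (h3 : ‖g3 - ⟨(25073 / 100000), (25073 / 100000)⟩‖ ≤ (42427 / 500000))
    (h4 : ‖g4 - ⟨(-3 / 25), (7 / 25)⟩‖ ≤ (56569 / 1000000))
    (h5 : ‖g5 - ⟨(-28569 / 100000), (-19569 / 100000)⟩‖ ≤ (1591 / 25000)) : False :=
  kill HP HG h1 h2 h3 h4 h5 t1 t3 t5
    2855 (-1485) (-2358) 648 (-474) 1232 0 3886 (-2378) 239 (-1128) 52 5075 25 520 42 94 (-623) 0 (-3737) 2191 (-2381) (-1444) (-2624)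
    (-13294647) (-2154776) (-4858190) (-2980718) 3517360 25513820 (-8390333) 7006469 (-8085212) 148460 (-6070217) 14644501 (-461416) 10267363 (-3161725) (-19280504) 8666349 (-11767884) (-9722051) (-13316800)
    875 3075 1192657 2262 8995547 20213495 17016669 11776927 14139909 13686989
    (by norm_num) (by norm_num) (by norm_num) (by norm_num) (by norm_num) (by norm_num) (by norm_num) (by norm_num) (by norm_num) (by norm_num) (by norm_num) (by norm_num) (by norm_num) (by norm_num) (by norm_num) (by norm_num) (by norm_num) (by norm_num) (by norm_num) (by norm_num) (by norm_num) (by norm_num) (by norm_num) (by norm_num) (by norm_num) (by norm_num) (by norm_num) (by norm_num) (by norm_num) (by norm_num) (by norm_num) (by norm_num) (by norm_num) (by norm_num) (by norm_num) (by norm_num) (by norm_num) (by norm_num) (by norm_num) (by norm_num) (by norm_num)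

include HP HG t1 t3 t5 in
lemma leaf_pm_71
    (h1 : ‖g1 - ⟨(629 / 1250), (629 / 1250)⟩‖ ≤ (24749 / 500000))
    (h2 : ‖g2 - ⟨(9 / 50), (9 / 50)⟩‖ ≤ (5657 / 200000))
    (h3 : ‖g3 - ⟨(25073 / 100000), (25073 / 100000)⟩‖ ≤ (42427 / 500000))
    (h4 : ‖g4 - ⟨(-3 / 25), (7 / 25)⟩‖ ≤ (56569 / 1000000))
    (h5 : ‖g5 - ⟨(-28569 / 100000), (-10569 / 100000)⟩‖ ≤ (1591 / 25000)) : False :=
  kill HP HG h1 h2 h3 h4 h5 t1 t3 t5
    2627 (-1588) (-2215) 668 (-341) 1172 0 3707 (-2638) 256 (-1146) 145 5217 (-137) 836 316 (-2) (-958) 0 (-3112) 2480 (-2200) (-1645) (-3049)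
    (-13675256) (-1332118) (-4930368) (-2219428) 3078844 23949017 (-8377170) 6527008 (-7585406) 380915 (-5102956) 13488320 (-1594322) 9609300 (-4997886) (-18690344) 9781608 (-11431383) (-11145548) (-15906633)
    3558 2299 5479 1779248 10835819 19374445 16661772 11542027 14716042 16673328
    (by norm_num) (by norm_num) (by norm_num) (by norm_num) (by norm_num) (by norm_num) (by norm_num) (by norm_num) (by norm_num) (by norm_num) (by norm_num) (by norm_num) (by norm_num) (by norm_num) (by norm_num) (by norm_num) (by norm_num) (by norm_num) (by norm_num) (by norm_num) (by norm_num) (by norm_num) (by norm_num) (by norm_num) (by norm_num) (by norm_num) (by norm_num) (by norm_num) (by norm_num) (by norm_num) (by norm_num) (by norm_num) (by norm_num) (by norm_num) (by norm_num) (by norm_num) (by norm_num) (by norm_num) (by norm_num) (by norm_num) (by norm_num)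

include HP HG t1 t3 t5 in
lemma leaf_pm_72
    (h1 : ‖g1 - ⟨(629 / 1250), (1433 / 2500)⟩‖ ≤ (24749 / 500000))
    (h2 : ‖g2 - ⟨(9 / 50), (9 / 50)⟩‖ ≤ (5657 / 200000))
    (h3 : ‖g3 - ⟨(25073 / 100000), (25073 / 100000)⟩‖ ≤ (42427 / 500000))
    (h4 : ‖g4 - ⟨(-3 / 25), (7 / 25)⟩‖ ≤ (56569 / 1000000))
    (h5 : ‖g5 - ⟨(-33069 / 100000), (-15069 / 100000)⟩‖ ≤ (1591 / 12500)) : False :=
  kill HP HG h1 h2 h3 h4 h5 t1 t3 t5
    2992 (-1346) (-2586) 423 (-454) 1283 0 4026 (-2299) 108 (-1421) (-28) 5806 (-411) 779 (-110) 1642 (-352) 0 (-1862) 1441 (-3007) (-1853) (-1289)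
    (-12032624) (-2891254) (-7097712) (-3198014) 3838736 27528475 (-6246422) 7085631 (-9379302) (-83776) (-2606470) 12690806 5107 12078242 (-2043712) (-9763938) 4671220 (-14136554) (-10884163) (-7483934)
    15115877 5739 6277 3684 6218092 10105849 13523197 14136555 16258811 7757966
    (by norm_num) (by norm_num) (by norm_num) (by norm_num) (by norm_num) (by norm_num) (by norm_num) (by norm_num) (by norm_num) (by norm_num) (by norm_num) (by norm_num) (by norm_num) (by norm_num) (by norm_num) (by norm_num) (by norm_num) (by norm_num) (by norm_num) (by norm_num) (by norm_num) (by norm_num) (by norm_num) (by norm_num) (by norm_num) (by norm_num) (by norm_num) (by norm_num) (by norm_num) (by norm_num) (by norm_num) (by norm_num) (by norm_num) (by norm_num) (by norm_num) (by norm_num) (by norm_num) (by norm_num) (by norm_num) (by norm_num) (by norm_num)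

include HP HG t1 t3 t5 in
lemma leaf_pm_73
    (h1 : ‖g1 - ⟨(1433 / 2500), (629 / 1250)⟩‖ ≤ (24749 / 500000))
    (h2 : ‖g2 - ⟨(9 / 50), (9 / 50)⟩‖ ≤ (5657 / 200000))
    (h3 : ‖g3 - ⟨(25073 / 100000), (25073 / 100000)⟩‖ ≤ (42427 / 500000))
    (h4 : ‖g4 - ⟨(-3 / 25), (7 / 25)⟩‖ ≤ (56569 / 1000000))
    (h5 : ‖g5 - ⟨(-33069 / 100000), (-15069 / 100000)⟩‖ ≤ (1591 / 12500)) : False :=
  kill HP HG h1 h2 h3 h4 h5 t1 t3 t5
    2563 (-1923) (-1248) 75 (-303) 1045 0 3444 (-2475) 857 (-1728) 248 5976 (-1936) 621 240 1959 213 0 (-881) 2673 (-3318) (-1544) (-326)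
    (-15516120) 4554514 (-7094298) (-1932012) 2678335 18861285 (-7720082) 8839838 (-8504748) 635624 (-17332916) 4391829 (-1737245) 11581822 1272888 (-6775041) 17042199 (-15885100) (-8408155) (-1948176)
    29265275 3851 2951 3232 1983413 18609975 17598998 15979813 14312082 2327152
    (by norm_num) (by norm_num) (by norm_num) (by norm_num) (by norm_num) (by norm_num) (by norm_num) (by norm_num) (by norm_num) (by norm_num) (by norm_num) (by norm_num) (by norm_num) (by norm_num) (by norm_num) (by norm_num) (by norm_num) (by norm_num) (by norm_num) (by norm_num) (by norm_num) (by norm_num) (by norm_num) (by norm_num) (by norm_num) (by norm_num) (by norm_num) (by norm_num) (by norm_num) (by norm_num) (by norm_num) (by norm_num) (by norm_num) (by norm_num) (by norm_num) (by norm_num) (by norm_num) (by norm_num) (by norm_num) (by norm_num) (by norm_num)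

include HP HG t1 t3 t5 in
lemma leaf_pm_74
    (h1 : ‖g1 - ⟨(1433 / 2500), (1433 / 2500)⟩‖ ≤ (24749 / 500000))
    (h2 : ‖g2 - ⟨(9 / 50), (9 / 50)⟩‖ ≤ (5657 / 200000))
    (h3 : ‖g3 - ⟨(25073 / 100000), (25073 / 100000)⟩‖ ≤ (42427 / 500000))
    (h4 : ‖g4 - ⟨(-3 / 25), (7 / 25)⟩‖ ≤ (56569 / 1000000))
    (h5 : ‖g5 - ⟨(-33069 / 100000), (-15069 / 100000)⟩‖ ≤ (1591 / 12500)) : False :=
  kill HP HG h1 h2 h3 h4 h5 t1 t3 t5
    2895 (-1967) (-2542) 1062 (-211) 920 0 4481 (-3243) 195 (-1165) 258 5210 (-1237) 882 189 2159 209 0 (-680) 1858 (-2604) (-1478) (-389)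
    (-19504170) (-3232442) (-4906172) (-1264387) 2663400 33511831 (-12159119) 6129295 (-8002681) 746910 (-8187842) 6342718 (-1219377) 11254377 1088890 (-3077531) 8185545 (-11001854) (-7077067) (-2026690)
    32672741 7949088 1061 2865 2206803 8747112 10355348 11069222 13294581 2300686
    (by norm_num) (by norm_num) (by norm_num) (by norm_num) (by norm_num) (by norm_num) (by norm_num) (by norm_num) (by norm_num) (by norm_num) (by norm_num) (by norm_num) (by norm_num) (by norm_num) (by norm_num) (by norm_num) (by norm_num) (by norm_num) (by norm_num) (by norm_num) (by norm_num) (by norm_num) (by norm_num) (by norm_num) (by norm_num) (by norm_num) (by norm_num) (by norm_num) (by norm_num) (by norm_num) (by norm_num) (by norm_num) (by norm_num) (by norm_num) (by norm_num) (by norm_num) (by norm_num) (by norm_num) (by norm_num) (by norm_num) (by norm_num)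

include HP HG t1 t3 t5 in
lemma leaf_pm_75
    (h1 : ‖g1 - ⟨(2691 / 5000), (2691 / 5000)⟩‖ ≤ (309 / 5000))
    (h2 : ‖g2 - ⟨(9 / 50), (11 / 50)⟩‖ ≤ (5657 / 200000))
    (h3 : ‖g3 - ⟨(25073 / 100000), (25073 / 100000)⟩‖ ≤ (42427 / 500000))
    (h4 : ‖g4 - ⟨(-3 / 25), (7 / 25)⟩‖ ≤ (56569 / 1000000))
    (h5 : ‖g5 - ⟨(-33069 / 100000), (-15069 / 100000)⟩‖ ≤ (1591 / 12500)) : False :=
  kill HP HG h1 h2 h3 h4 h5 t1 t3 t5
    2904 (-1189) (-1943) (-625) (-304) 1464 0 3388 (-1113) 281 (-1827) (-86) 6158 (-1008) 596 862 1994 215 0 (-1595) 2337 (-3299) (-1978) (-866)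
    (-4623172) (-2262362) (-10392254) (-2914880) 4251456 20431556 1405114 5814809 (-10163386) (-249744) (-7345650) 7671279 4557452 13443602 1323970 (-11636148) 13215455 (-16159579) (-10964671) (-5332828)
    4901 10919194 4732 3628 3378218 13760760 15280602 16789949 17348039 5494721
    (by norm_num) (by norm_num) (by norm_num) (by norm_num) (by norm_num) (by norm_num) (by norm_num) (by norm_num) (by norm_num) (by norm_num) (by norm_num) (by norm_num) (by norm_num) (by norm_num) (by norm_num) (by norm_num) (by norm_num) (by norm_num) (by norm_num) (by norm_num) (by norm_num) (by norm_num) (by norm_num) (by norm_num) (by norm_num) (by norm_num) (by norm_num) (by norm_num) (by norm_num) (by norm_num) (by norm_num) (by norm_num) (by norm_num) (by norm_num) (by norm_num) (by norm_num) (by norm_num) (by norm_num) (by norm_num) (by norm_num) (by norm_num)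

include HP HG t1 t3 t5 in
lemma leaf_pm_76
    (h1 : ‖g1 - ⟨(2691 / 5000), (2691 / 5000)⟩‖ ≤ (309 / 5000))
    (h2 : ‖g2 - ⟨(11 / 50), (9 / 50)⟩‖ ≤ (5657 / 200000))
    (h3 : ‖g3 - ⟨(25073 / 100000), (25073 / 100000)⟩‖ ≤ (42427 / 500000))
    (h4 : ‖g4 - ⟨(-3 / 25), (7 / 25)⟩‖ ≤ (56569 / 1000000))
    (h5 : ‖g5 - ⟨(-33069 / 100000), (-15069 / 100000)⟩‖ ≤ (1591 / 12500)) : False :=
  kill HP HG h1 h2 h3 h4 h5 t1 t3 t5
    3094 (-1095) (-3728) 924 126 983 0 4349 (-2104) (-1289) (-526) (-94) 4633 (-1481) (-580) 1179 1123 (-81) 0 (-2624) 2987 (-1602) (-1451) (-1035)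
    (-8220942) (-16485639) (-3033536) (-1095347) 3041402 38903850 (-5710534) (-1541506) (-5799581) (-290836) (-14250034) (-3652497) 4562003 8038660 (-375273) (-21886691) 15442181 (-1484136) (-5402192) (-4795155)
    6336 23653050 2526 1529 3516261 26116867 15868261 4797347 9685233 4809818
    (by norm_num) (by norm_num) (by norm_num) (by norm_num) (by norm_num) (by norm_num) (by norm_num) (by norm_num) (by norm_num) (by norm_num) (by norm_num) (by norm_num) (by norm_num) (by norm_num) (by norm_num) (by norm_num) (by norm_num) (by norm_num) (by norm_num) (by norm_num) (by norm_num) (by norm_num) (by norm_num) (by norm_num) (by norm_num) (by norm_num) (by norm_num) (by norm_num) (by norm_num) (by norm_num) (by norm_num) (by norm_num) (by norm_num) (by norm_num) (by norm_num) (by norm_num) (by norm_num) (by norm_num) (by norm_num) (by norm_num) (by norm_num)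

include HP HG t1 t3 t5 in
lemma leaf_pm_77
    (h1 : ‖g1 - ⟨(2691 / 5000), (2691 / 5000)⟩‖ ≤ (309 / 5000))
    (h2 : ‖g2 - ⟨(11 / 50), (11 / 50)⟩‖ ≤ (5657 / 200000))
    (h3 : ‖g3 - ⟨(25073 / 100000), (25073 / 100000)⟩‖ ≤ (42427 / 500000))
    (h4 : ‖g4 - ⟨(-3 / 25), (7 / 25)⟩‖ ≤ (56569 / 1000000))
    (h5 : ‖g5 - ⟨(-33069 / 100000), (-15069 / 100000)⟩‖ ≤ (1591 / 12500)) : False :=
  kill HP HG h1 h2 h3 h4 h5 t1 t3 t5
    2994 (-835) (-3200) 203 (-146) 1197 0 4135 (-1587) (-790) (-970) (-119) 5552 (-1318) 29 1156 1694 260 0 (-1978) 2793 (-2352) (-1687) (-700)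
    (-5108775) (-10673364) (-6922805) (-1928684) 3583818 30653710 (-1137462) 1328839 (-7754410) (-356286) (-11868496) 573951 5574746 10447008 1443520 (-16615648) 15915295 (-8230586) (-7929344) (-3886400)
    6707 18466398 2959 4587 2300059 20419133 15925641 9940842 13115429 4145824
    (by norm_num) (by norm_num) (by norm_num) (by norm_num) (by norm_num) (by norm_num) (by norm_num) (by norm_num) (by norm_num) (by norm_num) (by norm_num) (by norm_num) (by norm_num) (by norm_num) (by norm_num) (by norm_num) (by norm_num) (by norm_num) (by norm_num) (by norm_num) (by norm_num) (by norm_num) (by norm_num) (by norm_num) (by norm_num) (by norm_num) (by norm_num) (by norm_num) (by norm_num) (by norm_num) (by norm_num) (by norm_num) (by norm_num) (by norm_num) (by norm_num) (by norm_num) (by norm_num) (by norm_num) (by norm_num) (by norm_num) (by norm_num)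

include HP HG t1 t3 t5 in
lemma leaf_pm_78
    (h1 : ‖g1 - ⟨(2691 / 5000), (2691 / 5000)⟩‖ ≤ (309 / 5000))
    (h2 : ‖g2 - ⟨(1 / 5), (1 / 5)⟩‖ ≤ (56569 / 1000000))
    (h3 : ‖g3 - ⟨(25073 / 100000), (37073 / 100000)⟩‖ ≤ (42427 / 500000))
    (h4 : ‖g4 - ⟨(-3 / 25), (7 / 25)⟩‖ ≤ (56569 / 1000000))
    (h5 : ‖g5 - ⟨(-33069 / 100000), (-15069 / 100000)⟩‖ ≤ (1591 / 12500)) : False :=
  kill HP HG h1 h2 h3 h4 h5 t1 t3 t5
    2638 (-1365) (-980) (-839) (-1124) 1592 0 2993 (-1524) 1574 (-2366) (-235) 6096 (-590) 10 1207 1891 484 0 (-1804) 2502 (-2429) (-2781) (-609)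
    (-12415504) 6272703 (-8962480) (-5841547) 4199696 17872840 (-5360634) 13402442 (-10685589) (-619930) (-2535077) (-1144957) 9740228 12340612 2950464 (-14068571) 14544211 (-10972088) (-15720530) (-3712464)
    1086 3108 15657173 1930 1473425 14295150 14589209 14671700 19985640 4742113
    (by norm_num) (by norm_num) (by norm_num) (by norm_num) (by norm_num) (by norm_num) (by norm_num) (by norm_num) (by norm_num) (by norm_num) (by norm_num) (by norm_num) (by norm_num) (by norm_num) (by norm_num) (by norm_num) (by norm_num) (by norm_num) (by norm_num) (by norm_num) (by norm_num) (by norm_num) (by norm_num) (by norm_num) (by norm_num) (by norm_num) (by norm_num) (by norm_num) (by norm_num) (by norm_num) (by norm_num) (by norm_num) (by norm_num) (by norm_num) (by norm_num) (by norm_num) (by norm_num) (by norm_num) (by norm_num) (by norm_num) (by norm_num)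

include HP HG t1 t3 t5 in
lemma leaf_pm_79
    (h1 : ‖g1 - ⟨(2691 / 5000), (2691 / 5000)⟩‖ ≤ (309 / 5000))
    (h2 : ‖g2 - ⟨(1 / 5), (1 / 5)⟩‖ ≤ (56569 / 1000000))
    (h3 : ‖g3 - ⟨(37073 / 100000), (25073 / 100000)⟩‖ ≤ (42427 / 500000))
    (h4 : ‖g4 - ⟨(-3 / 25), (7 / 25)⟩‖ ≤ (56569 / 1000000))
    (h5 : ‖g5 - ⟨(-33069 / 100000), (-15069 / 100000)⟩‖ ≤ (1591 / 12500)) : False :=
  kill HP HG h1 h2 h3 h4 h5 t1 t3 t5
    2818 (-1429) (-1607) (-257) (-553) 1397 0 3420 (-1867) 786 (-1683) 2 6493 (-334) (-502) (-229) 1508 7 0 (-2694) 1495 (-2847) (-1819) (-847)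
    (-11126746) 2200222 (-7938562) (-3547827) 3936746 19275756 (-4931886) 9116200 (-9523292) 5636 (-3785221) 3420203 1640038 12070924 45451 (-14127027) 8913577 (-13400744) (-11509011) (-5499571)
    7187 3301 3608 1426 4269711 14625348 9547233 13500729 16678266 5499759
    (by norm_num) (by norm_num) (by norm_num) (by norm_num) (by norm_num) (by norm_num) (by norm_num) (by norm_num) (by norm_num) (by norm_num) (by norm_num) (by norm_num) (by norm_num) (by norm_num) (by norm_num) (by norm_num) (by norm_num) (by norm_num) (by norm_num) (by norm_num) (by norm_num) (by norm_num) (by norm_num) (by norm_num) (by norm_num) (by norm_num) (by norm_num) (by norm_num) (by norm_num) (by norm_num) (by norm_num) (by norm_num) (by norm_num) (by norm_num) (by norm_num) (by norm_num) (by norm_num) (by norm_num) (by norm_num) (by norm_num) (by norm_num)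

include HP HG t1 t3 t5 in
lemma leaf_pm_80
    (h1 : ‖g1 - ⟨(2691 / 5000), (2691 / 5000)⟩‖ ≤ (309 / 5000))
    (h2 : ‖g2 - ⟨(1 / 5), (1 / 5)⟩‖ ≤ (56569 / 1000000))
    (h3 : ‖g3 - ⟨(37073 / 100000), (37073 / 100000)⟩‖ ≤ (42427 / 500000))
    (h4 : ‖g4 - ⟨(-3 / 25), (7 / 25)⟩‖ ≤ (56569 / 1000000))
    (h5 : ‖g5 - ⟨(-33069 / 100000), (-15069 / 100000)⟩‖ ≤ (1591 / 12500)) : False :=
  kill HP HG h1 h2 h3 h4 h5 t1 t3 t5
    2817 (-1425) (-887) (-1629) (-697) 1769 0 3015 (-1256) 1504 (-2876) 48 5986 (-818) (-334) 641 2655 (-61) 0 (-1899) 2063 (-1445) (-2649) (-856)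
    (-11542323) 5778192 (-13896199) (-4339554) 4983273 20364768 (-1833105) 12615811 (-13503627) 135216 (-4100853) (-4933445) 4950133 17568272 (-365146) (-14824770) 9519047 (-1029296) (-15272545) (-5124016)
    6833 3027 18179788 3315 5172366 15381509 10721527 5056013 23278635 5137010
    (by norm_num) (by norm_num) (by norm_num) (by norm_num) (by norm_num) (by norm_num) (by norm_num) (by norm_num) (by norm_num) (by norm_num) (by norm_num) (by norm_num) (by norm_num) (by norm_num) (by norm_num) (by norm_num) (by norm_num) (by norm_num) (by norm_num) (by norm_num) (by norm_num) (by norm_num) (by norm_num) (by norm_num) (by norm_num) (by norm_num) (by norm_num) (by norm_num) (by norm_num) (by norm_num) (by norm_num) (by norm_num) (by norm_num) (by norm_num) (by norm_num) (by norm_num) (by norm_num) (by norm_num) (by norm_num) (by norm_num) (by norm_num)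

include HP HG t1 t3 t5 in
lemma leaf_pm_81
    (h1 : ‖g1 - ⟨(2691 / 5000), (2691 / 5000)⟩‖ ≤ (309 / 5000))
    (h2 : ‖g2 - ⟨(9 / 50), (9 / 50)⟩‖ ≤ (5657 / 200000))
    (h3 : ‖g3 - ⟨(25073 / 100000), (25073 / 100000)⟩‖ ≤ (42427 / 500000))
    (h4 : ‖g4 - ⟨(-3 / 25), (7 / 25)⟩‖ ≤ (56569 / 1000000))
    (h5 : ‖g5 - ⟨(-15069 / 100000), (-33069 / 100000)⟩‖ ≤ (1591 / 12500)) : False :=
  kill HP HG h1 h2 h3 h4 h5 t1 t3 t5
    2430 (-1467) (-861) (-374) (-499) 1260 0 2873 (-2031) 1028 (-2036) 256 6355 541 (-841) 2 1159 1387 0 (-2863) 2391 (-2699) (-1971) (-1354)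
    (-12958978) 5766555 (-7631011) (-2325502) 3061800 14501870 (-6020401) 9257123 (-8943012) 622080 (-719036) 353604 1878821 11992314 8814385 (-12754850) 16367619 (-17077842) (-9287238) (-8604670)
    3897 1691 2488016 3239 5896824 12775102 16371439 17180881 15168006 12318025
    (by norm_num) (by norm_num) (by norm_num) (by norm_num) (by norm_num) (by norm_num) (by norm_num) (by norm_num) (by norm_num) (by norm_num) (by norm_num) (by norm_num) (by norm_num) (by norm_num) (by norm_num) (by norm_num) (by norm_num) (by norm_num) (by norm_num) (by norm_num) (by norm_num) (by norm_num) (by norm_num) (by norm_num) (by norm_num) (by norm_num) (by norm_num) (by norm_num) (by norm_num) (by norm_num) (by norm_num) (by norm_num) (by norm_num) (by norm_num) (by norm_num) (by norm_num) (by norm_num) (by norm_num) (by norm_num) (by norm_num) (by norm_num)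

include HP HG t1 t3 t5 in
lemma leaf_pm_82
    (h1 : ‖g1 - ⟨(2691 / 5000), (2691 / 5000)⟩‖ ≤ (309 / 5000))
    (h2 : ‖g2 - ⟨(9 / 50), (11 / 50)⟩‖ ≤ (5657 / 200000))
    (h3 : ‖g3 - ⟨(25073 / 100000), (25073 / 100000)⟩‖ ≤ (42427 / 500000))
    (h4 : ‖g4 - ⟨(-3 / 25), (7 / 25)⟩‖ ≤ (56569 / 1000000))
    (h5 : ‖g5 - ⟨(-15069 / 100000), (-33069 / 100000)⟩‖ ≤ (1591 / 12500)) : False :=
  kill HP HG h1 h2 h3 h4 h5 t1 t3 t5
    2436 (-706) (-972) (-1282) (-728) 1599 0 2692 (-897) 1052 (-2444) (-14) 6295 (-483) 169 690 1902 1163 0 (-1623) 3095 (-2967) (-2159) (-1323)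
    (-5913496) 2204522 (-10729902) (-2939990) 3895164 15452332 581692 7695823 (-10248208) (-34104) (-4425036) 3913170 3030803 13558590 7321085 (-9926261) 18322146 (-18370594) (-11064347) (-8328285)
    9246 9949340 4080 1984 4492956 10867917 18735366 18618929 17500147 11088671
    (by norm_num) (by norm_num) (by norm_num) (by norm_num) (by norm_num) (by norm_num) (by norm_num) (by norm_num) (by norm_num) (by norm_num) (by norm_num) (by norm_num) (by norm_num) (by norm_num) (by norm_num) (by norm_num) (by norm_num) (by norm_num) (by norm_num) (by norm_num) (by norm_num) (by norm_num) (by norm_num) (by norm_num) (by norm_num) (by norm_num) (by norm_num) (by norm_num) (by norm_num) (by norm_num) (by norm_num) (by norm_num) (by norm_num) (by norm_num) (by norm_num) (by norm_num) (by norm_num) (by norm_num) (by norm_num) (by norm_num) (by norm_num)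

include HP HG t1 t3 t5 in
lemma leaf_pm_83
    (h1 : ‖g1 - ⟨(2691 / 5000), (2691 / 5000)⟩‖ ≤ (309 / 5000))
    (h2 : ‖g2 - ⟨(11 / 50), (9 / 50)⟩‖ ≤ (5657 / 200000))
    (h3 : ‖g3 - ⟨(25073 / 100000), (25073 / 100000)⟩‖ ≤ (42427 / 500000))
    (h4 : ‖g4 - ⟨(-3 / 25), (7 / 25)⟩‖ ≤ (56569 / 1000000))
    (h5 : ‖g5 - ⟨(-15069 / 100000), (-33069 / 100000)⟩‖ ≤ (1591 / 12500)) : False :=
  kill HP HG h1 h2 h3 h4 h5 t1 t3 t5
    2905 (-1072) (-3466) 810 57 1030 0 4307 (-2067) (-974) (-580) 31 5022 (-1259) (-970) 1159 1472 568 0 (-2368) 3133 (-1570) (-1524) (-882)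
    (-8443559) (-13326664) (-3840171) (-805058) 2992150 34890760 (-5292748) (-431645) (-6154342) 90055 (-12284460) (-6772241) 4261816 8765848 2852496 (-20129698) 17191094 (-3404132) (-5198066) (-4429404)
    1068 22495862 4286 2917 921068 23582042 18476931 5454466 10191172 5268430
    (by norm_num) (by norm_num) (by norm_num) (by norm_num) (by norm_num) (by norm_num) (by norm_num) (by norm_num) (by norm_num) (by norm_num) (by norm_num) (by norm_num) (by norm_num) (by norm_num) (by norm_num) (by norm_num) (by norm_num) (by norm_num) (by norm_num) (by norm_num) (by norm_num) (by norm_num) (by norm_num) (by norm_num) (by norm_num) (by norm_num) (by norm_num) (by norm_num) (by norm_num) (by norm_num) (by norm_num) (by norm_num) (by norm_num) (by norm_num) (by norm_num) (by norm_num) (by norm_num) (by norm_num) (by norm_num) (by norm_num) (by norm_num)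

include HP HG t1 t3 t5 in
lemma leaf_pm_84
    (h1 : ‖g1 - ⟨(2691 / 5000), (2691 / 5000)⟩‖ ≤ (309 / 5000))
    (h2 : ‖g2 - ⟨(11 / 50), (11 / 50)⟩‖ ≤ (5657 / 200000))
    (h3 : ‖g3 - ⟨(25073 / 100000), (25073 / 100000)⟩‖ ≤ (42427 / 500000))
    (h4 : ‖g4 - ⟨(-3 / 25), (7 / 25)⟩‖ ≤ (56569 / 1000000))
    (h5 : ‖g5 - ⟨(-15069 / 100000), (-33069 / 100000)⟩‖ ≤ (1591 / 12500)) : False :=
  kill HP HG h1 h2 h3 h4 h5 t1 t3 t5
    2868 (-784) (-3182) 275 (-196) 1208 0 4059 (-1656) (-691) (-1052) (-123) 5622 (-1123) (-25) 1039 1642 406 0 (-1988) 2945 (-2318) (-1755) (-869)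
    (-5640622) (-9363368) (-6967872) (-2008457) 3464544 29379604 (-1500098) 2030378 (-7823976) (-352764) (-11026701) 527488 4916877 10502958 2282532 (-16267033) 16471838 (-8970580) (-8083595) (-4885518)
    633 17436269 4548 3261 598921 19652087 16480282 10229711 13253552 5392425
    (by norm_num) (by norm_num) (by norm_num) (by norm_num) (by norm_num) (by norm_num) (by norm_num) (by norm_num) (by norm_num) (by norm_num) (by norm_num) (by norm_num) (by norm_num) (by norm_num) (by norm_num) (by norm_num) (by norm_num) (by norm_num) (by norm_num) (by norm_num) (by norm_num) (by norm_num) (by norm_num) (by norm_num) (by norm_num) (by norm_num) (by norm_num) (by norm_num) (by norm_num) (by norm_num) (by norm_num) (by norm_num) (by norm_num) (by norm_num) (by norm_num) (by norm_num) (by norm_num) (by norm_num) (by norm_num) (by norm_num) (by norm_num)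

include HP HG t1 t3 t5 in
lemma leaf_pm_85
    (h1 : ‖g1 - ⟨(2691 / 5000), (2691 / 5000)⟩‖ ≤ (309 / 5000))
    (h2 : ‖g2 - ⟨(1 / 5), (1 / 5)⟩‖ ≤ (56569 / 1000000))
    (h3 : ‖g3 - ⟨(25073 / 100000), (37073 / 100000)⟩‖ ≤ (42427 / 500000))
    (h4 : ‖g4 - ⟨(-3 / 25), (7 / 25)⟩‖ ≤ (56569 / 1000000))
    (h5 : ‖g5 - ⟨(-15069 / 100000), (-33069 / 100000)⟩‖ ≤ (1591 / 12500)) : False :=
  kill HP HG h1 h2 h3 h4 h5 t1 t3 t5
    2710 (-1510) (-1280) (-621) (-937) 1502 0 3232 (-1786) 1311 (-2156) (-133) 6021 (-464) (-24) 1076 1808 363 0 (-1943) 2572 (-2470) (-2625) (-891)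
    (-12843483) 5648933 (-8921254) (-5237146) 4070420 18735570 (-5612929) 12689566 (-10496394) (-360430) (-2734331) (-48092) 8439695 12448749 2185623 (-14663828) 14073478 (-11053178) (-14686392) (-5364711)
    8587 2792 13855557 590 233191 14916582 14073561 13906876 19252571 5792847
    (by norm_num) (by norm_num) (by norm_num) (by norm_num) (by norm_num) (by norm_num) (by norm_num) (by norm_num) (by norm_num) (by norm_num) (by norm_num) (by norm_num) (by norm_num) (by norm_num) (by norm_num) (by norm_num) (by norm_num) (by norm_num) (by norm_num) (by norm_num) (by norm_num) (by norm_num) (by norm_num) (by norm_num) (by norm_num) (by norm_num) (by norm_num) (by norm_num) (by norm_num) (by norm_num) (by norm_num) (by norm_num) (by norm_num) (by norm_num) (by norm_num) (by norm_num) (by norm_num) (by norm_num) (by norm_num) (by norm_num) (by norm_num)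

include HP HG t1 t3 t5 in
lemma leaf_pm_86
    (h1 : ‖g1 - ⟨(2691 / 5000), (2691 / 5000)⟩‖ ≤ (309 / 5000))
    (h2 : ‖g2 - ⟨(1 / 5), (1 / 5)⟩‖ ≤ (56569 / 1000000))
    (h3 : ‖g3 - ⟨(37073 / 100000), (25073 / 100000)⟩‖ ≤ (42427 / 500000))
    (h4 : ‖g4 - ⟨(-3 / 25), (7 / 25)⟩‖ ≤ (56569 / 1000000))
    (h5 : ‖g5 - ⟨(-15069 / 100000), (-33069 / 100000)⟩‖ ≤ (1591 / 12500)) : False :=
  kill HP HG h1 h2 h3 h4 h5 t1 t3 t5
    2450 (-1428) (-1013) (-545) (-584) 1439 0 3008 (-1830) 1126 (-2069) 166 6612 106 (-756) (-185) 1482 878 0 (-2711) 1959 (-2624) (-1967) (-1001)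
    (-12260415) 5463941 (-8486337) (-2986364) 3525550 15557492 (-5135675) 9935116 (-9634610) 406700 (-1533268) (-414169) 1641682 12605763 5805336 (-12924628) 13246100 (-14503934) (-10731652) (-6618612)
    5141 2908 5882 2034 2972520 13015258 13252574 14596549 16555169 8803860
    (by norm_num) (by norm_num) (by norm_num) (by norm_num) (by norm_num) (by norm_num) (by norm_num) (by norm_num) (by norm_num) (by norm_num) (by norm_num) (by norm_num) (by norm_num) (by norm_num) (by norm_num) (by norm_num) (by norm_num) (by norm_num) (by norm_num) (by norm_num) (by norm_num) (by norm_num) (by norm_num) (by norm_num) (by norm_num) (by norm_num) (by norm_num) (by norm_num) (by norm_num) (by norm_num) (by norm_num) (by norm_num) (by norm_num) (by norm_num) (by norm_num) (by norm_num) (by norm_num) (by norm_num) (by norm_num) (by norm_num) (by norm_num)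

include HP HG t1 t3 t5 in
lemma leaf_pm_87
    (h1 : ‖g1 - ⟨(2691 / 5000), (2691 / 5000)⟩‖ ≤ (309 / 5000))
    (h2 : ‖g2 - ⟨(1 / 5), (1 / 5)⟩‖ ≤ (56569 / 1000000))
    (h3 : ‖g3 - ⟨(37073 / 100000), (37073 / 100000)⟩‖ ≤ (42427 / 500000))
    (h4 : ‖g4 - ⟨(-3 / 25), (7 / 25)⟩‖ ≤ (56569 / 1000000))
    (h5 : ‖g5 - ⟨(-15069 / 100000), (-33069 / 100000)⟩‖ ≤ (1591 / 12500)) : False :=
  kill HP HG h1 h2 h3 h4 h5 t1 t3 t5
    2728 (-1418) (-735) (-1625) (-622) 1671 0 2983 (-1291) 1555 (-2847) 134 6023 (-772) (-337) 709 2619 508 0 (-1938) 2312 (-1362) (-2587) (-913)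
    (-12327452) 6563377 (-13444784) (-3666572) 4558488 19187541 (-2406075) 12193283 (-12941221) 365552 (-3185377) (-5197612) 4979993 17151455 3059684 (-14634814) 11211952 (-1997355) (-13892161) (-5498999)
    6739 563 16610640 4025 960 14977464 12358117 5365609 22071805 6292906
    (by norm_num) (by norm_num) (by norm_num) (by norm_num) (by norm_num) (by norm_num) (by norm_num) (by norm_num) (by norm_num) (by norm_num) (by norm_num) (by norm_num) (by norm_num) (by norm_num) (by norm_num) (by norm_num) (by norm_num) (by norm_num) (by norm_num) (by norm_num) (by norm_num) (by norm_num) (by norm_num) (by norm_num) (by norm_num) (by norm_num) (by norm_num) (by norm_num) (by norm_num) (by norm_num) (by norm_num) (by norm_num) (by norm_num) (by norm_num) (by norm_num) (by norm_num) (by norm_num) (by norm_num) (by norm_num) (by norm_num) (by norm_num)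

include HP HG t1 t3 t5 in
lemma leaf_pm_88
    (h1 : ‖g1 - ⟨(2691 / 5000), (2691 / 5000)⟩‖ ≤ (309 / 5000))
    (h2 : ‖g2 - ⟨(1 / 5), (1 / 5)⟩‖ ≤ (56569 / 1000000))
    (h3 : ‖g3 - ⟨(31073 / 100000), (31073 / 100000)⟩‖ ≤ (593 / 5000))
    (h4 : ‖g4 - ⟨(-3 / 25), (7 / 25)⟩‖ ≤ (56569 / 1000000))
    (h5 : ‖g5 - ⟨(-15069 / 100000), (-15069 / 100000)⟩‖ ≤ (1591 / 12500)) : False :=
  kill HP HG h1 h2 h3 h4 h5 t1 t3 t5
    2587 (-1505) (-1501) 145 (-564) 1171 0 3453 (-2440) 891 (-1598) 214 5535 873 (-454) 47 185 788 0 (-3332) 2740 (-1980) (-1695) (-2853)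
    (-14959449) 4081464 (-6573790) (-2482481) 3029377 18825849 (-8143813) 9193525 (-8499559) 553618 (-1794095) 5083187 (-2105582) 11218095 4361580 (-15698698) 15282743 (-12686473) (-9246878) (-15791355)
    8201 3041 2003 3884 5025380 15800883 16105932 12860019 14537896 16382622
    (by norm_num) (by norm_num) (by norm_num) (by norm_num) (by norm_num) (by norm_num) (by norm_num) (by norm_num) (by norm_num) (by norm_num) (by norm_num) (by norm_num) (by norm_num) (by norm_num) (by norm_num) (by norm_num) (by norm_num) (by norm_num) (by norm_num) (by norm_num) (by norm_num) (by norm_num) (by norm_num) (by norm_num) (by norm_num) (by norm_num) (by norm_num) (by norm_num) (by norm_num) (by norm_num) (by norm_num) (by norm_num) (by norm_num) (by norm_num) (by norm_num) (by norm_num) (by norm_num) (by norm_num) (by norm_num) (by norm_num) (by norm_num)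

include HP HG t1 t3 t5 in
lemma leaf_pm_89
    (h1 : ‖g1 - ⟨(2691 / 5000), (2691 / 5000)⟩‖ ≤ (309 / 5000))
    (h2 : ‖g2 - ⟨(1 / 5), (1 / 5)⟩‖ ≤ (56569 / 1000000))
    (h3 : ‖g3 - ⟨(31073 / 100000), (31073 / 100000)⟩‖ ≤ (593 / 5000))
    (h4 : ‖g4 - ⟨(-1 / 25), (1 / 5)⟩‖ ≤ (56569 / 1000000))
    (h5 : ‖g5 - ⟨(-24069 / 100000), (-24069 / 100000)⟩‖ ≤ (9 / 50)) : False :=
  kill HP HG h1 h2 h3 h4 h5 t1 t3 t5
    3228 (-1679) (-2198) (-28) (-714) 1598 0 3987 (-2267) 729 (-1837) (-101) 4846 763 (-1068) (-216) (-1093) 1036 0 (-3935) 1676 (-2491) (-721) (-1176)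
    (-14633614) 1473869 (-9499134) (-5390521) 5158344 27353519 (-7173257) 12128917 (-12131483) (-326028) (-5909027) 7126317 (-2120984) 121350 5020456 (-19505001) 10807891 (-17402832) (-314594) (-5698896)
    2404 1311 4824 13160895 1826 20380424 12945845 17531604 337188 7594893
    (by norm_num) (by norm_num) (by norm_num) (by norm_num) (by norm_num) (by norm_num) (by norm_num) (by norm_num) (by norm_num) (by norm_num) (by norm_num) (by norm_num) (by norm_num) (by norm_num) (by norm_num) (by norm_num) (by norm_num) (by norm_num) (by norm_num) (by norm_num) (by norm_num) (by norm_num) (by norm_num) (by norm_num) (by norm_num) (by norm_num) (by norm_num) (by norm_num) (by norm_num) (by norm_num) (by norm_num) (by norm_num) (by norm_num) (by norm_num) (by norm_num) (by norm_num) (by norm_num) (by norm_num) (by norm_num) (by norm_num) (by norm_num)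

include HP HG t1 t3 t5 in
lemma leaf_pm_90
    (h1 : ‖g1 - ⟨(629 / 1250), (629 / 1250)⟩‖ ≤ (24749 / 500000))
    (h2 : ‖g2 - ⟨(9 / 50), (9 / 50)⟩‖ ≤ (5657 / 200000))
    (h3 : ‖g3 - ⟨(25073 / 100000), (25073 / 100000)⟩‖ ≤ (42427 / 500000))
    (h4 : ‖g4 - ⟨(-1 / 25), (7 / 25)⟩‖ ≤ (56569 / 1000000))
    (h5 : ‖g5 - ⟨(-37569 / 100000), (-37569 / 100000)⟩‖ ≤ (1591 / 25000)) : False :=
  kill HP HG h1 h2 h3 h4 h5 t1 t3 t5
    2540 (-528) (-1041) (-882) (-1335) 1744 0 2072 (-451) 988 (-1698) (-823) 7427 (-782) (-595) (-475) 2055 78 0 (-2331) 188 (-2602) (-1532) 1542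
    (-2684310) (-327107) (-6497987) (-6016988) 4429760 13108303 328647 7815471 (-7491944) (-2090420) (-5179318) (-3542428) (-1320257) 11607087 579306 (-7845692) 2319521 (-14268979) (-12402190) 11452434
    874 2439963 5092 385 16812066 9401076 4234262 14329929 16986430 11467077
    (by norm_num) (by norm_num) (by norm_num) (by norm_num) (by norm_num) (by norm_num) (by norm_num) (by norm_num) (by norm_num) (by norm_num) (by norm_num) (by norm_num) (by norm_num) (by norm_num) (by norm_num) (by norm_num) (by norm_num) (by norm_num) (by norm_num) (by norm_num) (by norm_num) (by norm_num) (by norm_num) (by norm_num) (by norm_num) (by norm_num) (by norm_num) (by norm_num) (by norm_num) (by norm_num) (by norm_num) (by norm_num) (by norm_num) (by norm_num) (by norm_num) (by norm_num) (by norm_num) (by norm_num) (by norm_num) (by norm_num) (by norm_num)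

include HP HG t1 t3 t5 in
lemma leaf_pm_91
    (h1 : ‖g1 - ⟨(4857 / 10000), (4857 / 10000)⟩‖ ≤ (24749 / 1000000))
    (h2 : ‖g2 - ⟨(9 / 50), (9 / 50)⟩‖ ≤ (5657 / 200000))
    (h3 : ‖g3 - ⟨(25073 / 100000), (25073 / 100000)⟩‖ ≤ (42427 / 500000))
    (h4 : ‖g4 - ⟨(-1 / 25), (7 / 25)⟩‖ ≤ (56569 / 1000000))
    (h5 : ‖g5 - ⟨(-37569 / 100000), (-28569 / 100000)⟩‖ ≤ (1591 / 25000)) : False :=
  kill HP HG h1 h2 h3 h4 h5 t1 t3 t5
    2373 (-729) (-905) (-503) (-1142) 1574 0 2414 (-938) 1115 (-1544) (-432) 7109 (-1151) (-936) (-677) 1555 (-274) 0 (-3406) 1028 (-2892) (-1323) 25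
    (-6202793) 2119112 (-5107571) (-4900260) 3735102 12089567 (-3036057) 8395631 (-7148620) (-1025136) (-10631559) 1273029 (-1814296) 11284719 (-1947866) (-20112526) 7161337 (-13481853) (-10367226) 177725
    18027791 749 1038441 2617 5300436 22749588 7273607 13603384 15323977 1955958
    (by norm_num) (by norm_num) (by norm_num) (by norm_num) (by norm_num) (by norm_num) (by norm_num) (by norm_num) (by norm_num) (by norm_num) (by norm_num) (by norm_num) (by norm_num) (by norm_num) (by norm_num) (by norm_num) (by norm_num) (by norm_num) (by norm_num) (by norm_num) (by norm_num) (by norm_num) (by norm_num) (by norm_num) (by norm_num) (by norm_num) (by norm_num) (by norm_num) (by norm_num) (by norm_num) (by norm_num) (by norm_num) (by norm_num) (by norm_num) (by norm_num) (by norm_num) (by norm_num) (by norm_num) (by norm_num) (by norm_num) (by norm_num)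

include HP HG t1 t3 t5 in
lemma leaf_pm_92
    (h1 : ‖g1 - ⟨(4857 / 10000), (5207 / 10000)⟩‖ ≤ (24749 / 1000000))
    (h2 : ‖g2 - ⟨(9 / 50), (9 / 50)⟩‖ ≤ (5657 / 200000))
    (h3 : ‖g3 - ⟨(25073 / 100000), (25073 / 100000)⟩‖ ≤ (42427 / 500000))
    (h4 : ‖g4 - ⟨(-1 / 25), (7 / 25)⟩‖ ≤ (56569 / 1000000))
    (h5 : ‖g5 - ⟨(-37569 / 100000), (-28569 / 100000)⟩‖ ≤ (1591 / 25000)) : False :=
  kill HP HG h1 h2 h3 h4 h5 t1 t3 t5
    2631 (-966) (-1737) (-200) (-959) 1607 0 2918 (-1286) 625 (-1570) (-465) 6975 (-718) (-478) (-680) 1857 (-193) 0 (-2558) 774 (-3048) (-1601) (-80)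
    (-6673015) 519681 (-6374435) (-5432361) 4228017 16527575 (-2821175) 8833664 (-8370706) (-1223415) (-5292083) 3199234 (-1950634) 13295789 (-1346175) (-11345979) 4641770 (-15172454) (-11603229) (-558000)
    5449 1629 355657 3659 4920801 12519481 5637476 15297331 17646896 1457241
    (by norm_num) (by norm_num) (by norm_num) (by norm_num) (by norm_num) (by norm_num) (by norm_num) (by norm_num) (by norm_num) (by norm_num) (by norm_num) (by norm_num) (by norm_num) (by norm_num) (by norm_num) (by norm_num) (by norm_num) (by norm_num) (by norm_num) (by norm_num) (by norm_num) (by norm_num) (by norm_num) (by norm_num) (by norm_num) (by norm_num) (by norm_num) (by norm_num) (by norm_num) (by norm_num) (by norm_num) (by norm_num) (by norm_num) (by norm_num) (by norm_num) (by norm_num) (by norm_num) (by norm_num) (by norm_num) (by norm_num) (by norm_num)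

include HP HG t1 t3 t5 in
lemma leaf_pm_93
    (h1 : ‖g1 - ⟨(5207 / 10000), (4857 / 10000)⟩‖ ≤ (24749 / 1000000))
    (h2 : ‖g2 - ⟨(9 / 50), (9 / 50)⟩‖ ≤ (5657 / 200000))
    (h3 : ‖g3 - ⟨(25073 / 100000), (25073 / 100000)⟩‖ ≤ (42427 / 500000))
    (h4 : ‖g4 - ⟨(-1 / 25), (7 / 25)⟩‖ ≤ (56569 / 1000000))
    (h5 : ‖g5 - ⟨(-37569 / 100000), (-28569 / 100000)⟩‖ ≤ (1591 / 25000)) : False :=
  kill HP HG h1 h2 h3 h4 h5 t1 t3 t5
    2370 (-1229) (-913) (-70) (-1144) 1414 0 2520 (-1567) 1249 (-1658) (-346) 6629 (-2665) 22 (-180) 1511 (-813) 0 (-2189) 1950 (-3343) (-1192) 523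
    (-10667476) 4181124 (-3686884) (-5321006) 3351180 13234128 (-7093171) 10412328 (-7067506) (-820020) (-26655258) 4050158 (-1608783) 11038217 (-5389377) (-14295029) 15656952 (-14079632) (-11075220) 3466967
    36891422 3017 3614737 1943 9387971 30246498 16172320 14171247 15636584 6408217
    (by norm_num) (by norm_num) (by norm_num) (by norm_num) (by norm_num) (by norm_num) (by norm_num) (by norm_num) (by norm_num) (by norm_num) (by norm_num) (by norm_num) (by norm_num) (by norm_num) (by norm_num) (by norm_num) (by norm_num) (by norm_num) (by norm_num) (by norm_num) (by norm_num) (by norm_num) (by norm_num) (by norm_num) (by norm_num) (by norm_num) (by norm_num) (by norm_num) (by norm_num) (by norm_num) (by norm_num) (by norm_num) (by norm_num) (by norm_num) (by norm_num) (by norm_num) (by norm_num) (by norm_num) (by norm_num) (by norm_num) (by norm_num)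

include HP HG t1 t3 t5 in
lemma leaf_pm_94
    (h1 : ‖g1 - ⟨(5207 / 10000), (5207 / 10000)⟩‖ ≤ (24749 / 1000000))
    (h2 : ‖g2 - ⟨(9 / 50), (9 / 50)⟩‖ ≤ (5657 / 200000))
    (h3 : ‖g3 - ⟨(25073 / 100000), (25073 / 100000)⟩‖ ≤ (42427 / 500000))
    (h4 : ‖g4 - ⟨(-1 / 25), (7 / 25)⟩‖ ≤ (56569 / 1000000))
    (h5 : ‖g5 - ⟨(-37569 / 100000), (-28569 / 100000)⟩‖ ≤ (1591 / 25000)) : False :=
  kill HP HG h1 h2 h3 h4 h5 t1 t3 t5
    2783 (-928) (-1701) (-157) (-1007) 1515 0 3268 (-1542) 542 (-1425) (-362) 6784 (-1060) (-113) (-480) 1972 (-194) 0 (-2153) 1000 (-3156) (-1652) (-39)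
    (-8236065) 659267 (-6178146) (-5391417) 4216245 18213580 (-4174451) 9073554 (-8580859) (-1007446) (-8377008) 4878444 (-1806962) 13667655 (-1316096) (-8453417) 6717052 (-15215061) (-11583510) (-264576)
    8185322 2633 765937 1959 5054278 11901031 8301687 15321984 17915985 1342427
    (by norm_num) (by norm_num) (by norm_num) (by norm_num) (by norm_num) (by norm_num) (by norm_num) (by norm_num) (by norm_num) (by norm_num) (by norm_num) (by norm_num) (by norm_num) (by norm_num) (by norm_num) (by norm_num) (by norm_num) (by norm_num) (by norm_num) (by norm_num) (by norm_num) (by norm_num) (by norm_num) (by norm_num) (by norm_num) (by norm_num) (by norm_num) (by norm_num) (by norm_num) (by norm_num) (by norm_num) (by norm_num) (by norm_num) (by norm_num) (by norm_num) (by norm_num) (by norm_num) (by norm_num) (by norm_num) (by norm_num) (by norm_num)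

include HP HG t1 t3 t5 in
lemma leaf_pm_95
    (h1 : ‖g1 - ⟨(629 / 1250), (629 / 1250)⟩‖ ≤ (24749 / 500000))
    (h2 : ‖g2 - ⟨(9 / 50), (9 / 50)⟩‖ ≤ (5657 / 200000))
    (h3 : ‖g3 - ⟨(25073 / 100000), (25073 / 100000)⟩‖ ≤ (42427 / 500000))
    (h4 : ‖g4 - ⟨(-1 / 25), (7 / 25)⟩‖ ≤ (56569 / 1000000))
    (h5 : ‖g5 - ⟨(-28569 / 100000), (-37569 / 100000)⟩‖ ≤ (1591 / 25000)) : False :=
  kill HP HG h1 h2 h3 h4 h5 t1 t3 t5
    2350 (-859) (-742) (-822) (-1076) 1660 0 2431 (-1219) 1188 (-2054) (-328) 7094 (-299) (-677) (-533) 1891 676 0 (-2594) 1264 (-2983) (-1732) (-237)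
    (-7851037) 3398460 (-6832578) (-4751908) 3901000 13409503 (-3376900) 9438858 (-8580608) (-770800) (-2759717) (-28161) (-610923) 13827408 4795544 (-10556033) 9401300 (-16432295) (-10462401) (-1681278)
    9802 4633 1417383 886 3414962 10910815 9401343 16443648 17339523 5081726
    (by norm_num) (by norm_num) (by norm_num) (by norm_num) (by norm_num) (by norm_num) (by norm_num) (by norm_num) (by norm_num) (by norm_num) (by norm_num) (by norm_num) (by norm_num) (by norm_num) (by norm_num) (by norm_num) (by norm_num) (by norm_num) (by norm_num) (by norm_num) (by norm_num) (by norm_num) (by norm_num) (by norm_num) (by norm_num) (by norm_num) (by norm_num) (by norm_num) (by norm_num) (by norm_num) (by norm_num) (by norm_num) (by norm_num) (by norm_num) (by norm_num) (by norm_num) (by norm_num) (by norm_num) (by norm_num) (by norm_num) (by norm_num)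

end

end Pool.Agent.H893R3.Dig
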