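import Pool.Agent.H893R3.Dig.J4

/-!
# Certificates
-/

set_option autoImplicit false
set_option linter.unusedVariables false
set_option maxRecDepth 4000

namespace Pool.Agent.H893R3.Dig

section
variable {g1 g2 g3 g4 g5 c1 c3 c5 : ℂ}
    (HP : ∀ q : Fin 6 → ℂ, 0 ≤ nn q + 2 * (A1 q * g1 + A2 q * g2 + A3 q * g3 + A4 q * g4 +
      A5 q * g5).re)
    (HG : ∀ p : Fin 6 → ℂ, 0 ≤ (901 / 10000) * nn p + 2 * (A1 p * (g1 ^ 2 - c1) + A2 p * g2 ^ 2 +
      A3 p * (g3 ^ 2 - c3) + A4 p * g4 ^ 2 + A5 p * (g5 ^ 2 - c5)).re)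
    (t1 : ‖(⟨0, (7241481 / 12500000)⟩ : ℂ) - c1‖ ≤ 1 / 100000) (t3 : ‖(⟨0, (965531329 / 5000000000)⟩ : ℂ) - c3‖ ≤ 1 / 100000)
    (t5 : ‖(⟨0, (579316761 / 5000000000)⟩ : ℂ) - c5‖ ≤ 1 / 100000)

include HP HG t1 t3 t5 in
lemma leaf_pm_96
    (h1 : ‖g1 - ⟨(629 / 1250), (629 / 1250)⟩‖ ≤ (24749 / 500000))
    (h2 : ‖g2 - ⟨(9 / 50), (9 / 50)⟩‖ ≤ (5657 / 200000))
    (h3 : ‖g3 - ⟨(25073 / 100000), (25073 / 100000)⟩‖ ≤ (42427 / 500000))
    (h4 : ‖g4 - ⟨(-1 / 25), (7 / 25)⟩‖ ≤ (56569 / 1000000))
    (h5 : ‖g5 - ⟨(-28569 / 100000), (-28569 / 100000)⟩‖ ≤ (1591 / 25000)) : False :=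
  kill HP HG h1 h2 h3 h4 h5 t1 t3 t5
    2487 (-784) (-1426) (-256) (-1195) 1678 0 2769 (-1488) 856 (-1639) (-461) 6885 (-326) (-498) (-649) 1682 385 0 (-2635) 1459 (-3008) (-1898) (-676)
    (-8207463) 2343224 (-5945043) (-5564026) 4173186 15143746 (-4422194) 9877053 (-8361151) (-1146507) (-3443913) 2885649 (-1193481) 13236320 2650725 (-11600008) 9403678 (-15884329) (-11832879) (-4654260)
    3641 3812 1935493 4108 1878 12100444 9836470 15929103 17754358 5356163
    (by norm_num) (by norm_num) (by norm_num) (by norm_num) (by norm_num) (by norm_num) (by norm_num) (by norm_num) (by norm_num) (by norm_num) (by norm_num) (by norm_num) (by norm_num) (by norm_num) (by norm_num) (by norm_num) (by norm_num) (by norm_num) (by norm_num) (by norm_num) (by norm_num) (by norm_num) (by norm_num) (by norm_num) (by norm_num) (by norm_num) (by norm_num) (by norm_num) (by norm_num) (by norm_num) (by norm_num) (by norm_num) (by norm_num) (by norm_num) (by norm_num) (by norm_num) (by norm_num)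 (by norm_num) (by norm_num) (by norm_num) (by norm_num)

include HP HG t1 t3 t5 in
lemma leaf_pm_97
    (h1 : ‖g1 - ⟨(629 / 1250), (1433 / 2500)⟩‖ ≤ (24749 / 500000))
    (h2 : ‖g2 - ⟨(9 / 50), (9 / 50)⟩‖ ≤ (5657 / 200000))
    (h3 : ‖g3 - ⟨(25073 / 100000), (25073 / 100000)⟩‖ ≤ (42427 / 500000))
    (h4 : ‖g4 - ⟨(-1 / 25), (7 / 25)⟩‖ ≤ (56569 / 1000000))
    (h5 : ‖g5 - ⟨(-33069 / 100000), (-33069 / 100000)⟩‖ ≤ (1591 / 12500)) : False :=
  kill HP HG h1 h2 h3 h4 h5 t1 t3 t5
    2896 (-1231) (-1987) (-8) (-732) 1508 0 3500 (-1711) 473 (-1437) (-299) 6648 (-314) 176 (-496) 2048 398 0 (-1893) 1051 (-2925) (-1805) (-595)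
    (-9248924) (-329304) (-6636383) (-5022720) 4367168 20986798 (-4617344) 8875056 (-9071483) (-865904) (-1140854) 6869177 (-1078912) 14616467 2645904 (-6189504) 5955712 (-15524784) (-11059396) (-3955560)
    13849070 597 818899 1944 1127 6293768 9091540 15562229 18328976 4758915
    (by norm_num) (by norm_num) (by norm_num) (by norm_num) (by norm_num) (by norm_num) (by norm_num) (by norm_num) (by norm_num) (by norm_num) (by norm_num) (by norm_num) (by norm_num) (by norm_num) (by norm_num) (by norm_num) (by norm_num) (by norm_num) (by norm_num) (by norm_num) (by norm_num) (by norm_num) (by norm_num) (by norm_num) (by norm_num) (by norm_num) (by norm_num) (by norm_num) (by norm_num) (by norm_num) (by norm_num) (by norm_num) (by norm_num) (by norm_num) (by norm_num) (by norm_num) (by norm_num) (by norm_num) (by norm_num) (by norm_num) (by norm_num)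

include HP HG t1 t3 t5 in
lemma leaf_pm_98
    (h1 : ‖g1 - ⟨(1433 / 2500), (629 / 1250)⟩‖ ≤ (24749 / 500000))
    (h2 : ‖g2 - ⟨(9 / 50), (9 / 50)⟩‖ ≤ (5657 / 200000))
    (h3 : ‖g3 - ⟨(25073 / 100000), (25073 / 100000)⟩‖ ≤ (42427 / 500000))
    (h4 : ‖g4 - ⟨(-1 / 25), (7 / 25)⟩‖ ≤ (56569 / 1000000))
    (h5 : ‖g5 - ⟨(-33069 / 100000), (-33069 / 100000)⟩‖ ≤ (1591 / 12500)) : False :=
  kill HP HG h1 h2 h3 h4 h5 t1 t3 t5
    2613 (-1578) (-1297) 25 (-658) 1200 0 3213 (-2246) 965 (-1685) 23 6141 (-2033) 698 64 2308 393 0 (-684) 2748 (-3117) (-1515) (-379)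
    (-13963691) 4362165 (-5918314) (-3539055) 3135600 17511274 (-7921741) 9959998 (-8294799) 60099 (-17952967) 4942593 (-4030058) 13633695 2413413 (-4843495) 17056976 (-15827336) (-8264296) (-2327439)
    30292893 2138 3368 2126 3239 18594851 17758651 16332359 15942906 3352840
    (by norm_num) (by norm_num) (by norm_num) (by norm_num) (by norm_num) (by norm_num) (by norm_num) (by norm_num) (by norm_num) (by norm_num) (by norm_num) (by norm_num) (by norm_num) (by norm_num) (by norm_num) (by norm_num) (by norm_num) (by norm_num) (by norm_num) (by norm_num) (by norm_num) (by norm_num) (by norm_num) (by norm_num) (by norm_num) (by norm_num) (by norm_num) (by norm_num) (by norm_num) (by norm_num) (by norm_num) (by norm_num) (by norm_num) (by norm_num) (by norm_num) (by norm_num) (by norm_num) (by norm_num) (by norm_num) (by norm_num) (by norm_num)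

include HP HG t1 t3 t5 in
lemma leaf_pm_99
    (h1 : ‖g1 - ⟨(1433 / 2500), (1433 / 2500)⟩‖ ≤ (24749 / 500000))
    (h2 : ‖g2 - ⟨(9 / 50), (9 / 50)⟩‖ ≤ (5657 / 200000))
    (h3 : ‖g3 - ⟨(25073 / 100000), (25073 / 100000)⟩‖ ≤ (42427 / 500000))
    (h4 : ‖g4 - ⟨(-1 / 25), (7 / 25)⟩‖ ≤ (56569 / 1000000))
    (h5 : ‖g5 - ⟨(-33069 / 100000), (-33069 / 100000)⟩‖ ≤ (1591 / 12500)) : False :=
  kill HP HG h1 h2 h3 h4 h5 t1 t3 t5
    2904 (-1812) (-2563) 914 (-389) 1086 0 4268 (-3021) 181 (-1153) 83 5415 (-1285) 826 55 2578 474 0 (-467) 1893 (-2526) (-1400) (-407)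
    (-17483295) (-2838765) (-4596041) (-2743244) 3153744 31340937 (-11342642) 7343189 (-8133756) 241032 (-8170042) 6115137 (-2740032) 13540849 2566710 (-716777) 8660575 (-11908828) (-6836647) (-2203905)
    33539458 7098037 3155 4432 1805 8201424 10601909 12219982 15168861 3383076
    (by norm_num) (by norm_num) (by norm_num) (by norm_num) (by norm_num) (by norm_num) (by norm_num) (by norm_num) (by norm_num) (by norm_num) (by norm_num) (by norm_num) (by norm_num) (by norm_num) (by norm_num) (by norm_num) (by norm_num) (by norm_num) (by norm_num) (by norm_num) (by norm_num) (by norm_num) (by norm_num) (by norm_num) (by norm_num) (by norm_num) (by norm_num) (by norm_num) (by norm_num) (by norm_num) (by norm_num) (by norm_num) (by norm_num) (by norm_num) (by norm_num) (by norm_num) (by norm_num) (by norm_num) (by norm_num) (by norm_num) (by norm_num)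

include HP HG t1 t3 t5 in
lemma leaf_pm_100
    (h1 : ‖g1 - ⟨(2691 / 5000), (2691 / 5000)⟩‖ ≤ (309 / 5000))
    (h2 : ‖g2 - ⟨(9 / 50), (11 / 50)⟩‖ ≤ (5657 / 200000))
    (h3 : ‖g3 - ⟨(25073 / 100000), (25073 / 100000)⟩‖ ≤ (42427 / 500000))
    (h4 : ‖g4 - ⟨(-1 / 25), (7 / 25)⟩‖ ≤ (56569 / 1000000))
    (h5 : ‖g5 - ⟨(-33069 / 100000), (-33069 / 100000)⟩‖ ≤ (1591 / 12500)) : False :=
  kill HP HG h1 h2 h3 h4 h5 t1 t3 t5
    2880 (-590) (-1502) (-1055) (-872) 1768 0 2842 (-386) 641 (-1798) (-524) 6426 (-1029) 597 768 2413 421 0 (-1268) 2543 (-3181) (-1966) (-776)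
    (-1404950) (-2078940) (-10087108) (-5043688) 5091840 17403006 3291976 6854620 (-9893736) (-1509120) (-7433459) 6312365 3223048 16056697 2705346 (-8738937) 14021663 (-16892283) (-11301184) (-4986576)
    4969 12621621 87 2155 4571 11472809 15377028 17197014 19635027 5673169
    (by norm_num) (by norm_num) (by norm_num) (by norm_num) (by norm_num) (by norm_num) (by norm_num) (by norm_num) (by norm_num) (by norm_num) (by norm_num) (by norm_num) (by norm_num) (by norm_num) (by norm_num) (by norm_num) (by norm_num) (by norm_num) (by norm_num) (by norm_num) (by norm_num) (by norm_num) (by norm_num) (by norm_num) (by norm_num) (by norm_num) (by norm_num) (by norm_num) (by norm_num) (by norm_num) (by norm_num) (by norm_num) (by norm_num) (by norm_num) (by norm_num) (by norm_num) (by norm_num) (by norm_num) (by norm_num) (by norm_num) (by norm_num)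

include HP HG t1 t3 t5 in
lemma leaf_pm_101
    (h1 : ‖g1 - ⟨(2691 / 5000), (2691 / 5000)⟩‖ ≤ (309 / 5000))
    (h2 : ‖g2 - ⟨(11 / 50), (9 / 50)⟩‖ ≤ (5657 / 200000))
    (h3 : ‖g3 - ⟨(25073 / 100000), (25073 / 100000)⟩‖ ≤ (42427 / 500000))
    (h4 : ‖g4 - ⟨(-1 / 25), (7 / 25)⟩‖ ≤ (56569 / 1000000))
    (h5 : ‖g5 - ⟨(-33069 / 100000), (-33069 / 100000)⟩‖ ≤ (1591 / 12500)) : False :=
  kill HP HG h1 h2 h3 h4 h5 t1 t3 t5
    3088 (-1009) (-3603) 731 75 1109 0 4217 (-1748) (-1228) (-397) (-291) 5072 (-1687) (-930) 1142 1679 376 0 (-2179) 3002 (-1521) (-1383) (-644)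
    (-6597887) (-15450361) (-2979555) (-2114528) 3424592 35902292 (-4530777) (-720761) (-5608970) (-898608) (-13614097) (-7633575) 3690340 9284852 1907072 (-19743381) 16362769 (-2252682) (-5108844) (-3266368)
    3712 24699858 655 3713 3010 23982176 18055794 4323562 10597583 3782339
    (by norm_num) (by norm_num) (by norm_num) (by norm_num) (by norm_num) (by norm_num) (by norm_num) (by norm_num) (by norm_num) (by norm_num) (by norm_num) (by norm_num) (by norm_num) (by norm_num) (by norm_num) (by norm_num) (by norm_num) (by norm_num) (by norm_num) (by norm_num) (by norm_num) (by norm_num) (by norm_num) (by norm_num) (by norm_num) (by norm_num) (by norm_num) (by norm_num) (by norm_num) (by norm_num) (by norm_num) (by norm_num) (by norm_num) (by norm_num) (by norm_num) (by norm_num) (by norm_num) (by norm_num) (by norm_num) (by norm_num) (by norm_num)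

include HP HG t1 t3 t5 in
lemma leaf_pm_102
    (h1 : ‖g1 - ⟨(2691 / 5000), (2691 / 5000)⟩‖ ≤ (309 / 5000))
    (h2 : ‖g2 - ⟨(11 / 50), (11 / 50)⟩‖ ≤ (5657 / 200000))
    (h3 : ‖g3 - ⟨(25073 / 100000), (25073 / 100000)⟩‖ ≤ (42427 / 500000))
    (h4 : ‖g4 - ⟨(-1 / 25), (7 / 25)⟩‖ ≤ (56569 / 1000000))
    (h5 : ‖g5 - ⟨(-33069 / 100000), (-33069 / 100000)⟩‖ ≤ (1591 / 12500)) : False :=
  kill HP HG h1 h2 h3 h4 h5 t1 t3 t5
    2989 (-698) (-3314) 106 (-303) 1263 0 3954 (-1235) (-878) (-826) (-428) 5625 (-1419) 22 1007 1929 335 0 (-1907) 2791 (-2422) (-1686) (-679)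
    (-3259345) (-10917232) (-6394678) (-3479553) 3775107 29644026 (-70990) 2128465 (-7164072) (-1279292) (-12256174) 632266 4254607 11670113 1884375 (-15279916) 15763228 (-8502636) (-7881404) (-3819375)
    6207 18970988 3110 1756 2802 19587998 15775904 9507708 14082190 4258932
    (by norm_num) (by norm_num) (by norm_num) (by norm_num) (by norm_num) (by norm_num) (by norm_num) (by norm_num) (by norm_num) (by norm_num) (by norm_num) (by norm_num) (by norm_num) (by norm_num) (by norm_num) (by norm_num) (by norm_num) (by norm_num) (by norm_num) (by norm_num) (by norm_num) (by norm_num) (by norm_num) (by norm_num) (by norm_num) (by norm_num) (by norm_num) (by norm_num) (by norm_num) (by norm_num) (by norm_num) (by norm_num) (by norm_num) (by norm_num) (by norm_num) (by norm_num) (by norm_num) (by norm_num) (by norm_num) (by norm_num) (by norm_num)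

include HP HG t1 t3 t5 in
lemma leaf_pm_103
    (h1 : ‖g1 - ⟨(2691 / 5000), (2691 / 5000)⟩‖ ≤ (309 / 5000))
    (h2 : ‖g2 - ⟨(1 / 5), (1 / 5)⟩‖ ≤ (56569 / 1000000))
    (h3 : ‖g3 - ⟨(25073 / 100000), (37073 / 100000)⟩‖ ≤ (42427 / 500000))
    (h4 : ‖g4 - ⟨(-1 / 25), (7 / 25)⟩‖ ≤ (56569 / 1000000))
    (h5 : ‖g5 - ⟨(-33069 / 100000), (-33069 / 100000)⟩‖ ≤ (1591 / 12500)) : False :=
  kill HP HG h1 h2 h3 h4 h5 t1 t3 t5
    3143 (-916) (-1386) (-645) (-1995) 1955 0 3125 (-1399) 1695 (-1895) (-938) 5662 (-549) 119 1041 1693 427 0 (-2166) 2649 (-2436) (-2112) (-1214)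
    (-11506587) 4096787 (-7519058) (-10992315) 6144565 22362819 (-6807302) 17332693 (-11206152) (-2948134) (-5046464) 3387235 6374204 11980867 2417674 (-15735854) 13631121 (-10241695) (-10366776) (-6873668)
    7288 769 17236361 7156574 1164 16525251 14045670 12063283 15843334 7286458
    (by norm_num) (by norm_num) (by norm_num) (by norm_num) (by norm_num) (by norm_num) (by norm_num) (by norm_num) (by norm_num) (by norm_num) (by norm_num) (by norm_num) (by norm_num) (by norm_num) (by norm_num) (by norm_num) (by norm_num) (by norm_num) (by norm_num) (by norm_num) (by norm_num) (by norm_num) (by norm_num) (by norm_num) (by norm_num) (by norm_num) (by norm_num) (by norm_num) (by norm_num) (by norm_num) (by norm_num) (by norm_num) (by norm_num) (by norm_num) (by norm_num) (by norm_num) (by norm_num) (by norm_num) (by norm_num) (by norm_num) (by norm_num)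

include HP HG t1 t3 t5 in
lemma leaf_pm_104
    (h1 : ‖g1 - ⟨(2691 / 5000), (2691 / 5000)⟩‖ ≤ (309 / 5000))
    (h2 : ‖g2 - ⟨(1 / 5), (1 / 5)⟩‖ ≤ (56569 / 1000000))
    (h3 : ‖g3 - ⟨(37073 / 100000), (25073 / 100000)⟩‖ ≤ (42427 / 500000))
    (h4 : ‖g4 - ⟨(-1 / 25), (7 / 25)⟩‖ ≤ (56569 / 1000000))
    (h5 : ‖g5 - ⟨(-33069 / 100000), (-33069 / 100000)⟩‖ ≤ (1591 / 12500)) : False :=
  kill HP HG h1 h2 h3 h4 h5 t1 t3 t5
    2574 (-935) (-721) (-917) (-1147) 1747 0 2471 (-1060) 1540 (-2043) (-406) 6948 (-321) (-619) (-451) 1918 375 0 (-2460) 1413 (-2835) (-1899) (-603)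
    (-8591830) 3572209 (-7165393) (-5589049) 4496778 14725299 (-3963328) 10852948 (-9195909) (-1045044) (-2851281) 487910 (-161850) 14689269 2605500 (-10826715) 9418524 (-14526339) (-12078189) (-4189644)
    7439 756 1492 3686 3736 11195873 9431154 14527241 19017289 4933736
    (by norm_num) (by norm_num) (by norm_num) (by norm_num) (by norm_num) (by norm_num) (by norm_num) (by norm_num) (by norm_num) (by norm_num) (by norm_num) (by norm_num) (by norm_num) (by norm_num) (by norm_num) (by norm_num) (by norm_num) (by norm_num) (by norm_num) (by norm_num) (by norm_num) (by norm_num) (by norm_num) (by norm_num) (by norm_num) (by norm_num) (by norm_num) (by norm_num) (by norm_num) (by norm_num) (by norm_num) (by norm_num) (by norm_num) (by norm_num) (by norm_num) (by norm_num) (by norm_num) (by norm_num) (by norm_num) (by norm_num) (by norm_num)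

include HP HG t1 t3 t5 in
lemma leaf_pm_105
    (h1 : ‖g1 - ⟨(2691 / 5000), (2691 / 5000)⟩‖ ≤ (309 / 5000))
    (h2 : ‖g2 - ⟨(1 / 5), (1 / 5)⟩‖ ≤ (56569 / 1000000))
    (h3 : ‖g3 - ⟨(37073 / 100000), (37073 / 100000)⟩‖ ≤ (42427 / 500000))
    (h4 : ‖g4 - ⟨(-1 / 25), (7 / 25)⟩‖ ≤ (56569 / 1000000))
    (h5 : ‖g5 - ⟨(-33069 / 100000), (-33069 / 100000)⟩‖ ≤ (1591 / 12500)) : False :=
  kill HP HG h1 h2 h3 h4 h5 t1 t3 t5
    3173 (-1053) (-1331) (-1208) (-1801) 2159 0 3347 (-1223) 1965 (-2692) (-791) 5274 (-792) (-384) 748 2210 622 0 (-2498) 2547 (-1375) (-1552) (-1342)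
    (-11701513) 5152676 (-12852891) (-10635477) 6850507 26297428 (-3813026) 18790846 (-14934966) (-2509843) (-6780159) (-1673960) 2414606 14515232 3280428 (-17650686) 11208914 (-1570892) (-5568628) (-7077708)
    483 1067 21793672 10759828 1610 18908128 11333221 2880630 15546755 7800972
    (by norm_num) (by norm_num) (by norm_num) (by norm_num) (by norm_num) (by norm_num) (by norm_num) (by norm_num) (by norm_num) (by norm_num) (by norm_num) (by norm_num) (by norm_num) (by norm_num) (by norm_num) (by norm_num) (by norm_num) (by norm_num) (by norm_num) (by norm_num) (by norm_num) (by norm_num) (by norm_num) (by norm_num) (by norm_num) (by norm_num) (by norm_num) (by norm_num) (by norm_num) (by norm_num) (by norm_num) (by norm_num) (by norm_num) (by norm_num) (by norm_num) (by norm_num) (by norm_num) (by norm_num) (by norm_num) (by norm_num) (by norm_num)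

include HP HG t1 t3 t5 in
lemma leaf_pm_106
    (h1 : ‖g1 - ⟨(629 / 1250), (629 / 1250)⟩‖ ≤ (24749 / 500000))
    (h2 : ‖g2 - ⟨(9 / 50), (9 / 50)⟩‖ ≤ (5657 / 200000))
    (h3 : ‖g3 - ⟨(25073 / 100000), (25073 / 100000)⟩‖ ≤ (42427 / 500000))
    (h4 : ‖g4 - ⟨(-1 / 25), (7 / 25)⟩‖ ≤ (56569 / 1000000))
    (h5 : ‖g5 - ⟨(-37569 / 100000), (-19569 / 100000)⟩‖ ≤ (1591 / 25000)) : False :=
  kill HP HG h1 h2 h3 h4 h5 t1 t3 t5
    3129 (-1177) (-3017) 619 (-537) 1450 0 3858 (-1844) (-388) (-836) (-460) 4945 (-1602) 887 (-172) 537 (-2614) 0 (-3602) 355 (-2603) (-785) (-1466)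
    (-8800152) (-7427917) (-4182798) (-5161603) 4537050 28927068 (-5891458) 5903286 (-7668524) (-1439340) (-10000120) 18501015 (-1722292) 12123625 (-12926230) (-18739828) (-2133083) (-10052363) (-10948921) (-7249370)
    5521 1060 5735 3382 14575554 21241082 18623577 10198838 16335886 14820283
    (by norm_num) (by norm_num) (by norm_num) (by norm_num) (by norm_num) (by norm_num) (by norm_num) (by norm_num) (by norm_num) (by norm_num) (by norm_num) (by norm_num) (by norm_num) (by norm_num) (by norm_num) (by norm_num) (by norm_num) (by norm_num) (by norm_num) (by norm_num) (by norm_num) (by norm_num) (by norm_num) (by norm_num) (by norm_num) (by norm_num) (by norm_num) (by norm_num) (by norm_num) (by norm_num) (by norm_num) (by norm_num) (by norm_num) (by norm_num) (by norm_num) (by norm_num) (by norm_num) (by norm_num) (by norm_num) (by norm_num) (by norm_num)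

include HP HG t1 t3 t5 in
lemma leaf_pm_107
    (h1 : ‖g1 - ⟨(629 / 1250), (629 / 1250)⟩‖ ≤ (24749 / 500000))
    (h2 : ‖g2 - ⟨(9 / 50), (9 / 50)⟩‖ ≤ (5657 / 200000))
    (h3 : ‖g3 - ⟨(25073 / 100000), (25073 / 100000)⟩‖ ≤ (42427 / 500000))
    (h4 : ‖g4 - ⟨(-1 / 25), (7 / 25)⟩‖ ≤ (56569 / 1000000))
    (h5 : ‖g5 - ⟨(-37569 / 100000), (-10569 / 100000)⟩‖ ≤ (1591 / 25000)) : False :=
  kill HP HG h1 h2 h3 h4 h5 t1 t3 t5
    3063 (-1308) (-2777) 684 (-581) 1403 0 3761 (-2121) (-235) (-820) (-314) 5156 (-971) 1257 114 283 (-2363) 0 (-3009) 1352 (-2251) (-1104) (-2645)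
    (-10514569) (-5898359) (-3459117) (-4795681) 4297389 27477346 (-7601999) 6385637 (-7377631) (-961782) (-8426528) 17691293 (-2911404) 11712426 (-12183628) (-18874628) 2108672 (-9812614) (-10234196) (-13637620)
    1517 554965 5288 1527 15886553 20670220 17816519 10235413 15553768 18287304
    (by norm_num) (by norm_num) (by norm_num) (by norm_num) (by norm_num) (by norm_num) (by norm_num) (by norm_num) (by norm_num) (by norm_num) (by norm_num) (by norm_num) (by norm_num) (by norm_num) (by norm_num) (by norm_num) (by norm_num) (by norm_num) (by norm_num) (by norm_num) (by norm_num) (by norm_num) (by norm_num) (by norm_num) (by norm_num) (by norm_num) (by norm_num) (by norm_num) (by norm_num) (by norm_num) (by norm_num) (by norm_num) (by norm_num) (by norm_num) (by norm_num) (by norm_num) (by norm_num) (by norm_num) (by norm_num) (by norm_num) (by norm_num)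

include HP HG t1 t3 t5 in
lemma leaf_pm_108
    (h1 : ‖g1 - ⟨(629 / 1250), (629 / 1250)⟩‖ ≤ (24749 / 500000))
    (h2 : ‖g2 - ⟨(9 / 50), (9 / 50)⟩‖ ≤ (5657 / 200000))
    (h3 : ‖g3 - ⟨(25073 / 100000), (25073 / 100000)⟩‖ ≤ (42427 / 500000))
    (h4 : ‖g4 - ⟨(-1 / 25), (7 / 25)⟩‖ ≤ (56569 / 1000000))
    (h5 : ‖g5 - ⟨(-28569 / 100000), (-19569 / 100000)⟩‖ ≤ (1591 / 25000)) : False :=
  kill HP HG h1 h2 h3 h4 h5 t1 t3 t5
    2928 (-1425) (-2460) 725 (-496) 1257 0 3759 (-2284) 190 (-1073) (-155) 5171 3 600 (-113) 407 (-565) 0 (-3704) 2077 (-2337) (-1258) (-2785)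
    (-12490543) (-2969028) (-3942007) (-3826158) 3680496 25438648 (-8528066) 7202097 (-7645932) (-453840) (-6430114) 15962233 (-2046915) 12418542 (-2921615) (-18843204) 7708765 (-11078368) (-8606233) (-14401235)
    4097 6876 853945 3054 8922801 19910116 17726194 11265883 15109184 14694605
    (by norm_num) (by norm_num) (by norm_num) (by norm_num) (by norm_num) (by norm_num) (by norm_num) (by norm_num) (by norm_num) (by norm_num) (by norm_num) (by norm_num) (by norm_num) (by norm_num) (by norm_num) (by norm_num) (by norm_num) (by norm_num) (by norm_num) (by norm_num) (by norm_num) (by norm_num) (by norm_num) (by norm_num) (by norm_num) (by norm_num) (by norm_num) (by norm_num) (by norm_num) (by norm_num) (by norm_num) (by norm_num) (by norm_num) (by norm_num) (by norm_num) (by norm_num) (by norm_num) (by norm_num) (by norm_num) (by norm_num) (by norm_num)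

include HP HG t1 t3 t5 in
lemma leaf_pm_109
    (h1 : ‖g1 - ⟨(629 / 1250), (629 / 1250)⟩‖ ≤ (24749 / 500000))
    (h2 : ‖g2 - ⟨(9 / 50), (9 / 50)⟩‖ ≤ (5657 / 200000))
    (h3 : ‖g3 - ⟨(25073 / 100000), (25073 / 100000)⟩‖ ≤ (42427 / 500000))
    (h4 : ‖g4 - ⟨(-1 / 25), (7 / 25)⟩‖ ≤ (56569 / 1000000))
    (h5 : ‖g5 - ⟨(-28569 / 100000), (-10569 / 100000)⟩‖ ≤ (1591 / 25000)) : False :=
  kill HP HG h1 h2 h3 h4 h5 t1 t3 t5
    2765 (-1314) (-2469) 673 (-653) 1298 0 3720 (-2284) 206 (-945) (-123) 5364 (-97) 658 (-61) 159 (-810) 0 (-3332) 2116 (-2128) (-1190) (-3245)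
    (-12383063) (-2325934) (-3720343) (-3968677) 3588970 24305636 (-8597918) 7508799 (-7279863) (-340095) (-5922251) 15167277 (-3776947) 11743786 (-4344840) (-18225705) 8708189 (-11190624) (-8767315) (-17406180)
    3251 2829 4145 2477 10792326 19163752 17489393 11810817 14655454 17940255
    (by norm_num) (by norm_num) (by norm_num) (by norm_num) (by norm_num) (by norm_num) (by norm_num) (by norm_num) (by norm_num) (by norm_num) (by norm_num) (by norm_num) (by norm_num) (by norm_num) (by norm_num) (by norm_num) (by norm_num) (by norm_num) (by norm_num) (by norm_num) (by norm_num) (by norm_num) (by norm_num) (by norm_num) (by norm_num) (by norm_num) (by norm_num) (by norm_num) (by norm_num) (by norm_num) (by norm_num) (by norm_num) (by norm_num) (by norm_num) (by norm_num) (by norm_num) (by norm_num) (by norm_num) (by norm_num) (by norm_num) (by norm_num)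

include HP HG t1 t3 t5 in
lemma leaf_pm_110
    (h1 : ‖g1 - ⟨(629 / 1250), (1433 / 2500)⟩‖ ≤ (24749 / 500000))
    (h2 : ‖g2 - ⟨(9 / 50), (9 / 50)⟩‖ ≤ (5657 / 200000))
    (h3 : ‖g3 - ⟨(25073 / 100000), (25073 / 100000)⟩‖ ≤ (42427 / 500000))
    (h4 : ‖g4 - ⟨(-1 / 25), (7 / 25)⟩‖ ≤ (56569 / 1000000))
    (h5 : ‖g5 - ⟨(-33069 / 100000), (-15069 / 100000)⟩‖ ≤ (1591 / 12500)) : False :=
  kill HP HG h1 h2 h3 h4 h5 t1 t3 t5
    3093 (-1610) (-2719) 512 (-366) 1293 0 4048 (-2340) (-23) (-1196) (-143) 5625 (-575) 1116 (-84) 1991 (-417) 0 (-1863) 1155 (-2837) (-1585) (-1530)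
    (-11874862) (-4868192) (-5849579) (-3792632) 3999249 29532989 (-6921159) 6750426 (-8703062) (-442299) (-3474115) 16378050 (-896992) 14289540 (-2345625) (-10059032) 2848684 (-12563362) (-8812746) (-8606250)
    15897480 2425 875 4153 6650140 10642068 16623945 12595343 16788552 8920174
    (by norm_num) (by norm_num) (by norm_num) (by norm_num) (by norm_num) (by norm_num) (by norm_num) (by norm_num) (by norm_num) (by norm_num) (by norm_num) (by norm_num) (by norm_num) (by norm_num) (by norm_num) (by norm_num) (by norm_num) (by norm_num) (by norm_num) (by norm_num) (by norm_num) (by norm_num) (by norm_num) (by norm_num) (by norm_num) (by norm_num) (by norm_num) (by norm_num) (by norm_num) (by norm_num) (by norm_num) (by norm_num) (by norm_num) (by norm_num) (by norm_num) (by norm_num) (by norm_num) (by norm_num) (by norm_num) (by norm_num) (by norm_num)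

include HP HG t1 t3 t5 in
lemma leaf_pm_111
    (h1 : ‖g1 - ⟨(1433 / 2500), (629 / 1250)⟩‖ ≤ (24749 / 500000))
    (h2 : ‖g2 - ⟨(9 / 50), (9 / 50)⟩‖ ≤ (5657 / 200000))
    (h3 : ‖g3 - ⟨(25073 / 100000), (25073 / 100000)⟩‖ ≤ (42427 / 500000))
    (h4 : ‖g4 - ⟨(-1 / 25), (7 / 25)⟩‖ ≤ (56569 / 1000000))
    (h5 : ‖g5 - ⟨(-33069 / 100000), (-15069 / 100000)⟩‖ ≤ (1591 / 12500)) : False :=
  kill HP HG h1 h2 h3 h4 h5 t1 t3 t5
    2564 (-1704) (-1330) (-11) (-522) 1155 0 3448 (-2329) 911 (-1579) 173 6043 (-2028) 538 286 2318 228 0 (-877) 2631 (-3244) (-1295) (-396)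
    (-14549021) 4266401 (-6522175) (-2710024) 2961420 18384229 (-7655748) 9286181 (-8325788) 443572 (-18129499) 4705885 (-2756103) 13892582 1377804 (-6134737) 16559795 (-15757262) (-6822641) (-2393028)
    29962611 1012 3596 763 2088432 19139325 17215463 15996482 15477477 2761328
    (by norm_num) (by norm_num) (by norm_num) (by norm_num) (by norm_num) (by norm_num) (by norm_num) (by norm_num) (by norm_num) (by norm_num) (by norm_num) (by norm_num) (by norm_num) (by norm_num) (by norm_num) (by norm_num) (by norm_num) (by norm_num) (by norm_num) (by norm_num) (by norm_num) (by norm_num) (by norm_num) (by norm_num) (by norm_num) (by norm_num) (by norm_num) (by norm_num) (by norm_num) (by norm_num) (by norm_num) (by norm_num) (by norm_num) (by norm_num) (by norm_num) (by norm_num) (by norm_num) (by norm_num) (by norm_num) (by norm_num) (by norm_num)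

include HP HG t1 t3 t5 in
lemma leaf_pm_112
    (h1 : ‖g1 - ⟨(1433 / 2500), (1433 / 2500)⟩‖ ≤ (24749 / 500000))
    (h2 : ‖g2 - ⟨(9 / 50), (9 / 50)⟩‖ ≤ (5657 / 200000))
    (h3 : ‖g3 - ⟨(25073 / 100000), (25073 / 100000)⟩‖ ≤ (42427 / 500000))
    (h4 : ‖g4 - ⟨(-1 / 25), (7 / 25)⟩‖ ≤ (56569 / 1000000))
    (h5 : ‖g5 - ⟨(-33069 / 100000), (-15069 / 100000)⟩‖ ≤ (1591 / 12500)) : False :=
  kill HP HG h1 h2 h3 h4 h5 t1 t3 t5
    2949 (-1919) (-2624) 1118 (-267) 914 0 4526 (-3226) 169 (-1098) 207 5174 (-1283) 807 237 2546 193 0 (-630) 1753 (-2449) (-1050) (-438)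
    (-19658769) (-3819133) (-4226311) (-1604467) 2695386 34343166 (-12801083) 6219281 (-7771999) 610443 (-8753721) 6746592 (-1990843) 13201325 998582 (-2318307) 7419762 (-10411791) (-4749156) (-2266212)
    34636598 8706549 3546 1245 2257829 9055506 10028429 10600418 14029593 2476466
    (by norm_num) (by norm_num) (by norm_num) (by norm_num) (by norm_num) (by norm_num) (by norm_num) (by norm_num) (by norm_num) (by norm_num) (by norm_num) (by norm_num) (by norm_num) (by norm_num) (by norm_num) (by norm_num) (by norm_num) (by norm_num) (by norm_num) (by norm_num) (by norm_num) (by norm_num) (by norm_num) (by norm_num) (by norm_num) (by norm_num) (by norm_num) (by norm_num) (by norm_num) (by norm_num) (by norm_num) (by norm_num) (by norm_num) (by norm_num) (by norm_num) (by norm_num) (by norm_num) (by norm_num) (by norm_num) (by norm_num) (by norm_num)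

include HP HG t1 t3 t5 in
lemma leaf_pm_113
    (h1 : ‖g1 - ⟨(2691 / 5000), (2691 / 5000)⟩‖ ≤ (309 / 5000))
    (h2 : ‖g2 - ⟨(9 / 50), (11 / 50)⟩‖ ≤ (5657 / 200000))
    (h3 : ‖g3 - ⟨(25073 / 100000), (25073 / 100000)⟩‖ ≤ (42427 / 500000))
    (h4 : ‖g4 - ⟨(-1 / 25), (7 / 25)⟩‖ ≤ (56569 / 1000000))
    (h5 : ‖g5 - ⟨(-33069 / 100000), (-15069 / 100000)⟩‖ ≤ (1591 / 12500)) : False :=
  kill HP HG h1 h2 h3 h4 h5 t1 t3 t5
    2813 (-780) (-2323) (-398) (-569) 1556 0 3546 (-1179) 39 (-1438) (-349) 6125 (-1155) 806 842 2259 197 0 (-1557) 2286 (-3120) (-1785) (-1053)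
    (-3897483) (-3701575) (-8978019) (-4051831) 4377028 21602661 812202 5894272 (-9290450) (-981737) (-8222369) 10013558 3078974 15248361 1206625 (-11843517) 12041574 (-14830122) (-9410181) (-6449625)
    3756 10971247 3089 2468 3346913 14417915 15661126 15146373 17918260 6561525
    (by norm_num) (by norm_num) (by norm_num) (by norm_num) (by norm_num) (by norm_num) (by norm_num) (by norm_num) (by norm_num) (by norm_num) (by norm_num) (by norm_num) (by norm_num) (by norm_num) (by norm_num) (by norm_num) (by norm_num) (by norm_num) (by norm_num) (by norm_num) (by norm_num) (by norm_num) (by norm_num) (by norm_num) (by norm_num) (by norm_num) (by norm_num) (by norm_num) (by norm_num) (by norm_num) (by norm_num) (by norm_num) (by norm_num) (by norm_num) (by norm_num) (by norm_num) (by norm_num) (by norm_num) (by norm_num) (by norm_num) (by norm_num)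

include HP HG t1 t3 t5 in
lemma leaf_pm_114
    (h1 : ‖g1 - ⟨(2691 / 5000), (2691 / 5000)⟩‖ ≤ (309 / 5000))
    (h2 : ‖g2 - ⟨(11 / 50), (9 / 50)⟩‖ ≤ (5657 / 200000))
    (h3 : ‖g3 - ⟨(25073 / 100000), (25073 / 100000)⟩‖ ≤ (42427 / 500000))
    (h4 : ‖g4 - ⟨(-1 / 25), (7 / 25)⟩‖ ≤ (56569 / 1000000))
    (h5 : ‖g5 - ⟨(-33069 / 100000), (-15069 / 100000)⟩‖ ≤ (1591 / 12500)) : False :=
  kill HP HG h1 h2 h3 h4 h5 t1 t3 t5
    3129 (-1253) (-3784) 930 138 974 0 4394 (-2079) (-1226) (-358) (-81) 4540 (-1547) (-742) 1377 1316 (-70) 0 (-2684) 2872 (-1511) (-1060) (-1081)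
    (-8554019) (-17165254) (-2353213) (-1144534) 3047646 39727125 (-6295065) (-1662502) (-5298445) (-253449) (-14477748) (-3927166) 4008076 8984334 (-317800) (-22421394) 14484926 (-684834) (-3327973) (-4907740)
    9545 24144743 3973 1053 3563840 26689401 15007856 4066162 9580901 4918019
    (by norm_num) (by norm_num) (by norm_num) (by norm_num) (by norm_num) (by norm_num) (by norm_num) (by norm_num) (by norm_num) (by norm_num) (by norm_num) (by norm_num) (by norm_num) (by norm_num) (by norm_num) (by norm_num) (by norm_num) (by norm_num) (by norm_num) (by norm_num) (by norm_num) (by norm_num) (by norm_num) (by norm_num) (by norm_num) (by norm_num) (by norm_num) (by norm_num) (by norm_num) (by norm_num) (by norm_num) (by norm_num) (by norm_num) (by norm_num) (by norm_num) (by norm_num) (by norm_num) (by norm_num) (by norm_num) (by norm_num) (by norm_num)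

include HP HG t1 t3 t5 in
lemma leaf_pm_115
    (h1 : ‖g1 - ⟨(2691 / 5000), (2691 / 5000)⟩‖ ≤ (309 / 5000))
    (h2 : ‖g2 - ⟨(11 / 50), (11 / 50)⟩‖ ≤ (5657 / 200000))
    (h3 : ‖g3 - ⟨(25073 / 100000), (25073 / 100000)⟩‖ ≤ (42427 / 500000))
    (h4 : ‖g4 - ⟨(-1 / 25), (7 / 25)⟩‖ ≤ (56569 / 1000000))
    (h5 : ‖g5 - ⟨(-33069 / 100000), (-15069 / 100000)⟩‖ ≤ (1591 / 12500)) : False :=
  kill HP HG h1 h2 h3 h4 h5 t1 t3 t5
    3012 (-928) (-3341) 304 (-137) 1249 0 4076 (-1528) (-836) (-787) (-194) 5472 (-1343) (-30) 1192 1965 253 0 (-2154) 2675 (-2337) (-1386) (-809)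
    (-5063223) (-11550607) (-6041505) (-2362460) 3761988 31226161 (-1660413) 1327342 (-7281336) (-584328) (-12158010) 1694591 4697408 12155287 1384416 (-16861257) 14755897 (-7346561) (-5952743) (-4426848)
    10199 18174659 2229 2284 2448928 20787477 14852884 8719955 13534628 4638275
    (by norm_num) (by norm_num) (by norm_num) (by norm_num) (by norm_num) (by norm_num) (by norm_num) (by norm_num) (by norm_num) (by norm_num) (by norm_num) (by norm_num) (by norm_num) (by norm_num) (by norm_num) (by norm_num) (by norm_num) (by norm_num) (by norm_num) (by norm_num) (by norm_num) (by norm_num) (by norm_num) (by norm_num) (by norm_num) (by norm_num) (by norm_num) (by norm_num) (by norm_num) (by norm_num) (by norm_num) (by norm_num) (by norm_num) (by norm_num) (by norm_num) (by norm_num) (by norm_num) (by norm_num) (by norm_num) (by norm_num) (by norm_num)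

include HP HG t1 t3 t5 in
lemma leaf_pm_116
    (h1 : ‖g1 - ⟨(2691 / 5000), (2691 / 5000)⟩‖ ≤ (309 / 5000))
    (h2 : ‖g2 - ⟨(1 / 5), (1 / 5)⟩‖ ≤ (56569 / 1000000))
    (h3 : ‖g3 - ⟨(25073 / 100000), (37073 / 100000)⟩‖ ≤ (42427 / 500000))
    (h4 : ‖g4 - ⟨(-1 / 25), (7 / 25)⟩‖ ≤ (56569 / 1000000))
    (h5 : ‖g5 - ⟨(-33069 / 100000), (-15069 / 100000)⟩‖ ≤ (1591 / 12500)) : False :=
  kill HP HG h1 h2 h3 h4 h5 t1 t3 t5
    2966 (-1337) (-1364) (-526) (-1519) 1777 0 3153 (-1510) 1530 (-2049) (-560) 5867 (-424) 3 1235 1955 737 0 (-2183) 2623 (-2365) (-2038) (-924)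
    (-12383539) 4856132 (-7567938) (-8646883) 5270582 20683737 (-6788896) 15514010 (-10931495) (-1660960) (-3856337) 2412402 8444338 13174589 4323979 (-15357533) 14555692 (-10679501) (-9956299) (-5421108)
    4130 2038 17047936 4961911 994834 15834304 14754249 13614647 16513561 6934350
    (by norm_num) (by norm_num) (by norm_num) (by norm_num) (by norm_num) (by norm_num) (by norm_num) (by norm_num) (by norm_num) (by norm_num) (by norm_num) (by norm_num) (by norm_num) (by norm_num) (by norm_num) (by norm_num) (by norm_num) (by norm_num) (by norm_num) (by norm_num) (by norm_num) (by norm_num) (by norm_num) (by norm_num) (by norm_num) (by norm_num) (by norm_num) (by norm_num) (by norm_num) (by norm_num) (by norm_num) (by norm_num) (by norm_num) (by norm_num) (by norm_num) (by norm_num) (by norm_num) (by norm_num) (by norm_num) (by norm_num) (by norm_num)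

include HP HG t1 t3 t5 in
lemma leaf_pm_117
    (h1 : ‖g1 - ⟨(2691 / 5000), (2691 / 5000)⟩‖ ≤ (309 / 5000))
    (h2 : ‖g2 - ⟨(1 / 5), (1 / 5)⟩‖ ≤ (56569 / 1000000))
    (h3 : ‖g3 - ⟨(37073 / 100000), (25073 / 100000)⟩‖ ≤ (42427 / 500000))
    (h4 : ‖g4 - ⟨(-1 / 25), (7 / 25)⟩‖ ≤ (56569 / 1000000))
    (h5 : ‖g5 - ⟨(-33069 / 100000), (-15069 / 100000)⟩‖ ≤ (1591 / 12500)) : False :=
  kill HP HG h1 h2 h3 h4 h5 t1 t3 t5
    2716 (-1093) (-1895) (-74) (-905) 1535 0 3318 (-1751) 736 (-1451) (-258) 6590 (-402) (-361) (-377) 1735 26 0 (-2621) 1444 (-2832) (-1730) (-1010)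
    (-9871460) 1328308 (-6483304) (-4991779) 4169060 18923076 (-5260310) 9764404 (-8752052) (-700728) (-4204418) 4921299 (-115396) 14070408 171340 (-13373959) 8239899 (-13092919) (-10926534) (-6655900)
    2190 4259 3553 2084 4185931 14019270 9597663 13093428 17814756 6658106
    (by norm_num) (by norm_num) (by norm_num) (by norm_num) (by norm_num) (by norm_num) (by norm_num) (by norm_num) (by norm_num) (by norm_num) (by norm_num) (by norm_num) (by norm_num) (by norm_num) (by norm_num) (by norm_num) (by norm_num) (by norm_num) (by norm_num) (by norm_num) (by norm_num) (by norm_num) (by norm_num) (by norm_num) (by norm_num) (by norm_num) (by norm_num) (by norm_num) (by norm_num) (by norm_num) (by norm_num) (by norm_num) (by norm_num) (by norm_num) (by norm_num) (by norm_num) (by norm_num) (by norm_num) (by norm_num) (by norm_num) (by norm_num)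

include HP HG t1 t3 t5 in
lemma leaf_pm_118
    (h1 : ‖g1 - ⟨(2691 / 5000), (2691 / 5000)⟩‖ ≤ (309 / 5000))
    (h2 : ‖g2 - ⟨(1 / 5), (1 / 5)⟩‖ ≤ (56569 / 1000000))
    (h3 : ‖g3 - ⟨(37073 / 100000), (37073 / 100000)⟩‖ ≤ (42427 / 500000))
    (h4 : ‖g4 - ⟨(-1 / 25), (7 / 25)⟩‖ ≤ (56569 / 1000000))
    (h5 : ‖g5 - ⟨(-33069 / 100000), (-15069 / 100000)⟩‖ ≤ (1591 / 12500)) : False :=
  kill HP HG h1 h2 h3 h4 h5 t1 t3 t5
    3083 (-1051) (-1215) (-1362) (-1542) 2176 0 3298 (-1223) 1885 (-2798) (-508) 5421 (-802) (-447) 669 2309 232 0 (-2320) 2432 (-1502) (-1821) (-1415)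
    (-11755281) 5276539 (-13828764) (-8716346) 6708608 25093506 (-3155928) 17116137 (-15268774) (-1566164) (-6191029) (-2655342) 2454567 15613825 1257672 (-17114732) 10540884 (-1256739) (-8198571) (-7670715)
    7784 2596 21138910 7957982 4742787 18200080 10870193 2757589 17635422 7773134
    (by norm_num) (by norm_num) (by norm_num) (by norm_num) (by norm_num) (by norm_num) (by norm_num) (by norm_num) (by norm_num) (by norm_num) (by norm_num) (by norm_num) (by norm_num) (by norm_num) (by norm_num) (by norm_num) (by norm_num) (by norm_num) (by norm_num) (by norm_num) (by norm_num) (by norm_num) (by norm_num) (by norm_num) (by norm_num) (by norm_num) (by norm_num) (by norm_num) (by norm_num) (by norm_num) (by norm_num) (by norm_num) (by norm_num) (by norm_num) (by norm_num) (by norm_num) (by norm_num) (by norm_num) (by norm_num) (by norm_num) (by norm_num)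

include HP HG t1 t3 t5 in
lemma leaf_pm_119
    (h1 : ‖g1 - ⟨(2691 / 5000), (2691 / 5000)⟩‖ ≤ (309 / 5000))
    (h2 : ‖g2 - ⟨(1 / 5), (1 / 5)⟩‖ ≤ (56569 / 1000000))
    (h3 : ‖g3 - ⟨(31073 / 100000), (31073 / 100000)⟩‖ ≤ (593 / 5000))
    (h4 : ‖g4 - ⟨(-1 / 25), (7 / 25)⟩‖ ≤ (56569 / 1000000))
    (h5 : ‖g5 - ⟨(-15069 / 100000), (-33069 / 100000)⟩‖ ≤ (1591 / 12500)) : False :=
  kill HP HG h1 h2 h3 h4 h5 t1 t3 t5
    2296 (-1262) (-585) (-784) (-723) 1555 0 2585 (-1578) 1399 (-2219) 145 6610 384 (-832) (-412) 1631 1400 0 (-2732) 2239 (-2484) (-1702) (-1515)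
    (-11970963) 6170935 (-7762238) (-3247593) 3570280 13480137 (-5493890) 10250402 (-9297489) 332920 (-699362) (-852750) (-2004037) 15457490 9254000 (-11818149) 14586385 (-14491036) (-8007180) (-10014150)
    6844 4740 2161 741 6465054 11838824 14611291 14628954 17408301 13635239
    (by norm_num) (by norm_num) (by norm_num) (by norm_num) (by norm_num) (by norm_num) (by norm_num) (by norm_num) (by norm_num) (by norm_num) (by norm_num) (by norm_num) (by norm_num) (by norm_num) (by norm_num) (by norm_num) (by norm_num) (by norm_num) (by norm_num) (by norm_num) (by norm_num) (by norm_num) (by norm_num) (by norm_num) (by norm_num) (by norm_num) (by norm_num) (by norm_num) (by norm_num) (by norm_num) (by norm_num) (by norm_num) (by norm_num) (by norm_num) (by norm_num) (by norm_num) (by norm_num) (by norm_num) (by norm_num) (by norm_num) (by norm_num)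

include HP HG t1 t3 t5 in
lemma leaf_pm_120
    (h1 : ‖g1 - ⟨(2691 / 5000), (2691 / 5000)⟩‖ ≤ (309 / 5000))
    (h2 : ‖g2 - ⟨(1 / 5), (1 / 5)⟩‖ ≤ (56569 / 1000000))
    (h3 : ‖g3 - ⟨(31073 / 100000), (31073 / 100000)⟩‖ ≤ (593 / 5000))
    (h4 : ‖g4 - ⟨(-1 / 25), (7 / 25)⟩‖ ≤ (56569 / 1000000))
    (h5 : ‖g5 - ⟨(-15069 / 100000), (-15069 / 100000)⟩‖ ≤ (1591 / 12500)) : False :=
  kill HP HG h1 h2 h3 h4 h5 t1 t3 t5
    2653 (-1528) (-1596) 197 (-670) 1214 0 3432 (-2270) 922 (-1432) 66 5678 579 (-252) (-48) 599 866 0 (-3116) 2689 (-2023) (-1573) (-3005)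
    (-14173274) 3249070 (-5455587) (-3405990) 3220742 19056670 (-8448964) 9584046 (-8066392) 175098 (-2265995) 6501822 (-3322932) 13266116 4917148 (-15432577) 14629100 (-12102291) (-7972933) (-17062390)
    5977 3871 2158 2482 5127769 15598051 16008881 12550193 15477645 17756788
    (by norm_num) (by norm_num) (by norm_num) (by norm_num) (by norm_num) (by norm_num) (by norm_num) (by norm_num) (by norm_num) (by norm_num) (by norm_num) (by norm_num) (by norm_num) (by norm_num) (by norm_num) (by norm_num) (by norm_num) (by norm_num) (by norm_num) (by norm_num) (by norm_num) (by norm_num) (by norm_num) (by norm_num) (by norm_num) (by norm_num) (by norm_num) (by norm_num) (by norm_num) (by norm_num) (by norm_num) (by norm_num) (by norm_num) (by norm_num) (by norm_num) (by norm_num) (by norm_num) (by norm_num) (by norm_num) (by norm_num) (by norm_num)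

include HP HG t1 t3 t5 in
lemma leaf_pm_121
    (h1 : ‖g1 - ⟨(2691 / 5000), (2691 / 5000)⟩‖ ≤ (309 / 5000))
    (h2 : ‖g2 - ⟨(1 / 5), (7 / 25)⟩‖ ≤ (56569 / 1000000))
    (h3 : ‖g3 - ⟨(31073 / 100000), (31073 / 100000)⟩‖ ≤ (593 / 5000))
    (h4 : ‖g4 - ⟨(-2 / 25), (6 / 25)⟩‖ ≤ (56569 / 500000))
    (h5 : ‖g5 - ⟨(-24069 / 100000), (-24069 / 100000)⟩‖ ≤ (9 / 50)) : False :=
  kill HP HG h1 h2 h3 h4 h5 t1 t3 t5
    2355 (-458) (-1262) (-1380) (-933) 1694 0 2699 (-574) 897 (-2406) (-210) 6459 (-954) 469 664 2523 562 0 (-1446) 2600 (-2897) (-2241) (-721)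
    (-2769022) 113433 (-11333668) (-3539857) 3989370 16529916 3233136 6969926 (-10142056) (-494550) (-6388560) 4403469 3511298 16802475 3629958 (-8965567) 14055823 (-14724900) (-12974133) (-4656939)
    5584 12811385 1272 1209 289 11008865 14729451 15137764 21228550 5904548
    (by norm_num) (by norm_num) (by norm_num) (by norm_num) (by norm_num) (by norm_num) (by norm_num) (by norm_num) (by norm_num) (by norm_num) (by norm_num) (by norm_num) (by norm_num) (by norm_num) (by norm_num) (by norm_num) (by norm_num) (by norm_num) (by norm_num) (by norm_num) (by norm_num) (by norm_num) (by norm_num) (by norm_num) (by norm_num) (by norm_num) (by norm_num) (by norm_num) (by norm_num) (by norm_num) (by norm_num) (by norm_num) (by norm_num) (by norm_num) (by norm_num) (by norm_num) (by norm_num) (by norm_num) (by norm_num) (by norm_num) (by norm_num)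

include HP HG t1 t3 t5 in
lemma leaf_pm_122
    (h1 : ‖g1 - ⟨(2691 / 5000), (2691 / 5000)⟩‖ ≤ (309 / 5000))
    (h2 : ‖g2 - ⟨(7 / 25), (1 / 5)⟩‖ ≤ (56569 / 1000000))
    (h3 : ‖g3 - ⟨(31073 / 100000), (31073 / 100000)⟩‖ ≤ (593 / 5000))
    (h4 : ‖g4 - ⟨(-2 / 25), (6 / 25)⟩‖ ≤ (56569 / 500000))
    (h5 : ‖g5 - ⟨(-24069 / 100000), (-24069 / 100000)⟩‖ ≤ (9 / 50)) : False :=
  kill HP HG h1 h2 h3 h4 h5 t1 t3 t5
    2982 (-1029) (-3799) 826 74 884 0 4276 (-1790) (-1243) (-306) (-212) 4847 (-1765) (-1128) 835 1356 429 0 (-2248) 3268 (-1197) (-1648) (-700)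
    (-7154581) (-16233326) (-1900306) (-1595480) 2636088 37132205 (-5372055) (-1320428) (-4474328) (-632184) (-13923935) (-9969452) 2587097 7388947 2079363 (-20573540) 17186330 (-457223) (-5787964) (-3392900)
    3178 28691971 8975 1641 1855 24842434 19868566 2627190 9386004 3979388
    (by norm_num) (by norm_num) (by norm_num) (by norm_num) (by norm_num) (by norm_num) (by norm_num) (by norm_num) (by norm_num) (by norm_num) (by norm_num) (by norm_num) (by norm_num) (by norm_num) (by norm_num) (by norm_num) (by norm_num) (by norm_num) (by norm_num) (by norm_num) (by norm_num) (by norm_num) (by norm_num) (by norm_num) (by norm_num) (by norm_num) (by norm_num) (by norm_num) (by norm_num) (by norm_num) (by norm_num) (by norm_num) (by norm_num) (by norm_num) (by norm_num) (by norm_num) (by norm_num) (by norm_num) (by norm_num) (by norm_num) (by norm_num)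

include HP HG t1 t3 t5 in
lemma leaf_pm_123
    (h1 : ‖g1 - ⟨(2691 / 5000), (2691 / 5000)⟩‖ ≤ (309 / 5000))
    (h2 : ‖g2 - ⟨(6 / 25), (6 / 25)⟩‖ ≤ (56569 / 500000))
    (h3 : ‖g3 - ⟨(31073 / 100000), (31073 / 100000)⟩‖ ≤ (593 / 5000))
    (h4 : ‖g4 - ⟨(4 / 25), (-4 / 25)⟩‖ ≤ (56569 / 250000))
    (h5 : ‖g5 - ⟨(-24069 / 100000), (-24069 / 100000)⟩‖ ≤ (9 / 50)) : False :=
  kill HP HG h1 h2 h3 h4 h5 t1 t3 t5
    3401 (-1469) (-2142) (-149) (-1267) 2137 0 4131 (-2045) 802 (-2183) (-307) 5017 47 (-1027) (-83) (-1530) 1242 0 (-3418) 1261 (-1693) (-250) (-1556)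
    (-15217679) 2860523 (-11613138) (-8716537) 7267937 30275090 (-7100824) 16196165 (-15801347) (-1044107) (-7133220) 4417596 (-2871471) (-2299228) 6231114 (-18634111) 10381106 (-13703221) 2917774 (-7806452)
    3808167 3220 7654357 16500830 585073 19952768 11281956 14000844 3714816 9988367
    (by norm_num) (by norm_num) (by norm_num) (by norm_num) (by norm_num) (by norm_num) (by norm_num) (by norm_num) (by norm_num) (by norm_num) (by norm_num) (by norm_num) (by norm_num) (by norm_num) (by norm_num) (by norm_num) (by norm_num) (by norm_num) (by norm_num) (by norm_num) (by norm_num) (by norm_num) (by norm_num) (by norm_num) (by norm_num) (by norm_num) (by norm_num) (by norm_num) (by norm_num) (by norm_num) (by norm_num) (by norm_num) (by norm_num) (by norm_num) (by norm_num) (by norm_num) (by norm_num) (by norm_num) (by norm_num) (by norm_num) (by norm_num)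

include HP HG t1 t3 t5 in
lemma leaf_pm_124
    (h1 : ‖g1 - ⟨(2691 / 5000), (2691 / 5000)⟩‖ ≤ (309 / 5000))
    (h2 : ‖g2 - ⟨(6 / 25), (6 / 25)⟩‖ ≤ (56569 / 500000))
    (h3 : ‖g3 - ⟨(31073 / 100000), (31073 / 100000)⟩‖ ≤ (593 / 5000))
    (h4 : ‖g4 - ⟨(4 / 25), (4 / 25)⟩‖ ≤ (56569 / 250000))
    (h5 : ‖g5 - ⟨(-24069 / 100000), (-24069 / 100000)⟩‖ ≤ (9 / 50)) : False :=
  kill HP HG h1 h2 h3 h4 h5 t1 t3 t5
    3519 (-1349) (-2774) 433 (-1140) 1653 0 4178 (-1926) 292 (-999) (-661) 4652 8 (-317) (-537) (-443) 779 0 (-4241) 1071 (-2408) 360 (-1818)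
    (-12824776) (-3516676) (-4424571) (-9003215) 5816907 31219478 (-9173879) 12155411 (-9530026) (-2326059) (-8544736) 13218760 (-6222449) 5655534 3623908 (-20461628) 5898042 (-13335902) 4963915 (-8457336)
    3927 3499 3904 10710776 1402 22174101 14474893 14716153 7524993 9201046
    (by norm_num) (by norm_num) (by norm_num) (by norm_num) (by norm_num) (by norm_num) (by norm_num) (by norm_num) (by norm_num) (by norm_num) (by norm_num) (by norm_num) (by norm_num) (by norm_num) (by norm_num) (by norm_num) (by norm_num) (by norm_num) (by norm_num) (by norm_num) (by norm_num) (by norm_num) (by norm_num) (by norm_num) (by norm_num) (by norm_num) (by norm_num) (by norm_num) (by norm_num) (by norm_num) (by norm_num) (by norm_num) (by norm_num) (by norm_num) (by norm_num) (by norm_num) (by norm_num) (by norm_num) (by norm_num) (by norm_num) (by norm_num)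

end

end Pool.Agent.H893R3.Dig
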