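import Pool.Agent.H893R3.Dig.Lpm0
import Pool.Agent.H893R3.Dig.Lpm1
import Pool.Agent.H893R3.Dig.Lpm2
import Pool.Agent.H893R3.Dig.Lpm3

/-!
# Certificates
-/

set_option autoImplicit false
set_option linter.unusedVariables false
set_option maxRecDepth 4000

namespace Pool.Agent.H893R3.Dig

section
variable {g1 g2 g3 g4 g5 c1 c3 c5 : ℂ}
    (HP : ∀ q : Fin 6 → ℂ, 0 ≤ nn q + 2 * (A1 q * g1 + A2 q * g2 + A3 q * g3 + A4 q * g4 +
      A5 q * g5).re)
    (HG : ∀ p : Fin 6 → ℂ, 0 ≤ (901 / 10000) * nn p + 2 * (A1 p * (g1 ^ 2 - c1) + A2 p * g2 ^ 2 +
      A3 p * (g3 ^ 2 - c3) + A4 p * g4 ^ 2 + A5 p * (g5 ^ 2 - c5)).re)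
    (t1 : ‖(⟨0, (7241481 / 12500000)⟩ : ℂ) - c1‖ ≤ 1 / 100000) (t3 : ‖(⟨0, (965531329 / 5000000000)⟩ : ℂ) - c3‖ ≤ 1 / 100000)
    (t5 : ‖(⟨0, (579316761 / 5000000000)⟩ : ℂ) - c5‖ ≤ 1 / 100000)

include HP HG t1 t3 t5 in
theorem tree_pm
    (d1 : ‖g1 - ⟨(2691 / 5000), (2691 / 5000)⟩‖ ≤ (309 / 5000))
    (d2 : ‖g2 - ⟨0, 0⟩‖ ≤ (30017 / 100000))
    (d3 : ‖g3 - ⟨(31073 / 100000), (31073 / 100000)⟩‖ ≤ (593 / 5000))
    (d4 : ‖g4 - ⟨0, 0⟩‖ ≤ (30017 / 100000))
    (d5 : ‖g5 - ⟨(-24069 / 100000), (-24069 / 100000)⟩‖ ≤ (9 / 50)) : False := by
  obtain ⟨e1a, e1b, e1c, e1d⟩ := disc_box d1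
  have l1a : (2341 / 5000) ≤ g1.re := by linarith
  have l1b : g1.re ≤ (3041 / 5000) := by linarith
  have l1c : (2341 / 5000) ≤ g1.im := by linarith
  have l1d : g1.im ≤ (3041 / 5000) := by linarith
  obtain ⟨e2a, e2b, e2c, e2d⟩ := disc_box d2
  have l2a : (-8 / 25) ≤ g2.re := by linarith
  have l2b : g2.re ≤ (8 / 25) := by linarith
  have l2c : (-8 / 25) ≤ g2.im := by linarith
  have l2d : g2.im ≤ (8 / 25) := by linarith
  obtain ⟨e3a, e3b, e3c, e3d⟩ := disc_box d3
  have l3a : (19073 / 100000) ≤ g3.re := by linarith
  have l3b : g3.re ≤ (43073 / 100000) := by linarith
  have l3c : (19073 / 100000) ≤ g3.im := by linarith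
  have l3d : g3.im ≤ (43073 / 100000) := by linarith
  obtain ⟨e4a, e4b, e4c, e4d⟩ := disc_box d4
  have l4a : (-8 / 25) ≤ g4.re := by linarith
  have l4b : g4.re ≤ (8 / 25) := by linarith
  have l4c : (-8 / 25) ≤ g4.im := by linarith
  have l4d : g4.im ≤ (8 / 25) := by linarith
  obtain ⟨e5a, e5b, e5c, e5d⟩ := disc_box d5
  have l5a : (-42069 / 100000) ≤ g5.re := by linarith
  have l5b : g5.re ≤ (-6069 / 100000) := by linarith
  have l5c : (-42069 / 100000) ≤ g5.im := by linarith
  have l5d : g5.im ≤ (-6069 / 100000) := by linarith
  rcases le_total g2.re 0 with r1 | r1
  · rcases le_total g2.im 0 with i1 | i1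
    · exact leaf_pm_0 HP HG t1 t3 t5 d1 (box_disc l2a r1 l2c i1 (by norm_num) (by norm_num) (by norm_num) (by norm_num)) d3 d4 d5
    · exact leaf_pm_1 HP HG t1 t3 t5 d1 (box_disc l2a r1 i1 l2d (by norm_num) (by norm_num) (by norm_num) (by norm_num)) d3 d4 d5
  · rcases le_total g2.im 0 with i1 | i1
    · exact leaf_pm_2 HP HG t1 t3 t5 d1 (box_disc r1 l2b l2c i1 (by norm_num) (by norm_num) (by norm_num) (by norm_num)) d3 d4 d5
    · rcases le_total g2.re (4 / 25) with r2 | r2
      · rcases le_total g2.im (4 / 25) with i2 | i2
        · exact leaf_pm_3 HP HG t1 t3 t5 d1 (box_disc r1 r2 i1 i2 (by norm_num) (by norm_num) (by norm_num) (by norm_num)) d3 d4 d5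
        · rcases le_total g4.re 0 with r3 | r3
          · rcases le_total g4.im 0 with i3 | i3
            · exact leaf_pm_4 HP HG t1 t3 t5 d1 (box_disc r1 r2 i2 l2d (by norm_num) (by norm_num) (by norm_num) (by norm_num)) d3 (box_disc l4a r3 l4c i3 (by norm_num) (by norm_num) (by norm_num) (by norm_num)) d5
            · rcases le_total g4.re (-4 / 25) with r4 | r4
              · rcases le_total g4.im (4 / 25) with i4 | i4
                · exact leaf_pm_5 HP HG t1 t3 t5 d1 (box_disc r1 r2 i2 l2d (by norm_num) (by norm_num) (by norm_num) (by norm_num)) d3 (box_disc l4a r4 i3 i4 (by norm_num) (by norm_num) (by norm_num) (by norm_num)) d5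
                · exact leaf_pm_6 HP HG t1 t3 t5 d1 (box_disc r1 r2 i2 l2d (by norm_num) (by norm_num) (by norm_num) (by norm_num)) d3 (box_disc l4a r4 i4 l4d (by norm_num) (by norm_num) (by norm_num) (by norm_num)) d5
              · rcases le_total g4.im (4 / 25) with i4 | i4
                · exact leaf_pm_7 HP HG t1 t3 t5 d1 (box_disc r1 r2 i2 l2d (by norm_num) (by norm_num) (by norm_num) (by norm_num)) d3 (box_disc r4 r3 i3 i4 (by norm_num) (by norm_num) (by norm_num) (by norm_num)) d5
                · rcases le_total g2.re (2 / 25) with r5 | r5
                  · rcases le_total g2.im (6 / 25) with i5 | i5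
                    · exact leaf_pm_8 HP HG t1 t3 t5 d1 (box_disc r1 r5 i2 i5 (by norm_num) (by norm_num) (by norm_num) (by norm_num)) d3 (box_disc r4 r3 i4 l4d (by norm_num) (by norm_num) (by norm_num) (by norm_num)) d5
                    · exact leaf_pm_9 HP HG t1 t3 t5 d1 (box_disc r1 r5 i5 l2d (by norm_num) (by norm_num) (by norm_num) (by norm_num)) d3 (box_disc r4 r3 i4 l4d (by norm_num) (by norm_num) (by norm_num) (by norm_num)) d5
                  · rcases le_total g2.im (6 / 25) with i5 | i5
                    · rcases le_total g4.re (-2 / 25) with r6 | r6
                      · rcases le_total g4.im (6 / 25) with i6 | i6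
                        · exact leaf_pm_10 HP HG t1 t3 t5 d1 (box_disc r5 r2 i2 i5 (by norm_num) (by norm_num) (by norm_num) (by norm_num)) d3 (box_disc r4 r6 i4 i6 (by norm_num) (by norm_num) (by norm_num) (by norm_num)) d5
                        · rcases le_total g5.re (-24069 / 100000) with r7 | r7
                          · rcases le_total g5.im (-24069 / 100000) with i7 | i7
                            · exact leaf_pm_11 HP HG t1 t3 t5 d1 (box_disc r5 r2 i2 i5 (by norm_num) (by norm_num) (by norm_num) (by norm_num)) d3 (box_disc r4 r6 i6 l4d (by norm_num) (by norm_num) (by norm_num) (by norm_num)) (box_disc l5a r7 l5c i7 (by norm_num) (by norm_num) (by norm_num) (by norm_num))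
                            · rcases le_total g3.re (31073 / 100000) with r8 | r8
                              · rcases le_total g3.im (31073 / 100000) with i8 | i8
                                · rcases le_total g2.re (3 / 25) with r9 | r9
                                  · rcases le_total g2.im (1 / 5) with i9 | i9
                                    · exact leaf_pm_12 HP HG t1 t3 t5 d1 (box_disc r5 r9 i2 i9 (by norm_num) (by norm_num) (by norm_num) (by norm_num)) (box_disc l3a r8 l3c i8 (by norm_num) (by norm_num) (by norm_num) (by norm_num)) (box_disc r4 r6 i6 l4d (by norm_num) (by norm_num) (by norm_num) (by norm_num)) (box_disc l5a r7 i7 l5d (by norm_num) (by norm_num) (by norm_num) (by norm_num))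
                                    · exact leaf_pm_13 HP HG t1 t3 t5 d1 (box_disc r5 r9 i9 i5 (by norm_num) (by norm_num) (by norm_num) (by norm_num)) (box_disc l3a r8 l3c i8 (by norm_num) (by norm_num) (by norm_num) (by norm_num)) (box_disc r4 r6 i6 l4d (by norm_num) (by norm_num) (by norm_num) (by norm_num)) (box_disc l5a r7 i7 l5d (by norm_num) (by norm_num) (by norm_num) (by norm_num))
                                  · rcases le_total g2.im (1 / 5) with i9 | i9
                                    · rcases le_total g1.re (2691 / 5000) with r10 | r10
                                      · rcases le_total g1.im (2691 / 5000) with i10 | i10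
                                        · exact leaf_pm_14 HP HG t1 t3 t5 (box_disc l1a r10 l1c i10 (by norm_num) (by norm_num) (by norm_num) (by norm_num)) (box_disc r9 r2 i2 i9 (by norm_num) (by norm_num) (by norm_num) (by norm_num)) (box_disc l3a r8 l3c i8 (by norm_num) (by norm_num) (by norm_num) (by norm_num)) (box_disc r4 r6 i6 l4d (by norm_num) (by norm_num) (by norm_num) (by norm_num)) (box_disc l5a r7 i7 l5d (by norm_num) (by norm_num) (by norm_num) (by norm_num))
                                        · exact leaf_pm_15 HP HG t1 t3 t5 (box_disc l1a r10 i10 l1d (by norm_num) (by norm_num) (by norm_num) (by norm_num)) (box_disc r9 r2 i2 i9 (by norm_num) (by norm_num) (by norm_num) (by norm_num)) (box_disc l3a r8 l3c i8 (by norm_num) (by norm_num) (by norm_num) (by norm_num)) (box_disc r4 r6 i6 l4d (by norm_num) (by norm_num) (by norm_num) (by norm_num)) (box_disc l5a r7 i7 l5d (by norm_num) (by norm_num) (by norm_num) (by norm_num))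
                                      · rcases le_total g1.im (2691 / 5000) with i10 | i10
                                        · exact leaf_pm_16 HP HG t1 t3 t5 (box_disc r10 l1b l1c i10 (by norm_num) (by norm_num) (by norm_num) (by norm_num)) (box_disc r9 r2 i2 i9 (by norm_num) (by norm_num) (by norm_num) (by norm_num)) (box_disc l3a r8 l3c i8 (by norm_num) (by norm_num) (by norm_num) (by norm_num)) (box_disc r4 r6 i6 l4d (by norm_num) (by norm_num) (by norm_num) (by norm_num)) (box_disc l5a r7 i7 l5d (by norm_num) (by norm_num) (by norm_num) (by norm_num))
                                        · exact leaf_pm_17 HP HG t1 t3 t5 (box_disc r10 l1b i10 l1d (by norm_num) (by norm_num) (by norm_num) (by norm_num)) (box_disc r9 r2 i2 i9 (by norm_num) (by norm_num) (by norm_num) (by norm_num)) (box_disc l3a r8 l3c i8 (by norm_num) (by norm_num) (by norm_num) (by norm_num)) (box_disc r4 r6 i6 l4d (by norm_num) (by norm_num) (by norm_num) (by norm_num)) (box_disc l5a r7 i7 l5d (by norm_num) (by norm_num) (by norm_num) (by norm_num))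
                                    · exact leaf_pm_18 HP HG t1 t3 t5 d1 (box_disc r9 r2 i9 i5 (by norm_num) (by norm_num) (by norm_num) (by norm_num)) (box_disc l3a r8 l3c i8 (by norm_num) (by norm_num) (by norm_num) (by norm_num)) (box_disc r4 r6 i6 l4d (by norm_num) (by norm_num) (by norm_num) (by norm_num)) (box_disc l5a r7 i7 l5d (by norm_num) (by norm_num) (by norm_num) (by norm_num))
                                · exact leaf_pm_19 HP HG t1 t3 t5 d1 (box_disc r5 r2 i2 i5 (by norm_num) (by norm_num) (by norm_num) (by norm_num)) (box_disc l3a r8 i8 l3d (by norm_num) (by norm_num) (by norm_num) (by norm_num)) (box_disc r4 r6 i6 l4d (by norm_num) (by norm_num) (by norm_num) (by norm_num)) (box_disc l5a r7 i7 l5d (by norm_num) (by norm_num) (by norm_num) (by norm_num))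
                              · rcases le_total g3.im (31073 / 100000) with i8 | i8
                                · exact leaf_pm_20 HP HG t1 t3 t5 d1 (box_disc r5 r2 i2 i5 (by norm_num) (by norm_num) (by norm_num) (by norm_num)) (box_disc r8 l3b l3c i8 (by norm_num) (by norm_num) (by norm_num) (by norm_num)) (box_disc r4 r6 i6 l4d (by norm_num) (by norm_num) (by norm_num) (by norm_num)) (box_disc l5a r7 i7 l5d (by norm_num) (by norm_num) (by norm_num) (by norm_num))
                                · exact leaf_pm_21 HP HG t1 t3 t5 d1 (box_disc r5 r2 i2 i5 (by norm_num) (by norm_num) (by norm_num) (by norm_num)) (box_disc r8 l3b i8 l3d (by norm_num) (by norm_num) (by norm_num) (by norm_num)) (box_disc r4 r6 i6 l4d (by norm_num) (by norm_num) (by norm_num) (by norm_num)) (box_disc l5a r7 i7 l5d (by norm_num) (by norm_num) (by norm_num) (by norm_num))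
                          · rcases le_total g5.im (-24069 / 100000) with i7 | i7
                            · rcases le_total g3.re (31073 / 100000) with r11 | r11
                              · rcases le_total g3.im (31073 / 100000) with i11 | i11
                                · exact leaf_pm_22 HP HG t1 t3 t5 d1 (box_disc r5 r2 i2 i5 (by norm_num) (by norm_num) (by norm_num) (by norm_num)) (box_disc l3a r11 l3c i11 (by norm_num) (by norm_num) (by norm_num) (by norm_num)) (box_disc r4 r6 i6 l4d (by norm_num) (by norm_num) (by norm_num) (by norm_num)) (box_disc r7 l5b l5c i7 (by norm_num) (by norm_num) (by norm_num) (by norm_num))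
                                · exact leaf_pm_23 HP HG t1 t3 t5 d1 (box_disc r5 r2 i2 i5 (by norm_num) (by norm_num) (by norm_num) (by norm_num)) (box_disc l3a r11 i11 l3d (by norm_num) (by norm_num) (by norm_num) (by norm_num)) (box_disc r4 r6 i6 l4d (by norm_num) (by norm_num) (by norm_num) (by norm_num)) (box_disc r7 l5b l5c i7 (by norm_num) (by norm_num) (by norm_num) (by norm_num))
                              · rcases le_total g3.im (31073 / 100000) with i11 | i11
                                · exact leaf_pm_24 HP HG t1 t3 t5 d1 (box_disc r5 r2 i2 i5 (by norm_num) (by norm_num) (by norm_num) (by norm_num)) (box_disc r11 l3b l3c i11 (by norm_num) (by norm_num) (by norm_num) (by norm_num)) (box_disc r4 r6 i6 l4d (by norm_num) (by norm_num) (by norm_num) (by norm_num)) (box_disc r7 l5b l5c i7 (by norm_num) (by norm_num) (by norm_num) (by norm_num))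
                                · exact leaf_pm_25 HP HG t1 t3 t5 d1 (box_disc r5 r2 i2 i5 (by norm_num) (by norm_num) (by norm_num) (by norm_num)) (box_disc r11 l3b i11 l3d (by norm_num) (by norm_num) (by norm_num) (by norm_num)) (box_disc r4 r6 i6 l4d (by norm_num) (by norm_num) (by norm_num) (by norm_num)) (box_disc r7 l5b l5c i7 (by norm_num) (by norm_num) (by norm_num) (by norm_num))
                            · exact leaf_pm_26 HP HG t1 t3 t5 d1 (box_disc r5 r2 i2 i5 (by norm_num) (by norm_num) (by norm_num) (by norm_num)) d3 (box_disc r4 r6 i6 l4d (by norm_num) (by norm_num) (by norm_num) (by norm_num)) (box_disc r7 l5b i7 l5d (by norm_num) (by norm_num) (by norm_num) (by norm_num))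
                      · rcases le_total g4.im (6 / 25) with i6 | i6
                        · exact leaf_pm_27 HP HG t1 t3 t5 d1 (box_disc r5 r2 i2 i5 (by norm_num) (by norm_num) (by norm_num) (by norm_num)) d3 (box_disc r6 r3 i4 i6 (by norm_num) (by norm_num) (by norm_num) (by norm_num)) d5
                        · rcases le_total g5.re (-24069 / 100000) with r12 | r12
                          · rcases le_total g5.im (-24069 / 100000) with i12 | i12
                            · rcases le_total g3.re (31073 / 100000) with r13 | r13
                              · rcases le_total g3.im (31073 / 100000) with i13 | i13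
                                · exact leaf_pm_28 HP HG t1 t3 t5 d1 (box_disc r5 r2 i2 i5 (by norm_num) (by norm_num) (by norm_num) (by norm_num)) (box_disc l3a r13 l3c i13 (by norm_num) (by norm_num) (by norm_num) (by norm_num)) (box_disc r6 r3 i6 l4d (by norm_num) (by norm_num) (by norm_num) (by norm_num)) (box_disc l5a r12 l5c i12 (by norm_num) (by norm_num) (by norm_num) (by norm_num))
                                · exact leaf_pm_29 HP HG t1 t3 t5 d1 (box_disc r5 r2 i2 i5 (by norm_num) (by norm_num) (by norm_num) (by norm_num)) (box_disc l3a r13 i13 l3d (by norm_num) (by norm_num) (by norm_num) (by norm_num)) (box_disc r6 r3 i6 l4d (by norm_num) (by norm_num) (by norm_num) (by norm_num)) (box_disc l5a r12 l5c i12 (by norm_num) (by norm_num) (by norm_num) (by norm_num))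
                              · rcases le_total g3.im (31073 / 100000) with i13 | i13
                                · exact leaf_pm_30 HP HG t1 t3 t5 d1 (box_disc r5 r2 i2 i5 (by norm_num) (by norm_num) (by norm_num) (by norm_num)) (box_disc r13 l3b l3c i13 (by norm_num) (by norm_num) (by norm_num) (by norm_num)) (box_disc r6 r3 i6 l4d (by norm_num) (by norm_num) (by norm_num) (by norm_num)) (box_disc l5a r12 l5c i12 (by norm_num) (by norm_num) (by norm_num) (by norm_num))
                                · exact leaf_pm_31 HP HG t1 t3 t5 d1 (box_disc r5 r2 i2 i5 (by norm_num) (by norm_num) (by norm_num) (by norm_num)) (box_disc r13 l3b i13 l3d (by norm_num) (by norm_num) (by norm_num) (by norm_num)) (box_disc r6 r3 i6 l4d (by norm_num) (by norm_num) (by norm_num) (by norm_num)) (box_disc l5a r12 l5c i12 (by norm_num) (by norm_num) (by norm_num) (by norm_num))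
                            · rcases le_total g3.re (31073 / 100000) with r14 | r14
                              · rcases le_total g3.im (31073 / 100000) with i14 | i14
                                · rcases le_total g2.re (3 / 25) with r15 | r15
                                  · rcases le_total g2.im (1 / 5) with i15 | i15
                                    · exact leaf_pm_32 HP HG t1 t3 t5 d1 (box_disc r5 r15 i2 i15 (by norm_num) (by norm_num) (by norm_num) (by norm_num)) (box_disc l3a r14 l3c i14 (by norm_num) (by norm_num) (by norm_num) (by norm_num)) (box_disc r6 r3 i6 l4d (by norm_num) (by norm_num) (by norm_num) (by norm_num)) (box_disc l5a r12 i12 l5d (by norm_num) (by norm_num) (by norm_num) (by norm_num))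
                                    · exact leaf_pm_33 HP HG t1 t3 t5 d1 (box_disc r5 r15 i15 i5 (by norm_num) (by norm_num) (by norm_num) (by norm_num)) (box_disc l3a r14 l3c i14 (by norm_num) (by norm_num) (by norm_num) (by norm_num)) (box_disc r6 r3 i6 l4d (by norm_num) (by norm_num) (by norm_num) (by norm_num)) (box_disc l5a r12 i12 l5d (by norm_num) (by norm_num) (by norm_num) (by norm_num))
                                  · rcases le_total g2.im (1 / 5) with i15 | i15
                                    · rcases le_total g1.re (2691 / 5000) with r16 | r16
                                      · rcases le_total g1.im (2691 / 5000) with i16 | i16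
                                        · rcases le_total g5.re (-33069 / 100000) with r17 | r17
                                          · rcases le_total g5.im (-15069 / 100000) with i17 | i17
                                            · exact leaf_pm_34 HP HG t1 t3 t5 (box_disc l1a r16 l1c i16 (by norm_num) (by norm_num) (by norm_num) (by norm_num)) (box_disc r15 r2 i2 i15 (by norm_num) (by norm_num) (by norm_num) (by norm_num)) (box_disc l3a r14 l3c i14 (by norm_num) (by norm_num) (by norm_num) (by norm_num)) (box_disc r6 r3 i6 l4d (by norm_num) (by norm_num) (by norm_num) (by norm_num)) (box_disc l5a r17 i12 i17 (by norm_num) (by norm_num) (by norm_num) (by norm_num))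
                                            · exact leaf_pm_35 HP HG t1 t3 t5 (box_disc l1a r16 l1c i16 (by norm_num) (by norm_num) (by norm_num) (by norm_num)) (box_disc r15 r2 i2 i15 (by norm_num) (by norm_num) (by norm_num) (by norm_num)) (box_disc l3a r14 l3c i14 (by norm_num) (by norm_num) (by norm_num) (by norm_num)) (box_disc r6 r3 i6 l4d (by norm_num) (by norm_num) (by norm_num) (by norm_num)) (box_disc l5a r17 i17 l5d (by norm_num) (by norm_num) (by norm_num) (by norm_num))
                                          · rcases le_total g5.im (-15069 / 100000) with i17 | i17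
                                            · exact leaf_pm_36 HP HG t1 t3 t5 (box_disc l1a r16 l1c i16 (by norm_num) (by norm_num) (by norm_num) (by norm_num)) (box_disc r15 r2 i2 i15 (by norm_num) (by norm_num) (by norm_num) (by norm_num)) (box_disc l3a r14 l3c i14 (by norm_num) (by norm_num) (by norm_num) (by norm_num)) (box_disc r6 r3 i6 l4d (by norm_num) (by norm_num) (by norm_num) (by norm_num)) (box_disc r17 r12 i12 i17 (by norm_num) (by norm_num) (by norm_num) (by norm_num))
                                            · exact leaf_pm_37 HP HG t1 t3 t5 (box_disc l1a r16 l1c i16 (by norm_num) (by norm_num) (by norm_num) (by norm_num)) (box_disc r15 r2 i2 i15 (by norm_num) (by norm_num) (by norm_num) (by norm_num)) (box_disc l3a r14 l3c i14 (by norm_num) (by norm_num) (by norm_num) (by norm_num)) (box_disc r6 r3 i6 l4d (by norm_num) (by norm_num) (by norm_num) (by norm_num)) (box_disc r17 r12 i17 l5d (by norm_num) (by norm_num) (by norm_num) (by norm_num))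
                                        · rcases le_total g5.re (-33069 / 100000) with r18 | r18
                                          · rcases le_total g5.im (-15069 / 100000) with i18 | i18
                                            · exact leaf_pm_38 HP HG t1 t3 t5 (box_disc l1a r16 i16 l1d (by norm_num) (by norm_num) (by norm_num) (by norm_num)) (box_disc r15 r2 i2 i15 (by norm_num) (by norm_num) (by norm_num) (by norm_num)) (box_disc l3a r14 l3c i14 (by norm_num) (by norm_num) (by norm_num) (by norm_num)) (box_disc r6 r3 i6 l4d (by norm_num) (by norm_num) (by norm_num) (by norm_num)) (box_disc l5a r18 i12 i18 (by norm_num) (by norm_num) (by norm_num) (by norm_num))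
                                            · exact leaf_pm_39 HP HG t1 t3 t5 (box_disc l1a r16 i16 l1d (by norm_num) (by norm_num) (by norm_num) (by norm_num)) (box_disc r15 r2 i2 i15 (by norm_num) (by norm_num) (by norm_num) (by norm_num)) (box_disc l3a r14 l3c i14 (by norm_num) (by norm_num) (by norm_num) (by norm_num)) (box_disc r6 r3 i6 l4d (by norm_num) (by norm_num) (by norm_num) (by norm_num)) (box_disc l5a r18 i18 l5d (by norm_num) (by norm_num) (by norm_num) (by norm_num))
                                          · rcases le_total g5.im (-15069 / 100000) with i18 | i18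
                                            · exact leaf_pm_40 HP HG t1 t3 t5 (box_disc l1a r16 i16 l1d (by norm_num) (by norm_num) (by norm_num) (by norm_num)) (box_disc r15 r2 i2 i15 (by norm_num) (by norm_num) (by norm_num) (by norm_num)) (box_disc l3a r14 l3c i14 (by norm_num) (by norm_num) (by norm_num) (by norm_num)) (box_disc r6 r3 i6 l4d (by norm_num) (by norm_num) (by norm_num) (by norm_num)) (box_disc r18 r12 i12 i18 (by norm_num) (by norm_num) (by norm_num) (by norm_num))
                                            · exact leaf_pm_41 HP HG t1 t3 t5 (box_disc l1a r16 i16 l1d (by norm_num) (by norm_num) (by norm_num) (by norm_num)) (box_disc r15 r2 i2 i15 (by norm_num) (by norm_num) (by norm_num) (by norm_num)) (box_disc l3a r14 l3c i14 (by norm_num) (by norm_num) (by norm_num) (by norm_num)) (box_disc r6 r3 i6 l4d (by norm_num) (by norm_num) (by norm_num) (by norm_num)) (box_disc r18 r12 i18 l5d (by norm_num) (by norm_num) (by norm_num) (by norm_num))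
                                      · rcases le_total g1.im (2691 / 5000) with i16 | i16
                                        · exact leaf_pm_42 HP HG t1 t3 t5 (box_disc r16 l1b l1c i16 (by norm_num) (by norm_num) (by norm_num) (by norm_num)) (box_disc r15 r2 i2 i15 (by norm_num) (by norm_num) (by norm_num) (by norm_num)) (box_disc l3a r14 l3c i14 (by norm_num) (by norm_num) (by norm_num) (by norm_num)) (box_disc r6 r3 i6 l4d (by norm_num) (by norm_num) (by norm_num) (by norm_num)) (box_disc l5a r12 i12 l5d (by norm_num) (by norm_num) (by norm_num) (by norm_num))
                                        · exact leaf_pm_43 HP HG t1 t3 t5 (box_disc r16 l1b i16 l1d (by norm_num) (by norm_num) (by norm_num) (by norm_num)) (box_disc r15 r2 i2 i15 (by norm_num) (by norm_num) (by norm_num) (by norm_num)) (box_disc l3a r14 l3c i14 (by norm_num) (by norm_num) (by norm_num) (by norm_num)) (box_disc r6 r3 i6 l4d (by norm_num) (by norm_num) (by norm_num) (by norm_num)) (box_disc l5a r12 i12 l5d (by norm_num) (by norm_num) (by norm_num) (by norm_num))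
                                    · exact leaf_pm_44 HP HG t1 t3 t5 d1 (box_disc r15 r2 i15 i5 (by norm_num) (by norm_num) (by norm_num) (by norm_num)) (box_disc l3a r14 l3c i14 (by norm_num) (by norm_num) (by norm_num) (by norm_num)) (box_disc r6 r3 i6 l4d (by norm_num) (by norm_num) (by norm_num) (by norm_num)) (box_disc l5a r12 i12 l5d (by norm_num) (by norm_num) (by norm_num) (by norm_num))
                                · exact leaf_pm_45 HP HG t1 t3 t5 d1 (box_disc r5 r2 i2 i5 (by norm_num) (by norm_num) (by norm_num) (by norm_num)) (box_disc l3a r14 i14 l3d (by norm_num) (by norm_num) (by norm_num) (by norm_num)) (box_disc r6 r3 i6 l4d (by norm_num) (by norm_num) (by norm_num) (by norm_num)) (box_disc l5a r12 i12 l5d (by norm_num) (by norm_num) (by norm_num) (by norm_num))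
                              · rcases le_total g3.im (31073 / 100000) with i14 | i14
                                · exact leaf_pm_46 HP HG t1 t3 t5 d1 (box_disc r5 r2 i2 i5 (by norm_num) (by norm_num) (by norm_num) (by norm_num)) (box_disc r14 l3b l3c i14 (by norm_num) (by norm_num) (by norm_num) (by norm_num)) (box_disc r6 r3 i6 l4d (by norm_num) (by norm_num) (by norm_num) (by norm_num)) (box_disc l5a r12 i12 l5d (by norm_num) (by norm_num) (by norm_num) (by norm_num))
                                · exact leaf_pm_47 HP HG t1 t3 t5 d1 (box_disc r5 r2 i2 i5 (by norm_num) (by norm_num) (by norm_num) (by norm_num)) (box_disc r14 l3b i14 l3d (by norm_num) (by norm_num) (by norm_num) (by norm_num)) (box_disc r6 r3 i6 l4d (by norm_num) (by norm_num) (by norm_num) (by norm_num)) (box_disc l5a r12 i12 l5d (by norm_num) (by norm_num) (by norm_num) (by norm_num))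
                          · rcases le_total g5.im (-24069 / 100000) with i12 | i12
                            · exact leaf_pm_48 HP HG t1 t3 t5 d1 (box_disc r5 r2 i2 i5 (by norm_num) (by norm_num) (by norm_num) (by norm_num)) d3 (box_disc r6 r3 i6 l4d (by norm_num) (by norm_num) (by norm_num) (by norm_num)) (box_disc r12 l5b l5c i12 (by norm_num) (by norm_num) (by norm_num) (by norm_num))
                            · exact leaf_pm_49 HP HG t1 t3 t5 d1 (box_disc r5 r2 i2 i5 (by norm_num) (by norm_num) (by norm_num) (by norm_num)) d3 (box_disc r6 r3 i6 l4d (by norm_num) (by norm_num) (by norm_num) (by norm_num)) (box_disc r12 l5b i12 l5d (by norm_num) (by norm_num) (by norm_num) (by norm_num))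
                    · exact leaf_pm_50 HP HG t1 t3 t5 d1 (box_disc r5 r2 i5 l2d (by norm_num) (by norm_num) (by norm_num) (by norm_num)) d3 (box_disc r4 r3 i4 l4d (by norm_num) (by norm_num) (by norm_num) (by norm_num)) d5
          · rcases le_total g4.im 0 with i3 | i3
            · exact leaf_pm_51 HP HG t1 t3 t5 d1 (box_disc r1 r2 i2 l2d (by norm_num) (by norm_num) (by norm_num) (by norm_num)) d3 (box_disc r3 l4b l4c i3 (by norm_num) (by norm_num) (by norm_num) (by norm_num)) d5
            · exact leaf_pm_52 HP HG t1 t3 t5 d1 (box_disc r1 r2 i2 l2d (by norm_num) (by norm_num) (by norm_num) (by norm_num)) d3 (box_disc r3 l4b i3 l4d (by norm_num) (by norm_num) (by norm_num) (by norm_num)) d5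
      · rcases le_total g2.im (4 / 25) with i2 | i2
        · exact leaf_pm_53 HP HG t1 t3 t5 d1 (box_disc r2 l2b i1 i2 (by norm_num) (by norm_num) (by norm_num) (by norm_num)) d3 d4 d5
        · rcases le_total g4.re 0 with r19 | r19
          · rcases le_total g4.im 0 with i19 | i19
            · exact leaf_pm_54 HP HG t1 t3 t5 d1 (box_disc r2 l2b i2 l2d (by norm_num) (by norm_num) (by norm_num) (by norm_num)) d3 (box_disc l4a r19 l4c i19 (by norm_num) (by norm_num) (by norm_num) (by norm_num)) d5
            · rcases le_total g4.re (-4 / 25) with r20 | r20
              · rcases le_total g4.im (4 / 25) with i20 | i20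
                · exact leaf_pm_55 HP HG t1 t3 t5 d1 (box_disc r2 l2b i2 l2d (by norm_num) (by norm_num) (by norm_num) (by norm_num)) d3 (box_disc l4a r20 i19 i20 (by norm_num) (by norm_num) (by norm_num) (by norm_num)) d5
                · rcases le_total g2.re (6 / 25) with r21 | r21
                  · rcases le_total g2.im (6 / 25) with i21 | i21
                    · exact leaf_pm_56 HP HG t1 t3 t5 d1 (box_disc r2 r21 i2 i21 (by norm_num) (by norm_num) (by norm_num) (by norm_num)) d3 (box_disc l4a r20 i20 l4d (by norm_num) (by norm_num) (by norm_num) (by norm_num)) d5
                    · exact leaf_pm_57 HP HG t1 t3 t5 d1 (box_disc r2 r21 i21 l2d (by norm_num) (by norm_num) (by norm_num) (by norm_num)) d3 (box_disc l4a r20 i20 l4d (by norm_num) (by norm_num) (by norm_num) (by norm_num)) d5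
                  · rcases le_total g2.im (6 / 25) with i21 | i21
                    · exact leaf_pm_58 HP HG t1 t3 t5 d1 (box_disc r21 l2b i2 i21 (by norm_num) (by norm_num) (by norm_num) (by norm_num)) d3 (box_disc l4a r20 i20 l4d (by norm_num) (by norm_num) (by norm_num) (by norm_num)) d5
                    · exact box_out (r := (56569 / 1000000)) (r' := (30017 / 100000)) (x := (7 / 25)) (y := (7 / 25)) (box_disc r21 l2b i21 l2d (by norm_num) (by norm_num) (by norm_num) (by norm_num)) d2 (by norm_num)
              · rcases le_total g4.im (4 / 25) with i20 | i20
                · exact leaf_pm_59 HP HG t1 t3 t5 d1 (box_disc r2 l2b i2 l2d (by norm_num) (by norm_num) (by norm_num) (by norm_num)) d3 (box_disc r20 r19 i19 i20 (by norm_num) (by norm_num) (by norm_num) (by norm_num)) d5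
                · rcases le_total g2.re (6 / 25) with r22 | r22
                  · rcases le_total g2.im (6 / 25) with i22 | i22
                    · rcases le_total g4.re (-2 / 25) with r23 | r23
                      · rcases le_total g4.im (6 / 25) with i23 | i23
                        · exact leaf_pm_60 HP HG t1 t3 t5 d1 (box_disc r2 r22 i2 i22 (by norm_num) (by norm_num) (by norm_num) (by norm_num)) d3 (box_disc r20 r23 i20 i23 (by norm_num) (by norm_num) (by norm_num) (by norm_num)) d5
                        · rcases le_total g5.re (-24069 / 100000) with r24 | r24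
                          · rcases le_total g5.im (-24069 / 100000) with i24 | i24
                            · rcases le_total g3.re (31073 / 100000) with r25 | r25
                              · rcases le_total g3.im (31073 / 100000) with i25 | i25
                                · rcases le_total g2.re (1 / 5) with r26 | r26
                                  · rcases le_total g2.im (1 / 5) with i26 | i26
                                    · exact leaf_pm_61 HP HG t1 t3 t5 d1 (box_disc r2 r26 i2 i26 (by norm_num) (by norm_num) (by norm_num) (by norm_num)) (box_disc l3a r25 l3c i25 (by norm_num) (by norm_num) (by norm_num) (by norm_num)) (box_disc r20 r23 i23 l4d (by norm_num) (by norm_num) (by norm_num) (by norm_num)) (box_disc l5a r24 l5c i24 (by norm_num) (by norm_num) (by norm_num) (by norm_num))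
                                    · exact leaf_pm_62 HP HG t1 t3 t5 d1 (box_disc r2 r26 i26 i22 (by norm_num) (by norm_num) (by norm_num) (by norm_num)) (box_disc l3a r25 l3c i25 (by norm_num) (by norm_num) (by norm_num) (by norm_num)) (box_disc r20 r23 i23 l4d (by norm_num) (by norm_num) (by norm_num) (by norm_num)) (box_disc l5a r24 l5c i24 (by norm_num) (by norm_num) (by norm_num) (by norm_num))
                                  · rcases le_total g2.im (1 / 5) with i26 | i26
                                    · exact leaf_pm_63 HP HG t1 t3 t5 d1 (box_disc r26 r22 i2 i26 (by norm_num) (by norm_num) (by norm_num) (by norm_num)) (box_disc l3a r25 l3c i25 (by norm_num) (by norm_num) (by norm_num) (by norm_num)) (box_disc r20 r23 i23 l4d (by norm_num) (by norm_num) (by norm_num) (by norm_num)) (box_disc l5a r24 l5c i24 (by norm_num) (by norm_num) (by norm_num) (by norm_num))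
                                    · exact leaf_pm_64 HP HG t1 t3 t5 d1 (box_disc r26 r22 i26 i22 (by norm_num) (by norm_num) (by norm_num) (by norm_num)) (box_disc l3a r25 l3c i25 (by norm_num) (by norm_num) (by norm_num) (by norm_num)) (box_disc r20 r23 i23 l4d (by norm_num) (by norm_num) (by norm_num) (by norm_num)) (box_disc l5a r24 l5c i24 (by norm_num) (by norm_num) (by norm_num) (by norm_num))
                                · exact leaf_pm_65 HP HG t1 t3 t5 d1 (box_disc r2 r22 i2 i22 (by norm_num) (by norm_num) (by norm_num) (by norm_num)) (box_disc l3a r25 i25 l3d (by norm_num) (by norm_num) (by norm_num) (by norm_num)) (box_disc r20 r23 i23 l4d (by norm_num) (by norm_num) (by norm_num) (by norm_num)) (box_disc l5a r24 l5c i24 (by norm_num) (by norm_num) (by norm_num) (by norm_num))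
                              · rcases le_total g3.im (31073 / 100000) with i25 | i25
                                · exact leaf_pm_66 HP HG t1 t3 t5 d1 (box_disc r2 r22 i2 i22 (by norm_num) (by norm_num) (by norm_num) (by norm_num)) (box_disc r25 l3b l3c i25 (by norm_num) (by norm_num) (by norm_num) (by norm_num)) (box_disc r20 r23 i23 l4d (by norm_num) (by norm_num) (by norm_num) (by norm_num)) (box_disc l5a r24 l5c i24 (by norm_num) (by norm_num) (by norm_num) (by norm_num))
                                · exact leaf_pm_67 HP HG t1 t3 t5 d1 (box_disc r2 r22 i2 i22 (by norm_num) (by norm_num) (by norm_num) (by norm_num)) (box_disc r25 l3b i25 l3d (by norm_num) (by norm_num) (by norm_num) (by norm_num)) (box_disc r20 r23 i23 l4d (by norm_num) (by norm_num) (by norm_num) (by norm_num)) (box_disc l5a r24 l5c i24 (by norm_num) (by norm_num) (by norm_num) (by norm_num))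
                            · rcases le_total g3.re (31073 / 100000) with r27 | r27
                              · rcases le_total g3.im (31073 / 100000) with i27 | i27
                                · rcases le_total g2.re (1 / 5) with r28 | r28
                                  · rcases le_total g2.im (1 / 5) with i28 | i28
                                    · rcases le_total g1.re (2691 / 5000) with r29 | r29
                                      · rcases le_total g1.im (2691 / 5000) with i29 | i29
                                        · rcases le_total g5.re (-33069 / 100000) with r30 | r30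
                                          · rcases le_total g5.im (-15069 / 100000) with i30 | i30
                                            · exact leaf_pm_68 HP HG t1 t3 t5 (box_disc l1a r29 l1c i29 (by norm_num) (by norm_num) (by norm_num) (by norm_num)) (box_disc r2 r28 i2 i28 (by norm_num) (by norm_num) (by norm_num) (by norm_num)) (box_disc l3a r27 l3c i27 (by norm_num) (by norm_num) (by norm_num) (by norm_num)) (box_disc r20 r23 i23 l4d (by norm_num) (by norm_num) (by norm_num) (by norm_num)) (box_disc l5a r30 i24 i30 (by norm_num) (by norm_num) (by norm_num) (by norm_num))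
                                            · exact leaf_pm_69 HP HG t1 t3 t5 (box_disc l1a r29 l1c i29 (by norm_num) (by norm_num) (by norm_num) (by norm_num)) (box_disc r2 r28 i2 i28 (by norm_num) (by norm_num) (by norm_num) (by norm_num)) (box_disc l3a r27 l3c i27 (by norm_num) (by norm_num) (by norm_num) (by norm_num)) (box_disc r20 r23 i23 l4d (by norm_num) (by norm_num) (by norm_num) (by norm_num)) (box_disc l5a r30 i30 l5d (by norm_num) (by norm_num) (by norm_num) (by norm_num))
                                          · rcases le_total g5.im (-15069 / 100000) with i30 | i30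
                                            · exact leaf_pm_70 HP HG t1 t3 t5 (box_disc l1a r29 l1c i29 (by norm_num) (by norm_num) (by norm_num) (by norm_num)) (box_disc r2 r28 i2 i28 (by norm_num) (by norm_num) (by norm_num) (by norm_num)) (box_disc l3a r27 l3c i27 (by norm_num) (by norm_num) (by norm_num) (by norm_num)) (box_disc r20 r23 i23 l4d (by norm_num) (by norm_num) (by norm_num) (by norm_num)) (box_disc r30 r24 i24 i30 (by norm_num) (by norm_num) (by norm_num) (by norm_num))
                                            · exact leaf_pm_71 HP HG t1 t3 t5 (box_disc l1a r29 l1c i29 (by norm_num) (by norm_num) (by norm_num) (by norm_num)) (box_disc r2 r28 i2 i28 (by norm_num) (by norm_num) (by norm_num) (by norm_num)) (box_disc l3a r27 l3c i27 (by norm_num) (by norm_num) (by norm_num) (by norm_num)) (box_disc r20 r23 i23 l4d (by norm_num) (by norm_num) (by norm_num) (by norm_num)) (box_disc r30 r24 i30 l5d (by norm_num) (by norm_num) (by norm_num) (by norm_num))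
                                        · exact leaf_pm_72 HP HG t1 t3 t5 (box_disc l1a r29 i29 l1d (by norm_num) (by norm_num) (by norm_num) (by norm_num)) (box_disc r2 r28 i2 i28 (by norm_num) (by norm_num) (by norm_num) (by norm_num)) (box_disc l3a r27 l3c i27 (by norm_num) (by norm_num) (by norm_num) (by norm_num)) (box_disc r20 r23 i23 l4d (by norm_num) (by norm_num) (by norm_num) (by norm_num)) (box_disc l5a r24 i24 l5d (by norm_num) (by norm_num) (by norm_num) (by norm_num))
                                      · rcases le_total g1.im (2691 / 5000) with i29 | i29
                                        · exact leaf_pm_73 HP HG t1 t3 t5 (box_disc r29 l1b l1c i29 (by norm_num) (by norm_num) (by norm_num) (by norm_num)) (box_disc r2 r28 i2 i28 (by norm_num) (by norm_num) (by norm_num) (by norm_num)) (box_disc l3a r27 l3c i27 (by norm_num) (by norm_num) (by norm_num) (by norm_num)) (box_disc r20 r23 i23 l4d (by norm_num) (by norm_num) (by norm_num) (by norm_num)) (box_disc l5a r24 i24 l5d (by norm_num) (by norm_num) (by norm_num) (by norm_num))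
                                        · exact leaf_pm_74 HP HG t1 t3 t5 (box_disc r29 l1b i29 l1d (by norm_num) (by norm_num) (by norm_num) (by norm_num)) (box_disc r2 r28 i2 i28 (by norm_num) (by norm_num) (by norm_num) (by norm_num)) (box_disc l3a r27 l3c i27 (by norm_num) (by norm_num) (by norm_num) (by norm_num)) (box_disc r20 r23 i23 l4d (by norm_num) (by norm_num) (by norm_num) (by norm_num)) (box_disc l5a r24 i24 l5d (by norm_num) (by norm_num) (by norm_num) (by norm_num))
                                    · exact leaf_pm_75 HP HG t1 t3 t5 d1 (box_disc r2 r28 i28 i22 (by norm_num) (by norm_num) (by norm_num) (by norm_num)) (box_disc l3a r27 l3c i27 (by norm_num) (by norm_num) (by norm_num) (by norm_num)) (box_disc r20 r23 i23 l4d (by norm_num) (by norm_num) (by norm_num) (by norm_num)) (box_disc l5a r24 i24 l5d (by norm_num) (by norm_num) (by norm_num) (by norm_num))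
                                  · rcases le_total g2.im (1 / 5) with i28 | i28
                                    · exact leaf_pm_76 HP HG t1 t3 t5 d1 (box_disc r28 r22 i2 i28 (by norm_num) (by norm_num) (by norm_num) (by norm_num)) (box_disc l3a r27 l3c i27 (by norm_num) (by norm_num) (by norm_num) (by norm_num)) (box_disc r20 r23 i23 l4d (by norm_num) (by norm_num) (by norm_num) (by norm_num)) (box_disc l5a r24 i24 l5d (by norm_num) (by norm_num) (by norm_num) (by norm_num))
                                    · exact leaf_pm_77 HP HG t1 t3 t5 d1 (box_disc r28 r22 i28 i22 (by norm_num) (by norm_num) (by norm_num) (by norm_num)) (box_disc l3a r27 l3c i27 (by norm_num) (by norm_num) (by norm_num) (by norm_num)) (box_disc r20 r23 i23 l4d (by norm_num) (by norm_num) (by norm_num) (by norm_num)) (box_disc l5a r24 i24 l5d (by norm_num) (by norm_num) (by norm_num) (by norm_num))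
                                · exact leaf_pm_78 HP HG t1 t3 t5 d1 (box_disc r2 r22 i2 i22 (by norm_num) (by norm_num) (by norm_num) (by norm_num)) (box_disc l3a r27 i27 l3d (by norm_num) (by norm_num) (by norm_num) (by norm_num)) (box_disc r20 r23 i23 l4d (by norm_num) (by norm_num) (by norm_num) (by norm_num)) (box_disc l5a r24 i24 l5d (by norm_num) (by norm_num) (by norm_num) (by norm_num))
                              · rcases le_total g3.im (31073 / 100000) with i27 | i27
                                · exact leaf_pm_79 HP HG t1 t3 t5 d1 (box_disc r2 r22 i2 i22 (by norm_num) (by norm_num) (by norm_num) (by norm_num)) (box_disc r27 l3b l3c i27 (by norm_num) (by norm_num) (by norm_num) (by norm_num)) (box_disc r20 r23 i23 l4d (by norm_num) (by norm_num) (by norm_num) (by norm_num)) (box_disc l5a r24 i24 l5d (by norm_num) (by norm_num) (by norm_num) (by norm_num))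
                                · exact leaf_pm_80 HP HG t1 t3 t5 d1 (box_disc r2 r22 i2 i22 (by norm_num) (by norm_num) (by norm_num) (by norm_num)) (box_disc r27 l3b i27 l3d (by norm_num) (by norm_num) (by norm_num) (by norm_num)) (box_disc r20 r23 i23 l4d (by norm_num) (by norm_num) (by norm_num) (by norm_num)) (box_disc l5a r24 i24 l5d (by norm_num) (by norm_num) (by norm_num) (by norm_num))
                          · rcases le_total g5.im (-24069 / 100000) with i24 | i24
                            · rcases le_total g3.re (31073 / 100000) with r31 | r31
                              · rcases le_total g3.im (31073 / 100000) with i31 | i31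
                                · rcases le_total g2.re (1 / 5) with r32 | r32
                                  · rcases le_total g2.im (1 / 5) with i32 | i32
                                    · exact leaf_pm_81 HP HG t1 t3 t5 d1 (box_disc r2 r32 i2 i32 (by norm_num) (by norm_num) (by norm_num) (by norm_num)) (box_disc l3a r31 l3c i31 (by norm_num) (by norm_num) (by norm_num) (by norm_num)) (box_disc r20 r23 i23 l4d (by norm_num) (by norm_num) (by norm_num) (by norm_num)) (box_disc r24 l5b l5c i24 (by norm_num) (by norm_num) (by norm_num) (by norm_num))
                                    · exact leaf_pm_82 HP HG t1 t3 t5 d1 (box_disc r2 r32 i32 i22 (by norm_num) (by norm_num) (by norm_num) (by norm_num)) (box_disc l3a r31 l3c i31 (by norm_num) (by norm_num) (by norm_num) (by norm_num)) (box_disc r20 r23 i23 l4d (by norm_num) (by norm_num) (by norm_num) (by norm_num)) (box_disc r24 l5b l5c i24 (by norm_num) (by norm_num) (by norm_num) (by norm_num))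
                                  · rcases le_total g2.im (1 / 5) with i32 | i32
                                    · exact leaf_pm_83 HP HG t1 t3 t5 d1 (box_disc r32 r22 i2 i32 (by norm_num) (by norm_num) (by norm_num) (by norm_num)) (box_disc l3a r31 l3c i31 (by norm_num) (by norm_num) (by norm_num) (by norm_num)) (box_disc r20 r23 i23 l4d (by norm_num) (by norm_num) (by norm_num) (by norm_num)) (box_disc r24 l5b l5c i24 (by norm_num) (by norm_num) (by norm_num) (by norm_num))
                                    · exact leaf_pm_84 HP HG t1 t3 t5 d1 (box_disc r32 r22 i32 i22 (by norm_num) (by norm_num) (by norm_num) (by norm_num)) (box_disc l3a r31 l3c i31 (by norm_num) (by norm_num) (by norm_num) (by norm_num)) (box_disc r20 r23 i23 l4d (by norm_num) (by norm_num) (by norm_num) (by norm_num)) (box_disc r24 l5b l5c i24 (by norm_num) (by norm_num) (by norm_num) (by norm_num))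
                                · exact leaf_pm_85 HP HG t1 t3 t5 d1 (box_disc r2 r22 i2 i22 (by norm_num) (by norm_num) (by norm_num) (by norm_num)) (box_disc l3a r31 i31 l3d (by norm_num) (by norm_num) (by norm_num) (by norm_num)) (box_disc r20 r23 i23 l4d (by norm_num) (by norm_num) (by norm_num) (by norm_num)) (box_disc r24 l5b l5c i24 (by norm_num) (by norm_num) (by norm_num) (by norm_num))
                              · rcases le_total g3.im (31073 / 100000) with i31 | i31
                                · exact leaf_pm_86 HP HG t1 t3 t5 d1 (box_disc r2 r22 i2 i22 (by norm_num) (by norm_num) (by norm_num) (by norm_num)) (box_disc r31 l3b l3c i31 (by norm_num) (by norm_num) (by norm_num) (by norm_num)) (box_disc r20 r23 i23 l4d (by norm_num) (by norm_num) (by norm_num) (by norm_num)) (box_disc r24 l5b l5c i24 (by norm_num) (by norm_num) (by norm_num) (by norm_num))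
                                · exact leaf_pm_87 HP HG t1 t3 t5 d1 (box_disc r2 r22 i2 i22 (by norm_num) (by norm_num) (by norm_num) (by norm_num)) (box_disc r31 l3b i31 l3d (by norm_num) (by norm_num) (by norm_num) (by norm_num)) (box_disc r20 r23 i23 l4d (by norm_num) (by norm_num) (by norm_num) (by norm_num)) (box_disc r24 l5b l5c i24 (by norm_num) (by norm_num) (by norm_num) (by norm_num))
                            · exact leaf_pm_88 HP HG t1 t3 t5 d1 (box_disc r2 r22 i2 i22 (by norm_num) (by norm_num) (by norm_num) (by norm_num)) d3 (box_disc r20 r23 i23 l4d (by norm_num) (by norm_num) (by norm_num) (by norm_num)) (box_disc r24 l5b i24 l5d (by norm_num) (by norm_num) (by norm_num) (by norm_num))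
                      · rcases le_total g4.im (6 / 25) with i23 | i23
                        · exact leaf_pm_89 HP HG t1 t3 t5 d1 (box_disc r2 r22 i2 i22 (by norm_num) (by norm_num) (by norm_num) (by norm_num)) d3 (box_disc r23 r19 i20 i23 (by norm_num) (by norm_num) (by norm_num) (by norm_num)) d5
                        · rcases le_total g5.re (-24069 / 100000) with r33 | r33
                          · rcases le_total g5.im (-24069 / 100000) with i33 | i33
                            · rcases le_total g3.re (31073 / 100000) with r34 | r34
                              · rcases le_total g3.im (31073 / 100000) with i34 | i34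
                                · rcases le_total g2.re (1 / 5) with r35 | r35
                                  · rcases le_total g2.im (1 / 5) with i35 | i35
                                    · rcases le_total g1.re (2691 / 5000) with r36 | r36
                                      · rcases le_total g1.im (2691 / 5000) with i36 | i36
                                        · rcases le_total g5.re (-33069 / 100000) with r37 | r37
                                          · rcases le_total g5.im (-33069 / 100000) with i37 | i37
                                            · exact leaf_pm_90 HP HG t1 t3 t5 (box_disc l1a r36 l1c i36 (by norm_num) (by norm_num) (by norm_num) (by norm_num)) (box_disc r2 r35 i2 i35 (by norm_num) (by norm_num) (by norm_num) (by norm_num)) (box_disc l3a r34 l3c i34 (by norm_num) (by norm_num) (by norm_num) (by norm_num)) (box_disc r23 r19 i23 l4d (by norm_num) (by norm_num) (by norm_num) (by norm_num)) (box_disc l5a r37 l5c i37 (by norm_num) (by norm_num) (by norm_num) (by norm_num))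
                                            · rcases le_total g1.re (629 / 1250) with r38 | r38
                                              · rcases le_total g1.im (629 / 1250) with i38 | i38
                                                · exact leaf_pm_91 HP HG t1 t3 t5 (box_disc l1a r38 l1c i38 (by norm_num) (by norm_num) (by norm_num) (by norm_num)) (box_disc r2 r35 i2 i35 (by norm_num) (by norm_num) (by norm_num) (by norm_num)) (box_disc l3a r34 l3c i34 (by norm_num) (by norm_num) (by norm_num) (by norm_num)) (box_disc r23 r19 i23 l4d (by norm_num) (by norm_num) (by norm_num) (by norm_num)) (box_disc l5a r37 i37 i33 (by norm_num) (by norm_num) (by norm_num) (by norm_num))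
                                                · exact leaf_pm_92 HP HG t1 t3 t5 (box_disc l1a r38 i38 i36 (by norm_num) (by norm_num) (by norm_num) (by norm_num)) (box_disc r2 r35 i2 i35 (by norm_num) (by norm_num) (by norm_num) (by norm_num)) (box_disc l3a r34 l3c i34 (by norm_num) (by norm_num) (by norm_num) (by norm_num)) (box_disc r23 r19 i23 l4d (by norm_num) (by norm_num) (by norm_num) (by norm_num)) (box_disc l5a r37 i37 i33 (by norm_num) (by norm_num) (by norm_num) (by norm_num))
                                              · rcases le_total g1.im (629 / 1250) with i38 | i38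
                                                · exact leaf_pm_93 HP HG t1 t3 t5 (box_disc r38 r36 l1c i38 (by norm_num) (by norm_num) (by norm_num) (by norm_num)) (box_disc r2 r35 i2 i35 (by norm_num) (by norm_num) (by norm_num) (by norm_num)) (box_disc l3a r34 l3c i34 (by norm_num) (by norm_num) (by norm_num) (by norm_num)) (box_disc r23 r19 i23 l4d (by norm_num) (by norm_num) (by norm_num) (by norm_num)) (box_disc l5a r37 i37 i33 (by norm_num) (by norm_num) (by norm_num) (by norm_num))
                                                · exact leaf_pm_94 HP HG t1 t3 t5 (box_disc r38 r36 i38 i36 (by norm_num) (by norm_num) (by norm_num) (by norm_num)) (box_disc r2 r35 i2 i35 (by norm_num) (by norm_num) (by norm_num) (by norm_num)) (box_disc l3a r34 l3c i34 (by norm_num) (by norm_num) (by norm_num) (by norm_num)) (box_disc r23 r19 i23 l4d (by norm_num) (by norm_num) (by norm_num) (by norm_num)) (box_disc l5a r37 i37 i33 (by norm_num) (by norm_num) (by norm_num) (by norm_num))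
                                          · rcases le_total g5.im (-33069 / 100000) with i37 | i37
                                            · exact leaf_pm_95 HP HG t1 t3 t5 (box_disc l1a r36 l1c i36 (by norm_num) (by norm_num) (by norm_num) (by norm_num)) (box_disc r2 r35 i2 i35 (by norm_num) (by norm_num) (by norm_num) (by norm_num)) (box_disc l3a r34 l3c i34 (by norm_num) (by norm_num) (by norm_num) (by norm_num)) (box_disc r23 r19 i23 l4d (by norm_num) (by norm_num) (by norm_num) (by norm_num)) (box_disc r37 r33 l5c i37 (by norm_num) (by norm_num) (by norm_num) (by norm_num))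
                                            · exact leaf_pm_96 HP HG t1 t3 t5 (box_disc l1a r36 l1c i36 (by norm_num) (by norm_num) (by norm_num) (by norm_num)) (box_disc r2 r35 i2 i35 (by norm_num) (by norm_num) (by norm_num) (by norm_num)) (box_disc l3a r34 l3c i34 (by norm_num) (by norm_num) (by norm_num) (by norm_num)) (box_disc r23 r19 i23 l4d (by norm_num) (by norm_num) (by norm_num) (by norm_num)) (box_disc r37 r33 i37 i33 (by norm_num) (by norm_num) (by norm_num) (by norm_num))
                                        · exact leaf_pm_97 HP HG t1 t3 t5 (box_disc l1a r36 i36 l1d (by norm_num) (by norm_num) (by norm_num) (by norm_num)) (box_disc r2 r35 i2 i35 (by norm_num) (by norm_num) (by norm_num) (by norm_num)) (box_disc l3a r34 l3c i34 (by norm_num) (by norm_num) (by norm_num) (by norm_num)) (box_disc r23 r19 i23 l4d (by norm_num) (by norm_num) (by norm_num) (by norm_num)) (box_disc l5a r33 l5c i33 (by norm_num) (by norm_num) (by norm_num) (by norm_num))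
                                      · rcases le_total g1.im (2691 / 5000) with i36 | i36
                                        · exact leaf_pm_98 HP HG t1 t3 t5 (box_disc r36 l1b l1c i36 (by norm_num) (by norm_num) (by norm_num) (by norm_num)) (box_disc r2 r35 i2 i35 (by norm_num) (by norm_num) (by norm_num) (by norm_num)) (box_disc l3a r34 l3c i34 (by norm_num) (by norm_num) (by norm_num) (by norm_num)) (box_disc r23 r19 i23 l4d (by norm_num) (by norm_num) (by norm_num) (by norm_num)) (box_disc l5a r33 l5c i33 (by norm_num) (by norm_num) (by norm_num) (by norm_num))
                                        · exact leaf_pm_99 HP HG t1 t3 t5 (box_disc r36 l1b i36 l1d (by norm_num) (by norm_num) (by norm_num) (by norm_num)) (box_disc r2 r35 i2 i35 (by norm_num) (by norm_num) (by norm_num) (by norm_num)) (box_disc l3a r34 l3c i34 (by norm_num) (by norm_num) (by norm_num) (by norm_num)) (box_disc r23 r19 i23 l4d (by norm_num) (by norm_num) (by norm_num) (by norm_num)) (box_disc l5a r33 l5c i33 (by norm_num) (by norm_num) (by norm_num) (by norm_num))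
                                    · exact leaf_pm_100 HP HG t1 t3 t5 d1 (box_disc r2 r35 i35 i22 (by norm_num) (by norm_num) (by norm_num) (by norm_num)) (box_disc l3a r34 l3c i34 (by norm_num) (by norm_num) (by norm_num) (by norm_num)) (box_disc r23 r19 i23 l4d (by norm_num) (by norm_num) (by norm_num) (by norm_num)) (box_disc l5a r33 l5c i33 (by norm_num) (by norm_num) (by norm_num) (by norm_num))
                                  · rcases le_total g2.im (1 / 5) with i35 | i35
                                    · exact leaf_pm_101 HP HG t1 t3 t5 d1 (box_disc r35 r22 i2 i35 (by norm_num) (by norm_num) (by norm_num) (by norm_num)) (box_disc l3a r34 l3c i34 (by norm_num) (by norm_num) (by norm_num) (by norm_num)) (box_disc r23 r19 i23 l4d (by norm_num) (by norm_num) (by norm_num) (by norm_num)) (box_disc l5a r33 l5c i33 (by norm_num) (by norm_num) (by norm_num) (by norm_num))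
                                    · exact leaf_pm_102 HP HG t1 t3 t5 d1 (box_disc r35 r22 i35 i22 (by norm_num) (by norm_num) (by norm_num) (by norm_num)) (box_disc l3a r34 l3c i34 (by norm_num) (by norm_num) (by norm_num) (by norm_num)) (box_disc r23 r19 i23 l4d (by norm_num) (by norm_num) (by norm_num) (by norm_num)) (box_disc l5a r33 l5c i33 (by norm_num) (by norm_num) (by norm_num) (by norm_num))
                                · exact leaf_pm_103 HP HG t1 t3 t5 d1 (box_disc r2 r22 i2 i22 (by norm_num) (by norm_num) (by norm_num) (by norm_num)) (box_disc l3a r34 i34 l3d (by norm_num) (by norm_num) (by norm_num) (by norm_num)) (box_disc r23 r19 i23 l4d (by norm_num) (by norm_num) (by norm_num) (by norm_num)) (box_disc l5a r33 l5c i33 (by norm_num) (by norm_num) (by norm_num) (by norm_num))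
                              · rcases le_total g3.im (31073 / 100000) with i34 | i34
                                · exact leaf_pm_104 HP HG t1 t3 t5 d1 (box_disc r2 r22 i2 i22 (by norm_num) (by norm_num) (by norm_num) (by norm_num)) (box_disc r34 l3b l3c i34 (by norm_num) (by norm_num) (by norm_num) (by norm_num)) (box_disc r23 r19 i23 l4d (by norm_num) (by norm_num) (by norm_num) (by norm_num)) (box_disc l5a r33 l5c i33 (by norm_num) (by norm_num) (by norm_num) (by norm_num))
                                · exact leaf_pm_105 HP HG t1 t3 t5 d1 (box_disc r2 r22 i2 i22 (by norm_num) (by norm_num) (by norm_num) (by norm_num)) (box_disc r34 l3b i34 l3d (by norm_num) (by norm_num) (by norm_num) (by norm_num)) (box_disc r23 r19 i23 l4d (by norm_num) (by norm_num) (by norm_num) (by norm_num)) (box_disc l5a r33 l5c i33 (by norm_num) (by norm_num) (by norm_num) (by norm_num))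
                            · rcases le_total g3.re (31073 / 100000) with r39 | r39
                              · rcases le_total g3.im (31073 / 100000) with i39 | i39
                                · rcases le_total g2.re (1 / 5) with r40 | r40
                                  · rcases le_total g2.im (1 / 5) with i40 | i40
                                    · rcases le_total g1.re (2691 / 5000) with r41 | r41
                                      · rcases le_total g1.im (2691 / 5000) with i41 | i41
                                        · rcases le_total g5.re (-33069 / 100000) with r42 | r42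
                                          · rcases le_total g5.im (-15069 / 100000) with i42 | i42
                                            · exact leaf_pm_106 HP HG t1 t3 t5 (box_disc l1a r41 l1c i41 (by norm_num) (by norm_num) (by norm_num) (by norm_num)) (box_disc r2 r40 i2 i40 (by norm_num) (by norm_num) (by norm_num) (by norm_num)) (box_disc l3a r39 l3c i39 (by norm_num) (by norm_num) (by norm_num) (by norm_num)) (box_disc r23 r19 i23 l4d (by norm_num) (by norm_num) (by norm_num) (by norm_num)) (box_disc l5a r42 i33 i42 (by norm_num) (by norm_num) (by norm_num) (by norm_num))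
                                            · exact leaf_pm_107 HP HG t1 t3 t5 (box_disc l1a r41 l1c i41 (by norm_num) (by norm_num) (by norm_num) (by norm_num)) (box_disc r2 r40 i2 i40 (by norm_num) (by norm_num) (by norm_num) (by norm_num)) (box_disc l3a r39 l3c i39 (by norm_num) (by norm_num) (by norm_num) (by norm_num)) (box_disc r23 r19 i23 l4d (by norm_num) (by norm_num) (by norm_num) (by norm_num)) (box_disc l5a r42 i42 l5d (by norm_num) (by norm_num) (by norm_num) (by norm_num))
                                          · rcases le_total g5.im (-15069 / 100000) with i42 | i42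
                                            · exact leaf_pm_108 HP HG t1 t3 t5 (box_disc l1a r41 l1c i41 (by norm_num) (by norm_num) (by norm_num) (by norm_num)) (box_disc r2 r40 i2 i40 (by norm_num) (by norm_num) (by norm_num) (by norm_num)) (box_disc l3a r39 l3c i39 (by norm_num) (by norm_num) (by norm_num) (by norm_num)) (box_disc r23 r19 i23 l4d (by norm_num) (by norm_num) (by norm_num) (by norm_num)) (box_disc r42 r33 i33 i42 (by norm_num) (by norm_num) (by norm_num) (by norm_num))
                                            · exact leaf_pm_109 HP HG t1 t3 t5 (box_disc l1a r41 l1c i41 (by norm_num) (by norm_num) (by norm_num) (by norm_num)) (box_disc r2 r40 i2 i40 (by norm_num) (by norm_num) (by norm_num) (by norm_num)) (box_disc l3a r39 l3c i39 (by norm_num) (by norm_num) (by norm_num) (by norm_num)) (box_disc r23 r19 i23 l4d (by norm_num) (by norm_num) (by norm_num) (by norm_num)) (box_disc r42 r33 i42 l5d (by norm_num) (by norm_num) (by norm_num) (by norm_num))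
                                        · exact leaf_pm_110 HP HG t1 t3 t5 (box_disc l1a r41 i41 l1d (by norm_num) (by norm_num) (by norm_num) (by norm_num)) (box_disc r2 r40 i2 i40 (by norm_num) (by norm_num) (by norm_num) (by norm_num)) (box_disc l3a r39 l3c i39 (by norm_num) (by norm_num) (by norm_num) (by norm_num)) (box_disc r23 r19 i23 l4d (by norm_num) (by norm_num) (by norm_num) (by norm_num)) (box_disc l5a r33 i33 l5d (by norm_num) (by norm_num) (by norm_num) (by norm_num))
                                      · rcases le_total g1.im (2691 / 5000) with i41 | i41
                                        · exact leaf_pm_111 HP HG t1 t3 t5 (box_disc r41 l1b l1c i41 (by norm_num) (by norm_num) (by norm_num) (by norm_num)) (box_disc r2 r40 i2 i40 (by norm_num) (by norm_num) (by norm_num) (by norm_num)) (box_disc l3a r39 l3c i39 (by norm_num) (by norm_num) (by norm_num) (by norm_num)) (box_disc r23 r19 i23 l4d (by norm_num) (by norm_num) (by norm_num) (by norm_num)) (box_disc l5a r33 i33 l5d (by norm_num) (by norm_num) (by norm_num) (by norm_num))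
                                        · exact leaf_pm_112 HP HG t1 t3 t5 (box_disc r41 l1b i41 l1d (by norm_num) (by norm_num) (by norm_num) (by norm_num)) (box_disc r2 r40 i2 i40 (by norm_num) (by norm_num) (by norm_num) (by norm_num)) (box_disc l3a r39 l3c i39 (by norm_num) (by norm_num) (by norm_num) (by norm_num)) (box_disc r23 r19 i23 l4d (by norm_num) (by norm_num) (by norm_num) (by norm_num)) (box_disc l5a r33 i33 l5d (by norm_num) (by norm_num) (by norm_num) (by norm_num))
                                    · exact leaf_pm_113 HP HG t1 t3 t5 d1 (box_disc r2 r40 i40 i22 (by norm_num) (by norm_num) (by norm_num) (by norm_num)) (box_disc l3a r39 l3c i39 (by norm_num) (by norm_num) (by norm_num) (by norm_num)) (box_disc r23 r19 i23 l4d (by norm_num) (by norm_num) (by norm_num) (by norm_num)) (box_disc l5a r33 i33 l5d (by norm_num) (by norm_num) (by norm_num) (by norm_num))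
                                  · rcases le_total g2.im (1 / 5) with i40 | i40
                                    · exact leaf_pm_114 HP HG t1 t3 t5 d1 (box_disc r40 r22 i2 i40 (by norm_num) (by norm_num) (by norm_num) (by norm_num)) (box_disc l3a r39 l3c i39 (by norm_num) (by norm_num) (by norm_num) (by norm_num)) (box_disc r23 r19 i23 l4d (by norm_num) (by norm_num) (by norm_num) (by norm_num)) (box_disc l5a r33 i33 l5d (by norm_num) (by norm_num) (by norm_num) (by norm_num))
                                    · exact leaf_pm_115 HP HG t1 t3 t5 d1 (box_disc r40 r22 i40 i22 (by norm_num) (by norm_num) (by norm_num) (by norm_num)) (box_disc l3a r39 l3c i39 (by norm_num) (by norm_num) (by norm_num) (by norm_num)) (box_disc r23 r19 i23 l4d (by norm_num) (by norm_num) (by norm_num) (by norm_num)) (box_disc l5a r33 i33 l5d (by norm_num) (by norm_num) (by norm_num) (by norm_num))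
                                · exact leaf_pm_116 HP HG t1 t3 t5 d1 (box_disc r2 r22 i2 i22 (by norm_num) (by norm_num) (by norm_num) (by norm_num)) (box_disc l3a r39 i39 l3d (by norm_num) (by norm_num) (by norm_num) (by norm_num)) (box_disc r23 r19 i23 l4d (by norm_num) (by norm_num) (by norm_num) (by norm_num)) (box_disc l5a r33 i33 l5d (by norm_num) (by norm_num) (by norm_num) (by norm_num))
                              · rcases le_total g3.im (31073 / 100000) with i39 | i39
                                · exact leaf_pm_117 HP HG t1 t3 t5 d1 (box_disc r2 r22 i2 i22 (by norm_num) (by norm_num) (by norm_num) (by norm_num)) (box_disc r39 l3b l3c i39 (by norm_num) (by norm_num) (by norm_num) (by norm_num)) (box_disc r23 r19 i23 l4d (by norm_num) (by norm_num) (by norm_num) (by norm_num)) (box_disc l5a r33 i33 l5d (by norm_num) (by norm_num) (by norm_num) (by norm_num))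
                                · exact leaf_pm_118 HP HG t1 t3 t5 d1 (box_disc r2 r22 i2 i22 (by norm_num) (by norm_num) (by norm_num) (by norm_num)) (box_disc r39 l3b i39 l3d (by norm_num) (by norm_num) (by norm_num) (by norm_num)) (box_disc r23 r19 i23 l4d (by norm_num) (by norm_num) (by norm_num) (by norm_num)) (box_disc l5a r33 i33 l5d (by norm_num) (by norm_num) (by norm_num) (by norm_num))
                          · rcases le_total g5.im (-24069 / 100000) with i33 | i33
                            · exact leaf_pm_119 HP HG t1 t3 t5 d1 (box_disc r2 r22 i2 i22 (by norm_num) (by norm_num) (by norm_num) (by norm_num)) d3 (box_disc r23 r19 i23 l4d (by norm_num) (by norm_num) (by norm_num) (by norm_num)) (box_disc r33 l5b l5c i33 (by norm_num) (by norm_num) (by norm_num) (by norm_num))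
                            · exact leaf_pm_120 HP HG t1 t3 t5 d1 (box_disc r2 r22 i2 i22 (by norm_num) (by norm_num) (by norm_num) (by norm_num)) d3 (box_disc r23 r19 i23 l4d (by norm_num) (by norm_num) (by norm_num) (by norm_num)) (box_disc r33 l5b i33 l5d (by norm_num) (by norm_num) (by norm_num) (by norm_num))
                    · exact leaf_pm_121 HP HG t1 t3 t5 d1 (box_disc r2 r22 i22 l2d (by norm_num) (by norm_num) (by norm_num) (by norm_num)) d3 (box_disc r20 r19 i20 l4d (by norm_num) (by norm_num) (by norm_num) (by norm_num)) d5
                  · rcases le_total g2.im (6 / 25) with i22 | i22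
                    · exact leaf_pm_122 HP HG t1 t3 t5 d1 (box_disc r22 l2b i2 i22 (by norm_num) (by norm_num) (by norm_num) (by norm_num)) d3 (box_disc r20 r19 i20 l4d (by norm_num) (by norm_num) (by norm_num) (by norm_num)) d5
                    · exact box_out (r := (56569 / 1000000)) (r' := (30017 / 100000)) (x := (7 / 25)) (y := (7 / 25)) (box_disc r22 l2b i22 l2d (by norm_num) (by norm_num) (by norm_num) (by norm_num)) d2 (by norm_num)
          · rcases le_total g4.im 0 with i19 | i19
            · exact leaf_pm_123 HP HG t1 t3 t5 d1 (box_disc r2 l2b i2 l2d (by norm_num) (by norm_num) (by norm_num) (by norm_num)) d3 (box_disc r19 l4b l4c i19 (by norm_num) (by norm_num) (by norm_num) (by norm_num)) d5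
            · exact leaf_pm_124 HP HG t1 t3 t5 d1 (box_disc r2 l2b i2 l2d (by norm_num) (by norm_num) (by norm_num) (by norm_num)) d3 (box_disc r19 l4b i19 l4d (by norm_num) (by norm_num) (by norm_num) (by norm_num)) d5

end

end Pool.Agent.H893R3.Dig
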