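import Pool.Agent.H893R3.Dig.J4

/-!
# Certificates
-/

set_option autoImplicit false
set_option linter.unusedVariables false
set_option maxRecDepth 4000

namespace Pool.Agent.H893R3.Dig

section
variable {g1 g2 g3 g4 g5 c1 c3 c5 : ℂ}
    (HP : ∀ q : Fin 6 → ℂ, 0 ≤ nn q + 2 * (A1 q * g1 + A2 q * g2 + A3 q * g3 + A4 q * g4 +
      A5 q * g5).re)
    (HG : ∀ p : Fin 6 → ℂ, 0 ≤ (901 / 10000) * nn p + 2 * (A1 p * (g1 ^ 2 - c1) + A2 p * g2 ^ 2 +
      A3 p * (g3 ^ 2 - c3) + A4 p * g4 ^ 2 + A5 p * (g5 ^ 2 - c5)).re)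
    (t1 : ‖(⟨0, (7241481 / 12500000)⟩ : ℂ) - c1‖ ≤ 1 / 100000) (t3 : ‖(⟨0, (965531329 / 5000000000)⟩ : ℂ) - c3‖ ≤ 1 / 100000)
    (t5 : ‖(⟨0, (579316761 / 5000000000)⟩ : ℂ) - c5‖ ≤ 1 / 100000)

include HP HG t1 t3 t5 in
lemma leaf_pp_30
    (h1 : ‖g1 - ⟨(2691 / 5000), (2691 / 5000)⟩‖ ≤ (309 / 5000))
    (h2 : ‖g2 - ⟨(6 / 25), (6 / 25)⟩‖ ≤ (56569 / 500000))
    (h3 : ‖g3 - ⟨(31073 / 100000), (31073 / 100000)⟩‖ ≤ (593 / 5000))
    (h4 : ‖g4 - ⟨(-2 / 25), (2 / 25)⟩‖ ≤ (56569 / 500000))
    (h5 : ‖g5 - ⟨(24069 / 100000), (24069 / 100000)⟩‖ ≤ (9 / 50)) : False :=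
  kill HP HG h1 h2 h3 h4 h5 t1 t3 t5
    3139 (-3238) (-917) 217 1235 43 0 3679 (-3355) 337 (-1604) 1552 4177 175 (-410) 1385 (-1558) (-1244) 0 (-3591) 1391 (-1979) (-1923) (-1178)
    (-23576361) 2439994 (-14465274) 9447239 134977 27425949 (-6484308) 429111 (-10218529) 4871728 (-1805262) 4208603 11289430 (-2495268) (-5196188) (-23647162) 9299619 (-11984202) (-12705725) (-4920506)
    71836 3712 3129 14656734 2868 23715971 10207608 16464275 12948429 7156239
    (by norm_num) (by norm_num) (by norm_num) (by norm_num) (by norm_num) (by norm_num) (by norm_num) (by norm_num) (by norm_num) (by norm_num) (by norm_num) (by norm_num) (by norm_num) (by norm_num) (by norm_num) (by norm_num) (by norm_num) (by norm_num) (by norm_num) (by norm_num) (by norm_num) (by norm_num) (by norm_num) (by norm_num) (by norm_num) (by norm_num) (by norm_num) (by norm_num) (by norm_num) (by norm_num) (by norm_num) (by norm_num) (by norm_num) (by norm_num) (by norm_num) (by norm_num) (by norm_num) (by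 norm_num) (by norm_num) (by norm_num) (by norm_num)

include HP HG t1 t3 t5 in
lemma leaf_pp_31
    (h1 : ‖g1 - ⟨(2691 / 5000), (2691 / 5000)⟩‖ ≤ (309 / 5000))
    (h2 : ‖g2 - ⟨(6 / 25), (6 / 25)⟩‖ ≤ (56569 / 500000))
    (h3 : ‖g3 - ⟨(31073 / 100000), (31073 / 100000)⟩‖ ≤ (593 / 5000))
    (h4 : ‖g4 - ⟨(-2 / 25), (6 / 25)⟩‖ ≤ (56569 / 500000))
    (h5 : ‖g5 - ⟨(24069 / 100000), (24069 / 100000)⟩‖ ≤ (9 / 50)) : False :=
  kill HP HG h1 h2 h3 h4 h5 t1 t3 t5
    3276 (-3454) (-337) 353 1492 (-862) 0 3283 (-3514) 264 (-657) 1346 4049 (-147) (-230) 2026 435 (-406) 0 (-4259) 939 (-1773) (-1469) (-1856)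
    (-24551623) 400390 (-10593221) 12284058 (-2823912) 25966398 (-7415616) (-5246764) (-3971470) 4409496 (-655720) 7310806 12746396 9725701 (-1643894) (-23465631) 8140687 (-4302155) (-7404303) (-7514944)
    2381 2325 2032 14405419 2375 23474791 10941603 13452850 12223460 7692644
    (by norm_num) (by norm_num) (by norm_num) (by norm_num) (by norm_num) (by norm_num) (by norm_num) (by norm_num) (by norm_num) (by norm_num) (by norm_num) (by norm_num) (by norm_num) (by norm_num) (by norm_num) (by norm_num) (by norm_num) (by norm_num) (by norm_num) (by norm_num) (by norm_num) (by norm_num) (by norm_num) (by norm_num) (by norm_num) (by norm_num) (by norm_num) (by norm_num) (by norm_num) (by norm_num) (by norm_num) (by norm_num) (by norm_num) (by norm_num) (by norm_num) (by norm_num) (by norm_num) (by norm_num) (by norm_num) (by norm_num) (by norm_num)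

include HP HG t1 t3 t5 in
lemma leaf_pp_32
    (h1 : ‖g1 - ⟨(2691 / 5000), (2691 / 5000)⟩‖ ≤ (309 / 5000))
    (h2 : ‖g2 - ⟨(6 / 25), (6 / 25)⟩‖ ≤ (56569 / 500000))
    (h3 : ‖g3 - ⟨(31073 / 100000), (31073 / 100000)⟩‖ ≤ (593 / 5000))
    (h4 : ‖g4 - ⟨(4 / 25), (-4 / 25)⟩‖ ≤ (56569 / 250000))
    (h5 : ‖g5 - ⟨(24069 / 100000), (24069 / 100000)⟩‖ ≤ (9 / 50)) : False :=
  kill HP HG h1 h2 h3 h4 h5 t1 t3 t5
    3188 (-2694) (-1856) 84 95 1026 0 4260 (-2916) 423 (-2114) 892 4432 (-119) (-44) 910 (-2981) (-1201) 0 (-2912) 1227 (-2267) 68 167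
    (-20074400) 2110360 (-13499106) 1338736 3270888 30838943 (-6952076) 7975204 (-13513240) 2843696 (-6192174) 5041307 4447596 (-13555177) (-5322832) (-21309153) 9441755 (-17269829) (-3215809) 740144
    3998482 1867 7185 10970841 728525 22190607 10703342 17833343 13931413 5374045
    (by norm_num) (by norm_num) (by norm_num) (by norm_num) (by norm_num) (by norm_num) (by norm_num) (by norm_num) (by norm_num) (by norm_num) (by norm_num) (by norm_num) (by norm_num) (by norm_num) (by norm_num) (by norm_num) (by norm_num) (by norm_num) (by norm_num) (by norm_num) (by norm_num) (by norm_num) (by norm_num) (by norm_num) (by norm_num) (by norm_num) (by norm_num) (by norm_num) (by norm_num) (by norm_num) (by norm_num) (by norm_num) (by norm_num) (by norm_num) (by norm_num) (by norm_num) (by norm_num) (by norm_num) (by norm_num) (by norm_num) (by norm_num)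

include HP HG t1 t3 t5 in
lemma leaf_pp_33
    (h1 : ‖g1 - ⟨(2691 / 5000), (2691 / 5000)⟩‖ ≤ (309 / 5000))
    (h2 : ‖g2 - ⟨(1 / 5), (1 / 5)⟩‖ ≤ (56569 / 1000000))
    (h3 : ‖g3 - ⟨(31073 / 100000), (31073 / 100000)⟩‖ ≤ (593 / 5000))
    (h4 : ‖g4 - ⟨(2 / 25), (2 / 25)⟩‖ ≤ (56569 / 500000))
    (h5 : ‖g5 - ⟨(24069 / 100000), (24069 / 100000)⟩‖ ≤ (9 / 50)) : False :=
  kill HP HG h1 h2 h3 h4 h5 t1 t3 t5
    2507 (-2580) (-880) 724 194 379 0 3197 (-3326) 917 (-1158) 795 5656 1663 745 1241 (-1596) (-541) 0 (-4039) 2021 (-787) 857 (-191)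
    (-20286458) 3541768 (-5365268) 2050153 950153 20587205 (-11126449) 5227295 (-6165869) 1993065 (-139284) 9478109 114469 (-9155210) (-3059896) (-18993024) 18335577 (-8521259) 2344460 (-1080296)
    10287 1561 3183 7258634 2788 18993535 20640445 8522028 9450628 3244997
    (by norm_num) (by norm_num) (by norm_num) (by norm_num) (by norm_num) (by norm_num) (by norm_num) (by norm_num) (by norm_num) (by norm_num) (by norm_num) (by norm_num) (by norm_num) (by norm_num) (by norm_num) (by norm_num) (by norm_num) (by norm_num) (by norm_num) (by norm_num) (by norm_num) (by norm_num) (by norm_num) (by norm_num) (by norm_num) (by norm_num) (by norm_num) (by norm_num) (by norm_num) (by norm_num) (by norm_num) (by norm_num) (by norm_num) (by norm_num) (by norm_num) (by norm_num) (by norm_num) (by norm_num) (by norm_num) (by norm_num) (by norm_num)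

include HP HG t1 t3 t5 in
lemma leaf_pp_34
    (h1 : ‖g1 - ⟨(2691 / 5000), (2691 / 5000)⟩‖ ≤ (309 / 5000))
    (h2 : ‖g2 - ⟨(1 / 5), (7 / 25)⟩‖ ≤ (56569 / 1000000))
    (h3 : ‖g3 - ⟨(31073 / 100000), (31073 / 100000)⟩‖ ≤ (593 / 5000))
    (h4 : ‖g4 - ⟨(2 / 25), (2 / 25)⟩‖ ≤ (56569 / 500000))
    (h5 : ‖g5 - ⟨(24069 / 100000), (24069 / 100000)⟩‖ ≤ (9 / 50)) : False :=
  kill HP HG h1 h2 h3 h4 h5 t1 t3 t5
    2181 (-2030) (-582) (-209) 608 425 0 2748 (-2177) 448 (-1467) 900 5649 1289 3209 2062 (-1815) (-531) 0 (-2028) 3897 (-1416) 1305 (-191)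
    (-11928212) 3540210 (-7928035) 2936498 926925 12501199 (-3284235) 2685739 (-6194427) 1962900 (-262248) 22093991 4213857 (-10550046) (-2999619) (-11344155) 34485727 (-8541271) 6048878 (-1078959)
    8075 23910263 3783 6920308 2400 11347186 40956194 9524175 12161102 3187769
    (by norm_num) (by norm_num) (by norm_num) (by norm_num) (by norm_num) (by norm_num) (by norm_num) (by norm_num) (by norm_num) (by norm_num) (by norm_num) (by norm_num) (by norm_num) (by norm_num) (by norm_num) (by norm_num) (by norm_num) (by norm_num) (by norm_num) (by norm_num) (by norm_num) (by norm_num) (by norm_num) (by norm_num) (by norm_num) (by norm_num) (by norm_num) (by norm_num) (by norm_num) (by norm_num) (by norm_num) (by norm_num) (by norm_num) (by norm_num) (by norm_num) (by norm_num) (by norm_num) (by norm_num) (by norm_num) (by norm_num) (by norm_num)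

include HP HG t1 t3 t5 in
lemma leaf_pp_35
    (h1 : ‖g1 - ⟨(2691 / 5000), (2691 / 5000)⟩‖ ≤ (309 / 5000))
    (h2 : ‖g2 - ⟨(7 / 25), (1 / 5)⟩‖ ≤ (56569 / 1000000))
    (h3 : ‖g3 - ⟨(31073 / 100000), (31073 / 100000)⟩‖ ≤ (593 / 5000))
    (h4 : ‖g4 - ⟨(2 / 25), (2 / 25)⟩‖ ≤ (56569 / 500000))
    (h5 : ‖g5 - ⟨(24069 / 100000), (24069 / 100000)⟩‖ ≤ (9 / 50)) : False :=
  kill HP HG h1 h2 h3 h4 h5 t1 t3 t5
    2598 (-1950) (-2623) 1556 176 362 0 4094 (-3195) (-407) (-365) 463 4806 463 (-1123) 1006 (-1332) (-463) 0 (-3767) 3039 799 925 (-57)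
    (-15495475) (-10435654) (-223833) 1646870 940476 33361315 (-11489747) (-1124039) (-3333148) 1202874 (-8481187) (-4145603) 1080371 (-6401242) (-2225178) (-22382980) 22086741 721693 2675038 (-273942)
    549490 21605951 4232 3934160 1200 23935922 22472431 1299247 6937704 2241978
    (by norm_num) (by norm_num) (by norm_num) (by norm_num) (by norm_num) (by norm_num) (by norm_num) (by norm_num) (by norm_num) (by norm_num) (by norm_num) (by norm_num) (by norm_num) (by norm_num) (by norm_num) (by norm_num) (by norm_num) (by norm_num) (by norm_num) (by norm_num) (by norm_num) (by norm_num) (by norm_num) (by norm_num) (by norm_num) (by norm_num) (by norm_num) (by norm_num) (by norm_num) (by norm_num) (by norm_num) (by norm_num) (by norm_num) (by norm_num) (by norm_num) (by norm_num) (by norm_num) (by norm_num) (by norm_num) (by norm_num) (by norm_num)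

include HP HG t1 t3 t5 in
lemma leaf_pp_36
    (h1 : ‖g1 - ⟨(2691 / 5000), (2691 / 5000)⟩‖ ≤ (309 / 5000))
    (h2 : ‖g2 - ⟨(1 / 5), (1 / 5)⟩‖ ≤ (56569 / 1000000))
    (h3 : ‖g3 - ⟨(31073 / 100000), (31073 / 100000)⟩‖ ≤ (593 / 5000))
    (h4 : ‖g4 - ⟨(1 / 25), (1 / 5)⟩‖ ≤ (56569 / 1000000))
    (h5 : ‖g5 - ⟨(15069 / 100000), (15069 / 100000)⟩‖ ≤ (1591 / 12500)) : False :=
  kill HP HG h1 h2 h3 h4 h5 t1 t3 t5
    2533 (-2439) (-1172) 1099 216 204 0 3428 (-3405) 525 (-824) 716 5594 1092 1001 1237 413 834 0 (-4073) 1777 (-799) 1167 (-1588)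
    (-18808608) (-696773) (-3244797) 2504020 516732 23436106 (-11291720) 2454581 (-4532828) 1813628 (-2147873) 14992367 630541 9688974 4665396 (-19620309) 13242607 (-4584699) 8190984 (-8883272)
    5001 3868 4650 3373 4631903 19737525 20003443 4627856 12687334 10033865
    (by norm_num) (by norm_num) (by norm_num) (by norm_num) (by norm_num) (by norm_num) (by norm_num) (by norm_num) (by norm_num) (by norm_num) (by norm_num) (by norm_num) (by norm_num) (by norm_num) (by norm_num) (by norm_num) (by norm_num) (by norm_num) (by norm_num) (by norm_num) (by norm_num) (by norm_num) (by norm_num) (by norm_num) (by norm_num) (by norm_num) (by norm_num) (by norm_num) (by norm_num) (by norm_num) (by norm_num) (by norm_num) (by norm_num) (by norm_num) (by norm_num) (by norm_num) (by norm_num) (by norm_num) (by norm_num) (by norm_num) (by norm_num)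

include HP HG t1 t3 t5 in
lemma leaf_pp_37
    (h1 : ‖g1 - ⟨(2691 / 5000), (2691 / 5000)⟩‖ ≤ (309 / 5000))
    (h2 : ‖g2 - ⟨(1 / 5), (1 / 5)⟩‖ ≤ (56569 / 1000000))
    (h3 : ‖g3 - ⟨(31073 / 100000), (31073 / 100000)⟩‖ ≤ (593 / 5000))
    (h4 : ‖g4 - ⟨(1 / 25), (1 / 5)⟩‖ ≤ (56569 / 1000000))
    (h5 : ‖g5 - ⟨(15069 / 100000), (33069 / 100000)⟩‖ ≤ (1591 / 12500)) : False :=
  kill HP HG h1 h2 h3 h4 h5 t1 t3 t5
    2812 (-2798) (-943) 990 598 (-24) 0 3320 (-3582) 589 (-828) 1015 4627 759 13 1724 968 2486 0 (-4326) 1245 (-1474) 992 (-788)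
    (-20915514) (-490199) (-5251382) 5118528 (-67488) 24894945 (-11065580) 944539 (-5088626) 2854180 (-1845452) 14440191 3471526 9774698 11502722 (-21272607) 13213461 (-4985016) 14746328 (-3646076)
    11436 4149 5648 2194 11019496 21352506 19573316 6074692 17691776 12066752
    (by norm_num) (by norm_num) (by norm_num) (by norm_num) (by norm_num) (by norm_num) (by norm_num) (by norm_num) (by norm_num) (by norm_num) (by norm_num) (by norm_num) (by norm_num) (by norm_num) (by norm_num) (by norm_num) (by norm_num) (by norm_num) (by norm_num) (by norm_num) (by norm_num) (by norm_num) (by norm_num) (by norm_num) (by norm_num) (by norm_num) (by norm_num) (by norm_num) (by norm_num) (by norm_num) (by norm_num) (by norm_num) (by norm_num) (by norm_num) (by norm_num) (by norm_num) (by norm_num) (by norm_num) (by norm_num) (by norm_num) (by norm_num)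

include HP HG t1 t3 t5 in
lemma leaf_pp_38
    (h1 : ‖g1 - ⟨(2691 / 5000), (2691 / 5000)⟩‖ ≤ (309 / 5000))
    (h2 : ‖g2 - ⟨(1 / 5), (1 / 5)⟩‖ ≤ (56569 / 1000000))
    (h3 : ‖g3 - ⟨(31073 / 100000), (31073 / 100000)⟩‖ ≤ (593 / 5000))
    (h4 : ‖g4 - ⟨(1 / 25), (1 / 5)⟩‖ ≤ (56569 / 1000000))
    (h5 : ‖g5 - ⟨(33069 / 100000), (15069 / 100000)⟩‖ ≤ (1591 / 12500)) : False :=
  kill HP HG h1 h2 h3 h4 h5 t1 t3 t5
    2464 (-2821) (-203) 1067 217 (-373) 0 2834 (-3448) 928 (-337) 734 5756 1190 1131 1472 95 21 0 (-4332) 1598 (-697) 1770 (-484)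
    (-19975754) 520839 (-1393240) 3667077 (-919072) 20248340 (-12191689) 1187185 (-1843900) 1808576 (-124515) 14585285 168561 2668498 120876 (-18685938) 15897611 (-2075054) 9703132 (-2785904)
    3840 4348 2609 740 2513 18686353 21574629 2081890 10063382 2788526
    (by norm_num) (by norm_num) (by norm_num) (by norm_num) (by norm_num) (by norm_num) (by norm_num) (by norm_num) (by norm_num) (by norm_num) (by norm_num) (by norm_num) (by norm_num) (by norm_num) (by norm_num) (by norm_num) (by norm_num) (by norm_num) (by norm_num) (by norm_num) (by norm_num) (by norm_num) (by norm_num) (by norm_num) (by norm_num) (by norm_num) (by norm_num) (by norm_num) (by norm_num) (by norm_num) (by norm_num) (by norm_num) (by norm_num) (by norm_num) (by norm_num) (by norm_num) (by norm_num) (by norm_num) (by norm_num) (by norm_num) (by norm_num)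

include HP HG t1 t3 t5 in
lemma leaf_pp_39
    (h1 : ‖g1 - ⟨(2691 / 5000), (2691 / 5000)⟩‖ ≤ (309 / 5000))
    (h2 : ‖g2 - ⟨(1 / 5), (1 / 5)⟩‖ ≤ (56569 / 1000000))
    (h3 : ‖g3 - ⟨(25073 / 100000), (25073 / 100000)⟩‖ ≤ (42427 / 500000))
    (h4 : ‖g4 - ⟨(1 / 25), (1 / 5)⟩‖ ≤ (56569 / 1000000))
    (h5 : ‖g5 - ⟨(33069 / 100000), (33069 / 100000)⟩‖ ≤ (1591 / 12500)) : False :=
  kill HP HG h1 h2 h3 h4 h5 t1 t3 t5
    2971 (-2890) (-493) 737 869 (-353) 0 3243 (-3505) 720 (-733) 1084 5123 1228 521 2036 (-227) 53 0 (-4530) 1225 (-1135) 774 (-29)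
    (-22403712) 1401394 (-6324293) 7117381 (-1048763) 23108773 (-10423964) (-332354) (-4165724) 3220564 (-323176) 11281547 6637540 (-966467) 271519 (-21144415) 14787415 (-5972477) 4169680 (-148567)
    8338 3745 1444 6830680 3390687 21146885 18599488 8929022 4280221 309508
    (by norm_num) (by norm_num) (by norm_num) (by norm_num) (by norm_num) (by norm_num) (by norm_num) (by norm_num) (by norm_num) (by norm_num) (by norm_num) (by norm_num) (by norm_num) (by norm_num) (by norm_num) (by norm_num) (by norm_num) (by norm_num) (by norm_num) (by norm_num) (by norm_num) (by norm_num) (by norm_num) (by norm_num) (by norm_num) (by norm_num) (by norm_num) (by norm_num) (by norm_num) (by norm_num) (by norm_num) (by norm_num) (by norm_num) (by norm_num) (by norm_num) (by norm_num) (by norm_num) (by norm_num) (by norm_num) (by norm_num) (by norm_num)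

include HP HG t1 t3 t5 in
lemma leaf_pp_40
    (h1 : ‖g1 - ⟨(2691 / 5000), (2691 / 5000)⟩‖ ≤ (309 / 5000))
    (h2 : ‖g2 - ⟨(1 / 5), (1 / 5)⟩‖ ≤ (56569 / 1000000))
    (h3 : ‖g3 - ⟨(25073 / 100000), (37073 / 100000)⟩‖ ≤ (42427 / 500000))
    (h4 : ‖g4 - ⟨(1 / 25), (1 / 5)⟩‖ ≤ (56569 / 1000000))
    (h5 : ‖g5 - ⟨(33069 / 100000), (33069 / 100000)⟩‖ ≤ (1591 / 12500)) : False :=
  kill HP HG h1 h2 h3 h4 h5 t1 t3 t5
    2362 (-2832) 400 960 (-266) (-114) 0 2436 (-3450) 1727 (-678) 626 4899 748 1412 3848 785 0 0 (-3210) 3317 8 540 0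
    (-23620704) 5637414 (-836076) 1219492 (-269268) 18117326 (-15769386) 6504346 (-3096564) 1478612 2557970 12669612 17705132 3845715 0 (-19393034) 26766682 2962962 2645460 0
    8344 5323 21911879 1425964 1502931 19561007 29613753 17951347 4667760 1
    (by norm_num) (by norm_num) (by norm_num) (by norm_num) (by norm_num) (by norm_num) (by norm_num) (by norm_num) (by norm_num) (by norm_num) (by norm_num) (by norm_num) (by norm_num) (by norm_num) (by norm_num) (by norm_num) (by norm_num) (by norm_num) (by norm_num) (by norm_num) (by norm_num) (by norm_num) (by norm_num) (by norm_num) (by norm_num) (by norm_num) (by norm_num) (by norm_num) (by norm_num) (by norm_num) (by norm_num) (by norm_num) (by norm_num) (by norm_num) (by norm_num) (by norm_num) (by norm_num) (by norm_num) (by norm_num) (by norm_num) (by norm_num)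

include HP HG t1 t3 t5 in
lemma leaf_pp_41
    (h1 : ‖g1 - ⟨(2691 / 5000), (2691 / 5000)⟩‖ ≤ (309 / 5000))
    (h2 : ‖g2 - ⟨(1 / 5), (1 / 5)⟩‖ ≤ (56569 / 1000000))
    (h3 : ‖g3 - ⟨(37073 / 100000), (25073 / 100000)⟩‖ ≤ (42427 / 500000))
    (h4 : ‖g4 - ⟨(1 / 25), (1 / 5)⟩‖ ≤ (56569 / 1000000))
    (h5 : ‖g5 - ⟨(33069 / 100000), (33069 / 100000)⟩‖ ≤ (1591 / 12500)) : False :=
  kill HP HG h1 h2 h3 h4 h5 t1 t3 t5
    3109 (-2968) (-517) 527 1099 (-317) 0 3446 (-3435) 593 (-1011) 1279 4804 1176 166 2238 (-159) 16 0 (-4613) 1034 (-1004) 321 (-8)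
    (-23501282) 2367979 (-9336771) 8765081 (-985553) 24094570 (-9095715) (-693007) (-5846889) 3976411 (-274988) 8410164 9077979 (-708116) 76864 (-22104968) 14326378 (-5197059) 1606484 (-38432)
    5924 1854 5833 10053714 4103835 22106679 16612525 10460360 1755625 85937
    (by norm_num) (by norm_num) (by norm_num) (by norm_num) (by norm_num) (by norm_num) (by norm_num) (by norm_num) (by norm_num) (by norm_num) (by norm_num) (by norm_num) (by norm_num) (by norm_num) (by norm_num) (by norm_num) (by norm_num) (by norm_num) (by norm_num) (by norm_num) (by norm_num) (by norm_num) (by norm_num) (by norm_num) (by norm_num) (by norm_num) (by norm_num) (by norm_num) (by norm_num) (by norm_num) (by norm_num) (by norm_num) (by norm_num) (by norm_num) (by norm_num) (by norm_num) (by norm_num) (by norm_num) (by norm_num) (by norm_num) (by norm_num)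

include HP HG t1 t3 t5 in
lemma leaf_pp_42
    (h1 : ‖g1 - ⟨(2691 / 5000), (2691 / 5000)⟩‖ ≤ (309 / 5000))
    (h2 : ‖g2 - ⟨(1 / 5), (1 / 5)⟩‖ ≤ (56569 / 1000000))
    (h3 : ‖g3 - ⟨(37073 / 100000), (37073 / 100000)⟩‖ ≤ (42427 / 500000))
    (h4 : ‖g4 - ⟨(1 / 25), (1 / 5)⟩‖ ≤ (56569 / 1000000))
    (h5 : ‖g5 - ⟨(33069 / 100000), (33069 / 100000)⟩‖ ≤ (1591 / 12500)) : False :=
  kill HP HG h1 h2 h3 h4 h5 t1 t3 t5
    2973 (-3100) (-225) (-328) 1159 78 0 3169 (-3134) 901 (-1790) 1480 4470 895 (-296) 2850 921 (-127) 0 (-3342) 2958 1846 888 62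
    (-25752120) 9860125 (-14896424) 7894027 231894 20016986 (-7591712) 4466254 (-10156852) 4400040 2669149 (-2835112) 10817087 3796001 (-567690) (-21256766) 21823106 12481676 3600416 277140
    9436 4707 27071838 10742153 4220552 21423690 22006495 16516707 5231885 631727
    (by norm_num) (by norm_num) (by norm_num) (by norm_num) (by norm_num) (by norm_num) (by norm_num) (by norm_num) (by norm_num) (by norm_num) (by norm_num) (by norm_num) (by norm_num) (by norm_num) (by norm_num) (by norm_num) (by norm_num) (by norm_num) (by norm_num) (by norm_num) (by norm_num) (by norm_num) (by norm_num) (by norm_num) (by norm_num) (by norm_num) (by norm_num) (by norm_num) (by norm_num) (by norm_num) (by norm_num) (by norm_num) (by norm_num) (by norm_num) (by norm_num) (by norm_num) (by norm_num) (by norm_num) (by norm_num) (by norm_num) (by norm_num)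

include HP HG t1 t3 t5 in
lemma leaf_pp_43
    (h1 : ‖g1 - ⟨(2691 / 5000), (2691 / 5000)⟩‖ ≤ (309 / 5000))
    (h2 : ‖g2 - ⟨(1 / 5), (1 / 5)⟩‖ ≤ (56569 / 1000000))
    (h3 : ‖g3 - ⟨(31073 / 100000), (31073 / 100000)⟩‖ ≤ (593 / 5000))
    (h4 : ‖g4 - ⟨(1 / 25), (7 / 25)⟩‖ ≤ (56569 / 1000000))
    (h5 : ‖g5 - ⟨(24069 / 100000), (24069 / 100000)⟩‖ ≤ (9 / 50)) : False :=
  kill HP HG h1 h2 h3 h4 h5 t1 t3 t5
    2461 (-2748) (-258) 1058 305 (-470) 0 2877 (-3492) 962 (-435) 764 5742 1248 1063 1548 (-16) (-131) 0 (-4329) 1619 (-673) 1590 (-550)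
    (-20304066) 903390 (-2032525) 4240193 (-1156670) 20139849 (-11843512) 847025 (-1817817) 1880204 72684 13673631 955835 2125590 (-752202) (-18788848) 15934197 (-2321871) 7876281 (-3158100)
    6412 920 4833 2660 2601 18788989 20996829 2510918 8158060 3246445
    (by norm_num) (by norm_num) (by norm_num) (by norm_num) (by norm_num) (by norm_num) (by norm_num) (by norm_num) (by norm_num) (by norm_num) (by norm_num) (by norm_num) (by norm_num) (by norm_num) (by norm_num) (by norm_num) (by norm_num) (by norm_num) (by norm_num) (by norm_num) (by norm_num) (by norm_num) (by norm_num) (by norm_num) (by norm_num) (by norm_num) (by norm_num) (by norm_num) (by norm_num) (by norm_num) (by norm_num) (by norm_num) (by norm_num) (by norm_num) (by norm_num) (by norm_num) (by norm_num) (by norm_num) (by norm_num) (by norm_num) (by norm_num)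

include HP HG t1 t3 t5 in
lemma leaf_pp_44
    (h1 : ‖g1 - ⟨(2691 / 5000), (2691 / 5000)⟩‖ ≤ (309 / 5000))
    (h2 : ‖g2 - ⟨(1 / 5), (1 / 5)⟩‖ ≤ (56569 / 1000000))
    (h3 : ‖g3 - ⟨(31073 / 100000), (31073 / 100000)⟩‖ ≤ (593 / 5000))
    (h4 : ‖g4 - ⟨(3 / 25), (1 / 5)⟩‖ ≤ (56569 / 1000000))
    (h5 : ‖g5 - ⟨(24069 / 100000), (24069 / 100000)⟩‖ ≤ (9 / 50)) : False :=
  kill HP HG h1 h2 h3 h4 h5 t1 t3 t5
    2273 (-2842) (-154) 1134 194 (-270) 0 2774 (-3508) 1001 (-385) 765 5808 1325 1044 1462 (-168) (-201) 0 (-4275) 1675 (-733) 1735 (-421)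
    (-19951828) 984193 (-1683796) 3330412 (-613710) 19939828 (-12086620) 1766317 (-2300255) 1738845 2790 13879741 (-63448) 557706 (-1167408) (-18527938) 16337130 (-2779438) 8659780 (-2445168)
    5391 1245 4105 1226 1390 18527939 21437095 2780163 8677721 2709555
    (by norm_num) (by norm_num) (by norm_num) (by norm_num) (by norm_num) (by norm_num) (by norm_num) (by norm_num) (by norm_num) (by norm_num) (by norm_num) (by norm_num) (by norm_num) (by norm_num) (by norm_num) (by norm_num) (by norm_num) (by norm_num) (by norm_num) (by norm_num) (by norm_num) (by norm_num) (by norm_num) (by norm_num) (by norm_num) (by norm_num) (by norm_num) (by norm_num) (by norm_num) (by norm_num) (by norm_num) (by norm_num) (by norm_num) (by norm_num) (by norm_num) (by norm_num) (by norm_num) (by norm_num) (by norm_num) (by norm_num) (by norm_num)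

include HP HG t1 t3 t5 in
lemma leaf_pp_45
    (h1 : ‖g1 - ⟨(2691 / 5000), (2691 / 5000)⟩‖ ≤ (309 / 5000))
    (h2 : ‖g2 - ⟨(1 / 5), (1 / 5)⟩‖ ≤ (56569 / 1000000))
    (h3 : ‖g3 - ⟨(31073 / 100000), (31073 / 100000)⟩‖ ≤ (593 / 5000))
    (h4 : ‖g4 - ⟨(3 / 25), (7 / 25)⟩‖ ≤ (56569 / 1000000))
    (h5 : ‖g5 - ⟨(15069 / 100000), (15069 / 100000)⟩‖ ≤ (1591 / 12500)) : False :=
  kill HP HG h1 h2 h3 h4 h5 t1 t3 t5
    2338 (-2160) (-1306) 1509 (-130) 159 0 3202 (-3352) 550 (-364) 399 5250 517 1549 1120 1762 1856 0 (-3233) 2219 (-174) 2516 (-1997)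
    (-17338854) (-2702479) 1098212 630218 371742 22776506 (-13302529) 2500274 (-2221990) 932862 (-2528694) 20012372 (-2899673) 16666353 9744000 (-18636818) 13254462 (-1127999) 18176999 (-10484250)
    6052 4261 3943 12745028 6506958 18807586 24003663 3111348 24661116 14313108
    (by norm_num) (by norm_num) (by norm_num) (by norm_num) (by norm_num) (by norm_num) (by norm_num) (by norm_num) (by norm_num) (by norm_num) (by norm_num) (by norm_num) (by norm_num) (by norm_num) (by norm_num) (by norm_num) (by norm_num) (by norm_num) (by norm_num) (by norm_num) (by norm_num) (by norm_num) (by norm_num) (by norm_num) (by norm_num) (by norm_num) (by norm_num) (by norm_num) (by norm_num) (by norm_num) (by norm_num) (by norm_num) (by norm_num) (by norm_num) (by norm_num) (by norm_num) (by norm_num) (by norm_num) (by norm_num) (by norm_num) (by norm_num)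

include HP HG t1 t3 t5 in
lemma leaf_pp_46
    (h1 : ‖g1 - ⟨(2691 / 5000), (2691 / 5000)⟩‖ ≤ (309 / 5000))
    (h2 : ‖g2 - ⟨(1 / 5), (1 / 5)⟩‖ ≤ (56569 / 1000000))
    (h3 : ‖g3 - ⟨(31073 / 100000), (31073 / 100000)⟩‖ ≤ (593 / 5000))
    (h4 : ‖g4 - ⟨(3 / 25), (7 / 25)⟩‖ ≤ (56569 / 1000000))
    (h5 : ‖g5 - ⟨(15069 / 100000), (33069 / 100000)⟩‖ ≤ (1591 / 12500)) : False :=
  kill HP HG h1 h2 h3 h4 h5 t1 t3 t5
    2561 (-2600) (-968) 1266 254 95 0 3305 (-3586) 616 (-645) 750 4447 583 443 1688 1412 3085 0 (-3877) 1830 (-962) 2123 (-666)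
    (-19963370) (-1085400) (-2331359) 2882244 243295 24209274 (-12543292) 2029776 (-3915820) 1920750 (-1973484) 17042577 246736 10659801 13718995 (-20519703) 14321631 (-3506569) 21013248 (-2961702)
    2403 3820 4092 9507573 11924638 20614385 22261145 3515239 23562427 14035046
    (by norm_num) (by norm_num) (by norm_num) (by norm_num) (by norm_num) (by norm_num) (by norm_num) (by norm_num) (by norm_num) (by norm_num) (by norm_num) (by norm_num) (by norm_num) (by norm_num) (by norm_num) (by norm_num) (by norm_num) (by norm_num) (by norm_num) (by norm_num) (by norm_num) (by norm_num) (by norm_num) (by norm_num) (by norm_num) (by norm_num) (by norm_num) (by norm_num) (by norm_num) (by norm_num) (by norm_num) (by norm_num) (by norm_num) (by norm_num) (by norm_num) (by norm_num) (by norm_num) (by norm_num) (by norm_num) (by norm_num) (by norm_num)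

include HP HG t1 t3 t5 in
lemma leaf_pp_47
    (h1 : ‖g1 - ⟨(2691 / 5000), (2691 / 5000)⟩‖ ≤ (309 / 5000))
    (h2 : ‖g2 - ⟨(1 / 5), (1 / 5)⟩‖ ≤ (56569 / 1000000))
    (h3 : ‖g3 - ⟨(25073 / 100000), (25073 / 100000)⟩‖ ≤ (42427 / 500000))
    (h4 : ‖g4 - ⟨(3 / 25), (7 / 25)⟩‖ ≤ (56569 / 1000000))
    (h5 : ‖g5 - ⟨(33069 / 100000), (15069 / 100000)⟩‖ ≤ (1591 / 12500)) : False :=
  kill HP HG h1 h2 h3 h4 h5 t1 t3 t5
    2517 (-2841) (-372) 965 261 (-337) 0 2773 (-3466) 977 (-293) 694 5762 1141 1124 1515 95 11 0 (-4310) 1514 (-781) 1830 (-463)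
    (-19776120) 302611 (-1405125) 3538816 (-848229) 20384000 (-12162943) 1141559 (-1774634) 1746798 (-279538) 14826881 261907 2555471 63382 (-18651330) 15582433 (-2539708) 10063587 (-2667806)
    6852 875 705 2548061 2717 18653425 21509269 2553177 10382978 2668559
    (by norm_num) (by norm_num) (by norm_num) (by norm_num) (by norm_num) (by norm_num) (by norm_num) (by norm_num) (by norm_num) (by norm_num) (by norm_num) (by norm_num) (by norm_num) (by norm_num) (by norm_num) (by norm_num) (by norm_num) (by norm_num) (by norm_num) (by norm_num) (by norm_num) (by norm_num) (by norm_num) (by norm_num) (by norm_num) (by norm_num) (by norm_num) (by norm_num) (by norm_num) (by norm_num) (by norm_num) (by norm_num) (by norm_num) (by norm_num) (by norm_num) (by norm_num) (by norm_num) (by norm_num) (by norm_num) (by norm_num) (by norm_num)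

include HP HG t1 t3 t5 in
lemma leaf_pp_48
    (h1 : ‖g1 - ⟨(2691 / 5000), (2691 / 5000)⟩‖ ≤ (309 / 5000))
    (h2 : ‖g2 - ⟨(1 / 5), (1 / 5)⟩‖ ≤ (56569 / 1000000))
    (h3 : ‖g3 - ⟨(25073 / 100000), (37073 / 100000)⟩‖ ≤ (42427 / 500000))
    (h4 : ‖g4 - ⟨(3 / 25), (7 / 25)⟩‖ ≤ (56569 / 1000000))
    (h5 : ‖g5 - ⟨(33069 / 100000), (15069 / 100000)⟩‖ ≤ (1591 / 12500)) : False :=
  kill HP HG h1 h2 h3 h4 h5 t1 t3 t5
    1775 (-2352) 678 1084 (-1005) 236 0 1859 (-3266) 2346 (-680) 141 5353 481 1630 3525 1008 (-125) 0 (-2986) 3630 163 1178 (-14)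
    (-21785794) 5141196 2723242 (-2076828) 418900 16491272 (-17474280) 8498179 (-1977356) 250275 2459805 15410470 15582095 5377503 (-669125) (-17779624) 28267568 4879975 5925850 (-74942)
    1022 3478 23538575 4783488 1425 17948975 32195311 16328376 8002078 673309
    (by norm_num) (by norm_num) (by norm_num) (by norm_num) (by norm_num) (by norm_num) (by norm_num) (by norm_num) (by norm_num) (by norm_num) (by norm_num) (by norm_num) (by norm_num) (by norm_num) (by norm_num) (by norm_num) (by norm_num) (by norm_num) (by norm_num) (by norm_num) (by norm_num) (by norm_num) (by norm_num) (by norm_num) (by norm_num) (by norm_num) (by norm_num) (by norm_num) (by norm_num) (by norm_num) (by norm_num) (by norm_num) (by norm_num) (by norm_num) (by norm_num) (by norm_num) (by norm_num) (by norm_num) (by norm_num) (by norm_num) (by norm_num)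

include HP HG t1 t3 t5 in
lemma leaf_pp_49
    (h1 : ‖g1 - ⟨(2691 / 5000), (2691 / 5000)⟩‖ ≤ (309 / 5000))
    (h2 : ‖g2 - ⟨(1 / 5), (1 / 5)⟩‖ ≤ (56569 / 1000000))
    (h3 : ‖g3 - ⟨(37073 / 100000), (25073 / 100000)⟩‖ ≤ (42427 / 500000))
    (h4 : ‖g4 - ⟨(3 / 25), (7 / 25)⟩‖ ≤ (56569 / 1000000))
    (h5 : ‖g5 - ⟨(33069 / 100000), (15069 / 100000)⟩‖ ≤ (1591 / 12500)) : False :=
  kill HP HG h1 h2 h3 h4 h5 t1 t3 t5
    2497 (-2686) (-490) 1060 296 (-269) 0 2788 (-3537) 1022 (-440) 806 5835 1300 1023 1464 30 (-53) 0 (-4180) 1740 (-779) 1603 (-498)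
    (-19956356) 728478 (-2093968) 3708774 (-671693) 20427882 (-12140431) 1562133 (-2513624) 2012582 (-220289) 14258885 960161 2187790 (-309255) (-18756256) 16077030 (-2753399) 8484565 (-2905830)
    4509 6187 2468 909437 2524 18757550 21489223 2916011 8762093 2922241
    (by norm_num) (by norm_num) (by norm_num) (by norm_num) (by norm_num) (by norm_num) (by norm_num) (by norm_num) (by norm_num) (by norm_num) (by norm_num) (by norm_num) (by norm_num) (by norm_num) (by norm_num) (by norm_num) (by norm_num) (by norm_num) (by norm_num) (by norm_num) (by norm_num) (by norm_num) (by norm_num) (by norm_num) (by norm_num) (by norm_num) (by norm_num) (by norm_num) (by norm_num) (by norm_num) (by norm_num) (by norm_num) (by norm_num) (by norm_num) (by norm_num) (by norm_num) (by norm_num) (by norm_num) (by norm_num) (by norm_num) (by norm_num)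

include HP HG t1 t3 t5 in
lemma leaf_pp_50
    (h1 : ‖g1 - ⟨(2691 / 5000), (2691 / 5000)⟩‖ ≤ (309 / 5000))
    (h2 : ‖g2 - ⟨(1 / 5), (1 / 5)⟩‖ ≤ (56569 / 1000000))
    (h3 : ‖g3 - ⟨(37073 / 100000), (37073 / 100000)⟩‖ ≤ (42427 / 500000))
    (h4 : ‖g4 - ⟨(3 / 25), (7 / 25)⟩‖ ≤ (56569 / 1000000))
    (h5 : ‖g5 - ⟨(33069 / 100000), (15069 / 100000)⟩‖ ≤ (1591 / 12500)) : False :=
  kill HP HG h1 h2 h3 h4 h5 t1 t3 t5
    2515 (-2742) (-137) 331 361 122 0 2820 (-3189) 1263 (-1281) 915 5398 453 488 2212 1061 (-314) 0 (-3063) 3532 1592 1830 (-502)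
    (-22212995) 7541182 (-6704466) 3153691 306830 16712049 (-10941396) 5934630 (-6074685) 2301225 2558720 4247540 4889423 7122662 (-1694972) (-18074376) 23097320 13536521 8689152 (-2709796)
    11550 3679 23580921 2859 3077 18254592 23484629 14392494 11235377 3196236
    (by norm_num) (by norm_num) (by norm_num) (by norm_num) (by norm_num) (by norm_num) (by norm_num) (by norm_num) (by norm_num) (by norm_num) (by norm_num) (by norm_num) (by norm_num) (by norm_num) (by norm_num) (by norm_num) (by norm_num) (by norm_num) (by norm_num) (by norm_num) (by norm_num) (by norm_num) (by norm_num) (by norm_num) (by norm_num) (by norm_num) (by norm_num) (by norm_num) (by norm_num) (by norm_num) (by norm_num) (by norm_num) (by norm_num) (by norm_num) (by norm_num) (by norm_num) (by norm_num) (by norm_num) (by norm_num) (by norm_num) (by norm_num)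

include HP HG t1 t3 t5 in
lemma leaf_pp_51
    (h1 : ‖g1 - ⟨(2691 / 5000), (2691 / 5000)⟩‖ ≤ (309 / 5000))
    (h2 : ‖g2 - ⟨(1 / 5), (1 / 5)⟩‖ ≤ (56569 / 1000000))
    (h3 : ‖g3 - ⟨(31073 / 100000), (31073 / 100000)⟩‖ ≤ (593 / 5000))
    (h4 : ‖g4 - ⟨(3 / 25), (7 / 25)⟩‖ ≤ (56569 / 1000000))
    (h5 : ‖g5 - ⟨(33069 / 100000), (33069 / 100000)⟩‖ ≤ (1591 / 12500)) : False :=
  kill HP HG h1 h2 h3 h4 h5 t1 t3 t5
    2663 (-2907) (-274) 923 462 (-440) 0 2881 (-3466) 922 (-429) 837 5634 1127 976 1589 11 93 0 (-4377) 1463 (-798) 1622 (-81)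
    (-20910388) 969379 (-2901516) 4920783 (-1171720) 20859652 (-11672306) 616989 (-2307946) 2228931 22073 13378570 1837594 521322 523962 (-19408421) 15810733 (-2834906) 9454122 (-456354)
    9065 4881 3597 354553 2333103 19408434 20711481 3378379 9468485 694835
    (by norm_num) (by norm_num) (by norm_num) (by norm_num) (by norm_num) (by norm_num) (by norm_num) (by norm_num) (by norm_num) (by norm_num) (by norm_num) (by norm_num) (by norm_num) (by norm_num) (by norm_num) (by norm_num) (by norm_num) (by norm_num) (by norm_num) (by norm_num) (by norm_num) (by norm_num) (by norm_num) (by norm_num) (by norm_num) (by norm_num) (by norm_num) (by norm_num) (by norm_num) (by norm_num) (by norm_num) (by norm_num) (by norm_num) (by norm_num) (by norm_num) (by norm_num) (by norm_num) (by norm_num) (by norm_num) (by norm_num) (by norm_num)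

include HP HG t1 t3 t5 in
lemma leaf_pp_52
    (h1 : ‖g1 - ⟨(2691 / 5000), (2691 / 5000)⟩‖ ≤ (309 / 5000))
    (h2 : ‖g2 - ⟨(1 / 5), (7 / 25)⟩‖ ≤ (56569 / 1000000))
    (h3 : ‖g3 - ⟨(31073 / 100000), (31073 / 100000)⟩‖ ≤ (593 / 5000))
    (h4 : ‖g4 - ⟨(2 / 25), (6 / 25)⟩‖ ≤ (56569 / 500000))
    (h5 : ‖g5 - ⟨(24069 / 100000), (24069 / 100000)⟩‖ ≤ (9 / 50)) : False :=
  kill HP HG h1 h2 h3 h4 h5 t1 t3 t5
    2439 (-1703) (-419) (-89) 1165 (-394) 0 2331 (-1897) 67 (-625) 809 5638 410 3385 2371 (-109) (-186) 0 (-1914) 4666 (-297) 2118 (-541)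
    (-9061970) 72562 (-5027528) 5398196 (-960966) 10369488 (-2107148) (-2574216) (-1983688) 1973151 (-604310) 29858492 6115240 344672 (-1048668) (-9025291) 37063303 (-1978141) 11363470 (-3050158)
    4812 30708781 3854 1126 2512 9045500 47594307 6427224 11368697 3225395
    (by norm_num) (by norm_num) (by norm_num) (by norm_num) (by norm_num) (by norm_num) (by norm_num) (by norm_num) (by norm_num) (by norm_num) (by norm_num) (by norm_num) (by norm_num) (by norm_num) (by norm_num) (by norm_num) (by norm_num) (by norm_num) (by norm_num) (by norm_num) (by norm_num) (by norm_num) (by norm_num) (by norm_num) (by norm_num) (by norm_num) (by norm_num) (by norm_num) (by norm_num) (by norm_num) (by norm_num) (by norm_num) (by norm_num) (by norm_num) (by norm_num) (by norm_num) (by norm_num) (by norm_num) (by norm_num) (by norm_num) (by norm_num)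

include HP HG t1 t3 t5 in
lemma leaf_pp_53
    (h1 : ‖g1 - ⟨(2691 / 5000), (2691 / 5000)⟩‖ ≤ (309 / 5000))
    (h2 : ‖g2 - ⟨(7 / 25), (1 / 5)⟩‖ ≤ (56569 / 1000000))
    (h3 : ‖g3 - ⟨(31073 / 100000), (31073 / 100000)⟩‖ ≤ (593 / 5000))
    (h4 : ‖g4 - ⟨(2 / 25), (6 / 25)⟩‖ ≤ (56569 / 500000))
    (h5 : ‖g5 - ⟨(24069 / 100000), (24069 / 100000)⟩‖ ≤ (9 / 50)) : False :=
  kill HP HG h1 h2 h3 h4 h5 t1 t3 t5
    2396 (-2203) (-2399) 1898 440 (-3) 0 3740 (-3417) (-550) 154 484 4590 (-336) (-768) 1518 (-318) (-261) 0 (-3260) 3869 1290 1432 (-264)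
    (-14623287) (-13839970) 2507617 2871009 (-7188) 34013581 (-12022986) (-4474029) (-686048) 1159664 (-9002440) (-3192694) 1585180 (-511284) (-1197990) (-22589226) 22340454 5615829 5810724 (-1211760)
    8452 24576742 2947 1750 656 24317012 22567437 5835267 5833175 1703979
    (by norm_num) (by norm_num) (by norm_num) (by norm_num) (by norm_num) (by norm_num) (by norm_num) (by norm_num) (by norm_num) (by norm_num) (by norm_num) (by norm_num) (by norm_num) (by norm_num) (by norm_num) (by norm_num) (by norm_num) (by norm_num) (by norm_num) (by norm_num) (by norm_num) (by norm_num) (by norm_num) (by norm_num) (by norm_num) (by norm_num) (by norm_num) (by norm_num) (by norm_num) (by norm_num) (by norm_num) (by norm_num) (by norm_num) (by norm_num) (by norm_num) (by norm_num) (by norm_num) (by norm_num) (by norm_num) (by norm_num) (by norm_num)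

include HP HG t1 t3 t5 in
lemma leaf_pp_54
    (h1 : ‖g1 - ⟨(2691 / 5000), (2691 / 5000)⟩‖ ≤ (309 / 5000))
    (h2 : ‖g2 - ⟨(6 / 25), (6 / 25)⟩‖ ≤ (56569 / 500000))
    (h3 : ‖g3 - ⟨(31073 / 100000), (31073 / 100000)⟩‖ ≤ (593 / 5000))
    (h4 : ‖g4 - ⟨(6 / 25), (2 / 25)⟩‖ ≤ (56569 / 500000))
    (h5 : ‖g5 - ⟨(24069 / 100000), (24069 / 100000)⟩‖ ≤ (9 / 50)) : False :=
  kill HP HG h1 h2 h3 h4 h5 t1 t3 t5
    2658 (-1900) (-2027) 563 (-818) 1072 0 4029 (-2741) 721 (-1592) 83 5276 1009 414 555 (-2601) (-604) 0 (-3568) 1729 (-1314) 1448 518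
    (-17977249) 3132580 (-5763961) (-3876637) 2849376 25497693 (-10665142) 11007051 (-8708324) 220614 (-3495157) 7843517 (-4217127) (-16180536) (-3186704) (-20193446) 14367053 (-13493232) 6007238 2732968
    3291 4266 1088 15154642 2208 20493692 16368659 14136884 17259683 4198119
    (by norm_num) (by norm_num) (by norm_num) (by norm_num) (by norm_num) (by norm_num) (by norm_num) (by norm_num) (by norm_num) (by norm_num) (by norm_num) (by norm_num) (by norm_num) (by norm_num) (by norm_num) (by norm_num) (by norm_num) (by norm_num) (by norm_num) (by norm_num) (by norm_num) (by norm_num) (by norm_num) (by norm_num) (by norm_num) (by norm_num) (by norm_num) (by norm_num) (by norm_num) (by norm_num) (by norm_num) (by norm_num) (by norm_num) (by norm_num) (by norm_num) (by norm_num) (by norm_num) (by norm_num) (by norm_num) (by norm_num) (by norm_num)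

include HP HG t1 t3 t5 in
lemma leaf_pp_55
    (h1 : ‖g1 - ⟨(2691 / 5000), (2691 / 5000)⟩‖ ≤ (309 / 5000))
    (h2 : ‖g2 - ⟨(1 / 5), (1 / 5)⟩‖ ≤ (56569 / 1000000))
    (h3 : ‖g3 - ⟨(31073 / 100000), (31073 / 100000)⟩‖ ≤ (593 / 5000))
    (h4 : ‖g4 - ⟨(6 / 25), (6 / 25)⟩‖ ≤ (56569 / 500000))
    (h5 : ‖g5 - ⟨(24069 / 100000), (24069 / 100000)⟩‖ ≤ (9 / 50)) : False :=
  kill HP HG h1 h2 h3 h4 h5 t1 t3 t5
    1763 (-2133) 235 1368 (-905) 249 0 1925 (-3189) 1812 (-308) 72 6232 1498 1444 650 (-979) (-94) 0 (-3846) 2260 (-469) 2756 52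
    (-17901204) 2225094 3578156 (-1988032) 438987 15761957 (-15431720) 6404626 (-1175905) 126936 991772 16505878 (-8033534) (-6441932) (-585808) (-15634999) 22063576 (-2272026) 16891764 324064
    4148 4424 2395 13735884 1366 15666423 27554408 8348639 18078446 669469
    (by norm_num) (by norm_num) (by norm_num) (by norm_num) (by norm_num) (by norm_num) (by norm_num) (by norm_num) (by norm_num) (by norm_num) (by norm_num) (by norm_num) (by norm_num) (by norm_num) (by norm_num) (by norm_num) (by norm_num) (by norm_num) (by norm_num) (by norm_num) (by norm_num) (by norm_num) (by norm_num) (by norm_num) (by norm_num) (by norm_num) (by norm_num) (by norm_num) (by norm_num) (by norm_num) (by norm_num) (by norm_num) (by norm_num) (by norm_num) (by norm_num) (by norm_num) (by norm_num) (by norm_num) (by norm_num) (by norm_num) (by norm_num)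

include HP HG t1 t3 t5 in
lemma leaf_pp_56
    (h1 : ‖g1 - ⟨(2691 / 5000), (2691 / 5000)⟩‖ ≤ (309 / 5000))
    (h2 : ‖g2 - ⟨(1 / 5), (7 / 25)⟩‖ ≤ (56569 / 1000000))
    (h3 : ‖g3 - ⟨(31073 / 100000), (31073 / 100000)⟩‖ ≤ (593 / 5000))
    (h4 : ‖g4 - ⟨(6 / 25), (6 / 25)⟩‖ ≤ (56569 / 500000))
    (h5 : ‖g5 - ⟨(24069 / 100000), (24069 / 100000)⟩‖ ≤ (9 / 50)) : False :=
  kill HP HG h1 h2 h3 h4 h5 t1 t3 t5
    582 (-531) 235 (-304) (-61) 126 0 427 (-378) 418 (-462) 57 5815 512 4069 451 (-1687) (-19) 0 (-455) 5174 (-386) 4206 7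
    (-1033269) 622503 (-333747) (-78069) 73332 552886 (-513770) 575668 (-352953) 33174 221535 38953947 (-196002) (-9822818) (-110485) (-735621) 55932958 (-731914) 24452829 40705
    3025 46216347 1216 17825124 692 768256 68160882 757704 26352014 117745
    (by norm_num) (by norm_num) (by norm_num) (by norm_num) (by norm_num) (by norm_num) (by norm_num) (by norm_num) (by norm_num) (by norm_num) (by norm_num) (by norm_num) (by norm_num) (by norm_num) (by norm_num) (by norm_num) (by norm_num) (by norm_num) (by norm_num) (by norm_num) (by norm_num) (by norm_num) (by norm_num) (by norm_num) (by norm_num) (by norm_num) (by norm_num) (by norm_num) (by norm_num) (by norm_num) (by norm_num) (by norm_num) (by norm_num) (by norm_num) (by norm_num) (by norm_num) (by norm_num) (by norm_num) (by norm_num) (by norm_num) (by norm_num)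

include HP HG t1 t3 t5 in
lemma leaf_pp_57
    (h1 : ‖g1 - ⟨(2691 / 5000), (2691 / 5000)⟩‖ ≤ (309 / 5000))
    (h2 : ‖g2 - ⟨(7 / 25), (1 / 5)⟩‖ ≤ (56569 / 1000000))
    (h3 : ‖g3 - ⟨(31073 / 100000), (31073 / 100000)⟩‖ ≤ (593 / 5000))
    (h4 : ‖g4 - ⟨(6 / 25), (6 / 25)⟩‖ ≤ (56569 / 500000))
    (h5 : ‖g5 - ⟨(24069 / 100000), (24069 / 100000)⟩‖ ≤ (9 / 50)) : False :=
  kill HP HG h1 h2 h3 h4 h5 t1 t3 t5
    2242 (-1874) (-2647) 1887 80 270 0 3803 (-3194) (-600) 106 247 4836 (-260) (-778) 1084 (-654) (-249) 0 (-3444) 3603 1156 1952 11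
    (-14331159) (-11941646) 2980244 612721 605340 32432863 (-12609782) (-1639513) (-1252036) 553774 (-8410202) (-740844) (-1077069) (-3135888) (-1204164) (-21725570) 21994318 3719109 8579456 53196
    5492 21162453 2441 5192162 289 23296607 22006792 3871931 9134597 1205339
    (by norm_num) (by norm_num) (by norm_num) (by norm_num) (by norm_num) (by norm_num) (by norm_num) (by norm_num) (by norm_num) (by norm_num) (by norm_num) (by norm_num) (by norm_num) (by norm_num) (by norm_num) (by norm_num) (by norm_num) (by norm_num) (by norm_num) (by norm_num) (by norm_num) (by norm_num) (by norm_num) (by norm_num) (by norm_num) (by norm_num) (by norm_num) (by norm_num) (by norm_num) (by norm_num) (by norm_num) (by norm_num) (by norm_num) (by norm_num) (by norm_num) (by norm_num) (by norm_num) (by norm_num) (by norm_num) (by norm_num) (by norm_num)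

end

end Pool.Agent.H893R3.Dig
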