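import Pool.Agent.H893R3.Dig.Lpp0
import Pool.Agent.H893R3.Dig.Lpp1

/-!
# Certificates
-/

set_option autoImplicit false
set_option linter.unusedVariables false
set_option maxRecDepth 4000

namespace Pool.Agent.H893R3.Dig

section
variable {g1 g2 g3 g4 g5 c1 c3 c5 : ℂ}
    (HP : ∀ q : Fin 6 → ℂ, 0 ≤ nn q + 2 * (A1 q * g1 + A2 q * g2 + A3 q * g3 + A4 q * g4 +
      A5 q * g5).re)
    (HG : ∀ p : Fin 6 → ℂ, 0 ≤ (901 / 10000) * nn p + 2 * (A1 p * (g1 ^ 2 - c1) + A2 p * g2 ^ 2 +
      A3 p * (g3 ^ 2 - c3) + A4 p * g4 ^ 2 + A5 p * (g5 ^ 2 - c5)).re)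
    (t1 : ‖(⟨0, (7241481 / 12500000)⟩ : ℂ) - c1‖ ≤ 1 / 100000) (t3 : ‖(⟨0, (965531329 / 5000000000)⟩ : ℂ) - c3‖ ≤ 1 / 100000)
    (t5 : ‖(⟨0, (579316761 / 5000000000)⟩ : ℂ) - c5‖ ≤ 1 / 100000)

include HP HG t1 t3 t5 in
theorem tree_pp
    (d1 : ‖g1 - ⟨(2691 / 5000), (2691 / 5000)⟩‖ ≤ (309 / 5000))
    (d2 : ‖g2 - ⟨0, 0⟩‖ ≤ (30017 / 100000))
    (d3 : ‖g3 - ⟨(31073 / 100000), (31073 / 100000)⟩‖ ≤ (593 / 5000))
    (d4 : ‖g4 - ⟨0, 0⟩‖ ≤ (30017 / 100000))
    (d5 : ‖g5 - ⟨(24069 / 100000), (24069 / 100000)⟩‖ ≤ (9 / 50)) : False := by
  obtain ⟨e1a, e1b, e1c, e1d⟩ := disc_box d1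
  have l1a : (2341 / 5000) ≤ g1.re := by linarith
  have l1b : g1.re ≤ (3041 / 5000) := by linarith
  have l1c : (2341 / 5000) ≤ g1.im := by linarith
  have l1d : g1.im ≤ (3041 / 5000) := by linarith
  obtain ⟨e2a, e2b, e2c, e2d⟩ := disc_box d2
  have l2a : (-8 / 25) ≤ g2.re := by linarith
  have l2b : g2.re ≤ (8 / 25) := by linarith
  have l2c : (-8 / 25) ≤ g2.im := by linarith
  have l2d : g2.im ≤ (8 / 25) := by linarith
  obtain ⟨e3a, e3b, e3c, e3d⟩ := disc_box d3
  have l3a : (19073 / 100000) ≤ g3.re := by linarith
  have l3b : g3.re ≤ (43073 / 100000) := by linarith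
  have l3c : (19073 / 100000) ≤ g3.im := by linarith
  have l3d : g3.im ≤ (43073 / 100000) := by linarith
  obtain ⟨e4a, e4b, e4c, e4d⟩ := disc_box d4
  have l4a : (-8 / 25) ≤ g4.re := by linarith
  have l4b : g4.re ≤ (8 / 25) := by linarith
  have l4c : (-8 / 25) ≤ g4.im := by linarith
  have l4d : g4.im ≤ (8 / 25) := by linarith
  obtain ⟨e5a, e5b, e5c, e5d⟩ := disc_box d5
  have l5a : (6069 / 100000) ≤ g5.re := by linarith
  have l5b : g5.re ≤ (42069 / 100000) := by linarith
  have l5c : (6069 / 100000) ≤ g5.im := by linarith
  have l5d : g5.im ≤ (42069 / 100000) := by linarith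
  rcases le_total g2.re 0 with r1 | r1
  · rcases le_total g2.im 0 with i1 | i1
    · exact leaf_pp_0 HP HG t1 t3 t5 d1 (box_disc l2a r1 l2c i1 (by norm_num) (by norm_num) (by norm_num) (by norm_num)) d3 d4 d5
    · exact leaf_pp_1 HP HG t1 t3 t5 d1 (box_disc l2a r1 i1 l2d (by norm_num) (by norm_num) (by norm_num) (by norm_num)) d3 d4 d5
  · rcases le_total g2.im 0 with i1 | i1
    · exact leaf_pp_2 HP HG t1 t3 t5 d1 (box_disc r1 l2b l2c i1 (by norm_num) (by norm_num) (by norm_num) (by norm_num)) d3 d4 d5
    · rcases le_total g2.re (4 / 25) with r2 | r2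
      · rcases le_total g2.im (4 / 25) with i2 | i2
        · exact leaf_pp_3 HP HG t1 t3 t5 d1 (box_disc r1 r2 i1 i2 (by norm_num) (by norm_num) (by norm_num) (by norm_num)) d3 d4 d5
        · rcases le_total g4.re 0 with r3 | r3
          · rcases le_total g4.im 0 with i3 | i3
            · exact leaf_pp_4 HP HG t1 t3 t5 d1 (box_disc r1 r2 i2 l2d (by norm_num) (by norm_num) (by norm_num) (by norm_num)) d3 (box_disc l4a r3 l4c i3 (by norm_num) (by norm_num) (by norm_num) (by norm_num)) d5
            · rcases le_total g4.re (-4 / 25) with r4 | r4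
              · rcases le_total g4.im (4 / 25) with i4 | i4
                · exact leaf_pp_5 HP HG t1 t3 t5 d1 (box_disc r1 r2 i2 l2d (by norm_num) (by norm_num) (by norm_num) (by norm_num)) d3 (box_disc l4a r4 i3 i4 (by norm_num) (by norm_num) (by norm_num) (by norm_num)) d5
                · exact leaf_pp_6 HP HG t1 t3 t5 d1 (box_disc r1 r2 i2 l2d (by norm_num) (by norm_num) (by norm_num) (by norm_num)) d3 (box_disc l4a r4 i4 l4d (by norm_num) (by norm_num) (by norm_num) (by norm_num)) d5
              · rcases le_total g4.im (4 / 25) with i4 | i4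
                · exact leaf_pp_7 HP HG t1 t3 t5 d1 (box_disc r1 r2 i2 l2d (by norm_num) (by norm_num) (by norm_num) (by norm_num)) d3 (box_disc r4 r3 i3 i4 (by norm_num) (by norm_num) (by norm_num) (by norm_num)) d5
                · exact leaf_pp_8 HP HG t1 t3 t5 d1 (box_disc r1 r2 i2 l2d (by norm_num) (by norm_num) (by norm_num) (by norm_num)) d3 (box_disc r4 r3 i4 l4d (by norm_num) (by norm_num) (by norm_num) (by norm_num)) d5
          · rcases le_total g4.im 0 with i3 | i3
            · exact leaf_pp_9 HP HG t1 t3 t5 d1 (box_disc r1 r2 i2 l2d (by norm_num) (by norm_num) (by norm_num) (by norm_num)) d3 (box_disc r3 l4b l4c i3 (by norm_num) (by norm_num) (by norm_num) (by norm_num)) d5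
            · rcases le_total g4.re (4 / 25) with r5 | r5
              · rcases le_total g4.im (4 / 25) with i5 | i5
                · exact leaf_pp_10 HP HG t1 t3 t5 d1 (box_disc r1 r2 i2 l2d (by norm_num) (by norm_num) (by norm_num) (by norm_num)) d3 (box_disc r3 r5 i3 i5 (by norm_num) (by norm_num) (by norm_num) (by norm_num)) d5
                · rcases le_total g2.re (2 / 25) with r6 | r6
                  · rcases le_total g2.im (6 / 25) with i6 | i6
                    · exact leaf_pp_11 HP HG t1 t3 t5 d1 (box_disc r1 r6 i2 i6 (by norm_num) (by norm_num) (by norm_num) (by norm_num)) d3 (box_disc r3 r5 i5 l4d (by norm_num) (by norm_num) (by norm_num) (by norm_num)) d5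
                    · exact leaf_pp_12 HP HG t1 t3 t5 d1 (box_disc r1 r6 i6 l2d (by norm_num) (by norm_num) (by norm_num) (by norm_num)) d3 (box_disc r3 r5 i5 l4d (by norm_num) (by norm_num) (by norm_num) (by norm_num)) d5
                  · rcases le_total g2.im (6 / 25) with i6 | i6
                    · rcases le_total g4.re (2 / 25) with r7 | r7
                      · rcases le_total g4.im (6 / 25) with i7 | i7
                        · exact leaf_pp_13 HP HG t1 t3 t5 d1 (box_disc r6 r2 i2 i6 (by norm_num) (by norm_num) (by norm_num) (by norm_num)) d3 (box_disc r3 r7 i5 i7 (by norm_num) (by norm_num) (by norm_num) (by norm_num)) d5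
                        · rcases le_total g5.re (24069 / 100000) with r8 | r8
                          · rcases le_total g5.im (24069 / 100000) with i8 | i8
                            · exact leaf_pp_14 HP HG t1 t3 t5 d1 (box_disc r6 r2 i2 i6 (by norm_num) (by norm_num) (by norm_num) (by norm_num)) d3 (box_disc r3 r7 i7 l4d (by norm_num) (by norm_num) (by norm_num) (by norm_num)) (box_disc l5a r8 l5c i8 (by norm_num) (by norm_num) (by norm_num) (by norm_num))
                            · exact leaf_pp_15 HP HG t1 t3 t5 d1 (box_disc r6 r2 i2 i6 (by norm_num) (by norm_num) (by norm_num) (by norm_num)) d3 (box_disc r3 r7 i7 l4d (by norm_num) (by norm_num) (by norm_num) (by norm_num)) (box_disc l5a r8 i8 l5d (by norm_num) (by norm_num) (by norm_num) (by norm_num))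
                          · rcases le_total g5.im (24069 / 100000) with i8 | i8
                            · exact leaf_pp_16 HP HG t1 t3 t5 d1 (box_disc r6 r2 i2 i6 (by norm_num) (by norm_num) (by norm_num) (by norm_num)) d3 (box_disc r3 r7 i7 l4d (by norm_num) (by norm_num) (by norm_num) (by norm_num)) (box_disc r8 l5b l5c i8 (by norm_num) (by norm_num) (by norm_num) (by norm_num))
                            · exact leaf_pp_17 HP HG t1 t3 t5 d1 (box_disc r6 r2 i2 i6 (by norm_num) (by norm_num) (by norm_num) (by norm_num)) d3 (box_disc r3 r7 i7 l4d (by norm_num) (by norm_num) (by norm_num) (by norm_num)) (box_disc r8 l5b i8 l5d (by norm_num) (by norm_num) (by norm_num) (by norm_num))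
                      · rcases le_total g4.im (6 / 25) with i7 | i7
                        · exact leaf_pp_18 HP HG t1 t3 t5 d1 (box_disc r6 r2 i2 i6 (by norm_num) (by norm_num) (by norm_num) (by norm_num)) d3 (box_disc r7 r5 i5 i7 (by norm_num) (by norm_num) (by norm_num) (by norm_num)) d5
                        · rcases le_total g5.re (24069 / 100000) with r9 | r9
                          · rcases le_total g5.im (24069 / 100000) with i9 | i9
                            · exact leaf_pp_19 HP HG t1 t3 t5 d1 (box_disc r6 r2 i2 i6 (by norm_num) (by norm_num) (by norm_num) (by norm_num)) d3 (box_disc r7 r5 i7 l4d (by norm_num) (by norm_num) (by norm_num) (by norm_num)) (box_disc l5a r9 l5c i9 (by norm_num) (by norm_num) (by norm_num) (by norm_num))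
                            · exact leaf_pp_20 HP HG t1 t3 t5 d1 (box_disc r6 r2 i2 i6 (by norm_num) (by norm_num) (by norm_num) (by norm_num)) d3 (box_disc r7 r5 i7 l4d (by norm_num) (by norm_num) (by norm_num) (by norm_num)) (box_disc l5a r9 i9 l5d (by norm_num) (by norm_num) (by norm_num) (by norm_num))
                          · rcases le_total g5.im (24069 / 100000) with i9 | i9
                            · exact leaf_pp_21 HP HG t1 t3 t5 d1 (box_disc r6 r2 i2 i6 (by norm_num) (by norm_num) (by norm_num) (by norm_num)) d3 (box_disc r7 r5 i7 l4d (by norm_num) (by norm_num) (by norm_num) (by norm_num)) (box_disc r9 l5b l5c i9 (by norm_num) (by norm_num) (by norm_num) (by norm_num))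
                            · exact leaf_pp_22 HP HG t1 t3 t5 d1 (box_disc r6 r2 i2 i6 (by norm_num) (by norm_num) (by norm_num) (by norm_num)) d3 (box_disc r7 r5 i7 l4d (by norm_num) (by norm_num) (by norm_num) (by norm_num)) (box_disc r9 l5b i9 l5d (by norm_num) (by norm_num) (by norm_num) (by norm_num))
                    · exact leaf_pp_23 HP HG t1 t3 t5 d1 (box_disc r6 r2 i6 l2d (by norm_num) (by norm_num) (by norm_num) (by norm_num)) d3 (box_disc r3 r5 i5 l4d (by norm_num) (by norm_num) (by norm_num) (by norm_num)) d5
              · rcases le_total g4.im (4 / 25) with i5 | i5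
                · exact leaf_pp_24 HP HG t1 t3 t5 d1 (box_disc r1 r2 i2 l2d (by norm_num) (by norm_num) (by norm_num) (by norm_num)) d3 (box_disc r5 l4b i3 i5 (by norm_num) (by norm_num) (by norm_num) (by norm_num)) d5
                · exact leaf_pp_25 HP HG t1 t3 t5 d1 (box_disc r1 r2 i2 l2d (by norm_num) (by norm_num) (by norm_num) (by norm_num)) d3 (box_disc r5 l4b i5 l4d (by norm_num) (by norm_num) (by norm_num) (by norm_num)) d5
      · rcases le_total g2.im (4 / 25) with i2 | i2
        · exact leaf_pp_26 HP HG t1 t3 t5 d1 (box_disc r2 l2b i1 i2 (by norm_num) (by norm_num) (by norm_num) (by norm_num)) d3 d4 d5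
        · rcases le_total g4.re 0 with r10 | r10
          · rcases le_total g4.im 0 with i10 | i10
            · exact leaf_pp_27 HP HG t1 t3 t5 d1 (box_disc r2 l2b i2 l2d (by norm_num) (by norm_num) (by norm_num) (by norm_num)) d3 (box_disc l4a r10 l4c i10 (by norm_num) (by norm_num) (by norm_num) (by norm_num)) d5
            · rcases le_total g4.re (-4 / 25) with r11 | r11
              · rcases le_total g4.im (4 / 25) with i11 | i11
                · exact leaf_pp_28 HP HG t1 t3 t5 d1 (box_disc r2 l2b i2 l2d (by norm_num) (by norm_num) (by norm_num) (by norm_num)) d3 (box_disc l4a r11 i10 i11 (by norm_num) (by norm_num) (by norm_num) (by norm_num)) d5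
                · exact leaf_pp_29 HP HG t1 t3 t5 d1 (box_disc r2 l2b i2 l2d (by norm_num) (by norm_num) (by norm_num) (by norm_num)) d3 (box_disc l4a r11 i11 l4d (by norm_num) (by norm_num) (by norm_num) (by norm_num)) d5
              · rcases le_total g4.im (4 / 25) with i11 | i11
                · exact leaf_pp_30 HP HG t1 t3 t5 d1 (box_disc r2 l2b i2 l2d (by norm_num) (by norm_num) (by norm_num) (by norm_num)) d3 (box_disc r11 r10 i10 i11 (by norm_num) (by norm_num) (by norm_num) (by norm_num)) d5
                · exact leaf_pp_31 HP HG t1 t3 t5 d1 (box_disc r2 l2b i2 l2d (by norm_num) (by norm_num) (by norm_num) (by norm_num)) d3 (box_disc r11 r10 i11 l4d (by norm_num) (by norm_num) (by norm_num) (by norm_num)) d5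
          · rcases le_total g4.im 0 with i10 | i10
            · exact leaf_pp_32 HP HG t1 t3 t5 d1 (box_disc r2 l2b i2 l2d (by norm_num) (by norm_num) (by norm_num) (by norm_num)) d3 (box_disc r10 l4b l4c i10 (by norm_num) (by norm_num) (by norm_num) (by norm_num)) d5
            · rcases le_total g4.re (4 / 25) with r12 | r12
              · rcases le_total g4.im (4 / 25) with i12 | i12
                · rcases le_total g2.re (6 / 25) with r13 | r13
                  · rcases le_total g2.im (6 / 25) with i13 | i13
                    · exact leaf_pp_33 HP HG t1 t3 t5 d1 (box_disc r2 r13 i2 i13 (by norm_num) (by norm_num) (by norm_num) (by norm_num)) d3 (box_disc r10 r12 i10 i12 (by norm_num) (by norm_num) (by norm_num) (by norm_num)) d5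
                    · exact leaf_pp_34 HP HG t1 t3 t5 d1 (box_disc r2 r13 i13 l2d (by norm_num) (by norm_num) (by norm_num) (by norm_num)) d3 (box_disc r10 r12 i10 i12 (by norm_num) (by norm_num) (by norm_num) (by norm_num)) d5
                  · rcases le_total g2.im (6 / 25) with i13 | i13
                    · exact leaf_pp_35 HP HG t1 t3 t5 d1 (box_disc r13 l2b i2 i13 (by norm_num) (by norm_num) (by norm_num) (by norm_num)) d3 (box_disc r10 r12 i10 i12 (by norm_num) (by norm_num) (by norm_num) (by norm_num)) d5
                    · exact box_out (r := (56569 / 1000000)) (r' := (30017 / 100000)) (x := (7 / 25)) (y := (7 / 25)) (box_disc r13 l2b i13 l2d (by norm_num) (by norm_num) (by norm_num) (by norm_num)) d2 (by norm_num)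
                · rcases le_total g2.re (6 / 25) with r14 | r14
                  · rcases le_total g2.im (6 / 25) with i14 | i14
                    · rcases le_total g4.re (2 / 25) with r15 | r15
                      · rcases le_total g4.im (6 / 25) with i15 | i15
                        · rcases le_total g5.re (24069 / 100000) with r16 | r16
                          · rcases le_total g5.im (24069 / 100000) with i16 | i16
                            · exact leaf_pp_36 HP HG t1 t3 t5 d1 (box_disc r2 r14 i2 i14 (by norm_num) (by norm_num) (by norm_num) (by norm_num)) d3 (box_disc r10 r15 i12 i15 (by norm_num) (by norm_num) (by norm_num) (by norm_num)) (box_disc l5a r16 l5c i16 (by norm_num) (by norm_num) (by norm_num) (by norm_num))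
                            · exact leaf_pp_37 HP HG t1 t3 t5 d1 (box_disc r2 r14 i2 i14 (by norm_num) (by norm_num) (by norm_num) (by norm_num)) d3 (box_disc r10 r15 i12 i15 (by norm_num) (by norm_num) (by norm_num) (by norm_num)) (box_disc l5a r16 i16 l5d (by norm_num) (by norm_num) (by norm_num) (by norm_num))
                          · rcases le_total g5.im (24069 / 100000) with i16 | i16
                            · exact leaf_pp_38 HP HG t1 t3 t5 d1 (box_disc r2 r14 i2 i14 (by norm_num) (by norm_num) (by norm_num) (by norm_num)) d3 (box_disc r10 r15 i12 i15 (by norm_num) (by norm_num) (by norm_num) (by norm_num)) (box_disc r16 l5b l5c i16 (by norm_num) (by norm_num) (by norm_num) (by norm_num))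
                            · rcases le_total g3.re (31073 / 100000) with r17 | r17
                              · rcases le_total g3.im (31073 / 100000) with i17 | i17
                                · exact leaf_pp_39 HP HG t1 t3 t5 d1 (box_disc r2 r14 i2 i14 (by norm_num) (by norm_num) (by norm_num) (by norm_num)) (box_disc l3a r17 l3c i17 (by norm_num) (by norm_num) (by norm_num) (by norm_num)) (box_disc r10 r15 i12 i15 (by norm_num) (by norm_num) (by norm_num) (by norm_num)) (box_disc r16 l5b i16 l5d (by norm_num) (by norm_num) (by norm_num) (by norm_num))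
                                · exact leaf_pp_40 HP HG t1 t3 t5 d1 (box_disc r2 r14 i2 i14 (by norm_num) (by norm_num) (by norm_num) (by norm_num)) (box_disc l3a r17 i17 l3d (by norm_num) (by norm_num) (by norm_num) (by norm_num)) (box_disc r10 r15 i12 i15 (by norm_num) (by norm_num) (by norm_num) (by norm_num)) (box_disc r16 l5b i16 l5d (by norm_num) (by norm_num) (by norm_num) (by norm_num))
                              · rcases le_total g3.im (31073 / 100000) with i17 | i17
                                · exact leaf_pp_41 HP HG t1 t3 t5 d1 (box_disc r2 r14 i2 i14 (by norm_num) (by norm_num) (by norm_num) (by norm_num)) (box_disc r17 l3b l3c i17 (by norm_num) (by norm_num) (by norm_num) (by norm_num)) (box_disc r10 r15 i12 i15 (by norm_num) (by norm_num) (by norm_num) (by norm_num)) (box_disc r16 l5b i16 l5d (by norm_num) (by norm_num) (by norm_num) (by norm_num))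
                                · exact leaf_pp_42 HP HG t1 t3 t5 d1 (box_disc r2 r14 i2 i14 (by norm_num) (by norm_num) (by norm_num) (by norm_num)) (box_disc r17 l3b i17 l3d (by norm_num) (by norm_num) (by norm_num) (by norm_num)) (box_disc r10 r15 i12 i15 (by norm_num) (by norm_num) (by norm_num) (by norm_num)) (box_disc r16 l5b i16 l5d (by norm_num) (by norm_num) (by norm_num) (by norm_num))
                        · exact leaf_pp_43 HP HG t1 t3 t5 d1 (box_disc r2 r14 i2 i14 (by norm_num) (by norm_num) (by norm_num) (by norm_num)) d3 (box_disc r10 r15 i15 l4d (by norm_num) (by norm_num) (by norm_num) (by norm_num)) d5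
                      · rcases le_total g4.im (6 / 25) with i15 | i15
                        · exact leaf_pp_44 HP HG t1 t3 t5 d1 (box_disc r2 r14 i2 i14 (by norm_num) (by norm_num) (by norm_num) (by norm_num)) d3 (box_disc r15 r12 i12 i15 (by norm_num) (by norm_num) (by norm_num) (by norm_num)) d5
                        · rcases le_total g5.re (24069 / 100000) with r18 | r18
                          · rcases le_total g5.im (24069 / 100000) with i18 | i18
                            · exact leaf_pp_45 HP HG t1 t3 t5 d1 (box_disc r2 r14 i2 i14 (by norm_num) (by norm_num) (by norm_num) (by norm_num)) d3 (box_disc r15 r12 i15 l4d (by norm_num) (by norm_num) (by norm_num) (by norm_num)) (box_disc l5a r18 l5c i18 (by norm_num) (by norm_num) (by norm_num) (by norm_num))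
                            · exact leaf_pp_46 HP HG t1 t3 t5 d1 (box_disc r2 r14 i2 i14 (by norm_num) (by norm_num) (by norm_num) (by norm_num)) d3 (box_disc r15 r12 i15 l4d (by norm_num) (by norm_num) (by norm_num) (by norm_num)) (box_disc l5a r18 i18 l5d (by norm_num) (by norm_num) (by norm_num) (by norm_num))
                          · rcases le_total g5.im (24069 / 100000) with i18 | i18
                            · rcases le_total g3.re (31073 / 100000) with r19 | r19
                              · rcases le_total g3.im (31073 / 100000) with i19 | i19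
                                · exact leaf_pp_47 HP HG t1 t3 t5 d1 (box_disc r2 r14 i2 i14 (by norm_num) (by norm_num) (by norm_num) (by norm_num)) (box_disc l3a r19 l3c i19 (by norm_num) (by norm_num) (by norm_num) (by norm_num)) (box_disc r15 r12 i15 l4d (by norm_num) (by norm_num) (by norm_num) (by norm_num)) (box_disc r18 l5b l5c i18 (by norm_num) (by norm_num) (by norm_num) (by norm_num))
                                · exact leaf_pp_48 HP HG t1 t3 t5 d1 (box_disc r2 r14 i2 i14 (by norm_num) (by norm_num) (by norm_num) (by norm_num)) (box_disc l3a r19 i19 l3d (by norm_num) (by norm_num) (by norm_num) (by norm_num)) (box_disc r15 r12 i15 l4d (by norm_num) (by norm_num) (by norm_num) (by norm_num)) (box_disc r18 l5b l5c i18 (by norm_num) (by norm_num) (by norm_num) (by norm_num))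
                              · rcases le_total g3.im (31073 / 100000) with i19 | i19
                                · exact leaf_pp_49 HP HG t1 t3 t5 d1 (box_disc r2 r14 i2 i14 (by norm_num) (by norm_num) (by norm_num) (by norm_num)) (box_disc r19 l3b l3c i19 (by norm_num) (by norm_num) (by norm_num) (by norm_num)) (box_disc r15 r12 i15 l4d (by norm_num) (by norm_num) (by norm_num) (by norm_num)) (box_disc r18 l5b l5c i18 (by norm_num) (by norm_num) (by norm_num) (by norm_num))
                                · exact leaf_pp_50 HP HG t1 t3 t5 d1 (box_disc r2 r14 i2 i14 (by norm_num) (by norm_num) (by norm_num) (by norm_num)) (box_disc r19 l3b i19 l3d (by norm_num) (by norm_num) (by norm_num) (by norm_num)) (box_disc r15 r12 i15 l4d (by norm_num) (by norm_num) (by norm_num) (by norm_num)) (box_disc r18 l5b l5c i18 (by norm_num) (by norm_num) (by norm_num) (by norm_num))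
                            · exact leaf_pp_51 HP HG t1 t3 t5 d1 (box_disc r2 r14 i2 i14 (by norm_num) (by norm_num) (by norm_num) (by norm_num)) d3 (box_disc r15 r12 i15 l4d (by norm_num) (by norm_num) (by norm_num) (by norm_num)) (box_disc r18 l5b i18 l5d (by norm_num) (by norm_num) (by norm_num) (by norm_num))
                    · exact leaf_pp_52 HP HG t1 t3 t5 d1 (box_disc r2 r14 i14 l2d (by norm_num) (by norm_num) (by norm_num) (by norm_num)) d3 (box_disc r10 r12 i12 l4d (by norm_num) (by norm_num) (by norm_num) (by norm_num)) d5
                  · rcases le_total g2.im (6 / 25) with i14 | i14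
                    · exact leaf_pp_53 HP HG t1 t3 t5 d1 (box_disc r14 l2b i2 i14 (by norm_num) (by norm_num) (by norm_num) (by norm_num)) d3 (box_disc r10 r12 i12 l4d (by norm_num) (by norm_num) (by norm_num) (by norm_num)) d5
                    · exact box_out (r := (56569 / 1000000)) (r' := (30017 / 100000)) (x := (7 / 25)) (y := (7 / 25)) (box_disc r14 l2b i14 l2d (by norm_num) (by norm_num) (by norm_num) (by norm_num)) d2 (by norm_num)
              · rcases le_total g4.im (4 / 25) with i12 | i12
                · exact leaf_pp_54 HP HG t1 t3 t5 d1 (box_disc r2 l2b i2 l2d (by norm_num) (by norm_num) (by norm_num) (by norm_num)) d3 (box_disc r12 l4b i10 i12 (by norm_num) (by norm_num) (by norm_num) (by norm_num)) d5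
                · rcases le_total g2.re (6 / 25) with r20 | r20
                  · rcases le_total g2.im (6 / 25) with i20 | i20
                    · exact leaf_pp_55 HP HG t1 t3 t5 d1 (box_disc r2 r20 i2 i20 (by norm_num) (by norm_num) (by norm_num) (by norm_num)) d3 (box_disc r12 l4b i12 l4d (by norm_num) (by norm_num) (by norm_num) (by norm_num)) d5
                    · exact leaf_pp_56 HP HG t1 t3 t5 d1 (box_disc r2 r20 i20 l2d (by norm_num) (by norm_num) (by norm_num) (by norm_num)) d3 (box_disc r12 l4b i12 l4d (by norm_num) (by norm_num) (by norm_num) (by norm_num)) d5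
                  · rcases le_total g2.im (6 / 25) with i20 | i20
                    · exact leaf_pp_57 HP HG t1 t3 t5 d1 (box_disc r20 l2b i2 i20 (by norm_num) (by norm_num) (by norm_num) (by norm_num)) d3 (box_disc r12 l4b i12 l4d (by norm_num) (by norm_num) (by norm_num) (by norm_num)) d5
                    · exact box_out (r := (56569 / 1000000)) (r' := (30017 / 100000)) (x := (7 / 25)) (y := (7 / 25)) (box_disc r20 l2b i20 l2d (by norm_num) (by norm_num) (by norm_num) (by norm_num)) d2 (by norm_num)

end

end Pool.Agent.H893R3.Dig
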