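import Pool.Agent.H893R3.Dig.Num
import Pool.Agent.H893R3.Dig.Tpp
import Pool.Agent.H893R3.Dig.Tpm

/-!
# The numerical contradiction with five Fourier coefficients
-/

set_option autoImplicit false
set_option linter.unusedVariables false

namespace Pool.Agent.H893R3.Dig

/-- each coefficient is small -/
lemma small_of {h1 h2 h3 h4 h5 : ℂ} {ε : ℝ}
    (HG : ∀ p : Fin 6 → ℂ, 0 ≤ ε * nn p + 2 * (A1 p * h1 + A2 p * h2 + A3 p * h3 + A4 p * h4 +
      A5 p * h5).re) :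
    ‖h1‖ ≤ ε ∧ ‖h2‖ ≤ ε ∧ ‖h3‖ ≤ ε ∧ ‖h4‖ ≤ ε ∧ ‖h5‖ ≤ ε := by
  refine ⟨?_, ?_, ?_, ?_, ?_⟩
  · obtain ⟨c, hc, hcz⟩ := RCLike.exists_norm_eq_mul_self h1
    have h := HG ![1, -c, 0, 0, 0, 0]
    have e : (c * h1).re = ‖h1‖ := by
      rw [← hcz]; simp
    have n : Complex.normSq c = 1 := by rw [Complex.normSq_eq_norm_sq, hc]; norm_num
    simp [nn, A1, A2, A3, A4, A5, n] at h
    rw [Complex.mul_re] at e
    linarith
  · obtain ⟨c, hc, hcz⟩ := RCLike.exists_norm_eq_mul_self h2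
    have h := HG ![1, 0, -c, 0, 0, 0]
    have e : (c * h2).re = ‖h2‖ := by
      rw [← hcz]; simp
    have n : Complex.normSq c = 1 := by rw [Complex.normSq_eq_norm_sq, hc]; norm_num
    simp [nn, A1, A2, A3, A4, A5, n] at h
    rw [Complex.mul_re] at e
    linarith
  · obtain ⟨c, hc, hcz⟩ := RCLike.exists_norm_eq_mul_self h3
    have h := HG ![1, 0, 0, -c, 0, 0]
    have e : (c * h3).re = ‖h3‖ := by
      rw [← hcz]; simp
    have n : Complex.normSq c = 1 := by rw [Complex.normSq_eq_norm_sq, hc]; norm_num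
    simp [nn, A1, A2, A3, A4, A5, n] at h
    rw [Complex.mul_re] at e
    linarith
  · obtain ⟨c, hc, hcz⟩ := RCLike.exists_norm_eq_mul_self h4
    have h := HG ![1, 0, 0, 0, -c, 0]
    have e : (c * h4).re = ‖h4‖ := by
      rw [← hcz]; simp
    have n : Complex.normSq c = 1 := by rw [Complex.normSq_eq_norm_sq, hc]; norm_num
    simp [nn, A1, A2, A3, A4, A5, n] at h
    rw [Complex.mul_re] at e
    linarith
  · obtain ⟨c, hc, hcz⟩ := RCLike.exists_norm_eq_mul_self h5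
    have h := HG ![1, 0, 0, 0, 0, -c]
    have e : (c * h5).re = ‖h5‖ := by
      rw [← hcz]; simp
    have n : Complex.normSq c = 1 := by rw [Complex.normSq_eq_norm_sq, hc]; norm_num
    simp [nn, A1, A2, A3, A4, A5, n] at h
    rw [Complex.mul_re] at e
    linarith

lemma I_mk (a : ℝ) : (a : ℂ) * Complex.I = ⟨0, a⟩ := by apply Complex.ext <;> simp

lemma mk_sub (a b : ℝ) : (⟨0, a⟩ : ℂ) - ⟨0, b⟩ = ((a - b : ℝ) : ℂ) * Complex.I := by
  apply Complex.ext <;> simp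

lemma near_center {k σ : ℝ} (hk : 0 < k) (h1 : (2 * σ ^ 2 - 1 / 100000) * (k * 3.141593) ≤ 182 / 100)
    (h2 : 182 / 100 ≤ (2 * σ ^ 2 + 1 / 100000) * (k * 3.141592)) (h3 : 1 / 100000 ≤ 2 * σ ^ 2) :
    ‖(⟨0, 2 * σ ^ 2⟩ : ℂ) - ((91 / 100 * (2 / (k * Real.pi)) : ℝ) : ℂ) * Complex.I‖ ≤
      1 / 100000 := by
  have hpi1 := Real.pi_gt_d6
  have hpi2 := Real.pi_lt_d6
  have hpi0 := Real.pi_pos
  have e : (⟨0, 2 * σ ^ 2⟩ : ℂ) - ((91 / 100 * (2 / (k * Real.pi)) : ℝ) : ℂ) * Complex.I =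
      ((2 * σ ^ 2 - 91 / 100 * (2 / (k * Real.pi)) : ℝ) : ℂ) * Complex.I := by
    rw [I_mk (91 / 100 * (2 / (k * Real.pi))), mk_sub]
  rw [e, norm_mul, Complex.norm_I, mul_one, Complex.norm_real, Real.norm_eq_abs, abs_le]
  have hkp : 0 < k * Real.pi := by positivity
  have e2 : 91 / 100 * (2 / (k * Real.pi)) = 182 / 100 / (k * Real.pi) := by ring
  rw [e2]
  constructor
  · have : 182 / 100 / (k * Real.pi) ≤ 2 * σ ^ 2 + 1 / 100000 := by
      rw [div_le_iff₀ hkp]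
      refine h2.trans ?_
      apply mul_le_mul_of_nonneg_left _ (by positivity)
      apply mul_le_mul_of_nonneg_left hpi1.le hk.le
    linarith
  · have : 2 * σ ^ 2 - 1 / 100000 ≤ 182 / 100 / (k * Real.pi) := by
      rw [le_div_iff₀ hkp]
      refine le_trans ?_ h1
      apply mul_le_mul_of_nonneg_left _ (by linarith)
      apply mul_le_mul_of_nonneg_left hpi2.le hk.le
    linarith

lemma near_sq {g c : ℂ} {σ S ρ : ℝ} (h : ‖g ^ 2 - c‖ ≤ 901 / 10000)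
    (hc : ‖(⟨0, 2 * σ ^ 2⟩ : ℂ) - c‖ ≤ 1 / 100000) (hS0 : 0 ≤ S) (hS : S ^ 2 ≤ 2 * σ ^ 2)
    (hρ0 : 0 ≤ ρ) (hρ : 901 / 10000 + 1 / 100000 ≤ ρ * (2 * S - ρ)) :
    ‖g - ⟨σ, σ⟩‖ ≤ ρ ∨ ‖g - ⟨-σ, -σ⟩‖ ≤ ρ := by
  have e1 : (⟨σ, σ⟩ : ℂ) ^ 2 = ⟨0, 2 * σ ^ 2⟩ := by
    apply Complex.ext
    · simp [pow_two]
    · simp [pow_two]; ring
  have h1 : ‖g ^ 2 - (⟨σ, σ⟩ : ℂ) ^ 2‖ ≤ 901 / 10000 + 1 / 100000 := by
    rw [e1]
    have e2 : g ^ 2 - (⟨0, 2 * σ ^ 2⟩ : ℂ) = (g ^ 2 - c) - ((⟨0, 2 * σ ^ 2⟩ : ℂ) - c) := by ring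
    rw [e2]
    exact (norm_sub_le _ _).trans (add_le_add h hc)
  have h2 : S ≤ ‖(⟨σ, σ⟩ : ℂ)‖ := by
    apply le_of_sq_le_sq _ (norm_nonneg _)
    rw [← Complex.normSq_eq_norm_sq, Complex.normSq_apply]
    simp only
    linarith
  have h3 := disc h1 h2 hρ0 hρ
  have e3 : -(⟨σ, σ⟩ : ℂ) = ⟨-σ, -σ⟩ := by apply Complex.ext <;> simp
  rwa [e3] at h3

/-- the contradiction for `c = 91/100` -/
theorem numeric5 {g1 g2 g3 g4 g5 : ℂ}
    (HP : ∀ q : Fin 6 → ℂ, 0 ≤ nn q + 2 * (A1 q * g1 + A2 q * g2 + A3 q * g3 + A4 q * g4 +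
      A5 q * g5).re)
    (HG : ∀ p : Fin 6 → ℂ, 0 ≤ 901 / 10000 * nn p + 2 * (
      A1 p * (g1 ^ 2 - ((91 / 100 * (2 / (1 * Real.pi)) : ℝ) : ℂ) * Complex.I) + A2 p * g2 ^ 2 +
      A3 p * (g3 ^ 2 - ((91 / 100 * (2 / (3 * Real.pi)) : ℝ) : ℂ) * Complex.I) + A4 p * g4 ^ 2 +
      A5 p * (g5 ^ 2 - ((91 / 100 * (2 / (5 * Real.pi)) : ℝ) : ℂ) * Complex.I)).re)
    (him : 0 ≤ g1.im)
    (hm : 0 ≤ 13 + (-311 / 4 * g1.re + 31 / 4 * g1.im) + (5 * g2.re + 193 / 2 * g2.im) +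
      (239 / 4 * g3.re + -1 / 4 * g3.im)) : False := by
  obtain ⟨b1, b2, b3, b4, b5⟩ := small_of HG
  have t1 := near_center (k := 1) (σ := 2691 / 5000) (by norm_num) (by norm_num) (by norm_num)
    (by norm_num)
  have t3 := near_center (k := 3) (σ := 31073 / 100000) (by norm_num) (by norm_num) (by norm_num)
    (by norm_num)
  have t5 := near_center (k := 5) (σ := 24069 / 100000) (by norm_num) (by norm_num) (by norm_num)
    (by norm_num)
  have hd2 : ∀ g : ℂ, ‖g ^ 2‖ ≤ 901 / 10000 → ‖g - ⟨0, 0⟩‖ ≤ 30017 / 100000 := by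
    intro g hg
    have : (⟨0, 0⟩ : ℂ) = 0 := rfl
    rw [this, sub_zero]
    rw [norm_pow] at hg
    apply le_of_sq_le_sq _ (by norm_num)
    linarith
  have d2 := hd2 g2 b2
  have d4 := hd2 g4 b4
  rcases near_sq (S := 76112 / 100000) (ρ := 309 / 5000) b1 t1 (by norm_num) (by norm_num)
    (by norm_num) (by norm_num) with d1 | d1
  · rcases near_sq (S := 43943 / 100000) (ρ := 593 / 5000) b3 t3 (by norm_num) (by norm_num)
      (by norm_num) (by norm_num) with d3 | d3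
    · rcases near_sq (S := 34038 / 100000) (ρ := 9 / 50) b5 t5 (by norm_num) (by norm_num)
        (by norm_num) (by norm_num) with d5 | d5
      · norm_num at t1 t3 t5
        exact tree_pp HP HG (by norm_num; exact t1) (by norm_num; exact t3) (by norm_num; exact t5)
          d1 d2 d3 d4 d5
      · norm_num at t1 t3 t5
        exact tree_pm HP HG (by norm_num; exact t1) (by norm_num; exact t3) (by norm_num; exact t5)
          d1 d2 d3 d4 (by norm_num at d5 ⊢; exact d5)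
    · have l1m := lin d1 (-311 / 4) (31 / 4) 78.2 (by norm_num) (by norm_num)
      have l2m := lin d2 5 (193 / 2) 96.7 (by norm_num) (by norm_num)
      have l3m := lin d3 (239 / 4) (-1 / 4) 59.8 (by norm_num) (by norm_num)
      norm_num at l1m l2m l3m
      linarith
  · have l1 := (disc_box d1).2.2.2
    norm_num at l1
    linarith

end Pool.Agent.H893R3.Dig
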