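import Pool.Agent.H893R3.Dig.J4

/-!
# Certificates
-/

set_option autoImplicit false
set_option linter.unusedVariables false
set_option maxRecDepth 4000

namespace Pool.Agent.H893R3.Dig

section
variable {g1 g2 g3 g4 g5 c1 c3 c5 : ℂ}
    (HP : ∀ q : Fin 6 → ℂ, 0 ≤ nn q + 2 * (A1 q * g1 + A2 q * g2 + A3 q * g3 + A4 q * g4 +
      A5 q * g5).re)
    (HG : ∀ p : Fin 6 → ℂ, 0 ≤ (901 / 10000) * nn p + 2 * (A1 p * (g1 ^ 2 - c1) + A2 p * g2 ^ 2 +
      A3 p * (g3 ^ 2 - c3) + A4 p * g4 ^ 2 + A5 p * (g5 ^ 2 - c5)).re)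
    (t1 : ‖(⟨0, (7241481 / 12500000)⟩ : ℂ) - c1‖ ≤ 1 / 100000) (t3 : ‖(⟨0, (965531329 / 5000000000)⟩ : ℂ) - c3‖ ≤ 1 / 100000)
    (t5 : ‖(⟨0, (579316761 / 5000000000)⟩ : ℂ) - c5‖ ≤ 1 / 100000)

include HP HG t1 t3 t5 in
lemma leaf_pm_0
    (h1 : ‖g1 - ⟨(2691 / 5000), (2691 / 5000)⟩‖ ≤ (309 / 5000))
    (h2 : ‖g2 - ⟨(-4 / 25), (-4 / 25)⟩‖ ≤ (56569 / 250000))
    (h3 : ‖g3 - ⟨(31073 / 100000), (31073 / 100000)⟩‖ ≤ (593 / 5000))
    (h4 : ‖g4 - ⟨0, 0⟩‖ ≤ (30017 / 100000))
    (h5 : ‖g5 - ⟨(-24069 / 100000), (-24069 / 100000)⟩‖ ≤ (9 / 50)) : False :=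
  kill HP HG h1 h2 h3 h4 h5 t1 t3 t5
    1998 (-3126) 2472 (-877) (-556) 468 0 1697 (-3246) 3566 (-2186) 432 4946 699 (-1382) (-1564) (-65) 378 0 (-3734) (-691) (-1943) (-283) (-15)
    (-41737086) 20583460 (-3969208) (-1840752) 935064 19993702 (-25400875) 17488868 (-6512256) 863136 9206695 (-950110) (-7236288) (-1258) 1869588 (-22082993) (-9511714) (-9768677) 1249 (-74190)
    10125948 28367907 7323784 6767411 1298 23925339 9559049 12156929 1773 1871060
    (by norm_num) (by norm_num) (by norm_num) (by norm_num) (by norm_num) (by norm_num) (by norm_num) (by norm_num) (by norm_num) (by norm_num) (by norm_num) (by norm_num) (by norm_num) (by norm_num) (by norm_num) (by norm_num) (by norm_num) (by norm_num) (by norm_num) (by norm_num) (by norm_num) (by norm_num) (by norm_num) (by norm_num) (by norm_num) (by norm_num) (by norm_num) (by norm_num) (by norm_num) (by norm_num) (by norm_num) (by norm_num) (by norm_num) (by norm_num) (by norm_num) (by norm_num) (by norm_num) (by norm_num)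 (by norm_num) (by norm_num) (by norm_num)

include HP HG t1 t3 t5 in
lemma leaf_pm_1
    (h1 : ‖g1 - ⟨(2691 / 5000), (2691 / 5000)⟩‖ ≤ (309 / 5000))
    (h2 : ‖g2 - ⟨(-4 / 25), (4 / 25)⟩‖ ≤ (56569 / 250000))
    (h3 : ‖g3 - ⟨(31073 / 100000), (31073 / 100000)⟩‖ ≤ (593 / 5000))
    (h4 : ‖g4 - ⟨0, 0⟩‖ ≤ (30017 / 100000))
    (h5 : ‖g5 - ⟨(-24069 / 100000), (-24069 / 100000)⟩‖ ≤ (9 / 50)) : False :=
  kill HP HG h1 h2 h3 h4 h5 t1 t3 t5
    2967 (-3016) 1860 (-2270) 137 471 0 2137 (-1808) 2395 (-2257) (-53) 4817 570 1423 (-764) (-274) 268 0 (-3481) (-615) (-3957) (-154) (-335)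
    (-32506645) 20622426 (-10999607) (-1127318) 1397457 14020188 (-12694725) 14373296 (-7543198) (-157251) 7840870 21019079 (-2712905) (-963) 1290956 (-19099235) (-6948665) (-20414328) 140 (-1613695)
    3990575 16549210 1293 7626971 2047 20646066 22137878 20593802 974 2066538
    (by norm_num) (by norm_num) (by norm_num) (by norm_num) (by norm_num) (by norm_num) (by norm_num) (by norm_num) (by norm_num) (by norm_num) (by norm_num) (by norm_num) (by norm_num) (by norm_num) (by norm_num) (by norm_num) (by norm_num) (by norm_num) (by norm_num) (by norm_num) (by norm_num) (by norm_num) (by norm_num) (by norm_num) (by norm_num) (by norm_num) (by norm_num) (by norm_num) (by norm_num) (by norm_num) (by norm_num) (by norm_num) (by norm_num) (by norm_num) (by norm_num) (by norm_num) (by norm_num) (by norm_num) (by norm_num) (by norm_num) (by norm_num)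

include HP HG t1 t3 t5 in
lemma leaf_pm_2
    (h1 : ‖g1 - ⟨(2691 / 5000), (2691 / 5000)⟩‖ ≤ (309 / 5000))
    (h2 : ‖g2 - ⟨(4 / 25), (-4 / 25)⟩‖ ≤ (56569 / 250000))
    (h3 : ‖g3 - ⟨(31073 / 100000), (31073 / 100000)⟩‖ ≤ (593 / 5000))
    (h4 : ‖g4 - ⟨0, 0⟩‖ ≤ (30017 / 100000))
    (h5 : ‖g5 - ⟨(-24069 / 100000), (-24069 / 100000)⟩‖ ≤ (9 / 50)) : False :=
  kill HP HG h1 h2 h3 h4 h5 t1 t3 t5
    2374 (-3142) 12 1610 (-714) 198 0 3120 (-4503) 2147 (-585) 250 4647 16 (-3011) (-1351) 21 238 0 (-3622) 652 (-457) (-185) 28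
    (-33887950) 5149725 3116954 (-1537152) 470052 29321898 (-25703964) 10057322 (-2792050) 593500 1490521 (-12876664) (-6306053) (-21) 1105986 (-25165815) (-1256509) (-2290061) 2789 130116
    6458913 21994457 4755922 3187222 1562 25209917 12937825 6709001 2790 1113614
    (by norm_num) (by norm_num) (by norm_num) (by norm_num) (by norm_num) (by norm_num) (by norm_num) (by norm_num) (by norm_num) (by norm_num) (by norm_num) (by norm_num) (by norm_num) (by norm_num) (by norm_num) (by norm_num) (by norm_num) (by norm_num) (by norm_num) (by norm_num) (by norm_num) (by norm_num) (by norm_num) (by norm_num) (by norm_num) (by norm_num) (by norm_num) (by norm_num) (by norm_num) (by norm_num) (by norm_num) (by norm_num) (by norm_num) (by norm_num) (by norm_num) (by norm_num) (by norm_num) (by norm_num) (by norm_num) (by norm_num) (by norm_num)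

include HP HG t1 t3 t5 in
lemma leaf_pm_3
    (h1 : ‖g1 - ⟨(2691 / 5000), (2691 / 5000)⟩‖ ≤ (309 / 5000))
    (h2 : ‖g2 - ⟨(2 / 25), (2 / 25)⟩‖ ≤ (56569 / 500000))
    (h3 : ‖g3 - ⟨(31073 / 100000), (31073 / 100000)⟩‖ ≤ (593 / 5000))
    (h4 : ‖g4 - ⟨0, 0⟩‖ ≤ (30017 / 100000))
    (h5 : ‖g5 - ⟨(-24069 / 100000), (-24069 / 100000)⟩‖ ≤ (9 / 50)) : False :=
  kill HP HG h1 h2 h3 h4 h5 t1 t3 t5
    2432 (-2278) (-144) 218 (-792) 1030 0 3151 (-3245) 2153 (-1893) 289 5643 584 (-1341) (-1566) (-281) 591 0 (-3739) 267 (-2688) (-357) (-331)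
    (-28066058) 13040881 (-4716616) (-3361845) 2504960 18919868 (-17935328) 15344676 (-8507648) 702848 4248123 1814349 (-8547127) (-2930) 3335013 (-21826786) (-3257667) (-16141457) 1894 (-1867833)
    2051 22845176 3415 9147791 3449 22236348 3728842 18264721 3489 3822449
    (by norm_num) (by norm_num) (by norm_num) (by norm_num) (by norm_num) (by norm_num) (by norm_num) (by norm_num) (by norm_num) (by norm_num) (by norm_num) (by norm_num) (by norm_num) (by norm_num) (by norm_num) (by norm_num) (by norm_num) (by norm_num) (by norm_num) (by norm_num) (by norm_num) (by norm_num) (by norm_num) (by norm_num) (by norm_num) (by norm_num) (by norm_num) (by norm_num) (by norm_num) (by norm_num) (by norm_num) (by norm_num) (by norm_num) (by norm_num) (by norm_num) (by norm_num) (by norm_num) (by norm_num) (by norm_num) (by norm_num) (by norm_num)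

include HP HG t1 t3 t5 in
lemma leaf_pm_4
    (h1 : ‖g1 - ⟨(2691 / 5000), (2691 / 5000)⟩‖ ≤ (309 / 5000))
    (h2 : ‖g2 - ⟨(2 / 25), (6 / 25)⟩‖ ≤ (56569 / 500000))
    (h3 : ‖g3 - ⟨(31073 / 100000), (31073 / 100000)⟩‖ ≤ (593 / 5000))
    (h4 : ‖g4 - ⟨(-4 / 25), (-4 / 25)⟩‖ ≤ (56569 / 250000))
    (h5 : ‖g5 - ⟨(-24069 / 100000), (-24069 / 100000)⟩‖ ≤ (9 / 50)) : False :=
  kill HP HG h1 h2 h3 h4 h5 t1 t3 t5
    3038 (-1905) (-1028) (-1180) (-5) 1659 0 3707 (-2059) 1111 (-2930) 771 5120 664 (-497) 581 (-2085) 1498 0 (-2876) 1221 (-2664) (-1599) (-547)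
    (-18052927) 8180284 (-17729766) (-317488) 5040042 23743299 (-3748621) 11598696 (-16520008) 2342298 (-3183751) 6914220 4776611 (-8107356) 7669760 (-17676803) 13166933 (-22255075) (-4241840) (-2800640)
    2770703 3407603 1186842 12601855 1612 17961226 14871939 22761907 9149997 8165097
    (by norm_num) (by norm_num) (by norm_num) (by norm_num) (by norm_num) (by norm_num) (by norm_num) (by norm_num) (by norm_num) (by norm_num) (by norm_num) (by norm_num) (by norm_num) (by norm_num) (by norm_num) (by norm_num) (by norm_num) (by norm_num) (by norm_num) (by norm_num) (by norm_num) (by norm_num) (by norm_num) (by norm_num) (by norm_num) (by norm_num) (by norm_num) (by norm_num) (by norm_num) (by norm_num) (by norm_num) (by norm_num) (by norm_num) (by norm_num) (by norm_num) (by norm_num) (by norm_num) (by norm_num) (by norm_num) (by norm_num) (by norm_num)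

include HP HG t1 t3 t5 in
lemma leaf_pm_5
    (h1 : ‖g1 - ⟨(2691 / 5000), (2691 / 5000)⟩‖ ≤ (309 / 5000))
    (h2 : ‖g2 - ⟨(2 / 25), (6 / 25)⟩‖ ≤ (56569 / 500000))
    (h3 : ‖g3 - ⟨(31073 / 100000), (31073 / 100000)⟩‖ ≤ (593 / 5000))
    (h4 : ‖g4 - ⟨(-6 / 25), (2 / 25)⟩‖ ≤ (56569 / 500000))
    (h5 : ‖g5 - ⟨(-24069 / 100000), (-24069 / 100000)⟩‖ ≤ (9 / 50)) : False :=
  kill HP HG h1 h2 h3 h4 h5 t1 t3 t5
    2581 (-1836) (-271) (-2036) 683 1329 0 3155 (-1585) 1079 (-3262) 1052 5276 1116 (-1217) 862 (-1597) 1210 0 (-2751) 1487 (-2458) (-2644) (-141)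
    (-17834497) 9857331 (-18828093) 2641839 3430149 19346840 (-1257655) 8440439 (-14543689) 2715212 (-702221) 704577 8357067 (-6687521) 6383960 (-17273296) 15918771 (-21940132) (-10778390) (-743916)
    3291 2841372 980 12899484 1088 17287564 15934356 23477862 12684504 6427158
    (by norm_num) (by norm_num) (by norm_num) (by norm_num) (by norm_num) (by norm_num) (by norm_num) (by norm_num) (by norm_num) (by norm_num) (by norm_num) (by norm_num) (by norm_num) (by norm_num) (by norm_num) (by norm_num) (by norm_num) (by norm_num) (by norm_num) (by norm_num) (by norm_num) (by norm_num) (by norm_num) (by norm_num) (by norm_num) (by norm_num) (by norm_num) (by norm_num) (by norm_num) (by norm_num) (by norm_num) (by norm_num) (by norm_num) (by norm_num) (by norm_num) (by norm_num) (by norm_num) (by norm_num) (by norm_num) (by norm_num) (by norm_num)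

include HP HG t1 t3 t5 in
lemma leaf_pm_6
    (h1 : ‖g1 - ⟨(2691 / 5000), (2691 / 5000)⟩‖ ≤ (309 / 5000))
    (h2 : ‖g2 - ⟨(2 / 25), (6 / 25)⟩‖ ≤ (56569 / 500000))
    (h3 : ‖g3 - ⟨(31073 / 100000), (31073 / 100000)⟩‖ ≤ (593 / 5000))
    (h4 : ‖g4 - ⟨(-6 / 25), (6 / 25)⟩‖ ≤ (56569 / 500000))
    (h5 : ‖g5 - ⟨(-24069 / 100000), (-24069 / 100000)⟩‖ ≤ (9 / 50)) : False :=
  kill HP HG h1 h2 h3 h4 h5 t1 t3 t5
    2505 (-1694) (-115) (-1946) 576 1084 0 2776 (-1317) 850 (-2805) 780 6468 95 (-842) 84 463 750 0 (-2548) 1734 (-2621) (-2681) (-122)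
    (-13668974) 7549530 (-14789074) 1771864 2715420 15302316 (-695002) 6619872 (-11357029) 1953900 (-759179) (-3415706) 6575437 3376790 4851000 (-13457341) 14590611 (-17225375) (-15441298) (-789096)
    757 479 2570 7911950 1473 13478739 14985092 18437731 15806214 4914761
    (by norm_num) (by norm_num) (by norm_num) (by norm_num) (by norm_num) (by norm_num) (by norm_num) (by norm_num) (by norm_num) (by norm_num) (by norm_num) (by norm_num) (by norm_num) (by norm_num) (by norm_num) (by norm_num) (by norm_num) (by norm_num) (by norm_num) (by norm_num) (by norm_num) (by norm_num) (by norm_num) (by norm_num) (by norm_num) (by norm_num) (by norm_num) (by norm_num) (by norm_num) (by norm_num) (by norm_num) (by norm_num) (by norm_num) (by norm_num) (by norm_num) (by norm_num) (by norm_num) (by norm_num) (by norm_num) (by norm_num) (by norm_num)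

include HP HG t1 t3 t5 in
lemma leaf_pm_7
    (h1 : ‖g1 - ⟨(2691 / 5000), (2691 / 5000)⟩‖ ≤ (309 / 5000))
    (h2 : ‖g2 - ⟨(2 / 25), (6 / 25)⟩‖ ≤ (56569 / 500000))
    (h3 : ‖g3 - ⟨(31073 / 100000), (31073 / 100000)⟩‖ ≤ (593 / 5000))
    (h4 : ‖g4 - ⟨(-2 / 25), (2 / 25)⟩‖ ≤ (56569 / 500000))
    (h5 : ‖g5 - ⟨(-24069 / 100000), (-24069 / 100000)⟩‖ ≤ (9 / 50)) : False :=
  kill HP HG h1 h2 h3 h4 h5 t1 t3 t5
    2976 (-1532) (-1558) (-694) (-487) 1620 0 3885 (-2186) 1076 (-2517) 308 5022 975 (-1098) 220 (-1629) 1187 0 (-3443) 1647 (-2607) (-1437) (-807)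
    (-15870360) 6074896 (-14295053) (-2734572) 4821120 23968404 (-4557746) 12011671 (-14256148) 916608 (-3766095) 5463137 1831701 (-4245012) 5961114 (-18507810) 13664627 (-21170979) (-3916598) (-4052754)
    7609 463717 6920 14379846 2138 18887099 14716247 21250071 5775801 7208308
    (by norm_num) (by norm_num) (by norm_num) (by norm_num) (by norm_num) (by norm_num) (by norm_num) (by norm_num) (by norm_num) (by norm_num) (by norm_num) (by norm_num) (by norm_num) (by norm_num) (by norm_num) (by norm_num) (by norm_num) (by norm_num) (by norm_num) (by norm_num) (by norm_num) (by norm_num) (by norm_num) (by norm_num) (by norm_num) (by norm_num) (by norm_num) (by norm_num) (by norm_num) (by norm_num) (by norm_num) (by norm_num) (by norm_num) (by norm_num) (by norm_num) (by norm_num) (by norm_num) (by norm_num) (by norm_num) (by norm_num) (by norm_num)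

include HP HG t1 t3 t5 in
lemma leaf_pm_8
    (h1 : ‖g1 - ⟨(2691 / 5000), (2691 / 5000)⟩‖ ≤ (309 / 5000))
    (h2 : ‖g2 - ⟨(1 / 25), (1 / 5)⟩‖ ≤ (56569 / 1000000))
    (h3 : ‖g3 - ⟨(31073 / 100000), (31073 / 100000)⟩‖ ≤ (593 / 5000))
    (h4 : ‖g4 - ⟨(-2 / 25), (6 / 25)⟩‖ ≤ (56569 / 500000))
    (h5 : ‖g5 - ⟨(-24069 / 100000), (-24069 / 100000)⟩‖ ≤ (9 / 50)) : False :=
  kill HP HG h1 h2 h3 h4 h5 t1 t3 t5
    2649 (-2611) 1745 (-2069) 282 332 0 1712 (-1489) 2114 (-1872) (-58) 6247 360 1179 (-688) 1493 121 0 (-3344) (-583) (-3206) (-658) (-172)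
    (-25118719) 16113810 (-8756245) (-219130) 879468 9925784 (-9350475) 10398132 (-5375874) (-153642) 7057051 20450442 (-1317169) 9945499 755887 (-16276166) (-6495934) (-15404415) (-3767822) (-1074484)
    3676 20418277 6532 2028 1660 17740225 21457347 15460626 10635292 1313728
    (by norm_num) (by norm_num) (by norm_num) (by norm_num) (by norm_num) (by norm_num) (by norm_num) (by norm_num) (by norm_num) (by norm_num) (by norm_num) (by norm_num) (by norm_num) (by norm_num) (by norm_num) (by norm_num) (by norm_num) (by norm_num) (by norm_num) (by norm_num) (by norm_num) (by norm_num) (by norm_num) (by norm_num) (by norm_num) (by norm_num) (by norm_num) (by norm_num) (by norm_num) (by norm_num) (by norm_num) (by norm_num) (by norm_num) (by norm_num) (by norm_num) (by norm_num) (by norm_num) (by norm_num) (by norm_num) (by norm_num) (by norm_num)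

include HP HG t1 t3 t5 in
lemma leaf_pm_9
    (h1 : ‖g1 - ⟨(2691 / 5000), (2691 / 5000)⟩‖ ≤ (309 / 5000))
    (h2 : ‖g2 - ⟨(1 / 25), (7 / 25)⟩‖ ≤ (56569 / 1000000))
    (h3 : ‖g3 - ⟨(31073 / 100000), (31073 / 100000)⟩‖ ≤ (593 / 5000))
    (h4 : ‖g4 - ⟨(-2 / 25), (6 / 25)⟩‖ ≤ (56569 / 500000))
    (h5 : ‖g5 - ⟨(-24069 / 100000), (-24069 / 100000)⟩‖ ≤ (9 / 50)) : False :=
  kill HP HG h1 h2 h3 h4 h5 t1 t3 t5
    3220 (-2633) 1324 (-2882) 555 487 0 1913 (-630) 1366 (-1807) (-460) 5688 175 2214 338 1480 16 0 (-3108) 115 (-3548) (-724) (-557)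
    (-20812257) 14306080 (-13263558) (-375151) 1568140 10353115 (-1494352) 7792406 (-5538991) (-1481200) 4861682 28854670 4403105 10152196 91008 (-14477657) (-820910) (-16942922) (-4165859) (-3168216)
    5233 22464325 2224 611 793 15272148 28866346 17505712 10973672 3169523
    (by norm_num) (by norm_num) (by norm_num) (by norm_num) (by norm_num) (by norm_num) (by norm_num) (by norm_num) (by norm_num) (by norm_num) (by norm_num) (by norm_num) (by norm_num) (by norm_num) (by norm_num) (by norm_num) (by norm_num) (by norm_num) (by norm_num) (by norm_num) (by norm_num) (by norm_num) (by norm_num) (by norm_num) (by norm_num) (by norm_num) (by norm_num) (by norm_num) (by norm_num) (by norm_num) (by norm_num) (by norm_num) (by norm_num) (by norm_num) (by norm_num) (by norm_num) (by norm_num) (by norm_num) (by norm_num) (by norm_num) (by norm_num)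

include HP HG t1 t3 t5 in
lemma leaf_pm_10
    (h1 : ‖g1 - ⟨(2691 / 5000), (2691 / 5000)⟩‖ ≤ (309 / 5000))
    (h2 : ‖g2 - ⟨(3 / 25), (1 / 5)⟩‖ ≤ (56569 / 1000000))
    (h3 : ‖g3 - ⟨(31073 / 100000), (31073 / 100000)⟩‖ ≤ (593 / 5000))
    (h4 : ‖g4 - ⟨(-3 / 25), (1 / 5)⟩‖ ≤ (56569 / 1000000))
    (h5 : ‖g5 - ⟨(-24069 / 100000), (-24069 / 100000)⟩‖ ≤ (9 / 50)) : False :=
  kill HP HG h1 h2 h3 h4 h5 t1 t3 t5
    2799 (-1599) (-1137) (-1032) (-203) 1514 0 3530 (-2037) 1106 (-2682) 514 5178 1386 (-1786) 279 (-1313) 1139 0 (-3247) 1968 (-2316) (-2124) (-561)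
    (-15370372) 7071966 (-14799867) (-1174663) 4237686 20740085 (-3396106) 10600402 (-13673224) 1438686 (-2496052) (-1559119) 3383170 (-3398493) 5897742 (-16774831) 16745094 (-20439029) (-8077285) (-2904858)
    3171 967 4757 13405316 2050 16959518 16817522 20717137 8763121 6574311
    (by norm_num) (by norm_num) (by norm_num) (by norm_num) (by norm_num) (by norm_num) (by norm_num) (by norm_num) (by norm_num) (by norm_num) (by norm_num) (by norm_num) (by norm_num) (by norm_num) (by norm_num) (by norm_num) (by norm_num) (by norm_num) (by norm_num) (by norm_num) (by norm_num) (by norm_num) (by norm_num) (by norm_num) (by norm_num) (by norm_num) (by norm_num) (by norm_num) (by norm_num) (by norm_num) (by norm_num) (by norm_num) (by norm_num) (by norm_num) (by norm_num) (by norm_num) (by norm_num) (by norm_num) (by norm_num) (by norm_num) (by norm_num)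

include HP HG t1 t3 t5 in
lemma leaf_pm_11
    (h1 : ‖g1 - ⟨(2691 / 5000), (2691 / 5000)⟩‖ ≤ (309 / 5000))
    (h2 : ‖g2 - ⟨(3 / 25), (1 / 5)⟩‖ ≤ (56569 / 1000000))
    (h3 : ‖g3 - ⟨(31073 / 100000), (31073 / 100000)⟩‖ ≤ (593 / 5000))
    (h4 : ‖g4 - ⟨(-3 / 25), (7 / 25)⟩‖ ≤ (56569 / 1000000))
    (h5 : ‖g5 - ⟨(-33069 / 100000), (-33069 / 100000)⟩‖ ≤ (1591 / 12500)) : False :=
  kill HP HG h1 h2 h3 h4 h5 t1 t3 t5
    2378 (-974) (-755) (-1105) (-852) 1740 0 2700 (-1084) 1340 (-2288) (-85) 6882 (-289) (-675) (-580) 1674 432 0 (-2557) 1479 (-2865) (-1991) (-476)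
    (-8538347) 3985732 (-9197002) (-3950316) 4137720 15028856 (-2333215) 9665767 (-10056074) (-202130) (-3017282) (-113384) (-379963) 12612752 2973024 (-10944907) 9905242 (-15178741) (-12459874) (-3275832)
    5052 3810 3349 2568 5196 11353193 9905891 15183496 17729354 4423794
    (by norm_num) (by norm_num) (by norm_num) (by norm_num) (by norm_num) (by norm_num) (by norm_num) (by norm_num) (by norm_num) (by norm_num) (by norm_num) (by norm_num) (by norm_num) (by norm_num) (by norm_num) (by norm_num) (by norm_num) (by norm_num) (by norm_num) (by norm_num) (by norm_num) (by norm_num) (by norm_num) (by norm_num) (by norm_num) (by norm_num) (by norm_num) (by norm_num) (by norm_num) (by norm_num) (by norm_num) (by norm_num) (by norm_num) (by norm_num) (by norm_num) (by norm_num) (by norm_num) (by norm_num) (by norm_num) (by norm_num) (by norm_num)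

include HP HG t1 t3 t5 in
lemma leaf_pm_12
    (h1 : ‖g1 - ⟨(2691 / 5000), (2691 / 5000)⟩‖ ≤ (309 / 5000))
    (h2 : ‖g2 - ⟨(1 / 10), (9 / 50)⟩‖ ≤ (5657 / 200000))
    (h3 : ‖g3 - ⟨(25073 / 100000), (25073 / 100000)⟩‖ ≤ (42427 / 500000))
    (h4 : ‖g4 - ⟨(-3 / 25), (7 / 25)⟩‖ ≤ (56569 / 1000000))
    (h5 : ‖g5 - ⟨(-33069 / 100000), (-15069 / 100000)⟩‖ ≤ (1591 / 12500)) : False :=
  kill HP HG h1 h2 h3 h4 h5 t1 t3 t5
    2420 (-1766) 184 (-896) (-749) 1297 0 2565 (-1809) 1999 (-2403) 214 6068 (-98) 1582 (-1105) 1251 (-920) 0 (-2793) 105 (-3577) (-1500) (-1569)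
    (-18637992) 10629936 (-7157759) (-3554172) 3138740 14283730 (-10191314) 13388112 (-9519989) 517880 2019065 28148922 (-4258423) 12063445 (-5582560) (-15292969) (-6160029) (-20449751) (-11517798) (-9520692)
    5432 18522287 1385812 599 9375270 15425678 28815062 20888430 16678921 11036692
    (by norm_num) (by norm_num) (by norm_num) (by norm_num) (by norm_num) (by norm_num) (by norm_num) (by norm_num) (by norm_num) (by norm_num) (by norm_num) (by norm_num) (by norm_num) (by norm_num) (by norm_num) (by norm_num) (by norm_num) (by norm_num) (by norm_num) (by norm_num) (by norm_num) (by norm_num) (by norm_num) (by norm_num) (by norm_num) (by norm_num) (by norm_num) (by norm_num) (by norm_num) (by norm_num) (by norm_num) (by norm_num) (by norm_num) (by norm_num) (by norm_num) (by norm_num) (by norm_num) (by norm_num) (by norm_num) (by norm_num) (by norm_num)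

include HP HG t1 t3 t5 in
lemma leaf_pm_13
    (h1 : ‖g1 - ⟨(2691 / 5000), (2691 / 5000)⟩‖ ≤ (309 / 5000))
    (h2 : ‖g2 - ⟨(1 / 10), (11 / 50)⟩‖ ≤ (5657 / 200000))
    (h3 : ‖g3 - ⟨(25073 / 100000), (25073 / 100000)⟩‖ ≤ (42427 / 500000))
    (h4 : ‖g4 - ⟨(-3 / 25), (7 / 25)⟩‖ ≤ (56569 / 1000000))
    (h5 : ‖g5 - ⟨(-33069 / 100000), (-15069 / 100000)⟩‖ ≤ (1591 / 12500)) : False :=
  kill HP HG h1 h2 h3 h4 h5 t1 t3 t5
    2431 (-1426) (-296) (-1304) (-475) 1434 0 2745 (-1410) 1562 (-2606) 273 5821 (-473) 2515 39 1929 (-669) 0 (-1938) 832 (-3852) (-1720) (-1523)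
    (-13575156) 7799168 (-10455538) (-2450224) 3486054 14942786 (-4569916) 10758385 (-10660814) 663663 (-632393) 31347444 (-301709) 14496720 (-3894249) (-13245911) (-1826463) (-21144267) (-10588263) (-8865383)
    4649 17310217 5600 1468 8413763 13260999 31400609 21146420 17951775 9682985
    (by norm_num) (by norm_num) (by norm_num) (by norm_num) (by norm_num) (by norm_num) (by norm_num) (by norm_num) (by norm_num) (by norm_num) (by norm_num) (by norm_num) (by norm_num) (by norm_num) (by norm_num) (by norm_num) (by norm_num) (by norm_num) (by norm_num) (by norm_num) (by norm_num) (by norm_num) (by norm_num) (by norm_num) (by norm_num) (by norm_num) (by norm_num) (by norm_num) (by norm_num) (by norm_num) (by norm_num) (by norm_num) (by norm_num) (by norm_num) (by norm_num) (by norm_num) (by norm_num) (by norm_num) (by norm_num) (by norm_num) (by norm_num)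

include HP HG t1 t3 t5 in
lemma leaf_pm_14
    (h1 : ‖g1 - ⟨(629 / 1250), (629 / 1250)⟩‖ ≤ (24749 / 500000))
    (h2 : ‖g2 - ⟨(7 / 50), (9 / 50)⟩‖ ≤ (5657 / 200000))
    (h3 : ‖g3 - ⟨(25073 / 100000), (25073 / 100000)⟩‖ ≤ (42427 / 500000))
    (h4 : ‖g4 - ⟨(-3 / 25), (7 / 25)⟩‖ ≤ (56569 / 1000000))
    (h5 : ‖g5 - ⟨(-33069 / 100000), (-15069 / 100000)⟩‖ ≤ (1591 / 12500)) : False :=
  kill HP HG h1 h2 h3 h4 h5 t1 t3 t5
    2625 (-1494) (-1955) 153 (-439) 1413 0 3508 (-2118) 379 (-1467) 15 6314 (-416) (-165) (-346) 1285 (-218) 0 (-2927) 1416 (-3088) (-1639) (-1038)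
    (-10798233) 156300 (-6882930) (-3210777) 3709125 20822257 (-5257749) 7689994 (-8830089) 39375 (-4980360) 8888625 644311 11242404 (-1376452) (-15709591) 7349329 (-14574655) (-10554924) (-6553932)
    353 645 1028085 2145 5470392 16480147 11533443 14588890 15420703 6696914
    (by norm_num) (by norm_num) (by norm_num) (by norm_num) (by norm_num) (by norm_num) (by norm_num) (by norm_num) (by norm_num) (by norm_num) (by norm_num) (by norm_num) (by norm_num) (by norm_num) (by norm_num) (by norm_num) (by norm_num) (by norm_num) (by norm_num) (by norm_num) (by norm_num) (by norm_num) (by norm_num) (by norm_num) (by norm_num) (by norm_num) (by norm_num) (by norm_num) (by norm_num) (by norm_num) (by norm_num) (by norm_num) (by norm_num) (by norm_num) (by norm_num) (by norm_num) (by norm_num) (by norm_num) (by norm_num) (by norm_num) (by norm_num)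

include HP HG t1 t3 t5 in
lemma leaf_pm_15
    (h1 : ‖g1 - ⟨(629 / 1250), (1433 / 2500)⟩‖ ≤ (24749 / 500000))
    (h2 : ‖g2 - ⟨(7 / 50), (9 / 50)⟩‖ ≤ (5657 / 200000))
    (h3 : ‖g3 - ⟨(25073 / 100000), (25073 / 100000)⟩‖ ≤ (42427 / 500000))
    (h4 : ‖g4 - ⟨(-3 / 25), (7 / 25)⟩‖ ≤ (56569 / 1000000))
    (h5 : ‖g5 - ⟨(-33069 / 100000), (-15069 / 100000)⟩‖ ≤ (1591 / 12500)) : False :=
  kill HP HG h1 h2 h3 h4 h5 t1 t3 t5
    2998 (-1577) (-2297) 226 (-388) 1293 0 3977 (-2209) 264 (-1456) (-33) 5946 (-429) 697 (-185) 1629 (-299) 0 (-1860) 1324 (-3076) (-1869) (-1235)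
    (-11918676) (-1801834) (-7398212) (-3333526) 3876414 26103422 (-5799182) 7562698 (-9455308) (-98934) (-2245233) 12460119 (-166054) 12111405 (-1777854) (-9444245) 4697270 (-14923074) (-11139399) (-7343310)
    14419669 4362 4311 2264 6006894 9707463 13316115 14923998 16455162 7555460
    (by norm_num) (by norm_num) (by norm_num) (by norm_num) (by norm_num) (by norm_num) (by norm_num) (by norm_num) (by norm_num) (by norm_num) (by norm_num) (by norm_num) (by norm_num) (by norm_num) (by norm_num) (by norm_num) (by norm_num) (by norm_num) (by norm_num) (by norm_num) (by norm_num) (by norm_num) (by norm_num) (by norm_num) (by norm_num) (by norm_num) (by norm_num) (by norm_num) (by norm_num) (by norm_num) (by norm_num) (by norm_num) (by norm_num) (by norm_num) (by norm_num) (by norm_num) (by norm_num) (by norm_num) (by norm_num) (by norm_num) (by norm_num)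

include HP HG t1 t3 t5 in
lemma leaf_pm_16
    (h1 : ‖g1 - ⟨(1433 / 2500), (629 / 1250)⟩‖ ≤ (24749 / 500000))
    (h2 : ‖g2 - ⟨(7 / 50), (9 / 50)⟩‖ ≤ (5657 / 200000))
    (h3 : ‖g3 - ⟨(25073 / 100000), (25073 / 100000)⟩‖ ≤ (42427 / 500000))
    (h4 : ‖g4 - ⟨(-3 / 25), (7 / 25)⟩‖ ≤ (56569 / 1000000))
    (h5 : ‖g5 - ⟨(-33069 / 100000), (-15069 / 100000)⟩‖ ≤ (1591 / 12500)) : False :=
  kill HP HG h1 h2 h3 h4 h5 t1 t3 t5
    2468 (-2094) (-653) (-142) (-342) 1034 0 3145 (-2592) 1301 (-1854) 353 5975 (-2013) 979 14 1978 155 0 (-618) 2438 (-3555) (-1526) (-308)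
    (-18603496) 8118708 (-7055316) (-1899067) 2551912 16530096 (-9745922) 10618353 (-8566784) 871204 (-17929250) 7331517 (-3554155) 11696879 926125 (-4871967) 15962312 (-17626305) (-8402056) (-1840300)
    34982343 5151307 3090 1168 2278347 18579400 17565494 17981064 14401789 2060197
    (by norm_num) (by norm_num) (by norm_num) (by norm_num) (by norm_num) (by norm_num) (by norm_num) (by norm_num) (by norm_num) (by norm_num) (by norm_num) (by norm_num) (by norm_num) (by norm_num) (by norm_num) (by norm_num) (by norm_num) (by norm_num) (by norm_num) (by norm_num) (by norm_num) (by norm_num) (by norm_num) (by norm_num) (by norm_num) (by norm_num) (by norm_num) (by norm_num) (by norm_num) (by norm_num) (by norm_num) (by norm_num) (by norm_num) (by norm_num) (by norm_num) (by norm_num) (by norm_num) (by norm_num) (by norm_num) (by norm_num) (by norm_num)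

include HP HG t1 t3 t5 in
lemma leaf_pm_17
    (h1 : ‖g1 - ⟨(1433 / 2500), (1433 / 2500)⟩‖ ≤ (24749 / 500000))
    (h2 : ‖g2 - ⟨(7 / 50), (9 / 50)⟩‖ ≤ (5657 / 200000))
    (h3 : ‖g3 - ⟨(25073 / 100000), (25073 / 100000)⟩‖ ≤ (42427 / 500000))
    (h4 : ‖g4 - ⟨(-3 / 25), (7 / 25)⟩‖ ≤ (56569 / 1000000))
    (h5 : ‖g5 - ⟨(-33069 / 100000), (-15069 / 100000)⟩‖ ≤ (1591 / 12500)) : False :=
  kill HP HG h1 h2 h3 h4 h5 t1 t3 t5
    2851 (-2259) (-1701) 603 (-195) 950 0 4098 (-3375) 734 (-1475) 380 5416 (-951) 1293 71 2380 186 0 (-154) 1530 (-3046) (-1460) (-380)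
    (-21877538) 2957794 (-6783342) (-1144755) 2708450 27645667 (-12368635) 8783639 (-8956745) 1083380 (-5570836) 9418677 (-1994906) 12771714 1007376 375900 6204556 (-15518076) (-7517336) (-2058080)
    35970271 7982838 2559 497 2570126 5583504 11278653 15645777 14819819 2291397
    (by norm_num) (by norm_num) (by norm_num) (by norm_num) (by norm_num) (by norm_num) (by norm_num) (by norm_num) (by norm_num) (by norm_num) (by norm_num) (by norm_num) (by norm_num) (by norm_num) (by norm_num) (by norm_num) (by norm_num) (by norm_num) (by norm_num) (by norm_num) (by norm_num) (by norm_num) (by norm_num) (by norm_num) (by norm_num) (by norm_num) (by norm_num) (by norm_num) (by norm_num) (by norm_num) (by norm_num) (by norm_num) (by norm_num) (by norm_num) (by norm_num) (by norm_num) (by norm_num) (by norm_num) (by norm_num) (by norm_num) (by norm_num)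

include HP HG t1 t3 t5 in
lemma leaf_pm_18
    (h1 : ‖g1 - ⟨(2691 / 5000), (2691 / 5000)⟩‖ ≤ (309 / 5000))
    (h2 : ‖g2 - ⟨(7 / 50), (11 / 50)⟩‖ ≤ (5657 / 200000))
    (h3 : ‖g3 - ⟨(25073 / 100000), (25073 / 100000)⟩‖ ≤ (42427 / 500000))
    (h4 : ‖g4 - ⟨(-3 / 25), (7 / 25)⟩‖ ≤ (56569 / 1000000))
    (h5 : ‖g5 - ⟨(-33069 / 100000), (-15069 / 100000)⟩‖ ≤ (1591 / 12500)) : False :=
  kill HP HG h1 h2 h3 h4 h5 t1 t3 t5
    2529 (-783) (-967) (-1309) (-816) 1663 0 2806 (-1011) 1140 (-2448) (-20) 6300 (-783) 1310 495 1963 (-126) 0 (-1478) 1865 (-3669) (-2044) (-1132)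
    (-6977273) 2842577 (-11128522) (-3421913) 4205727 16397626 (-103785) 8790173 (-10841710) (-50580) (-4371744) 16138605 2326263 14138654 (-793800) (-10854273) 7992668 (-19860864) (-12177072) (-7131600)
    8358 10003450 3745 4269 5543119 11701598 18009368 19996636 18659653 7175642
    (by norm_num) (by norm_num) (by norm_num) (by norm_num) (by norm_num) (by norm_num) (by norm_num) (by norm_num) (by norm_num) (by norm_num) (by norm_num) (by norm_num) (by norm_num) (by norm_num) (by norm_num) (by norm_num) (by norm_num) (by norm_num) (by norm_num) (by norm_num) (by norm_num) (by norm_num) (by norm_num) (by norm_num) (by norm_num) (by norm_num) (by norm_num) (by norm_num) (by norm_num) (by norm_num) (by norm_num) (by norm_num) (by norm_num) (by norm_num) (by norm_num) (by norm_num) (by norm_num) (by norm_num) (by norm_num) (by norm_num) (by norm_num)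

include HP HG t1 t3 t5 in
lemma leaf_pm_19
    (h1 : ‖g1 - ⟨(2691 / 5000), (2691 / 5000)⟩‖ ≤ (309 / 5000))
    (h2 : ‖g2 - ⟨(3 / 25), (1 / 5)⟩‖ ≤ (56569 / 1000000))
    (h3 : ‖g3 - ⟨(25073 / 100000), (37073 / 100000)⟩‖ ≤ (42427 / 500000))
    (h4 : ‖g4 - ⟨(-3 / 25), (7 / 25)⟩‖ ≤ (56569 / 1000000))
    (h5 : ‖g5 - ⟨(-33069 / 100000), (-15069 / 100000)⟩‖ ≤ (1591 / 12500)) : False :=
  kill HP HG h1 h2 h3 h4 h5 t1 t3 t5
    2494 (-1457) (-264) (-971) (-1204) 1608 0 2787 (-1888) 2122 (-2630) (-17) 5954 (-376) 480 1511 1989 162 0 (-2125) 2023 (-2383) (-2660) (-634)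
    (-18564056) 10356199 (-8389672) (-5393011) 4010352 17402032 (-10068750) 15520118 (-11015947) (-42398) 539229 4682803 12696308 13128844 964548 (-16703070) 10279350 (-9593643) (-15255006) (-3774836)
    5521 9333221 20756934 2829 3110453 16711772 11295738 15913335 20126643 3896119
    (by norm_num) (by norm_num) (by norm_num) (by norm_num) (by norm_num) (by norm_num) (by norm_num) (by norm_num) (by norm_num) (by norm_num) (by norm_num) (by norm_num) (by norm_num) (by norm_num) (by norm_num) (by norm_num) (by norm_num) (by norm_num) (by norm_num) (by norm_num) (by norm_num) (by norm_num) (by norm_num) (by norm_num) (by norm_num) (by norm_num) (by norm_num) (by norm_num) (by norm_num) (by norm_num) (by norm_num) (by norm_num) (by norm_num) (by norm_num) (by norm_num) (by norm_num) (by norm_num) (by norm_num) (by norm_num) (by norm_num) (by norm_num)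

include HP HG t1 t3 t5 in
lemma leaf_pm_20
    (h1 : ‖g1 - ⟨(2691 / 5000), (2691 / 5000)⟩‖ ≤ (309 / 5000))
    (h2 : ‖g2 - ⟨(3 / 25), (1 / 5)⟩‖ ≤ (56569 / 1000000))
    (h3 : ‖g3 - ⟨(37073 / 100000), (25073 / 100000)⟩‖ ≤ (42427 / 500000))
    (h4 : ‖g4 - ⟨(-3 / 25), (7 / 25)⟩‖ ≤ (56569 / 1000000))
    (h5 : ‖g5 - ⟨(-33069 / 100000), (-15069 / 100000)⟩‖ ≤ (1591 / 12500)) : False :=
  kill HP HG h1 h2 h3 h4 h5 t1 t3 t5
    2668 (-1122) (-1560) (-429) (-768) 1572 0 3212 (-1775) 837 (-1900) (-22) 6584 (-389) (-330) (-106) 1597 54 0 (-2485) 1591 (-2944) (-1955) (-895)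
    (-10187235) 2885480 (-8798946) (-3883472) 4194096 17966303 (-4002392) 9656352 (-10093780) (-58696) (-3613164) 4176095 2097273 12717717 355536 (-13074970) 9715119 (-14444820) (-12389375) (-5892680)
    4087 1727 2243 2819 4323113 13565021 10574654 14596280 17754914 5903396
    (by norm_num) (by norm_num) (by norm_num) (by norm_num) (by norm_num) (by norm_num) (by norm_num) (by norm_num) (by norm_num) (by norm_num) (by norm_num) (by norm_num) (by norm_num) (by norm_num) (by norm_num) (by norm_num) (by norm_num) (by norm_num) (by norm_num) (by norm_num) (by norm_num) (by norm_num) (by norm_num) (by norm_num) (by norm_num) (by norm_num) (by norm_num) (by norm_num) (by norm_num) (by norm_num) (by norm_num) (by norm_num) (by norm_num) (by norm_num) (by norm_num) (by norm_num) (by norm_num) (by norm_num) (by norm_num) (by norm_num) (by norm_num)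

include HP HG t1 t3 t5 in
lemma leaf_pm_21
    (h1 : ‖g1 - ⟨(2691 / 5000), (2691 / 5000)⟩‖ ≤ (309 / 5000))
    (h2 : ‖g2 - ⟨(3 / 25), (1 / 5)⟩‖ ≤ (56569 / 1000000))
    (h3 : ‖g3 - ⟨(37073 / 100000), (37073 / 100000)⟩‖ ≤ (42427 / 500000))
    (h4 : ‖g4 - ⟨(-3 / 25), (7 / 25)⟩‖ ≤ (56569 / 1000000))
    (h5 : ‖g5 - ⟨(-33069 / 100000), (-15069 / 100000)⟩‖ ≤ (1591 / 12500)) : False :=
  kill HP HG h1 h2 h3 h4 h5 t1 t3 t5
    2767 (-1501) (-708) (-1731) (-641) 1752 0 3069 (-1380) 1614 (-2992) 209 5841 (-765) 20 744 2810 (-283) 0 (-2081) 1737 (-1480) (-2545) (-969)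
    (-13795428) 7479963 (-14538820) (-3761978) 4847784 20526404 (-2884386) 13193947 (-13969461) 578303 (-3126127) (-513357) 5803386 18646194 (-1653003) (-15942039) 6754635 (-377954) (-14712983) (-5659929)
    1480 4881082 19887896 4158 6416257 16245655 6774115 5815681 23751893 5896374
    (by norm_num) (by norm_num) (by norm_num) (by norm_num) (by norm_num) (by norm_num) (by norm_num) (by norm_num) (by norm_num) (by norm_num) (by norm_num) (by norm_num) (by norm_num) (by norm_num) (by norm_num) (by norm_num) (by norm_num) (by norm_num) (by norm_num) (by norm_num) (by norm_num) (by norm_num) (by norm_num) (by norm_num) (by norm_num) (by norm_num) (by norm_num) (by norm_num) (by norm_num) (by norm_num) (by norm_num) (by norm_num) (by norm_num) (by norm_num) (by norm_num) (by norm_num) (by norm_num) (by norm_num) (by norm_num) (by norm_num) (by norm_num)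

include HP HG t1 t3 t5 in
lemma leaf_pm_22
    (h1 : ‖g1 - ⟨(2691 / 5000), (2691 / 5000)⟩‖ ≤ (309 / 5000))
    (h2 : ‖g2 - ⟨(3 / 25), (1 / 5)⟩‖ ≤ (56569 / 1000000))
    (h3 : ‖g3 - ⟨(25073 / 100000), (25073 / 100000)⟩‖ ≤ (42427 / 500000))
    (h4 : ‖g4 - ⟨(-3 / 25), (7 / 25)⟩‖ ≤ (56569 / 1000000))
    (h5 : ‖g5 - ⟨(-15069 / 100000), (-33069 / 100000)⟩‖ ≤ (1591 / 12500)) : False :=
  kill HP HG h1 h2 h3 h4 h5 t1 t3 t5
    2287 (-1393) (-485) (-873) (-447) 1392 0 2637 (-1571) 1326 (-2321) 290 6443 514 (-666) 202 1257 1521 0 (-2624) 2546 (-2744) (-1958) (-1469)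
    (-12295383) 6635966 (-8625067) (-2196615) 3183504 13203731 (-4813408) 9490636 (-9382801) 663230 (-417217) 1528994 2332316 12735301 9799803 (-11846883) 17504102 (-18281748) (-9379356) (-9464767)
    7965 1527 2271368 649 6719622 11854228 17570755 18429922 15816454 13624168
    (by norm_num) (by norm_num) (by norm_num) (by norm_num) (by norm_num) (by norm_num) (by norm_num) (by norm_num) (by norm_num) (by norm_num) (by norm_num) (by norm_num) (by norm_num) (by norm_num) (by norm_num) (by norm_num) (by norm_num) (by norm_num) (by norm_num) (by norm_num) (by norm_num) (by norm_num) (by norm_num) (by norm_num) (by norm_num) (by norm_num) (by norm_num) (by norm_num) (by norm_num) (by norm_num) (by norm_num) (by norm_num) (by norm_num) (by norm_num) (by norm_num) (by norm_num) (by norm_num) (by norm_num) (by norm_num) (by norm_num) (by norm_num)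

include HP HG t1 t3 t5 in
lemma leaf_pm_23
    (h1 : ‖g1 - ⟨(2691 / 5000), (2691 / 5000)⟩‖ ≤ (309 / 5000))
    (h2 : ‖g2 - ⟨(3 / 25), (1 / 5)⟩‖ ≤ (56569 / 1000000))
    (h3 : ‖g3 - ⟨(25073 / 100000), (37073 / 100000)⟩‖ ≤ (42427 / 500000))
    (h4 : ‖g4 - ⟨(-3 / 25), (7 / 25)⟩‖ ≤ (56569 / 1000000))
    (h5 : ‖g5 - ⟨(-15069 / 100000), (-33069 / 100000)⟩‖ ≤ (1591 / 12500)) : False :=
  kill HP HG h1 h2 h3 h4 h5 t1 t3 t5
    2539 (-1640) (-130) (-1069) (-1056) 1482 0 2766 (-1895) 2070 (-2623) 44 5901 (-236) 335 1474 1941 387 0 (-2221) 2193 (-2361) (-2640) (-788)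
    (-18957160) 10763397 (-8513609) (-4989960) 3762798 17026128 (-10024257) 15281016 (-10831169) 111716 899329 4164373 12504999 13112657 2283687 (-16719538) 11383025 (-10110931) (-14533145) (-4649988)
    8259 9145343 20178748 1569 2879 16743708 12120861 16081229 19574322 5180504
    (by norm_num) (by norm_num) (by norm_num) (by norm_num) (by norm_num) (by norm_num) (by norm_num) (by norm_num) (by norm_num) (by norm_num) (by norm_num) (by norm_num) (by norm_num) (by norm_num) (by norm_num) (by norm_num) (by norm_num) (by norm_num) (by norm_num) (by norm_num) (by norm_num) (by norm_num) (by norm_num) (by norm_num) (by norm_num) (by norm_num) (by norm_num) (by norm_num) (by norm_num) (by norm_num) (by norm_num) (by norm_num) (by norm_num) (by norm_num) (by norm_num) (by norm_num) (by norm_num) (by norm_num) (by norm_num) (by norm_num) (by norm_num)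

include HP HG t1 t3 t5 in
lemma leaf_pm_24
    (h1 : ‖g1 - ⟨(2691 / 5000), (2691 / 5000)⟩‖ ≤ (309 / 5000))
    (h2 : ‖g2 - ⟨(3 / 25), (1 / 5)⟩‖ ≤ (56569 / 1000000))
    (h3 : ‖g3 - ⟨(37073 / 100000), (25073 / 100000)⟩‖ ≤ (42427 / 500000))
    (h4 : ‖g4 - ⟨(-3 / 25), (7 / 25)⟩‖ ≤ (56569 / 1000000))
    (h5 : ‖g5 - ⟨(-15069 / 100000), (-33069 / 100000)⟩‖ ≤ (1591 / 12500)) : False :=
  kill HP HG h1 h2 h3 h4 h5 t1 t3 t5
    2419 (-1331) (-481) (-1216) (-578) 1535 0 2641 (-1320) 1398 (-2443) 170 6562 97 (-600) 81 1577 1047 0 (-2510) 2281 (-2657) (-2074) (-1192)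
    (-11341068) 6020953 (-9586884) (-2992297) 3713165 14568739 (-3782889) 10104323 (-10189822) 411230 (-1494531) 314684 2543079 13441753 6870414 (-12032135) 15246093 (-15351149) (-11097242) (-7821904)
    8785 2835 4261 3966 3951922 12124599 15249341 15560368 17430706 10410801
    (by norm_num) (by norm_num) (by norm_num) (by norm_num) (by norm_num) (by norm_num) (by norm_num) (by norm_num) (by norm_num) (by norm_num) (by norm_num) (by norm_num) (by norm_num) (by norm_num) (by norm_num) (by norm_num) (by norm_num) (by norm_num) (by norm_num) (by norm_num) (by norm_num) (by norm_num) (by norm_num) (by norm_num) (by norm_num) (by norm_num) (by norm_num) (by norm_num) (by norm_num) (by norm_num) (by norm_num) (by norm_num) (by norm_num) (by norm_num) (by norm_num) (by norm_num) (by norm_num) (by norm_num) (by norm_num) (by norm_num) (by norm_num)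

include HP HG t1 t3 t5 in
lemma leaf_pm_25
    (h1 : ‖g1 - ⟨(2691 / 5000), (2691 / 5000)⟩‖ ≤ (309 / 5000))
    (h2 : ‖g2 - ⟨(3 / 25), (1 / 5)⟩‖ ≤ (56569 / 1000000))
    (h3 : ‖g3 - ⟨(37073 / 100000), (37073 / 100000)⟩‖ ≤ (42427 / 500000))
    (h4 : ‖g4 - ⟨(-3 / 25), (7 / 25)⟩‖ ≤ (56569 / 1000000))
    (h5 : ‖g5 - ⟨(-15069 / 100000), (-33069 / 100000)⟩‖ ≤ (1591 / 12500)) : False :=
  kill HP HG h1 h2 h3 h4 h5 t1 t3 t5
    2589 (-1298) (-702) (-1637) (-601) 1668 0 3066 (-1421) 1548 (-2948) 283 6045 (-810) (-51) 902 2774 560 0 (-1974) 2124 (-1337) (-2408) (-825)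
    (-13273065) 7372094 (-14069742) (-2853375) 4318452 19025196 (-2499091) 11848504 (-13113794) 732687 (-2672022) (-2047598) 6178182 17943780 3385200 (-15004853) 9938500 (-1803174) (-12782670) (-4987125)
    2964 3051374 17153242 3016 3202 15240910 10147239 6435944 22031249 6027520
    (by norm_num) (by norm_num) (by norm_num) (by norm_num) (by norm_num) (by norm_num) (by norm_num) (by norm_num) (by norm_num) (by norm_num) (by norm_num) (by norm_num) (by norm_num) (by norm_num) (by norm_num) (by norm_num) (by norm_num) (by norm_num) (by norm_num) (by norm_num) (by norm_num) (by norm_num) (by norm_num) (by norm_num) (by norm_num) (by norm_num) (by norm_num) (by norm_num) (by norm_num) (by norm_num) (by norm_num) (by norm_num) (by norm_num) (by norm_num) (by norm_num) (by norm_num) (by norm_num) (by norm_num) (by norm_num) (by norm_num) (by norm_num)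

include HP HG t1 t3 t5 in
lemma leaf_pm_26
    (h1 : ‖g1 - ⟨(2691 / 5000), (2691 / 5000)⟩‖ ≤ (309 / 5000))
    (h2 : ‖g2 - ⟨(3 / 25), (1 / 5)⟩‖ ≤ (56569 / 1000000))
    (h3 : ‖g3 - ⟨(31073 / 100000), (31073 / 100000)⟩‖ ≤ (593 / 5000))
    (h4 : ‖g4 - ⟨(-3 / 25), (7 / 25)⟩‖ ≤ (56569 / 1000000))
    (h5 : ‖g5 - ⟨(-15069 / 100000), (-15069 / 100000)⟩‖ ≤ (1591 / 12500)) : False :=
  kill HP HG h1 h2 h3 h4 h5 t1 t3 t5
    2535 (-1474) (-1352) (-142) (-537) 1329 0 3331 (-2176) 1006 (-1791) 220 5565 452 48 460 714 881 0 (-2658) 3184 (-2165) (-1958) (-3000)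
    (-13822255) 4788816 (-7809781) (-2587421) 3369015 17542560 (-6641296) 9573355 (-9291364) 557700 (-1726732) 6929870 (-1422720) 12345622 4902765 (-14565450) 16123065 (-13984533) (-9910572) (-16695000)
    6250 2766 3521 851 5173584 14667445 17549255 14056718 15831419 17400004
    (by norm_num) (by norm_num) (by norm_num) (by norm_num) (by norm_num) (by norm_num) (by norm_num) (by norm_num) (by norm_num) (by norm_num) (by norm_num) (by norm_num) (by norm_num) (by norm_num) (by norm_num) (by norm_num) (by norm_num) (by norm_num) (by norm_num) (by norm_num) (by norm_num) (by norm_num) (by norm_num) (by norm_num) (by norm_num) (by norm_num) (by norm_num) (by norm_num) (by norm_num) (by norm_num) (by norm_num) (by norm_num) (by norm_num) (by norm_num) (by norm_num) (by norm_num) (by norm_num) (by norm_num) (by norm_num) (by norm_num) (by norm_num)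

include HP HG t1 t3 t5 in
lemma leaf_pm_27
    (h1 : ‖g1 - ⟨(2691 / 5000), (2691 / 5000)⟩‖ ≤ (309 / 5000))
    (h2 : ‖g2 - ⟨(3 / 25), (1 / 5)⟩‖ ≤ (56569 / 1000000))
    (h3 : ‖g3 - ⟨(31073 / 100000), (31073 / 100000)⟩‖ ≤ (593 / 5000))
    (h4 : ‖g4 - ⟨(-1 / 25), (1 / 5)⟩‖ ≤ (56569 / 1000000))
    (h5 : ‖g5 - ⟨(-24069 / 100000), (-24069 / 100000)⟩‖ ≤ (9 / 50)) : False :=
  kill HP HG h1 h2 h3 h4 h5 t1 t3 t5
    3179 (-1647) (-1990) (-311) (-790) 1743 0 3776 (-2110) 874 (-2052) (-122) 5091 852 (-829) (-187) (-1025) 1052 0 (-3695) 1794 (-2698) (-792) (-1210)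
    (-13825277) 2739350 (-10647041) (-5842803) 5540997 25599492 (-6041692) 13061640 (-12903942) (-387838) (-5474284) 8086080 (-1941725) 148979 5355732 (-18317704) 11703577 (-19081875) (-1175852) (-6160110)
    10223 2140 6114 13840566 2577 19118213 14225274 19180414 1185253 8162771
    (by norm_num) (by norm_num) (by norm_num) (by norm_num) (by norm_num) (by norm_num) (by norm_num) (by norm_num) (by norm_num) (by norm_num) (by norm_num) (by norm_num) (by norm_num) (by norm_num) (by norm_num) (by norm_num) (by norm_num) (by norm_num) (by norm_num) (by norm_num) (by norm_num) (by norm_num) (by norm_num) (by norm_num) (by norm_num) (by norm_num) (by norm_num) (by norm_num) (by norm_num) (by norm_num) (by norm_num) (by norm_num) (by norm_num) (by norm_num) (by norm_num) (by norm_num) (by norm_num) (by norm_num) (by norm_num) (by norm_num) (by norm_num)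

include HP HG t1 t3 t5 in
lemma leaf_pm_28
    (h1 : ‖g1 - ⟨(2691 / 5000), (2691 / 5000)⟩‖ ≤ (309 / 5000))
    (h2 : ‖g2 - ⟨(3 / 25), (1 / 5)⟩‖ ≤ (56569 / 1000000))
    (h3 : ‖g3 - ⟨(25073 / 100000), (25073 / 100000)⟩‖ ≤ (42427 / 500000))
    (h4 : ‖g4 - ⟨(-1 / 25), (7 / 25)⟩‖ ≤ (56569 / 1000000))
    (h5 : ‖g5 - ⟨(-33069 / 100000), (-33069 / 100000)⟩‖ ≤ (1591 / 12500)) : False :=
  kill HP HG h1 h2 h3 h4 h5 t1 t3 t5
    2511 (-1020) (-1355) (-422) (-907) 1640 0 2937 (-1476) 860 (-1677) (-321) 6929 (-456) (-366) (-461) 1849 361 0 (-2515) 1186 (-3096) (-1717) (-538)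
    (-8220311) 2289952 (-6808255) (-4893054) 4118040 15600931 (-3685357) 9389454 (-8700207) (-806031) (-3423970) 4246773 (-489352) 14000175 2501369 (-11066743) 8271337 (-16250235) (-10743850) (-3727802)
    7097 1657 1479839 3540 5419 11584316 9297855 16257602 17647528 4489249
    (by norm_num) (by norm_num) (by norm_num) (by norm_num) (by norm_num) (by norm_num) (by norm_num) (by norm_num) (by norm_num) (by norm_num) (by norm_num) (by norm_num) (by norm_num) (by norm_num) (by norm_num) (by norm_num) (by norm_num) (by norm_num) (by norm_num) (by norm_num) (by norm_num) (by norm_num) (by norm_num) (by norm_num) (by norm_num) (by norm_num) (by norm_num) (by norm_num) (by norm_num) (by norm_num) (by norm_num) (by norm_num) (by norm_num) (by norm_num) (by norm_num) (by norm_num) (by norm_num) (by norm_num) (by norm_num) (by norm_num) (by norm_num)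

include HP HG t1 t3 t5 in
lemma leaf_pm_29
    (h1 : ‖g1 - ⟨(2691 / 5000), (2691 / 5000)⟩‖ ≤ (309 / 5000))
    (h2 : ‖g2 - ⟨(3 / 25), (1 / 5)⟩‖ ≤ (56569 / 1000000))
    (h3 : ‖g3 - ⟨(25073 / 100000), (37073 / 100000)⟩‖ ≤ (42427 / 500000))
    (h4 : ‖g4 - ⟨(-1 / 25), (7 / 25)⟩‖ ≤ (56569 / 1000000))
    (h5 : ‖g5 - ⟨(-33069 / 100000), (-33069 / 100000)⟩‖ ≤ (1591 / 12500)) : False :=
  kill HP HG h1 h2 h3 h4 h5 t1 t3 t5
    2975 (-1198) (-993) (-585) (-2153) 2019 0 3024 (-1679) 2168 (-2221) (-869) 5299 (-366) 631 1515 1733 488 0 (-2739) 2302 (-2388) (-1778) (-1226)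
    (-16483380) 7104568 (-6423201) (-11451793) 6006525 23197780 (-11101510) 19874048 (-11671869) (-2585275) (-3119878) 9997486 9749325 12362573 2585912 (-18434802) 11418561 (-9153559) (-7636274) (-6496574)
    4013 6587641 23117303 9153211 1243 18696940 15176735 13372995 14530860 6992312
    (by norm_num) (by norm_num) (by norm_num) (by norm_num) (by norm_num) (by norm_num) (by norm_num) (by norm_num) (by norm_num) (by norm_num) (by norm_num) (by norm_num) (by norm_num) (by norm_num) (by norm_num) (by norm_num) (by norm_num) (by norm_num) (by norm_num) (by norm_num) (by norm_num) (by norm_num) (by norm_num) (by norm_num) (by norm_num) (by norm_num) (by norm_num) (by norm_num) (by norm_num) (by norm_num) (by norm_num) (by norm_num) (by norm_num) (by norm_num) (by norm_num) (by norm_num) (by norm_num) (by norm_num) (by norm_num) (by norm_num) (by norm_num)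

include HP HG t1 t3 t5 in
lemma leaf_pm_30
    (h1 : ‖g1 - ⟨(2691 / 5000), (2691 / 5000)⟩‖ ≤ (309 / 5000))
    (h2 : ‖g2 - ⟨(3 / 25), (1 / 5)⟩‖ ≤ (56569 / 1000000))
    (h3 : ‖g3 - ⟨(37073 / 100000), (25073 / 100000)⟩‖ ≤ (42427 / 500000))
    (h4 : ‖g4 - ⟨(-1 / 25), (7 / 25)⟩‖ ≤ (56569 / 1000000))
    (h5 : ‖g5 - ⟨(-33069 / 100000), (-33069 / 100000)⟩‖ ≤ (1591 / 12500)) : False :=
  kill HP HG h1 h2 h3 h4 h5 t1 t3 t5
    2651 (-964) (-712) (-970) (-1064) 1677 0 2430 (-1061) 1322 (-2233) (-349) 6998 (-215) (-335) (-289) 2042 380 0 (-2366) 1575 (-2744) (-1814) (-580)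
    (-8084385) 3298741 (-7795699) (-5285362) 4445727 14913155 (-3147491) 10270539 (-9658357) (-925199) (-3168422) 2150689 789672 15580496 2659240 (-10681634) 9529916 (-14385330) (-11670592) (-4058840)
    5710 2941 3500 3748 2567 11141643 9769584 14406988 19466756 4852396
    (by norm_num) (by norm_num) (by norm_num) (by norm_num) (by norm_num) (by norm_num) (by norm_num) (by norm_num) (by norm_num) (by norm_num) (by norm_num) (by norm_num) (by norm_num) (by norm_num) (by norm_num) (by norm_num) (by norm_num) (by norm_num) (by norm_num) (by norm_num) (by norm_num) (by norm_num) (by norm_num) (by norm_num) (by norm_num) (by norm_num) (by norm_num) (by norm_num) (by norm_num) (by norm_num) (by norm_num) (by norm_num) (by norm_num) (by norm_num) (by norm_num) (by norm_num) (by norm_num) (by norm_num) (by norm_num) (by norm_num) (by norm_num)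

include HP HG t1 t3 t5 in
lemma leaf_pm_31
    (h1 : ‖g1 - ⟨(2691 / 5000), (2691 / 5000)⟩‖ ≤ (309 / 5000))
    (h2 : ‖g2 - ⟨(3 / 25), (1 / 5)⟩‖ ≤ (56569 / 1000000))
    (h3 : ‖g3 - ⟨(37073 / 100000), (37073 / 100000)⟩‖ ≤ (42427 / 500000))
    (h4 : ‖g4 - ⟨(-1 / 25), (7 / 25)⟩‖ ≤ (56569 / 1000000))
    (h5 : ‖g5 - ⟨(-33069 / 100000), (-33069 / 100000)⟩‖ ≤ (1591 / 12500)) : False :=
  kill HP HG h1 h2 h3 h4 h5 t1 t3 t5
    3153 (-1036) (-1350) (-1255) (-1781) 2167 0 3375 (-1207) 1929 (-2701) (-766) 5284 (-864) (-103) 767 2268 632 0 (-2561) 2422 (-1446) (-1481) (-1323)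
    (-11341121) 5021263 (-13228662) (-10445755) 6832551 26371759 (-3290620) 18540917 (-15036302) (-2415198) (-6986518) 1073482 2616715 14826267 3339488 (-17518422) 10570057 (-1947167) (-5063980) (-6990732)
    7049 1099812 21432212 10836037 487 18860185 10624428 3261696 15667230 7747420
    (by norm_num) (by norm_num) (by norm_num) (by norm_num) (by norm_num) (by norm_num) (by norm_num) (by norm_num) (by norm_num) (by norm_num) (by norm_num) (by norm_num) (by norm_num) (by norm_num) (by norm_num) (by norm_num) (by norm_num) (by norm_num) (by norm_num) (by norm_num) (by norm_num) (by norm_num) (by norm_num) (by norm_num) (by norm_num) (by norm_num) (by norm_num) (by norm_num) (by norm_num) (by norm_num) (by norm_num) (by norm_num) (by norm_num) (by norm_num) (by norm_num) (by norm_num) (by norm_num) (by norm_num) (by norm_num) (by norm_num) (by norm_num)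

end

end Pool.Agent.H893R3.Dig
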