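import Pool.Agent.H893R3.Dig.J4

/-!
# Certificates
-/

set_option autoImplicit false
set_option linter.unusedVariables false
set_option maxRecDepth 4000

namespace Pool.Agent.H893R3.Dig

section
variable {g1 g2 g3 g4 g5 c1 c3 c5 : ℂ}
    (HP : ∀ q : Fin 6 → ℂ, 0 ≤ nn q + 2 * (A1 q * g1 + A2 q * g2 + A3 q * g3 + A4 q * g4 +
      A5 q * g5).re)
    (HG : ∀ p : Fin 6 → ℂ, 0 ≤ (901 / 10000) * nn p + 2 * (A1 p * (g1 ^ 2 - c1) + A2 p * g2 ^ 2 +
      A3 p * (g3 ^ 2 - c3) + A4 p * g4 ^ 2 + A5 p * (g5 ^ 2 - c5)).re)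
    (t1 : ‖(⟨0, (7241481 / 12500000)⟩ : ℂ) - c1‖ ≤ 1 / 100000) (t3 : ‖(⟨0, (965531329 / 5000000000)⟩ : ℂ) - c3‖ ≤ 1 / 100000)
    (t5 : ‖(⟨0, (579316761 / 5000000000)⟩ : ℂ) - c5‖ ≤ 1 / 100000)

include HP HG t1 t3 t5 in
lemma leaf_pp_0
    (h1 : ‖g1 - ⟨(2691 / 5000), (2691 / 5000)⟩‖ ≤ (309 / 5000))
    (h2 : ‖g2 - ⟨(-4 / 25), (-4 / 25)⟩‖ ≤ (56569 / 250000))
    (h3 : ‖g3 - ⟨(31073 / 100000), (31073 / 100000)⟩‖ ≤ (593 / 5000))
    (h4 : ‖g4 - ⟨0, 0⟩‖ ≤ (30017 / 100000))
    (h5 : ‖g5 - ⟨(24069 / 100000), (24069 / 100000)⟩‖ ≤ (9 / 50)) : False :=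
  kill HP HG h1 h2 h3 h4 h5 t1 t3 t5
    2361 (-3400) 2673 (-746) (-250) (-11) 0 1634 (-3406) 3494 (-1953) 727 4390 330 (-1569) (-1177) (-339) (-400) 0 (-3928) (-1280) (-1841) 389 (-412)
    (-44629989) 23088561 (-6608073) 635068 (-25971) 19996383 (-25277979) 17203839 (-7064859) 1716447 9820149 1218391 (-5651932) (-1874) (-1756000) (-23234067) (-12145723) (-9150784) 550 (-1808680)
    10620626 28780465 9150421 7093346 779 25224140 12206682 10755519 1954 2520885
    (by norm_num) (by norm_num) (by norm_num) (by norm_num) (by norm_num) (by norm_num) (by norm_num) (by norm_num) (by norm_num) (by norm_num) (by norm_num) (by norm_num) (by norm_num) (by norm_num) (by norm_num) (by norm_num) (by norm_num) (by norm_num) (by norm_num) (by norm_num) (by norm_num) (by norm_num) (by norm_num) (by norm_num) (by norm_num) (by norm_num) (by norm_num) (by norm_num) (by norm_num) (by norm_num) (by norm_num) (by norm_num) (by norm_num) (by norm_num) (by norm_num) (by norm_num) (by norm_num)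 (by norm_num) (by norm_num) (by norm_num) (by norm_num)

include HP HG t1 t3 t5 in
lemma leaf_pp_1
    (h1 : ‖g1 - ⟨(2691 / 5000), (2691 / 5000)⟩‖ ≤ (309 / 5000))
    (h2 : ‖g2 - ⟨(-4 / 25), (4 / 25)⟩‖ ≤ (56569 / 250000))
    (h3 : ‖g3 - ⟨(31073 / 100000), (31073 / 100000)⟩‖ ≤ (593 / 5000))
    (h4 : ‖g4 - ⟨0, 0⟩‖ ≤ (30017 / 100000))
    (h5 : ‖g5 - ⟨(24069 / 100000), (24069 / 100000)⟩‖ ≤ (9 / 50)) : False :=
  kill HP HG h1 h2 h3 h4 h5 t1 t3 t5
    2211 (-2944) 3136 (-2262) 1045 (-401) 0 594 (-1704) 2506 (-2075) 1212 4555 687 2010 132 (-552) (-409) 0 (-3437) (-1063) (-3925) 431 (-813)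
    (-38615285) 25838842 (-12633096) 4210967 (-886611) 10980839 (-16264738) 14146364 (-7917759) 2679732 10712107 24305823 (-1217182) (-1062) (-1862995) (-18711033) (-8517863) (-21548399) (-1059) (-3703215)
    7337767 21570296 2475 8967896 813 21560427 25755136 21582749 1500 4145426
    (by norm_num) (by norm_num) (by norm_num) (by norm_num) (by norm_num) (by norm_num) (by norm_num) (by norm_num) (by norm_num) (by norm_num) (by norm_num) (by norm_num) (by norm_num) (by norm_num) (by norm_num) (by norm_num) (by norm_num) (by norm_num) (by norm_num) (by norm_num) (by norm_num) (by norm_num) (by norm_num) (by norm_num) (by norm_num) (by norm_num) (by norm_num) (by norm_num) (by norm_num) (by norm_num) (by norm_num) (by norm_num) (by norm_num) (by norm_num) (by norm_num) (by norm_num) (by norm_num) (by norm_num) (by norm_num) (by norm_num) (by norm_num)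

include HP HG t1 t3 t5 in
lemma leaf_pp_2
    (h1 : ‖g1 - ⟨(2691 / 5000), (2691 / 5000)⟩‖ ≤ (309 / 5000))
    (h2 : ‖g2 - ⟨(4 / 25), (-4 / 25)⟩‖ ≤ (56569 / 250000))
    (h3 : ‖g3 - ⟨(31073 / 100000), (31073 / 100000)⟩‖ ≤ (593 / 5000))
    (h4 : ‖g4 - ⟨0, 0⟩‖ ≤ (30017 / 100000))
    (h5 : ‖g5 - ⟨(24069 / 100000), (24069 / 100000)⟩‖ ≤ (9 / 50)) : False :=
  kill HP HG h1 h2 h3 h4 h5 t1 t3 t5
    2671 (-3296) 517 1635 (-690) (-348) 0 2928 (-4564) 2384 (-311) 338 4150 375 (-2745) (-1231) (-440) 7 0 (-3976) 734 (-32) 35 (-459)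
    (-35640893) 4271785 4008169 293682 (-929508) 30839551 (-26763073) 7999514 (-925785) 902798 1485473 (-10486582) (-5768931) 1609 29050 (-26003326) (-1068218) (-614298) 957 (-1904850)
    7511029 23756139 4112112 971251 1444 26045722 10540849 5801546 1873 1905072
    (by norm_num) (by norm_num) (by norm_num) (by norm_num) (by norm_num) (by norm_num) (by norm_num) (by norm_num) (by norm_num) (by norm_num) (by norm_num) (by norm_num) (by norm_num) (by norm_num) (by norm_num) (by norm_num) (by norm_num) (by norm_num) (by norm_num) (by norm_num) (by norm_num) (by norm_num) (by norm_num) (by norm_num) (by norm_num) (by norm_num) (by norm_num) (by norm_num) (by norm_num) (by norm_num) (by norm_num) (by norm_num) (by norm_num) (by norm_num) (by norm_num) (by norm_num) (by norm_num) (by norm_num) (by norm_num) (by norm_num) (by norm_num)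

include HP HG t1 t3 t5 in
lemma leaf_pp_3
    (h1 : ‖g1 - ⟨(2691 / 5000), (2691 / 5000)⟩‖ ≤ (309 / 5000))
    (h2 : ‖g2 - ⟨(2 / 25), (2 / 25)⟩‖ ≤ (56569 / 500000))
    (h3 : ‖g3 - ⟨(31073 / 100000), (31073 / 100000)⟩‖ ≤ (593 / 5000))
    (h4 : ‖g4 - ⟨0, 0⟩‖ ≤ (30017 / 100000))
    (h5 : ‖g5 - ⟨(24069 / 100000), (24069 / 100000)⟩‖ ≤ (9 / 50)) : False :=
  kill HP HG h1 h2 h3 h4 h5 t1 t3 t5
    2650 (-3457) 1389 523 (-295) (-334) 0 2288 (-3950) 2557 (-961) 597 4415 292 (-1491) (-1252) (-606) (-164) 0 (-4689) (-492) (-1899) 213 (-580)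
    (-35460875) 12461297 (-2615079) 1738824 (-885100) 21912464 (-21837483) 10283120 (-3846287) 1582050 6291905 4061560 (-6173405) (-3758) (-724060) (-26652531) (-8798327) (-10379331) 2039 (-2560700)
    3750 26857930 3952 4221071 1285 27385133 9690554 12076483 4276 2661099
    (by norm_num) (by norm_num) (by norm_num) (by norm_num) (by norm_num) (by norm_num) (by norm_num) (by norm_num) (by norm_num) (by norm_num) (by norm_num) (by norm_num) (by norm_num) (by norm_num) (by norm_num) (by norm_num) (by norm_num) (by norm_num) (by norm_num) (by norm_num) (by norm_num) (by norm_num) (by norm_num) (by norm_num) (by norm_num) (by norm_num) (by norm_num) (by norm_num) (by norm_num) (by norm_num) (by norm_num) (by norm_num) (by norm_num) (by norm_num) (by norm_num) (by norm_num) (by norm_num) (by norm_num) (by norm_num) (by norm_num) (by norm_num)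

include HP HG t1 t3 t5 in
lemma leaf_pp_4
    (h1 : ‖g1 - ⟨(2691 / 5000), (2691 / 5000)⟩‖ ≤ (309 / 5000))
    (h2 : ‖g2 - ⟨(2 / 25), (6 / 25)⟩‖ ≤ (56569 / 500000))
    (h3 : ‖g3 - ⟨(31073 / 100000), (31073 / 100000)⟩‖ ≤ (593 / 5000))
    (h4 : ‖g4 - ⟨(-4 / 25), (-4 / 25)⟩‖ ≤ (56569 / 250000))
    (h5 : ‖g5 - ⟨(24069 / 100000), (24069 / 100000)⟩‖ ≤ (9 / 50)) : False :=
  kill HP HG h1 h2 h3 h4 h5 t1 t3 t5
    3376 (-3034) (-869) (-707) 1299 474 0 3615 (-2591) 361 (-2651) 1825 4133 87 (-135) 1514 (-2069) (-1317) 0 (-3161) 1213 (-2267) (-1804) (-835)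
    (-23391424) 6579926 (-21051844) 9544683 1600224 26093790 (-3078646) 4208194 (-16200336) 6161200 (-1252313) 4729820 10944743 (-6026321) (-5443161) (-22985986) 8105262 (-14356322) (-11691614) (-3451055)
    4570 3480624 5722768 13064228 1986077 23020075 9384374 18052462 13153342 6444982
    (by norm_num) (by norm_num) (by norm_num) (by norm_num) (by norm_num) (by norm_num) (by norm_num) (by norm_num) (by norm_num) (by norm_num) (by norm_num) (by norm_num) (by norm_num) (by norm_num) (by norm_num) (by norm_num) (by norm_num) (by norm_num) (by norm_num) (by norm_num) (by norm_num) (by norm_num) (by norm_num) (by norm_num) (by norm_num) (by norm_num) (by norm_num) (by norm_num) (by norm_num) (by norm_num) (by norm_num) (by norm_num) (by norm_num) (by norm_num) (by norm_num) (by norm_num) (by norm_num) (by norm_num) (by norm_num) (by norm_num) (by norm_num)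

include HP HG t1 t3 t5 in
lemma leaf_pp_5
    (h1 : ‖g1 - ⟨(2691 / 5000), (2691 / 5000)⟩‖ ≤ (309 / 5000))
    (h2 : ‖g2 - ⟨(2 / 25), (6 / 25)⟩‖ ≤ (56569 / 500000))
    (h3 : ‖g3 - ⟨(31073 / 100000), (31073 / 100000)⟩‖ ≤ (593 / 5000))
    (h4 : ‖g4 - ⟨(-6 / 25), (2 / 25)⟩‖ ≤ (56569 / 500000))
    (h5 : ‖g5 - ⟨(24069 / 100000), (24069 / 100000)⟩‖ ≤ (9 / 50)) : False :=
  kill HP HG h1 h2 h3 h4 h5 t1 t3 t5
    3387 (-3435) (-405) (-261) 1961 (-510) 0 3241 (-2899) 227 (-1699) 1911 4118 119 (-156) 2141 (-979) (-786) 0 (-3353) 1132 (-2015) (-2157) (-1580)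
    (-25335590) 4958610 (-18459940) 14587308 (-1727370) 24278636 (-3762724) (-2003132) (-10665888) 6472557 488776 5580540 14266614 1172684 (-3236748) (-23044690) 8078714 (-10700808) (-11706004) (-6506440)
    4204 1984700 2951373 16623485 1788971 23049873 9818760 17833777 11764596 7267070
    (by norm_num) (by norm_num) (by norm_num) (by norm_num) (by norm_num) (by norm_num) (by norm_num) (by norm_num) (by norm_num) (by norm_num) (by norm_num) (by norm_num) (by norm_num) (by norm_num) (by norm_num) (by norm_num) (by norm_num) (by norm_num) (by norm_num) (by norm_num) (by norm_num) (by norm_num) (by norm_num) (by norm_num) (by norm_num) (by norm_num) (by norm_num) (by norm_num) (by norm_num) (by norm_num) (by norm_num) (by norm_num) (by norm_num) (by norm_num) (by norm_num) (by norm_num) (by norm_num) (by norm_num) (by norm_num) (by norm_num) (by norm_num)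

include HP HG t1 t3 t5 in
lemma leaf_pp_6
    (h1 : ‖g1 - ⟨(2691 / 5000), (2691 / 5000)⟩‖ ≤ (309 / 5000))
    (h2 : ‖g2 - ⟨(2 / 25), (6 / 25)⟩‖ ≤ (56569 / 500000))
    (h3 : ‖g3 - ⟨(31073 / 100000), (31073 / 100000)⟩‖ ≤ (593 / 5000))
    (h4 : ‖g4 - ⟨(-6 / 25), (6 / 25)⟩‖ ≤ (56569 / 500000))
    (h5 : ‖g5 - ⟨(24069 / 100000), (24069 / 100000)⟩‖ ≤ (9 / 50)) : False :=
  kill HP HG h1 h2 h3 h4 h5 t1 t3 t5
    3303 (-3565) (-26) 108 1971 (-1021) 0 3049 (-3175) 447 (-895) 1515 4111 8 56 2493 11 (-300) 0 (-3670) 1049 (-1927) (-1887) (-1930)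
    (-26340626) 4249321 (-14182325) 14769313 (-3372363) 22894847 (-5508670) (-4623528) (-5244131) 5004045 1603973 8314613 15132731 7125921 (-1233300) (-22866951) 7939532 (-7690003) (-8873897) (-7934230)
    7379 1785894 2131 15797258 608908 22923137 11496476 16974561 11380897 8029511
    (by norm_num) (by norm_num) (by norm_num) (by norm_num) (by norm_num) (by norm_num) (by norm_num) (by norm_num) (by norm_num) (by norm_num) (by norm_num) (by norm_num) (by norm_num) (by norm_num) (by norm_num) (by norm_num) (by norm_num) (by norm_num) (by norm_num) (by norm_num) (by norm_num) (by norm_num) (by norm_num) (by norm_num) (by norm_num) (by norm_num) (by norm_num) (by norm_num) (by norm_num) (by norm_num) (by norm_num) (by norm_num) (by norm_num) (by norm_num) (by norm_num) (by norm_num) (by norm_num) (by norm_num) (by norm_num) (by norm_num) (by norm_num)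

include HP HG t1 t3 t5 in
lemma leaf_pp_7
    (h1 : ‖g1 - ⟨(2691 / 5000), (2691 / 5000)⟩‖ ≤ (309 / 5000))
    (h2 : ‖g2 - ⟨(2 / 25), (6 / 25)⟩‖ ≤ (56569 / 500000))
    (h3 : ‖g3 - ⟨(31073 / 100000), (31073 / 100000)⟩‖ ≤ (593 / 5000))
    (h4 : ‖g4 - ⟨(-2 / 25), (2 / 25)⟩‖ ≤ (56569 / 500000))
    (h5 : ‖g5 - ⟨(24069 / 100000), (24069 / 100000)⟩‖ ≤ (9 / 50)) : False :=
  kill HP HG h1 h2 h3 h4 h5 t1 t3 t5
    3057 (-3145) (-853) 44 1297 3 0 3596 (-3235) 373 (-1683) 1517 4527 536 804 2234 (-1029) (-1066) 0 (-3339) 1669 (-2016) (-1398) (-1061)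
    (-22928738) 3499444 (-14906679) 9410626 9171 25473371 (-5523681) 484988 (-9926684) 4637469 (-1184169) 8165510 11601823 (-1686980) (-4825782) (-22482018) 10008392 (-12385481) (-10456816) (-4803147)
    3844 3461 2079 14197015 2872 22513183 12916791 16970635 10592021 6808700
    (by norm_num) (by norm_num) (by norm_num) (by norm_num) (by norm_num) (by norm_num) (by norm_num) (by norm_num) (by norm_num) (by norm_num) (by norm_num) (by norm_num) (by norm_num) (by norm_num) (by norm_num) (by norm_num) (by norm_num) (by norm_num) (by norm_num) (by norm_num) (by norm_num) (by norm_num) (by norm_num) (by norm_num) (by norm_num) (by norm_num) (by norm_num) (by norm_num) (by norm_num) (by norm_num) (by norm_num) (by norm_num) (by norm_num) (by norm_num) (by norm_num) (by norm_num) (by norm_num) (by norm_num) (by norm_num) (by norm_num) (by norm_num)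

include HP HG t1 t3 t5 in
lemma leaf_pp_8
    (h1 : ‖g1 - ⟨(2691 / 5000), (2691 / 5000)⟩‖ ≤ (309 / 5000))
    (h2 : ‖g2 - ⟨(2 / 25), (6 / 25)⟩‖ ≤ (56569 / 500000))
    (h3 : ‖g3 - ⟨(31073 / 100000), (31073 / 100000)⟩‖ ≤ (593 / 5000))
    (h4 : ‖g4 - ⟨(-2 / 25), (6 / 25)⟩‖ ≤ (56569 / 500000))
    (h5 : ‖g5 - ⟨(24069 / 100000), (24069 / 100000)⟩‖ ≤ (9 / 50)) : False :=
  kill HP HG h1 h2 h3 h4 h5 t1 t3 t5
    3280 (-3507) (-116) 179 1649 (-921) 0 3030 (-3317) 328 (-662) 1379 4278 37 577 2543 731 (-365) 0 (-3879) 1289 (-1805) (-1269) (-1831)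
    (-24608990) 2277630 (-11669090) 12817037 (-3020880) 23483193 (-6476972) (-4813917) (-4216883) 4523120 526472 10726898 13257688 10216162 (-1561470) (-22337156) 8322324 (-5519196) (-6912364) (-7833018)
    6334 3597 4754 14610802 2046 22343360 13576724 14360635 12334940 7987138
    (by norm_num) (by norm_num) (by norm_num) (by norm_num) (by norm_num) (by norm_num) (by norm_num) (by norm_num) (by norm_num) (by norm_num) (by norm_num) (by norm_num) (by norm_num) (by norm_num) (by norm_num) (by norm_num) (by norm_num) (by norm_num) (by norm_num) (by norm_num) (by norm_num) (by norm_num) (by norm_num) (by norm_num) (by norm_num) (by norm_num) (by norm_num) (by norm_num) (by norm_num) (by norm_num) (by norm_num) (by norm_num) (by norm_num) (by norm_num) (by norm_num) (by norm_num) (by norm_num) (by norm_num) (by norm_num) (by norm_num) (by norm_num)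

include HP HG t1 t3 t5 in
lemma leaf_pp_9
    (h1 : ‖g1 - ⟨(2691 / 5000), (2691 / 5000)⟩‖ ≤ (309 / 5000))
    (h2 : ‖g2 - ⟨(2 / 25), (6 / 25)⟩‖ ≤ (56569 / 500000))
    (h3 : ‖g3 - ⟨(31073 / 100000), (31073 / 100000)⟩‖ ≤ (593 / 5000))
    (h4 : ‖g4 - ⟨(4 / 25), (-4 / 25)⟩‖ ≤ (56569 / 250000))
    (h5 : ‖g5 - ⟨(24069 / 100000), (24069 / 100000)⟩‖ ≤ (9 / 50)) : False :=
  kill HP HG h1 h2 h3 h4 h5 t1 t3 t5
    2946 (-2596) (-1397) (-146) 128 976 0 3813 (-2728) 628 (-2234) 907 5074 620 1489 1535 (-2386) (-1136) 0 (-2631) 1432 (-2579) 382 42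
    (-19255240) 5000654 (-13118414) 1301783 2875296 24908403 (-6385546) 8556937 (-12657424) 2672022 (-3027193) 10434427 3672868 (-12921386) (-5764064) (-19815930) 10825849 (-17437282) (-1024508) 213108
    1226348 1515936 2988 9397942 1998 20045822 15035833 17819898 12961938 5768003
    (by norm_num) (by norm_num) (by norm_num) (by norm_num) (by norm_num) (by norm_num) (by norm_num) (by norm_num) (by norm_num) (by norm_num) (by norm_num) (by norm_num) (by norm_num) (by norm_num) (by norm_num) (by norm_num) (by norm_num) (by norm_num) (by norm_num) (by norm_num) (by norm_num) (by norm_num) (by norm_num) (by norm_num) (by norm_num) (by norm_num) (by norm_num) (by norm_num) (by norm_num) (by norm_num) (by norm_num) (by norm_num) (by norm_num) (by norm_num) (by norm_num) (by norm_num) (by norm_num) (by norm_num) (by norm_num) (by norm_num) (by norm_num)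

include HP HG t1 t3 t5 in
lemma leaf_pp_10
    (h1 : ‖g1 - ⟨(2691 / 5000), (2691 / 5000)⟩‖ ≤ (309 / 5000))
    (h2 : ‖g2 - ⟨(2 / 25), (6 / 25)⟩‖ ≤ (56569 / 500000))
    (h3 : ‖g3 - ⟨(31073 / 100000), (31073 / 100000)⟩‖ ≤ (593 / 5000))
    (h4 : ‖g4 - ⟨(2 / 25), (2 / 25)⟩‖ ≤ (56569 / 500000))
    (h5 : ‖g5 - ⟨(24069 / 100000), (24069 / 100000)⟩‖ ≤ (9 / 50)) : False :=
  kill HP HG h1 h2 h3 h4 h5 t1 t3 t5
    2440 (-2628) (-381) 281 238 412 0 3020 (-3006) 1057 (-1424) 888 5810 1699 1476 1375 (-1676) (-567) 0 (-3772) 2052 (-1204) 908 (-207)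
    (-20378321) 6768286 (-7066604) 2179744 1005280 17007479 (-9889040) 6502736 (-7052464) 2166720 1562266 14312216 454594 (-9920089) (-3294270) (-17367740) 18875091 (-10916468) 2785063 (-1202670)
    5906 1989 1102 8195386 2533 17437864 23687731 10925930 10303628 3506941
    (by norm_num) (by norm_num) (by norm_num) (by norm_num) (by norm_num) (by norm_num) (by norm_num) (by norm_num) (by norm_num) (by norm_num) (by norm_num) (by norm_num) (by norm_num) (by norm_num) (by norm_num) (by norm_num) (by norm_num) (by norm_num) (by norm_num) (by norm_num) (by norm_num) (by norm_num) (by norm_num) (by norm_num) (by norm_num) (by norm_num) (by norm_num) (by norm_num) (by norm_num) (by norm_num) (by norm_num) (by norm_num) (by norm_num) (by norm_num) (by norm_num) (by norm_num) (by norm_num) (by norm_num) (by norm_num) (by norm_num) (by norm_num)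

include HP HG t1 t3 t5 in
lemma leaf_pp_11
    (h1 : ‖g1 - ⟨(2691 / 5000), (2691 / 5000)⟩‖ ≤ (309 / 5000))
    (h2 : ‖g2 - ⟨(1 / 25), (1 / 5)⟩‖ ≤ (56569 / 1000000))
    (h3 : ‖g3 - ⟨(31073 / 100000), (31073 / 100000)⟩‖ ≤ (593 / 5000))
    (h4 : ‖g4 - ⟨(2 / 25), (6 / 25)⟩‖ ≤ (56569 / 500000))
    (h5 : ‖g5 - ⟨(24069 / 100000), (24069 / 100000)⟩‖ ≤ (9 / 50)) : False :=
  kill HP HG h1 h2 h3 h4 h5 t1 t3 t5
    2224 (-2700) 2432 (-1192) 384 (-493) 0 1107 (-2110) 2446 (-1472) 721 5907 1039 2259 499 914 (-89) 0 (-3369) (-563) (-3024) 1575 (-475)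
    (-28275838) 17725920 (-8037598) 2983263 (-1096432) 9266824 (-12400514) 9702458 (-4674677) 1603504 8074789 26620220 (-1342562) 6906802 (-525723) (-16169462) (-1220100) (-14270209) 8510159 (-2805825)
    2248570 20427525 3592 4121 1188 18073565 26648167 14333225 10960234 2854653
    (by norm_num) (by norm_num) (by norm_num) (by norm_num) (by norm_num) (by norm_num) (by norm_num) (by norm_num) (by norm_num) (by norm_num) (by norm_num) (by norm_num) (by norm_num) (by norm_num) (by norm_num) (by norm_num) (by norm_num) (by norm_num) (by norm_num) (by norm_num) (by norm_num) (by norm_num) (by norm_num) (by norm_num) (by norm_num) (by norm_num) (by norm_num) (by norm_num) (by norm_num) (by norm_num) (by norm_num) (by norm_num) (by norm_num) (by norm_num) (by norm_num) (by norm_num) (by norm_num) (by norm_num) (by norm_num) (by norm_num) (by norm_num)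

include HP HG t1 t3 t5 in
lemma leaf_pp_12
    (h1 : ‖g1 - ⟨(2691 / 5000), (2691 / 5000)⟩‖ ≤ (309 / 5000))
    (h2 : ‖g2 - ⟨(1 / 25), (7 / 25)⟩‖ ≤ (56569 / 1000000))
    (h3 : ‖g3 - ⟨(31073 / 100000), (31073 / 100000)⟩‖ ≤ (593 / 5000))
    (h4 : ‖g4 - ⟨(2 / 25), (6 / 25)⟩‖ ≤ (56569 / 500000))
    (h5 : ‖g5 - ⟨(24069 / 100000), (24069 / 100000)⟩‖ ≤ (9 / 50)) : False :=
  kill HP HG h1 h2 h3 h4 h5 t1 t3 t5
    1833 (-2372) 2630 (-2039) 1192 (-621) 0 340 (-1016) 1672 (-1455) 960 5998 1238 3364 1035 846 (-108) 0 (-2880) 207 (-2890) 1894 (-502)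
    (-24993278) 17710357 (-9668201) 3984348 (-1138293) 5679194 (-8669758) 8004620 (-4732995) 1759680 8237300 34358804 1333332 6386364 (-647784) (-13080769) 6009170 (-14219340) 10427696 (-3010996)
    2098824 20355514 4521 1247 1728 15458320 34880332 14281716 12227939 3079890
    (by norm_num) (by norm_num) (by norm_num) (by norm_num) (by norm_num) (by norm_num) (by norm_num) (by norm_num) (by norm_num) (by norm_num) (by norm_num) (by norm_num) (by norm_num) (by norm_num) (by norm_num) (by norm_num) (by norm_num) (by norm_num) (by norm_num) (by norm_num) (by norm_num) (by norm_num) (by norm_num) (by norm_num) (by norm_num) (by norm_num) (by norm_num) (by norm_num) (by norm_num) (by norm_num) (by norm_num) (by norm_num) (by norm_num) (by norm_num) (by norm_num) (by norm_num) (by norm_num) (by norm_num) (by norm_num) (by norm_num) (by norm_num)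

include HP HG t1 t3 t5 in
lemma leaf_pp_13
    (h1 : ‖g1 - ⟨(2691 / 5000), (2691 / 5000)⟩‖ ≤ (309 / 5000))
    (h2 : ‖g2 - ⟨(3 / 25), (1 / 5)⟩‖ ≤ (56569 / 1000000))
    (h3 : ‖g3 - ⟨(31073 / 100000), (31073 / 100000)⟩‖ ≤ (593 / 5000))
    (h4 : ‖g4 - ⟨(1 / 25), (1 / 5)⟩‖ ≤ (56569 / 1000000))
    (h5 : ‖g5 - ⟨(24069 / 100000), (24069 / 100000)⟩‖ ≤ (9 / 50)) : False :=
  kill HP HG h1 h2 h3 h4 h5 t1 t3 t5
    2302 (-2856) 65 925 222 (-436) 0 2577 (-3328) 1078 (-435) 720 5848 1307 1490 1501 179 (-116) 0 (-4268) 1639 (-974) 1833 (-473)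
    (-19537439) 2120806 (-2050177) 3611700 (-1003672) 17746476 (-11277000) 1747614 (-1934118) 1657440 831182 18389942 240470 2913944 (-678368) (-17315530) 16332954 (-3050895) 9606085 (-2766104)
    5106 1646 4840 2383 1478 17335468 24595841 3060358 10038324 2848073
    (by norm_num) (by norm_num) (by norm_num) (by norm_num) (by norm_num) (by norm_num) (by norm_num) (by norm_num) (by norm_num) (by norm_num) (by norm_num) (by norm_num) (by norm_num) (by norm_num) (by norm_num) (by norm_num) (by norm_num) (by norm_num) (by norm_num) (by norm_num) (by norm_num) (by norm_num) (by norm_num) (by norm_num) (by norm_num) (by norm_num) (by norm_num) (by norm_num) (by norm_num) (by norm_num) (by norm_num) (by norm_num) (by norm_num) (by norm_num) (by norm_num) (by norm_num) (by norm_num) (by norm_num) (by norm_num) (by norm_num) (by norm_num)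

include HP HG t1 t3 t5 in
lemma leaf_pp_14
    (h1 : ‖g1 - ⟨(2691 / 5000), (2691 / 5000)⟩‖ ≤ (309 / 5000))
    (h2 : ‖g2 - ⟨(3 / 25), (1 / 5)⟩‖ ≤ (56569 / 1000000))
    (h3 : ‖g3 - ⟨(31073 / 100000), (31073 / 100000)⟩‖ ≤ (593 / 5000))
    (h4 : ‖g4 - ⟨(1 / 25), (7 / 25)⟩‖ ≤ (56569 / 1000000))
    (h5 : ‖g5 - ⟨(15069 / 100000), (15069 / 100000)⟩‖ ≤ (1591 / 12500)) : False :=
  kill HP HG h1 h2 h3 h4 h5 t1 t3 t5
    2648 (-2960) (-430) 825 665 (-240) 0 2927 (-3534) 847 (-646) 960 4803 229 1227 1459 2141 1494 0 (-3651) 1447 (-1454) 525 (-2892)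
    (-21035643) 1510663 (-4964082) 5281240 (-635520) 21408441 (-10656757) 947601 (-3849728) 2542080 (-175149) 21307342 3229505 21184041 7175682 (-19716977) 7442780 (-4756848) 7313901 (-13890276)
    3540 3663835 1812 9068006 5736812 19717755 22569843 5749549 22411086 15634263
    (by norm_num) (by norm_num) (by norm_num) (by norm_num) (by norm_num) (by norm_num) (by norm_num) (by norm_num) (by norm_num) (by norm_num) (by norm_num) (by norm_num) (by norm_num) (by norm_num) (by norm_num) (by norm_num) (by norm_num) (by norm_num) (by norm_num) (by norm_num) (by norm_num) (by norm_num) (by norm_num) (by norm_num) (by norm_num) (by norm_num) (by norm_num) (by norm_num) (by norm_num) (by norm_num) (by norm_num) (by norm_num) (by norm_num) (by norm_num) (by norm_num) (by norm_num) (by norm_num) (by norm_num) (by norm_num) (by norm_num) (by norm_num)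

include HP HG t1 t3 t5 in
lemma leaf_pp_15
    (h1 : ‖g1 - ⟨(2691 / 5000), (2691 / 5000)⟩‖ ≤ (309 / 5000))
    (h2 : ‖g2 - ⟨(3 / 25), (1 / 5)⟩‖ ≤ (56569 / 1000000))
    (h3 : ‖g3 - ⟨(31073 / 100000), (31073 / 100000)⟩‖ ≤ (593 / 5000))
    (h4 : ‖g4 - ⟨(1 / 25), (7 / 25)⟩‖ ≤ (56569 / 1000000))
    (h5 : ‖g5 - ⟨(15069 / 100000), (33069 / 100000)⟩‖ ≤ (1591 / 12500)) : False :=
  kill HP HG h1 h2 h3 h4 h5 t1 t3 t5
    2941 (-2797) (-723) 650 724 (-68) 0 3374 (-3386) 580 (-1069) 1155 4608 904 139 1724 722 2278 0 (-4484) 1034 (-1823) 644 (-850)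
    (-21495287) 1734409 (-7581850) 6216450 (-199988) 23263296 (-9759045) 1187684 (-6145032) 3396855 (-822482) 16616416 5146926 9197688 10497024 (-20794543) 12877458 (-7054362) 12413704 (-3916800)
    5894 571785 2413 1365 10711398 20810803 21022232 8732404 15449839 11203966
    (by norm_num) (by norm_num) (by norm_num) (by norm_num) (by norm_num) (by norm_num) (by norm_num) (by norm_num) (by norm_num) (by norm_num) (by norm_num) (by norm_num) (by norm_num) (by norm_num) (by norm_num) (by norm_num) (by norm_num) (by norm_num) (by norm_num) (by norm_num) (by norm_num) (by norm_num) (by norm_num) (by norm_num) (by norm_num) (by norm_num) (by norm_num) (by norm_num) (by norm_num) (by norm_num) (by norm_num) (by norm_num) (by norm_num) (by norm_num) (by norm_num) (by norm_num) (by norm_num) (by norm_num) (by norm_num) (by norm_num) (by norm_num)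

include HP HG t1 t3 t5 in
lemma leaf_pp_16
    (h1 : ‖g1 - ⟨(2691 / 5000), (2691 / 5000)⟩‖ ≤ (309 / 5000))
    (h2 : ‖g2 - ⟨(3 / 25), (1 / 5)⟩‖ ≤ (56569 / 1000000))
    (h3 : ‖g3 - ⟨(31073 / 100000), (31073 / 100000)⟩‖ ≤ (593 / 5000))
    (h4 : ‖g4 - ⟨(1 / 25), (7 / 25)⟩‖ ≤ (56569 / 1000000))
    (h5 : ‖g5 - ⟨(33069 / 100000), (15069 / 100000)⟩‖ ≤ (1591 / 12500)) : False :=
  kill HP HG h1 h2 h3 h4 h5 t1 t3 t5
    2630 (-2766) (-179) 784 511 (-450) 0 2740 (-3326) 977 (-532) 837 5823 1210 1361 1634 182 39 0 (-4188) 1564 (-944) 1632 (-589)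
    (-20076918) 2180578 (-3512498) 4882010 (-1183500) 18601049 (-10707250) 994359 (-2481302) 2201310 692696 17275607 2032069 3573708 227097 (-17967126) 15819018 (-3622601) 8953778 (-3429747)
    10930 989 6134 281920 1432 17980474 23424089 4153618 9640619 3437258
    (by norm_num) (by norm_num) (by norm_num) (by norm_num) (by norm_num) (by norm_num) (by norm_num) (by norm_num) (by norm_num) (by norm_num) (by norm_num) (by norm_num) (by norm_num) (by norm_num) (by norm_num) (by norm_num) (by norm_num) (by norm_num) (by norm_num) (by norm_num) (by norm_num) (by norm_num) (by norm_num) (by norm_num) (by norm_num) (by norm_num) (by norm_num) (by norm_num) (by norm_num) (by norm_num) (by norm_num) (by norm_num) (by norm_num) (by norm_num) (by norm_num) (by norm_num) (by norm_num) (by norm_num) (by norm_num) (by norm_num) (by norm_num)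

include HP HG t1 t3 t5 in
lemma leaf_pp_17
    (h1 : ‖g1 - ⟨(2691 / 5000), (2691 / 5000)⟩‖ ≤ (309 / 5000))
    (h2 : ‖g2 - ⟨(3 / 25), (1 / 5)⟩‖ ≤ (56569 / 1000000))
    (h3 : ‖g3 - ⟨(31073 / 100000), (31073 / 100000)⟩‖ ≤ (593 / 5000))
    (h4 : ‖g4 - ⟨(1 / 25), (7 / 25)⟩‖ ≤ (56569 / 1000000))
    (h5 : ‖g5 - ⟨(33069 / 100000), (33069 / 100000)⟩‖ ≤ (1591 / 12500)) : False :=
  kill HP HG h1 h2 h3 h4 h5 t1 t3 t5
    2733 (-2832) (-95) 774 598 (-565) 0 2673 (-3305) 995 (-473) 897 5741 1129 1264 1691 320 136 0 (-4242) 1422 (-1109) 1747 (-157)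
    (-20437020) 2169692 (-3753433) 5632095 (-1544145) 18690598 (-10641529) 507877 (-2322768) 2451501 809885 17162944 2607187 2656658 780776 (-18171149) 15723368 (-3428806) 10429186 (-901337)
    6531 2798 3571 4342 2410720 18189189 23276404 4307452 10762238 1192485
    (by norm_num) (by norm_num) (by norm_num) (by norm_num) (by norm_num) (by norm_num) (by norm_num) (by norm_num) (by norm_num) (by norm_num) (by norm_num) (by norm_num) (by norm_num) (by norm_num) (by norm_num) (by norm_num) (by norm_num) (by norm_num) (by norm_num) (by norm_num) (by norm_num) (by norm_num) (by norm_num) (by norm_num) (by norm_num) (by norm_num) (by norm_num) (by norm_num) (by norm_num) (by norm_num) (by norm_num) (by norm_num) (by norm_num) (by norm_num) (by norm_num) (by norm_num) (by norm_num) (by norm_num) (by norm_num) (by norm_num) (by norm_num)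

include HP HG t1 t3 t5 in
lemma leaf_pp_18
    (h1 : ‖g1 - ⟨(2691 / 5000), (2691 / 5000)⟩‖ ≤ (309 / 5000))
    (h2 : ‖g2 - ⟨(3 / 25), (1 / 5)⟩‖ ≤ (56569 / 1000000))
    (h3 : ‖g3 - ⟨(31073 / 100000), (31073 / 100000)⟩‖ ≤ (593 / 5000))
    (h4 : ‖g4 - ⟨(3 / 25), (1 / 5)⟩‖ ≤ (56569 / 1000000))
    (h5 : ‖g5 - ⟨(24069 / 100000), (24069 / 100000)⟩‖ ≤ (9 / 50)) : False :=
  kill HP HG h1 h2 h3 h4 h5 t1 t3 t5
    2364 (-2914) 9 821 291 (-281) 0 2528 (-3283) 1105 (-482) 714 5959 1418 1468 1385 (-81) (-178) 0 (-4127) 1813 (-956) 1707 (-410)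
    (-19554290) 2565616 (-2472217) 3311750 (-664284) 17580445 (-11208756) 2365023 (-2509676) 1687896 919658 17778467 88934 956987 (-1060702) (-17254121) 17078665 (-3889731) 8856027 (-2443190)
    8206 1802 3002 1740 1705 17278613 24652682 3890748 8907584 2663507
    (by norm_num) (by norm_num) (by norm_num) (by norm_num) (by norm_num) (by norm_num) (by norm_num) (by norm_num) (by norm_num) (by norm_num) (by norm_num) (by norm_num) (by norm_num) (by norm_num) (by norm_num) (by norm_num) (by norm_num) (by norm_num) (by norm_num) (by norm_num) (by norm_num) (by norm_num) (by norm_num) (by norm_num) (by norm_num) (by norm_num) (by norm_num) (by norm_num) (by norm_num) (by norm_num) (by norm_num) (by norm_num) (by norm_num) (by norm_num) (by norm_num) (by norm_num) (by norm_num) (by norm_num) (by norm_num) (by norm_num) (by norm_num)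

include HP HG t1 t3 t5 in
lemma leaf_pp_19
    (h1 : ‖g1 - ⟨(2691 / 5000), (2691 / 5000)⟩‖ ≤ (309 / 5000))
    (h2 : ‖g2 - ⟨(3 / 25), (1 / 5)⟩‖ ≤ (56569 / 1000000))
    (h3 : ‖g3 - ⟨(31073 / 100000), (31073 / 100000)⟩‖ ≤ (593 / 5000))
    (h4 : ‖g4 - ⟨(3 / 25), (7 / 25)⟩‖ ≤ (56569 / 1000000))
    (h5 : ‖g5 - ⟨(15069 / 100000), (15069 / 100000)⟩‖ ≤ (1591 / 12500)) : False :=
  kill HP HG h1 h2 h3 h4 h5 t1 t3 t5
    2100 (-2473) (-520) 1285 (-239) 170 0 2672 (-3383) 1080 (-445) 432 5270 1194 2485 140 1794 1895 0 (-3057) 1032 (-955) 3065 (-2100)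
    (-18289141) 930680 550651 231994 357000 18811051 (-13414277) 4357563 (-2457076) 907200 (-245799) 26074515 (-3947994) 18136710 9986650 (-17232397) 12007192 (-3063122) 19438165 (-11067000)
    5374 2387899 857 13877374 6727338 17234150 28706324 4996937 26585382 14906766
    (by norm_num) (by norm_num) (by norm_num) (by norm_num) (by norm_num) (by norm_num) (by norm_num) (by norm_num) (by norm_num) (by norm_num) (by norm_num) (by norm_num) (by norm_num) (by norm_num) (by norm_num) (by norm_num) (by norm_num) (by norm_num) (by norm_num) (by norm_num) (by norm_num) (by norm_num) (by norm_num) (by norm_num) (by norm_num) (by norm_num) (by norm_num) (by norm_num) (by norm_num) (by norm_num) (by norm_num) (by norm_num) (by norm_num) (by norm_num) (by norm_num) (by norm_num) (by norm_num) (by norm_num) (by norm_num) (by norm_num) (by norm_num)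

include HP HG t1 t3 t5 in
lemma leaf_pp_20
    (h1 : ‖g1 - ⟨(2691 / 5000), (2691 / 5000)⟩‖ ≤ (309 / 5000))
    (h2 : ‖g2 - ⟨(3 / 25), (1 / 5)⟩‖ ≤ (56569 / 1000000))
    (h3 : ‖g3 - ⟨(31073 / 100000), (31073 / 100000)⟩‖ ≤ (593 / 5000))
    (h4 : ‖g4 - ⟨(3 / 25), (7 / 25)⟩‖ ≤ (56569 / 1000000))
    (h5 : ‖g5 - ⟨(15069 / 100000), (33069 / 100000)⟩‖ ≤ (1591 / 12500)) : False :=
  kill HP HG h1 h2 h3 h4 h5 t1 t3 t5
    2497 (-2732) (-678) 1019 265 118 0 3069 (-3499) 786 (-690) 798 4500 696 959 1371 1495 3397 0 (-3578) 1665 (-1245) 2513 (-759)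
    (-19940690) 917470 (-3169353) 2788391 294646 21717406 (-11896197) 2906275 (-4265208) 1992606 (-823934) 20944418 212494 11807514 15286500 (-19352296) 14640886 (-4888228) 22934702 (-3415500)
    3252 87898 733 10667223 13186945 19369828 25554338 4892845 25795697 15663420
    (by norm_num) (by norm_num) (by norm_num) (by norm_num) (by norm_num) (by norm_num) (by norm_num) (by norm_num) (by norm_num) (by norm_num) (by norm_num) (by norm_num) (by norm_num) (by norm_num) (by norm_num) (by norm_num) (by norm_num) (by norm_num) (by norm_num) (by norm_num) (by norm_num) (by norm_num) (by norm_num) (by norm_num) (by norm_num) (by norm_num) (by norm_num) (by norm_num) (by norm_num) (by norm_num) (by norm_num) (by norm_num) (by norm_num) (by norm_num) (by norm_num) (by norm_num) (by norm_num) (by norm_num) (by norm_num) (by norm_num) (by norm_num)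

include HP HG t1 t3 t5 in
lemma leaf_pp_21
    (h1 : ‖g1 - ⟨(2691 / 5000), (2691 / 5000)⟩‖ ≤ (309 / 5000))
    (h2 : ‖g2 - ⟨(3 / 25), (1 / 5)⟩‖ ≤ (56569 / 1000000))
    (h3 : ‖g3 - ⟨(31073 / 100000), (31073 / 100000)⟩‖ ≤ (593 / 5000))
    (h4 : ‖g4 - ⟨(3 / 25), (7 / 25)⟩‖ ≤ (56569 / 1000000))
    (h5 : ‖g5 - ⟨(33069 / 100000), (15069 / 100000)⟩‖ ≤ (1591 / 12500)) : False :=
  kill HP HG h1 h2 h3 h4 h5 t1 t3 t5
    2366 (-2764) 213 996 236 (-387) 0 2452 (-3362) 1103 (-366) 673 5855 1287 1541 1466 233 41 0 (-4256) 1631 (-956) 2003 (-430)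
    (-19374410) 2093197 (-1538257) 3278240 (-915642) 17547557 (-11632733) 1884905 (-1777204) 1592318 851959 19075165 (-279616) 3247062 240055 (-17148696) 16673845 (-2757372) 11348651 (-2517650)
    5941 1944 2920 3594961 1950 17169846 25335332 2771514 11804038 2529069
    (by norm_num) (by norm_num) (by norm_num) (by norm_num) (by norm_num) (by norm_num) (by norm_num) (by norm_num) (by norm_num) (by norm_num) (by norm_num) (by norm_num) (by norm_num) (by norm_num) (by norm_num) (by norm_num) (by norm_num) (by norm_num) (by norm_num) (by norm_num) (by norm_num) (by norm_num) (by norm_num) (by norm_num) (by norm_num) (by norm_num) (by norm_num) (by norm_num) (by norm_num) (by norm_num) (by norm_num) (by norm_num) (by norm_num) (by norm_num) (by norm_num) (by norm_num) (by norm_num) (by norm_num) (by norm_num) (by norm_num) (by norm_num)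

include HP HG t1 t3 t5 in
lemma leaf_pp_22
    (h1 : ‖g1 - ⟨(2691 / 5000), (2691 / 5000)⟩‖ ≤ (309 / 5000))
    (h2 : ‖g2 - ⟨(3 / 25), (1 / 5)⟩‖ ≤ (56569 / 1000000))
    (h3 : ‖g3 - ⟨(31073 / 100000), (31073 / 100000)⟩‖ ≤ (593 / 5000))
    (h4 : ‖g4 - ⟨(3 / 25), (7 / 25)⟩‖ ≤ (56569 / 1000000))
    (h5 : ‖g5 - ⟨(33069 / 100000), (33069 / 100000)⟩‖ ≤ (1591 / 12500)) : False :=
  kill HP HG h1 h2 h3 h4 h5 t1 t3 t5
    2676 (-2864) (-65) 782 648 (-415) 0 2672 (-3363) 990 (-531) 871 5680 1224 1266 1698 65 79 0 (-4305) 1478 (-1089) 1673 (-87)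
    (-20594415) 2513085 (-4084270) 5249920 (-1110540) 18808381 (-10618541) 986308 (-2806620) 2330796 827297 16741246 2493363 840431 448720 (-18307799) 16332247 (-4084847) 9736247 (-494160)
    8063 2996 4703 988 2351708 18326482 23388280 4785691 9772453 667491
    (by norm_num) (by norm_num) (by norm_num) (by norm_num) (by norm_num) (by norm_num) (by norm_num) (by norm_num) (by norm_num) (by norm_num) (by norm_num) (by norm_num) (by norm_num) (by norm_num) (by norm_num) (by norm_num) (by norm_num) (by norm_num) (by norm_num) (by norm_num) (by norm_num) (by norm_num) (by norm_num) (by norm_num) (by norm_num) (by norm_num) (by norm_num) (by norm_num) (by norm_num) (by norm_num) (by norm_num) (by norm_num) (by norm_num) (by norm_num) (by norm_num) (by norm_num) (by norm_num) (by norm_num) (by norm_num) (by norm_num) (by norm_num)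

include HP HG t1 t3 t5 in
lemma leaf_pp_23
    (h1 : ‖g1 - ⟨(2691 / 5000), (2691 / 5000)⟩‖ ≤ (309 / 5000))
    (h2 : ‖g2 - ⟨(3 / 25), (7 / 25)⟩‖ ≤ (56569 / 1000000))
    (h3 : ‖g3 - ⟨(31073 / 100000), (31073 / 100000)⟩‖ ≤ (593 / 5000))
    (h4 : ‖g4 - ⟨(2 / 25), (6 / 25)⟩‖ ≤ (56569 / 500000))
    (h5 : ‖g5 - ⟨(24069 / 100000), (24069 / 100000)⟩‖ ≤ (9 / 50)) : False :=
  kill HP HG h1 h2 h3 h4 h5 t1 t3 t5
    1959 (-2191) 1782 (-1673) 1410 (-754) 0 590 (-878) 817 (-1126) 1062 6097 1312 4136 1694 504 (-103) 0 (-2593) 1837 (-2113) 2143 (-606)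
    (-17950987) 13268855 (-9307121) 5040784 (-1477086) 3395372 (-4452239) 4466141 (-4087816) 2080458 6762205 40045960 3893537 4509110 (-627991) (-9915476) 19513872 (-11081678) 12003720 (-3694782)
    1475 25616108 1180 2885 908 12001837 44547392 11745775 12822690 3747771
    (by norm_num) (by norm_num) (by norm_num) (by norm_num) (by norm_num) (by norm_num) (by norm_num) (by norm_num) (by norm_num) (by norm_num) (by norm_num) (by norm_num) (by norm_num) (by norm_num) (by norm_num) (by norm_num) (by norm_num) (by norm_num) (by norm_num) (by norm_num) (by norm_num) (by norm_num) (by norm_num) (by norm_num) (by norm_num) (by norm_num) (by norm_num) (by norm_num) (by norm_num) (by norm_num) (by norm_num) (by norm_num) (by norm_num) (by norm_num) (by norm_num) (by norm_num) (by norm_num) (by norm_num) (by norm_num) (by norm_num) (by norm_num)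

include HP HG t1 t3 t5 in
lemma leaf_pp_24
    (h1 : ‖g1 - ⟨(2691 / 5000), (2691 / 5000)⟩‖ ≤ (309 / 5000))
    (h2 : ‖g2 - ⟨(2 / 25), (6 / 25)⟩‖ ≤ (56569 / 500000))
    (h3 : ‖g3 - ⟨(31073 / 100000), (31073 / 100000)⟩‖ ≤ (593 / 5000))
    (h4 : ‖g4 - ⟨(6 / 25), (2 / 25)⟩‖ ≤ (56569 / 500000))
    (h5 : ‖g5 - ⟨(24069 / 100000), (24069 / 100000)⟩‖ ≤ (9 / 50)) : False :=
  kill HP HG h1 h2 h3 h4 h5 t1 t3 t5
    2417 (-1848) (-1085) 80 (-797) 1078 0 3453 (-2457) 1293 (-1882) 280 5501 1392 2369 877 (-2710) (-619) 0 (-2572) 1927 (-2220) 1677 364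
    (-18092570) 7631543 (-6689920) (-2951653) 2605526 18112194 (-9891986) 11700004 (-8788568) 676760 (-13223) 15423139 (-4026170) (-16705566) (-3405119) (-16816127) 17905862 (-14792827) 8139797 2002364
    6604 1550721 4882 14411360 2893 16816133 23632459 15330942 18583117 3950228
    (by norm_num) (by norm_num) (by norm_num) (by norm_num) (by norm_num) (by norm_num) (by norm_num) (by norm_num) (by norm_num) (by norm_num) (by norm_num) (by norm_num) (by norm_num) (by norm_num) (by norm_num) (by norm_num) (by norm_num) (by norm_num) (by norm_num) (by norm_num) (by norm_num) (by norm_num) (by norm_num) (by norm_num) (by norm_num) (by norm_num) (by norm_num) (by norm_num) (by norm_num) (by norm_num) (by norm_num) (by norm_num) (by norm_num) (by norm_num) (by norm_num) (by norm_num) (by norm_num) (by norm_num) (by norm_num) (by norm_num) (by norm_num)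

include HP HG t1 t3 t5 in
lemma leaf_pp_25
    (h1 : ‖g1 - ⟨(2691 / 5000), (2691 / 5000)⟩‖ ≤ (309 / 5000))
    (h2 : ‖g2 - ⟨(2 / 25), (6 / 25)⟩‖ ≤ (56569 / 500000))
    (h3 : ‖g3 - ⟨(31073 / 100000), (31073 / 100000)⟩‖ ≤ (593 / 5000))
    (h4 : ‖g4 - ⟨(6 / 25), (6 / 25)⟩‖ ≤ (56569 / 500000))
    (h5 : ‖g5 - ⟨(24069 / 100000), (24069 / 100000)⟩‖ ≤ (9 / 50)) : False :=
  kill HP HG h1 h2 h3 h4 h5 t1 t3 t5
    1381 (-2035) 1092 551 (-1006) 457 0 1370 (-2681) 2420 (-1054) 169 6353 1566 2314 654 (-888) (-141) 0 (-3560) 1822 (-1152) 2906 65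
    (-18334707) 6090176 1410116 (-2087751) 631117 12137066 (-14242906) 8274895 (-2425579) 233389 2886248 22898932 (-7788950) (-6093670) (-895773) (-14153330) 20321872 (-5521828) 18061648 412945
    11362 501 3024 14079117 1484 14444625 30616002 9547687 19061898 986374
    (by norm_num) (by norm_num) (by norm_num) (by norm_num) (by norm_num) (by norm_num) (by norm_num) (by norm_num) (by norm_num) (by norm_num) (by norm_num) (by norm_num) (by norm_num) (by norm_num) (by norm_num) (by norm_num) (by norm_num) (by norm_num) (by norm_num) (by norm_num) (by norm_num) (by norm_num) (by norm_num) (by norm_num) (by norm_num) (by norm_num) (by norm_num) (by norm_num) (by norm_num) (by norm_num) (by norm_num) (by norm_num) (by norm_num) (by norm_num) (by norm_num) (by norm_num) (by norm_num) (by norm_num) (by norm_num) (by norm_num) (by norm_num)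

include HP HG t1 t3 t5 in
lemma leaf_pp_26
    (h1 : ‖g1 - ⟨(2691 / 5000), (2691 / 5000)⟩‖ ≤ (309 / 5000))
    (h2 : ‖g2 - ⟨(6 / 25), (2 / 25)⟩‖ ≤ (56569 / 500000))
    (h3 : ‖g3 - ⟨(31073 / 100000), (31073 / 100000)⟩‖ ≤ (593 / 5000))
    (h4 : ‖g4 - ⟨0, 0⟩‖ ≤ (30017 / 100000))
    (h5 : ‖g5 - ⟨(24069 / 100000), (24069 / 100000)⟩‖ ≤ (9 / 50)) : False :=
  kill HP HG h1 h2 h3 h4 h5 t1 t3 t5
    2872 (-2776) (-1536) 1968 9 55 0 3827 (-4275) 631 (-234) 530 3745 (-343) (-2435) (-467) (-506) (-466) 0 (-4585) 1341 371 536 (-379)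
    (-26043001) (-6030527) 2381364 1901478 157960 35732249 (-20154758) 1848418 (-2353813) 1522160 (-4495349) (-8632030) (-3406446) 2583 (-1745170) (-28693437) 2476862 433308 707 (-1419355)
    8722 22928783 4944 3025898 1626 29043442 8980356 3433895 2679 2249486
    (by norm_num) (by norm_num) (by norm_num) (by norm_num) (by norm_num) (by norm_num) (by norm_num) (by norm_num) (by norm_num) (by norm_num) (by norm_num) (by norm_num) (by norm_num) (by norm_num) (by norm_num) (by norm_num) (by norm_num) (by norm_num) (by norm_num) (by norm_num) (by norm_num) (by norm_num) (by norm_num) (by norm_num) (by norm_num) (by norm_num) (by norm_num) (by norm_num) (by norm_num) (by norm_num) (by norm_num) (by norm_num) (by norm_num) (by norm_num) (by norm_num) (by norm_num) (by norm_num) (by norm_num) (by norm_num) (by norm_num) (by norm_num)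

include HP HG t1 t3 t5 in
lemma leaf_pp_27
    (h1 : ‖g1 - ⟨(2691 / 5000), (2691 / 5000)⟩‖ ≤ (309 / 5000))
    (h2 : ‖g2 - ⟨(6 / 25), (6 / 25)⟩‖ ≤ (56569 / 500000))
    (h3 : ‖g3 - ⟨(31073 / 100000), (31073 / 100000)⟩‖ ≤ (593 / 5000))
    (h4 : ‖g4 - ⟨(-4 / 25), (-4 / 25)⟩‖ ≤ (56569 / 250000))
    (h5 : ‖g5 - ⟨(24069 / 100000), (24069 / 100000)⟩‖ ≤ (9 / 50)) : False :=
  kill HP HG h1 h2 h3 h4 h5 t1 t3 t5
    3328 (-3192) (-1157) 34 1071 420 0 3718 (-3099) 317 (-2077) 1712 4221 (-107) (-239) 1443 (-2047) (-1547) 0 (-3031) 1383 (-2043) (-1615) (-930)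
    (-23201634) 2974042 (-16819194) 8588864 1397760 28601602 (-5804562) 3023578 (-13938520) 5697536 (-2774010) 2952470 10288540 (-5656028) (-6529887) (-22280794) 9144452 (-12293384) (-11406362) (-3925530)
    2743243 2724 3304340 10836588 679947 22452816 9609271 16030638 12731683 7619004
    (by norm_num) (by norm_num) (by norm_num) (by norm_num) (by norm_num) (by norm_num) (by norm_num) (by norm_num) (by norm_num) (by norm_num) (by norm_num) (by norm_num) (by norm_num) (by norm_num) (by norm_num) (by norm_num) (by norm_num) (by norm_num) (by norm_num) (by norm_num) (by norm_num) (by norm_num) (by norm_num) (by norm_num) (by norm_num) (by norm_num) (by norm_num) (by norm_num) (by norm_num) (by norm_num) (by norm_num) (by norm_num) (by norm_num) (by norm_num) (by norm_num) (by norm_num) (by norm_num) (by norm_num) (by norm_num) (by norm_num) (by norm_num)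

include HP HG t1 t3 t5 in
lemma leaf_pp_28
    (h1 : ‖g1 - ⟨(2691 / 5000), (2691 / 5000)⟩‖ ≤ (309 / 5000))
    (h2 : ‖g2 - ⟨(6 / 25), (6 / 25)⟩‖ ≤ (56569 / 500000))
    (h3 : ‖g3 - ⟨(31073 / 100000), (31073 / 100000)⟩‖ ≤ (593 / 5000))
    (h4 : ‖g4 - ⟨(-6 / 25), (2 / 25)⟩‖ ≤ (56569 / 500000))
    (h5 : ‖g5 - ⟨(24069 / 100000), (24069 / 100000)⟩‖ ≤ (9 / 50)) : False :=
  kill HP HG h1 h2 h3 h4 h5 t1 t3 t5
    3330 (-3432) (-601) 211 1689 (-436) 0 3380 (-3226) 327 (-1429) 1809 4230 (-35) (-283) 1992 (-1034) (-1004) 0 (-3236) 1258 (-1829) (-2056) (-1666)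
    (-24883890) 2474190 (-15497836) 13235142 (-1451880) 26421106 (-5746210) (-2209327) (-9493378) 6023970 (-909523) 3405154 13303870 1052496 (-4246920) (-22964745) 8559099 (-9276224) (-11887514) (-7047180)
    1352937 3382 1494356 15072850 596336 22982749 9211583 16218548 11934016 8227945
    (by norm_num) (by norm_num) (by norm_num) (by norm_num) (by norm_num) (by norm_num) (by norm_num) (by norm_num) (by norm_num) (by norm_num) (by norm_num) (by norm_num) (by norm_num) (by norm_num) (by norm_num) (by norm_num) (by norm_num) (by norm_num) (by norm_num) (by norm_num) (by norm_num) (by norm_num) (by norm_num) (by norm_num) (by norm_num) (by norm_num) (by norm_num) (by norm_num) (by norm_num) (by norm_num) (by norm_num) (by norm_num) (by norm_num) (by norm_num) (by norm_num) (by norm_num) (by norm_num) (by norm_num) (by norm_num) (by norm_num) (by norm_num)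

include HP HG t1 t3 t5 in
lemma leaf_pp_29
    (h1 : ‖g1 - ⟨(2691 / 5000), (2691 / 5000)⟩‖ ≤ (309 / 5000))
    (h2 : ‖g2 - ⟨(6 / 25), (6 / 25)⟩‖ ≤ (56569 / 500000))
    (h3 : ‖g3 - ⟨(31073 / 100000), (31073 / 100000)⟩‖ ≤ (593 / 5000))
    (h4 : ‖g4 - ⟨(-6 / 25), (6 / 25)⟩‖ ≤ (56569 / 500000))
    (h5 : ‖g5 - ⟨(24069 / 100000), (24069 / 100000)⟩‖ ≤ (9 / 50)) : False :=
  kill HP HG h1 h2 h3 h4 h5 t1 t3 t5
    3281 (-3536) (-202) 317 1858 (-968) 0 3194 (-3349) 392 (-815) 1491 4262 12 (-202) 2362 (-90) (-418) 0 (-3441) 1234 (-1574) (-2019) (-1966)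
    (-25705095) 2100109 (-12930744) 14281200 (-3176008) 24943882 (-6147504) (-5309474) (-4854399) 4891971 355386 4217456 14671535 6376410 (-1781516) (-23520116) 8585336 (-6129362) (-10066908) (-8379092)
    10865 4138 3914 16337658 861 23522801 9565299 15900410 11916428 8566387
    (by norm_num) (by norm_num) (by norm_num) (by norm_num) (by norm_num) (by norm_num) (by norm_num) (by norm_num) (by norm_num) (by norm_num) (by norm_num) (by norm_num) (by norm_num) (by norm_num) (by norm_num) (by norm_num) (by norm_num) (by norm_num) (by norm_num) (by norm_num) (by norm_num) (by norm_num) (by norm_num) (by norm_num) (by norm_num) (by norm_num) (by norm_num) (by norm_num) (by norm_num) (by norm_num) (by norm_num) (by norm_num) (by norm_num) (by norm_num) (by norm_num) (by norm_num) (by norm_num) (by norm_num) (by norm_num) (by norm_num) (by norm_num)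

end

end Pool.Agent.H893R3.Dig
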