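import Pool.Agent.H893R3.Dig.Four3

/-!
# Digit sums and half integer frequencies: the main inequality
-/

set_option autoImplicit false
set_option linter.unusedSectionVars false

open Finset

namespace Pool.Agent.H893R3.Dig

open Pool.Agent.H394R2.Ones

section
variable {b : ℕ} {y : ℝ} (hb : 2 ≤ b) (hy0 : 0 < y) (hy1 : y < 1) (hirr : Irrational y)
  {τ D : ℝ} {n : ℕ} {d : ℕ → ℝ} (hτ0 : 0 ≤ τ) (hd0 : ∀ m, 0 ≤ d m)
  (hd : ∀ m, τ - d m ≤ T b y m) (hD : ∑ m ∈ range n, d m ≤ D)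

/-- the Fourier coefficient -/
noncomputable def FF (b : ℕ) (y : ℝ) (n : ℕ) (θ : ℝ) : ℂ := F b y n (Complex.exp (Complex.I * (θ : ℂ)))

lemma norm_w (θ : ℝ) : ‖Complex.exp (Complex.I * (θ : ℂ))‖ = 1 := by
  rw [mul_comm]; exact Complex.norm_exp_ofReal_mul_I θ

lemma norm_w_sub {n : ℕ} {θ : ℝ} (h0 : 0 < θ) (h : θ * n ≤ 13) :
    ‖Complex.exp (Complex.I * (θ : ℂ)) - 1‖ * n ≤ 13 := by
  have h3 : ‖Complex.exp (Complex.I * (θ : ℂ)) - 1‖ ≤ θ := by
    have := Real.norm_exp_I_mul_ofReal_sub_one_le (x := θ)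
    rw [Real.norm_eq_abs, abs_of_pos h0] at this
    exact this
  have h4 : (0 : ℝ) ≤ n := Nat.cast_nonneg _
  nlinarith

include hb hy0 hy1 hirr hτ0 hd0 hd hD in
lemma near_odd (hn : 0 < n) {k : ℕ} (hk0 : 0 < k) (hk3 : k ≤ 3) (hk : k % 2 = 1)
    (hkn : 20 ≤ n) :
    ‖FF b y n (k * (Real.pi / n)) ^ 2 -
      ((((b : ℝ) - 1) * τ * n * (2 / (k * Real.pi)) : ℝ) : ℂ) * Complex.I‖ ≤
      (K b y n : ℝ) ^ 2 - ((b : ℝ) - 1) * τ * n +
        (2 * ((b : ℝ) - 1) * D + (13 * b + 2) * (K b y n + 1) + 4 * (((b : ℝ) - 1) * τ)) := by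
  have hbR : (2 : ℝ) ≤ b := by exact_mod_cast hb
  have hn0 : (0 : ℝ) < n := by exact_mod_cast hn
  have hn20 : (20 : ℝ) ≤ n := by exact_mod_cast hkn
  have hkR : (1 : ℝ) ≤ k := by exact_mod_cast hk0
  have hkR3 : (k : ℝ) ≤ 3 := by exact_mod_cast hk3
  have hpi := Real.pi_pos
  have hpi2 := Real.pi_lt_d2
  set θ : ℝ := k * (Real.pi / n) with hθ
  have hθ0 : 0 < θ := by positivity
  have hθn : θ * n = k * Real.pi := by rw [hθ]; field_simp
  have hθ13 : θ * n ≤ 13 := by rw [hθn]; nlinarith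
  have hθh : θ ≤ 1 / 2 := by
    have h1 : θ * 20 ≤ θ * n := mul_le_mul_of_nonneg_left hn20 hθ0.le
    rw [hθn] at h1
    nlinarith
  have hwn : Complex.exp (Complex.I * (θ : ℂ)) ^ n = -1 := by
    rw [← Complex.exp_nat_mul]
    have e : (n : ℂ) * (Complex.I * (θ : ℂ)) = ((k : ℕ) : ℂ) * (Real.pi * Complex.I) := by
      have h1 : ((θ * n : ℝ) : ℂ) = ((k * Real.pi : ℝ) : ℂ) := by rw [hθn]
      push_cast at h1
      linear_combination Complex.I * h1
    rw [e, Complex.exp_nat_mul, Complex.exp_pi_mul_I]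
    exact Odd.neg_one_pow (Nat.odd_iff.mpr hk)
  have h1 := F_near hb hy0 hy1 hirr hτ0 hd0 hd hD hn (norm_w θ) (norm_w_sub hθ0 hθ13)
  have h2 := geom_odd hθ0 hθh hwn
  have e2 : (2 : ℝ) / θ = n * (2 / (k * Real.pi)) := by
    rw [hθ]; field_simp
  set N : ℝ := ((b : ℝ) - 1) * τ with hN
  have hN0 : 0 ≤ N := mul_nonneg (by linarith) hτ0
  set Sg := ∑ m ∈ range n, Complex.exp (Complex.I * (θ : ℂ)) ^ m with hSg
  have e3 : FF b y n θ ^ 2 - ((N * n * (2 / (k * Real.pi)) : ℝ) : ℂ) * Complex.I =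
      (F b y n (Complex.exp (Complex.I * (θ : ℂ))) ^ 2 - (N : ℂ) * Sg) +
        (N : ℂ) * (Sg - ((2 / θ : ℝ) : ℂ) * Complex.I) := by
    rw [e2]
    unfold FF
    push_cast
    ring
  rw [e3]
  refine (norm_add_le _ _).trans ?_
  rw [norm_mul, Complex.norm_real, Real.norm_eq_abs, abs_of_nonneg hN0]
  have h3 := mul_le_mul_of_nonneg_left h2 hN0
  linarith

include hb hy0 hy1 hirr hτ0 hd0 hd hD in
lemma near_two (hkn : 20 ≤ n) :
    ‖FF b y n (2 * (Real.pi / n)) ^ 2‖ ≤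
      (K b y n : ℝ) ^ 2 - ((b : ℝ) - 1) * τ * n +
        (2 * ((b : ℝ) - 1) * D + (13 * b + 2) * (K b y n + 1)) := by
  have hn0 : (0 : ℝ) < n := by exact_mod_cast (by omega : 0 < n)
  have hn20 : (20 : ℝ) ≤ n := by exact_mod_cast hkn
  have hpi := Real.pi_pos
  have hpi2 := Real.pi_lt_d2
  set θ : ℝ := 2 * (Real.pi / n) with hθ
  have hθ0 : 0 < θ := by positivity
  have hθn : θ * n = 2 * Real.pi := by rw [hθ]; field_simp
  have hθ13 : θ * n ≤ 13 := by rw [hθn]; nlinarith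
  have hθh : θ ≤ 1 / 2 := by
    have h1 : θ * 20 ≤ θ * n := mul_le_mul_of_nonneg_left hn20 hθ0.le
    rw [hθn] at h1
    nlinarith
  have hwn : Complex.exp (Complex.I * (θ : ℂ)) ^ n = 1 := by
    rw [← Complex.exp_nat_mul]
    have e : (n : ℂ) * (Complex.I * (θ : ℂ)) = 2 * Real.pi * Complex.I := by
      have h1 : ((θ * n : ℝ) : ℂ) = ((2 * Real.pi : ℝ) : ℂ) := by rw [hθn]
      push_cast at h1
      linear_combination Complex.I * h1
    rw [e, Complex.exp_two_pi_mul_I]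
  have hne : Complex.exp (Complex.I * (θ : ℂ)) ≠ 1 := by
    intro h
    have h1 := congrArg Complex.im h
    rw [mul_comm, Complex.exp_ofReal_mul_I_im] at h1
    have h2 := Real.sin_pos_of_pos_of_lt_pi hθ0 (by linarith [Real.pi_gt_three])
    simp at h1
    linarith
  have h1 := F_near hb hy0 hy1 hirr hτ0 hd0 hd hD (by omega) (norm_w θ) (norm_w_sub hθ0 hθ13)
  rw [geom_even hwn hne, mul_zero, sub_zero] at h1
  exact h1

lemma FF_re (n : ℕ) (θ : ℝ) :
    (FF b y n θ).re = ∑ i ∈ range (n + 1), (x b y i : ℝ) * Real.cos (i * θ) := F_re n θ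

lemma FF_im (n : ℕ) (θ : ℝ) :
    (FF b y n θ).im = ∑ i ∈ range (n + 1), (x b y i : ℝ) * Real.sin (i * θ) := F_im n θ

/-- test functions -/
lemma test_sum (hn : 0 < n) (p0 u1 v1 u2 v2 u3 v3 : ℝ)
    (h : ∀ t : ℝ, 0 ≤ t → t ≤ Real.pi → 0 ≤ p0 + (u1 * Real.cos t + v1 * Real.sin t) +
      (u2 * Real.cos (2 * t) + v2 * Real.sin (2 * t)) +
      (u3 * Real.cos (3 * t) + v3 * Real.sin (3 * t))) :
    0 ≤ p0 * K b y n + (u1 * (FF b y n (Real.pi / n)).re + v1 * (FF b y n (Real.pi / n)).im) +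
      (u2 * (FF b y n (2 * (Real.pi / n))).re + v2 * (FF b y n (2 * (Real.pi / n))).im) +
      (u3 * (FF b y n (3 * (Real.pi / n))).re + v3 * (FF b y n (3 * (Real.pi / n))).im) := by
  have hn0 : (0 : ℝ) < n := by exact_mod_cast hn
  have hpi := Real.pi_pos
  rw [FF_re, FF_im, FF_re, FF_im, FF_re, FF_im]
  unfold K
  push_cast
  simp only [mul_sum]
  simp only [← sum_add_distrib]
  refine sum_nonneg fun i hi => ?_
  have hin : (i : ℝ) ≤ n := by
    have := mem_range.mp hi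
    exact_mod_cast (by omega : i ≤ n)
  have ht0 : 0 ≤ (i : ℝ) * (Real.pi / n) := by positivity
  have ht1 : (i : ℝ) * (Real.pi / n) ≤ Real.pi := by
    calc (i : ℝ) * (Real.pi / n) ≤ n * (Real.pi / n) :=
          mul_le_mul_of_nonneg_right hin (by positivity)
      _ = Real.pi := by field_simp
  have h1 := h _ ht0 ht1
  have hx : (0 : ℝ) ≤ x b y i := Nat.cast_nonneg _
  rw [show (i : ℝ) * (2 * (Real.pi / n)) = 2 * (i * (Real.pi / n)) by ring,
    show (i : ℝ) * (3 * (Real.pi / n)) = 3 * (i * (Real.pi / n)) by ring]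
  have h2 := mul_nonneg hx h1
  refine h2.trans (le_of_eq ?_)
  ring

/-- normalisation -/
lemma scale {A e N err c κ : ℝ} {f : ℂ} (hA : 0 < A) (he0 : 0 ≤ e) (he1 : e ≤ 1)
    (h : ‖f ^ 2 - ((N * e : ℝ) : ℂ) * Complex.I‖ ≤ A ^ 2 - N + err) (hc : c * A ^ 2 ≤ N)
    (herr : err ≤ κ * A ^ 2) :
    ‖(f / A) ^ 2 - ((c * e : ℝ) : ℂ) * Complex.I‖ ≤ 1 - c + κ := by
  have hA2 : 0 < A ^ 2 := by positivity
  have hAc : (A : ℂ) ≠ 0 := by exact_mod_cast hA.ne'
  have e1 : (f / A) ^ 2 - ((c * e : ℝ) : ℂ) * Complex.I =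
      (f ^ 2 - ((c * A ^ 2 * e : ℝ) : ℂ) * Complex.I) / ((A ^ 2 : ℝ) : ℂ) := by
    push_cast
    field_simp
  rw [e1, norm_div, Complex.norm_real, Real.norm_eq_abs, abs_of_pos hA2, div_le_iff₀ hA2]
  have e2 : f ^ 2 - ((c * A ^ 2 * e : ℝ) : ℂ) * Complex.I =
      (f ^ 2 - ((N * e : ℝ) : ℂ) * Complex.I) + (((N - c * A ^ 2) * e : ℝ) : ℂ) * Complex.I := by
    push_cast; ring
  rw [e2]
  refine (norm_add_le _ _).trans ?_
  rw [norm_mul, Complex.norm_I, mul_one, Complex.norm_real, Real.norm_eq_abs,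
    abs_of_nonneg (mul_nonneg (by linarith) he0)]
  have : (N - c * A ^ 2) * e ≤ N - c * A ^ 2 := by nlinarith
  linarith

include hb hy0 hy1 hirr hτ0 hd0 hd hD in
/-- the main inequality -/
theorem main3 (hn : 20 ≤ n) (hK : 0 < K b y n)
    (herr : 2 * ((b : ℝ) - 1) * D + (13 * b + 2) * (K b y n + 1) + 4 * (((b : ℝ) - 1) * τ) ≤
      (K b y n : ℝ) ^ 2 / 20000) :
    ((b : ℝ) - 1) * τ * n < 100 / 107 * (K b y n : ℝ) ^ 2 := by
  by_contra hcon
  push Not at hcon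
  have hbR : (2 : ℝ) ≤ b := by exact_mod_cast hb
  have hn0 : (0 : ℝ) < n := by exact_mod_cast (by omega : 0 < n)
  have hK0 : (0 : ℝ) < K b y n := by exact_mod_cast hK
  have hpi3 := Real.pi_gt_three
  have hpi := Real.pi_pos
  set A : ℝ := (K b y n : ℝ) with hA
  have hN0 : 0 ≤ ((b : ℝ) - 1) * τ := mul_nonneg (by linarith) hτ0
  have herr' : 2 * ((b : ℝ) - 1) * D + (13 * b + 2) * (A + 1) + 4 * (((b : ℝ) - 1) * τ) ≤
      1 / 20000 * A ^ 2 := by linarith
  have q1 := scale (e := 2 / ((1 : ℕ) * Real.pi)) hK0 (by positivity)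
    (by rw [div_le_one (by positivity)]; push_cast; linarith)
    (near_odd hb hy0 hy1 hirr hτ0 hd0 hd hD (by omega) (k := 1) (by norm_num) (by norm_num)
      (by norm_num) hn) hcon herr'
  have q3 := scale (e := 2 / ((3 : ℕ) * Real.pi)) hK0 (by positivity)
    (by rw [div_le_one (by positivity)]; push_cast; linarith)
    (near_odd hb hy0 hy1 hirr hτ0 hd0 hd hD (by omega) (k := 3) (by norm_num) (by norm_num)
      (by norm_num) hn) hcon herr'
  have q2 := scale (e := 0) (err := 2 * ((b : ℝ) - 1) * D + (13 * b + 2) * (A + 1) +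
      4 * (((b : ℝ) - 1) * τ)) (N := ((b : ℝ) - 1) * τ * n) hK0 le_rfl (by norm_num)
    (f := FF b y n (2 * (Real.pi / n)))
    (by
      have := near_two hb hy0 hy1 hirr hτ0 hd0 hd hD hn
      rw [mul_zero, Complex.ofReal_zero, zero_mul, sub_zero]
      linarith) hcon herr'
  have t1 := test_sum (b := b) (y := y) (n := n) (by omega) _ _ _ _ _ _ _ test_plus
  have t2 := test_sum (b := b) (y := y) (n := n) (by omega) _ _ _ _ _ _ _ test_minus
  rw [← hA] at t1 t2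
  have d1 := div_nonneg t1 hK0.le
  have d2 := div_nonneg t2 hK0.le
  have hre : ∀ f : ℂ, (f / (A : ℂ)).re = f.re / A := fun f => Complex.div_ofReal_re f A
  have him : ∀ f : ℂ, (f / (A : ℂ)).im = f.im / A := fun f => Complex.div_ofReal_im f A
  refine numeric (g1 := FF b y n ((1 : ℕ) * (Real.pi / n)) / A)
    (g2 := FF b y n (2 * (Real.pi / n)) / A) (g3 := FF b y n ((3 : ℕ) * (Real.pi / n)) / A)
    ?_ ?_ ?_ ?_ ?_ ?_
  · refine le_trans (le_of_eq ?_) (q1.trans (by norm_num))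
    congr 4
    push_cast
    field_simp
    norm_num
  · rw [mul_zero, Complex.ofReal_zero, zero_mul, sub_zero] at q2
    exact q2.trans (by norm_num)
  · refine le_trans (le_of_eq ?_) (q3.trans (by norm_num))
    congr 4
    push_cast
    field_simp
    norm_num
  · rw [him, FF_im]
    refine div_nonneg (sum_nonneg fun i hi => mul_nonneg (Nat.cast_nonneg _) ?_) hK0.le
    have hin : (i : ℝ) ≤ n := by
      have := mem_range.mp hi
      exact_mod_cast (by omega : i ≤ n)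
    apply Real.sin_nonneg_of_nonneg_of_le_pi (by positivity)
    calc (i : ℝ) * ((1 : ℕ) * (Real.pi / n)) ≤ n * ((1 : ℕ) * (Real.pi / n)) :=
          mul_le_mul_of_nonneg_right hin (by positivity)
      _ = Real.pi := by push_cast; field_simp
  · rw [hre, him, hre, him, hre, him]
    refine d1.trans (le_of_eq ?_)
    push_cast
    rw [one_mul]
    field_simp
  · rw [hre, him, hre, him, hre, him]
    refine d2.trans (le_of_eq ?_)
    push_cast
    rw [one_mul]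
    field_simp

end

end Pool.Agent.H893R3.Dig
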