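import Pool.Agent.H820R3.DG.Quad
import Pool.Agent.H893R3.Dig.Main3

/-!
# Digit sums of quadratic irrationals
-/

set_option autoImplicit false
set_option linter.unusedSectionVars false

open Finset

namespace Pool.Agent.H893R3.Dig

open Pool.Agent.H394R2.Ones Pool.Agent.H820R3.DG

section
variable {b : ℕ} {y : ℝ}

/-- digit sums of quadratic irrationals in `(0, 1)` -/
theorem quad_main3 (hb : 2 ≤ b) (hy0 : 0 < y) (hy1 : y < 1) (hirr : Irrational y) {A B C : ℤ}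
    (hA : 0 < A) (hq : (A : ℝ) * y ^ 2 + B * y + C = 0) :
    ∃ n0 : ℕ, ∀ n : ℕ, n0 ≤ n →
      ((b : ℝ) - 1) * (Int.gcd b (2 * A) : ℕ) / A * n < 100 / 107 * (K b y n : ℝ) ^ 2 := by
  have hbR : (2 : ℝ) ≤ b := by exact_mod_cast hb
  have hAR : (1 : ℝ) ≤ A := by exact_mod_cast hA
  have halg : IsAlgebraic ℚ y := by
    refine ⟨Polynomial.C (A : ℚ) * Polynomial.X ^ 2 + Polynomial.C (B : ℚ) * Polynomial.X +
      Polynomial.C (C : ℚ), ?_, ?_⟩
    · intro h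
      have h1 := congrArg (fun p => Polynomial.coeff p 2) h
      simp only [Polynomial.coeff_add, Polynomial.coeff_C_mul, Polynomial.coeff_X_pow,
        Polynomial.coeff_X, Polynomial.coeff_C, Polynomial.coeff_zero] at h1
      norm_num at h1
      omega
    · simp only [map_add, map_mul, map_pow, Polynomial.aeval_X, Polynomial.aeval_C]
      simpa using hq
  set g : ℕ := Int.gcd b (2 * A) with hg
  have hg0 : 0 < g := Int.gcd_pos_of_ne_zero_left _ (by exact_mod_cast (by omega : b ≠ 0))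
  have hgR : (0 : ℝ) < g := by exact_mod_cast hg0
  set τ : ℝ := (g : ℝ) / A with hτ
  have hτ0 : 0 < τ := by positivity
  have hb1 : (0 : ℝ) < (b : ℝ) - 1 := by linarith
  set κ : ℝ := 7 * Real.sqrt (((b : ℝ) - 1) * g / (48 * A)) with hκ
  have hκ0 : 0 < κ := by
    rw [hκ]
    have : 0 < ((b : ℝ) - 1) * g / (48 * A) := by positivity
    have := Real.sqrt_pos.mpr this
    positivity
  have hκ2 : κ ^ 2 = 49 * ((b : ℝ) - 1) * τ / 48 := by
    rw [hκ, mul_pow, Real.sq_sqrt (by positivity), hτ]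
    field_simp
    ring
  obtain ⟨n1, hn1⟩ := quad_main hb hy0 hy1 hirr hA hq (κ / 2) (by positivity)
  set δ : ℝ := 1 / 400000 with hδ
  obtain ⟨C1, hC10, hC1⟩ := bad_count hb hy0 hy1 halg hirr |(B : ℝ)| δ (by rw [hδ]; norm_num)
    (by rw [hδ]; norm_num)
  have hB0 : 0 ≤ |(B : ℝ)| := abs_nonneg _
  set C2 : ℝ := |(B : ℝ)| + 2 * τ + τ * C1 + τ with hC2
  have hC20 : 0 ≤ C2 := by positivity
  set C4 : ℝ := 2 * ((b : ℝ) - 1) * C2 + (13 * b + 2) + 4 * (((b : ℝ) - 1) * τ) with hC4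
  have hC40 : 1 ≤ C4 := by
    have h1 : 0 ≤ 2 * ((b : ℝ) - 1) * C2 := by positivity
    have h2 : 0 ≤ 4 * (((b : ℝ) - 1) * τ) := by positivity
    rw [hC4]; linarith
  obtain ⟨n2, hn2⟩ := exists_nat_ge ((2 * (70000 * C4) / κ) ^ 2)
  refine ⟨max 20 (max n1 n2), fun n hn => ?_⟩
  have hn20 : 20 ≤ n := (le_max_left _ _).trans hn
  have hnn1 : n1 ≤ n := ((le_max_left _ _).trans (le_max_right _ _)).trans hn
  have hnn2 : n2 ≤ n := ((le_max_right _ _).trans (le_max_right _ _)).trans hn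
  have hn0 : (0 : ℝ) ≤ n := Nat.cast_nonneg _
  have hK1 : κ / 2 * Real.sqrt n ≤ K b y n := by
    have := hn1 n hnn1
    linarith
  have hsn := Real.sqrt_nonneg (n : ℝ)
  have hKbig : 70000 * C4 ≤ K b y n := by
    have h3 : 2 * (70000 * C4) / κ ≤ Real.sqrt n := by
      apply Real.le_sqrt_of_sq_le
      exact hn2.trans (by exact_mod_cast hnn2)
    rw [div_le_iff₀ hκ0] at h3
    linarith
  have hKsq : κ ^ 2 / 4 * n ≤ (K b y n : ℝ) ^ 2 := by
    have h1 : (κ / 2 * Real.sqrt n) ^ 2 ≤ (K b y n : ℝ) ^ 2 := by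
      apply pow_le_pow_left₀ (by positivity) hK1
    have h2 : (κ / 2 * Real.sqrt n) ^ 2 = κ ^ 2 / 4 * n := by
      rw [mul_pow, Real.sq_sqrt hn0]; ring
    linarith
  have hKpos : (0 : ℝ) < K b y n := by linarith
  have hKpos' : 0 < K b y n := by exact_mod_cast hKpos
  have hK : (0 : ℝ) ≤ K b y n := hKpos.le
  have hD : ∑ m ∈ range n, dd b y τ |(B : ℝ)| m ≤ C2 * (K b y n + 1) + τ * δ * n := by
    unfold dd
    rw [sum_add_distrib, sum_add_distrib, sum_add_distrib, ← mul_sum, ← mul_sum, ← mul_sum,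
      sum_add_distrib]
    have h1 := ep_sum (b := b) hb hy0 hy1 n
    have h2 : (∑ m ∈ range n, (x b y m : ℝ)) ≤ K b y n := by
      unfold K
      exact_mod_cast sum_le_sum_of_subset (range_mono (Nat.le_succ n))
    have h3 : (∑ m ∈ range n, (exc b y m : ℝ)) ≤ K b y n := by
      exact_mod_cast exc_sum b y n
    have h4 : (∑ m ∈ range n, (if T b y m ≤ |(B : ℝ)| * ep b y m then (1 : ℝ) else 0)) ≤
        C1 * (K b y n + 1) + δ * n := by
      have h5 := hC1 n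
      rw [card_filter] at h5
      push_cast at h5
      exact h5
    have h5 := few_sum 0 n τ hτ0.le
    rw [Nat.cast_zero, zero_add, mul_one] at h5
    have h6 := mul_le_mul_of_nonneg_left h1 hB0
    have h7 := mul_le_mul_of_nonneg_left (add_le_add h2 h3) hτ0.le
    have h8 := mul_le_mul_of_nonneg_left h4 hτ0.le
    have h9 : 0 ≤ τ * K b y n := mul_nonneg hτ0.le hK
    have e : C2 * ((K b y n : ℝ) + 1) = |(B : ℝ)| * (K b y n + 1) + 2 * (τ * K b y n) + 2 * τ +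
        τ * (C1 * (K b y n + 1)) + τ * K b y n + τ := by rw [hC2]; ring
    rw [e]
    linarith
  have hmain := main3 hb hy0 hy1 hirr (τ := τ) (n := n) hτ0.le
    (fun m => dd_nonneg hy0 hτ0.le hB0 m) (fun m => T_lower' hb hy0 hy1 hirr hA hq m) hD hn20
    hKpos' (by
      have h1 : ((b : ℝ) - 1) * τ * n ≤ 4 * (K b y n : ℝ) ^ 2 := by
        rw [hκ2] at hKsq
        have : 0 ≤ ((b : ℝ) - 1) * τ * n := by positivity
        linarith
      have h2 : 2 * ((b : ℝ) - 1) * (C2 * (K b y n + 1) + τ * δ * n) + (13 * b + 2) * (K b y n + 1) +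
          4 * (((b : ℝ) - 1) * τ) ≤ C4 * (K b y n + 1) + 2 * δ * (((b : ℝ) - 1) * τ * n) := by
        have h3 : 0 ≤ 4 * (((b : ℝ) - 1) * τ) * K b y n := by positivity
        rw [hC4]
        linarith
      refine h2.trans ?_
      have h4 : 2 * δ * (((b : ℝ) - 1) * τ * n) ≤ 2 * δ * (4 * (K b y n : ℝ) ^ 2) :=
        mul_le_mul_of_nonneg_left h1 (by rw [hδ]; norm_num)
      have h5 : C4 * (K b y n + 1) ≤ 2 * C4 * K b y n := by nlinarith
      have h6 : 2 * C4 * K b y n ≤ 2 / 70000 * (K b y n : ℝ) ^ 2 := by nlinarith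
      rw [hδ] at h4
      rw [hδ]
      nlinarith)
  rw [hτ] at hmain
  calc ((b : ℝ) - 1) * g / A * n = ((b : ℝ) - 1) * (g / A) * n := by ring
    _ < _ := hmain

end

/-- digit sums of real quadratic irrationals -/
theorem quad_real3 {b : ℕ} (hb : 2 ≤ b) {A B C : ℤ} (hA : 0 < A) {ξ : ℝ} (hirr : Irrational ξ)
    (hq : (A : ℝ) * ξ ^ 2 + B * ξ + C = 0) :
    ∃ n0 : ℕ, ∀ n : ℕ, n0 ≤ n →
      ((b : ℝ) - 1) * (Int.gcd b (2 * A) : ℕ) / A * n <
        100 / 107 * ((∑ k ∈ range n, ⌊ξ * (b : ℝ) ^ (k + 1)⌋ % (b : ℤ) : ℤ) : ℝ) ^ 2 := by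
  set y : ℝ := Int.fract ξ with hy
  have hξ : ξ = ⌊ξ⌋ + y := (Int.floor_add_fract ξ).symm
  have hyirr : Irrational y := by
    have : y = ξ - (⌊ξ⌋ : ℤ) := rfl
    rw [this]
    exact hirr.sub_intCast _
  have hy0 : 0 < y := lt_of_le_of_ne (Int.fract_nonneg ξ) (Ne.symm hyirr.ne_zero)
  have hy1 : y < 1 := Int.fract_lt_one ξ
  have hq' : (A : ℝ) * y ^ 2 + ((B + 2 * A * ⌊ξ⌋ : ℤ) : ℝ) * y +
      ((C + B * ⌊ξ⌋ + A * ⌊ξ⌋ ^ 2 : ℤ) : ℝ) = 0 := by
    have h1 : (A : ℝ) * (⌊ξ⌋ + y) ^ 2 + B * (⌊ξ⌋ + y) + C = 0 := by rw [← hξ]; exact hq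
    push_cast
    linarith
  obtain ⟨n0, hn0⟩ := quad_main3 hb hy0 hy1 hyirr hA hq'
  refine ⟨n0, fun n hn => (hn0 n hn).trans_le (le_of_eq ?_)⟩
  have hdig : ∀ k : ℕ, ⌊ξ * (b : ℝ) ^ (k + 1)⌋ % (b : ℤ) = (x b y (k + 1) : ℤ) := by
    intro k
    have h1 : ξ * (b : ℝ) ^ (k + 1) = ((⌊ξ⌋ * (b : ℤ) ^ (k + 1) : ℤ) : ℝ) +
        y * (b : ℝ) ^ (k + 1) := by
      nth_rewrite 1 [hξ]
      push_cast
      ring
    rw [h1, Int.floor_intCast_add]
    unfold x Pool.Agent.H394R2.Ones.B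
    push_cast
    rw [Int.natCast_floor_eq_floor (by positivity)]
    rw [show ⌊ξ⌋ * (b : ℤ) ^ (k + 1) + ⌊y * (b : ℝ) ^ (k + 1)⌋ =
      ⌊y * (b : ℝ) ^ (k + 1)⌋ + (b : ℤ) * (⌊ξ⌋ * (b : ℤ) ^ k) by ring, Int.add_mul_emod_self_left]
  simp only [hdig]
  unfold K
  rw [sum_range_succ']
  rw [x_zero hy0 hy1, add_zero]
  push_cast
  rfl

end Pool.Agent.H893R3.Dig
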