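import Pool.Agent.H820R3.DG.Quad

/-!
# Digit sums of quadratic irrationals: infinitely many large values
-/

set_option autoImplicit false
set_option linter.unusedSectionVars false

open Finset

namespace Pool.Agent.H893R3.Dig

open Pool.Agent.H394R2.Ones Pool.Agent.H820R3.DG

lemma step_sqrt {N i : ℝ} (hi : 0 ≤ i) (hiN : i + 1 ≤ N) :
    Real.sqrt i * (Real.sqrt (N - i) - Real.sqrt (N - (i + 1))) ≤
      (N / 4 * Real.arcsin (2 * (i + 1) / N - 1) - 1 / 2 * Real.sqrt ((i + 1) * (N - (i + 1)))) -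
      (N / 4 * Real.arcsin (2 * i / N - 1) - 1 / 2 * Real.sqrt (i * (N - i))) := by
  have hN : 0 < N := by linarith
  set H : ℝ → ℝ := fun t => N / 4 * Real.arcsin (2 * t / N - 1) - 1 / 2 * Real.sqrt (t * (N - t)) +
    Real.sqrt i * Real.sqrt (N - t) with hH
  have hcont : ContinuousOn H (Set.Icc i (i + 1)) := by
    apply Continuous.continuousOn
    rw [hH]
    have := Real.continuous_arcsin
    fun_prop
  have hder : ∀ t ∈ Set.Ioo i (i + 1), HasDerivAt H
      ((Real.sqrt t - Real.sqrt i) / (2 * Real.sqrt (N - t))) t := by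
    intro t ht
    have ht0 : 0 < t := lt_of_le_of_lt hi ht.1
    have htN : 0 < N - t := by have := ht.2; linarith
    have hst := Real.sqrt_pos.mpr ht0
    have hsN := Real.sqrt_pos.mpr htN
    have hprod : 0 < t * (N - t) := mul_pos ht0 htN
    have h1 : HasDerivAt (fun t : ℝ => 2 * t / N - 1) (2 / N) t := by
      have := (((hasDerivAt_id t).const_mul 2).div_const N).sub_const 1
      simpa using this
    have hne1 : 2 * t / N - 1 ≠ -1 := by
      intro h
      have : 2 * t / N = 0 := by linarith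
      have : 0 < 2 * t / N := by positivity
      linarith
    have hne2 : 2 * t / N - 1 ≠ 1 := by
      intro h
      have h2 : 2 * t / N = 2 := by linarith
      rw [div_eq_iff hN.ne'] at h2
      linarith
    have h2 := (Real.hasDerivAt_arcsin hne1 hne2).comp t h1
    have h5 : HasDerivAt (fun t : ℝ => N - t) (-1) t := (hasDerivAt_id' t).const_sub N
    have h3' : HasDerivAt (fun t : ℝ => t * (N - t)) (1 * (N - t) + t * (-1)) t :=
      (hasDerivAt_id' t).mul h5
    have h3 : HasDerivAt (fun t : ℝ => t * (N - t)) (N - 2 * t) t :=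
      h3'.congr_deriv (by ring)
    have h4 := h3.sqrt hprod.ne'
    have h6 := h5.sqrt htN.ne'
    have h7 : HasDerivAt H (N / 4 * (1 / Real.sqrt (1 - (2 * t / N - 1) ^ 2) * (2 / N)) -
        1 / 2 * ((N - 2 * t) / (2 * Real.sqrt (t * (N - t)))) +
        Real.sqrt i * (-1 / (2 * Real.sqrt (N - t)))) t :=
      ((h2.const_mul (N / 4)).sub (h4.const_mul (1 / 2))).add (h6.const_mul (Real.sqrt i))
    refine h7.congr_deriv ?_
    have e1 : 1 - (2 * t / N - 1) ^ 2 = (2 * (Real.sqrt t * Real.sqrt (N - t)) / N) ^ 2 := by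
      rw [div_pow, mul_pow, mul_pow, Real.sq_sqrt ht0.le, Real.sq_sqrt htN.le]
      field_simp
      ring
    rw [e1, Real.sqrt_sq (by positivity), Real.sqrt_mul ht0.le]
    have e2 := Real.sq_sqrt ht0.le
    have e3 := Real.sq_sqrt htN.le
    field_simp
    nlinarith
  have hmono : MonotoneOn H (Set.Icc i (i + 1)) := by
    apply monotoneOn_of_deriv_nonneg (convex_Icc _ _) hcont
    · rw [interior_Icc]
      exact fun t ht => (hder t ht).differentiableAt.differentiableWithinAt
    · intro t ht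
      rw [interior_Icc] at ht
      rw [(hder t ht).deriv]
      apply div_nonneg _ (by positivity)
      have := Real.sqrt_le_sqrt ht.1.le
      linarith
  have h := hmono (Set.left_mem_Icc.mpr (by linarith)) (Set.right_mem_Icc.mpr (by linarith))
    (by linarith)
  rw [hH] at h
  simp only at h
  linarith

lemma sum_sqrt {n : ℕ} (hn : 0 < n) :
    ∑ i ∈ range n, Real.sqrt i * (Real.sqrt ((n : ℝ) - i) - Real.sqrt ((n : ℝ) - (i + 1 : ℕ))) ≤
      Real.pi / 4 * n := by
  have hn0 : (0 : ℝ) < n := by exact_mod_cast hn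
  set Fn : ℕ → ℝ := fun i => (n : ℝ) / 4 * Real.arcsin (2 * (i : ℝ) / n - 1) -
    1 / 2 * Real.sqrt ((i : ℝ) * (n - i)) with hF
  have h1 : ∀ i ∈ range n, Real.sqrt i * (Real.sqrt ((n : ℝ) - i) -
      Real.sqrt ((n : ℝ) - (i + 1 : ℕ))) ≤ Fn (i + 1) - Fn i := by
    intro i hi
    have hi' : (i : ℝ) + 1 ≤ n := by
      have := mem_range.mp hi
      exact_mod_cast this
    have := step_sqrt (N := n) (i := i) (Nat.cast_nonneg _) hi'
    rw [hF]
    push_cast
    exact this
  refine (sum_le_sum h1).trans ?_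
  rw [sum_range_sub]
  rw [hF]
  simp only [Nat.cast_zero, mul_zero, zero_div, zero_sub, Real.arcsin_neg_one, sub_self, zero_mul,
    Real.sqrt_zero]
  have e : 2 * (n : ℝ) / n - 1 = 1 := by field_simp; norm_num
  rw [e, Real.arcsin_one]
  linarith

section
variable {b : ℕ} {y : ℝ}

lemma abel (n : ℕ) (u : ℕ → ℝ) :
    ∑ i ∈ range (n + 1), (x b y i : ℝ) * u i =
      ∑ i ∈ range n, (K b y i : ℝ) * (u i - u (i + 1)) + K b y n * u n := by
  induction n with
  | zero => simp [K]
  | succ n ih =>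
    have h2 : K b y (n + 1) = K b y n + x b y (n + 1) := by
      unfold K; rw [sum_range_succ]
    rw [sum_range_succ, ih, sum_range_succ _ n, h2]
    push_cast
    ring

lemma R_eq' (hy0 : 0 < y) (hy1 : y < 1) (n : ℕ) :
    R b y n = ∑ i ∈ range (n + 1), x b y i * K b y (n - i) := by
  induction n with
  | zero => simp [R, K, r_zero hy0 hy1, x_zero hy0 hy1]
  | succ n ih =>
    have h1 : R b y (n + 1) = R b y n + r b y (n + 1) := by
      unfold R; rw [sum_range_succ]
    have h0 : K b y 0 = 0 := by simp [K, x_zero hy0 hy1]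
    rw [h1, ih, r_eq hy0 hy1, sum_range_succ _ (n + 1), Nat.sub_self, h0, mul_zero, add_zero,
      ← sum_add_distrib]
    refine sum_congr rfl fun i hi => ?_
    have hi' : i ≤ n := by have := mem_range.mp hi; omega
    have h2 : K b y (n + 1 - i) = K b y (n - i) + x b y (n + 1 - i) := by
      rw [Nat.succ_sub hi']
      unfold K; rw [sum_range_succ]
    rw [h2]
    ring

/-- upper bound for the number of pairs -/
lemma R_upper (hy0 : 0 < y) (hy1 : y < 1) {c C0 : ℝ} (hc : 0 ≤ c) (hC0 : 0 ≤ C0)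
    (h : ∀ m : ℕ, (K b y m : ℝ) ≤ c * Real.sqrt m + C0) {n : ℕ} (hn : 0 < n) :
    (R b y n : ℝ) ≤ c ^ 2 * (Real.pi / 4 * n) + c * C0 * Real.sqrt n + C0 * K b y n := by
  have h1 : (R b y n : ℝ) ≤ ∑ i ∈ range (n + 1), (x b y i : ℝ) *
      (c * Real.sqrt ((n : ℝ) - i) + C0) := by
    rw [R_eq' hy0 hy1]
    push_cast
    refine sum_le_sum fun i hi => mul_le_mul_of_nonneg_left ?_ (Nat.cast_nonneg _)
    have hi' : i ≤ n := by have := mem_range.mp hi; omega
    have := h (n - i)
    rwa [Nat.cast_sub hi'] at this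
  have h2 : ∑ i ∈ range (n + 1), (x b y i : ℝ) * (c * Real.sqrt ((n : ℝ) - i) + C0) =
      c * ∑ i ∈ range (n + 1), (x b y i : ℝ) * Real.sqrt ((n : ℝ) - i) + C0 * K b y n := by
    unfold K
    push_cast
    rw [mul_sum, mul_sum, ← sum_add_distrib]
    exact sum_congr rfl fun i _ => by ring
  have h3 : ∑ i ∈ range (n + 1), (x b y i : ℝ) * Real.sqrt ((n : ℝ) - i) =
      ∑ i ∈ range n, (K b y i : ℝ) * (Real.sqrt ((n : ℝ) - i) -
        Real.sqrt ((n : ℝ) - (i + 1 : ℕ))) := by
    rw [abel n (fun i => Real.sqrt ((n : ℝ) - i))]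
    simp
  have h4 : ∑ i ∈ range n, (K b y i : ℝ) * (Real.sqrt ((n : ℝ) - i) -
        Real.sqrt ((n : ℝ) - (i + 1 : ℕ))) ≤ c * (Real.pi / 4 * n) + C0 * Real.sqrt n := by
    have h5 : ∀ i ∈ range n, (K b y i : ℝ) * (Real.sqrt ((n : ℝ) - i) -
        Real.sqrt ((n : ℝ) - (i + 1 : ℕ))) ≤
        c * (Real.sqrt i * (Real.sqrt ((n : ℝ) - i) - Real.sqrt ((n : ℝ) - (i + 1 : ℕ)))) +
        C0 * (Real.sqrt ((n : ℝ) - i) - Real.sqrt ((n : ℝ) - (i + 1 : ℕ))) := by
      intro i _
      have h6 : 0 ≤ Real.sqrt ((n : ℝ) - i) - Real.sqrt ((n : ℝ) - (i + 1 : ℕ)) := by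
        rw [sub_nonneg]
        apply Real.sqrt_le_sqrt
        push_cast
        linarith
      have := mul_le_mul_of_nonneg_right (h i) h6
      linarith
    refine (sum_le_sum h5).trans ?_
    rw [sum_add_distrib, ← mul_sum, ← mul_sum]
    have h7 := mul_le_mul_of_nonneg_left (sum_sqrt hn) hc
    have h8 : ∑ i ∈ range n, (Real.sqrt ((n : ℝ) - i) - Real.sqrt ((n : ℝ) - (i + 1 : ℕ))) =
        Real.sqrt n := by
      rw [sum_range_sub' (fun i : ℕ => Real.sqrt ((n : ℝ) - i))]
      simp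
    rw [h8]
    linarith
  rw [h2, h3] at h1
  have h9 := mul_le_mul_of_nonneg_left h4 hc
  nlinarith

end

end Pool.Agent.H893R3.Dig
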