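import Pool.Agent.H893R3.Dig.Sup

/-!
# Digit sums of quadratic irrationals: infinitely many large values, conclusion
-/

set_option autoImplicit false
set_option linter.unusedSectionVars false

open Finset

namespace Pool.Agent.H893R3.Dig

open Pool.Agent.H394R2.Ones Pool.Agent.H820R3.DG

theorem sup_main {b : ℕ} {y : ℝ} (hb : 2 ≤ b) (hy0 : 0 < y) (hy1 : y < 1) (hirr : Irrational y)
    {A B C : ℤ} (hA : 0 < A) (hq : (A : ℝ) * y ^ 2 + B * y + C = 0) {c : ℝ} (hc : 0 ≤ c)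
    (hcs : c ^ 2 * Real.pi * A < 4 * ((b : ℝ) - 1) * (Int.gcd b (2 * A) : ℕ)) (N : ℕ) :
    ∃ n : ℕ, N ≤ n ∧ c * Real.sqrt n < K b y n := by
  by_contra hcon
  push Not at hcon
  have hbR : (2 : ℝ) ≤ b := by exact_mod_cast hb
  have hAR : (1 : ℝ) ≤ A := by exact_mod_cast hA
  have halg : IsAlgebraic ℚ y := by
    refine ⟨Polynomial.C (A : ℚ) * Polynomial.X ^ 2 + Polynomial.C (B : ℚ) * Polynomial.X +
      Polynomial.C (C : ℚ), ?_, ?_⟩
    · intro h
      have h1 := congrArg (fun p => Polynomial.coeff p 2) h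
      simp only [Polynomial.coeff_add, Polynomial.coeff_C_mul, Polynomial.coeff_X_pow,
        Polynomial.coeff_X, Polynomial.coeff_C, Polynomial.coeff_zero] at h1
      norm_num at h1
      omega
    · simp only [map_add, map_mul, map_pow, Polynomial.aeval_X, Polynomial.aeval_C]
      simpa using hq
  set g : ℕ := Int.gcd b (2 * A) with hg
  have hg0 : 0 < g := Int.gcd_pos_of_ne_zero_left _ (by exact_mod_cast (by omega : b ≠ 0))
  have hgR : (0 : ℝ) < g := by exact_mod_cast hg0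
  set τ : ℝ := (g : ℝ) / A with hτ
  have hτ0 : 0 < τ := by positivity
  have hb1 : (0 : ℝ) < (b : ℝ) - 1 := by linarith
  have hpi := Real.pi_pos
  have hgap : c ^ 2 * (Real.pi / 4) < ((b : ℝ) - 1) * τ := by
    have h1 : c ^ 2 * Real.pi < 4 * ((b : ℝ) - 1) * τ := by
      rw [hτ, mul_div_assoc', lt_div_iff₀ (by linarith)]
      exact hcs
    linarith
  set η : ℝ := ((b : ℝ) - 1) * τ - c ^ 2 * (Real.pi / 4) with hη
  have hη0 : 0 < η := by rw [hη]; linarith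
  have hbt : 0 < ((b : ℝ) - 1) * τ := by positivity
  set δ : ℝ := min (1 / 4) (η / (2 * (((b : ℝ) - 1) * τ))) with hδ
  have hδ0 : 0 < δ := by positivity
  have hδ1 : δ ≤ 1 / 4 := min_le_left _ _
  have hδ2 : ((b : ℝ) - 1) * τ * δ ≤ η / 2 := by
    have h1 : δ ≤ η / (2 * (((b : ℝ) - 1) * τ)) := min_le_right _ _
    rw [le_div_iff₀ (by positivity)] at h1
    linarith
  obtain ⟨C1, hC10, hC1⟩ := bad_count hb hy0 hy1 halg hirr |(B : ℝ)| δ hδ0 hδ1
  have hB0 : 0 ≤ |(B : ℝ)| := abs_nonneg _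
  set C2 : ℝ := |(B : ℝ)| + 2 * τ + τ * C1 + τ with hC2
  have hC20 : 0 ≤ C2 := by positivity
  have hD : ∀ n : ℕ, ∑ m ∈ range n, dd b y τ |(B : ℝ)| m ≤ C2 * (K b y n + 1) + τ * δ * n := by
    intro n
    have hK : (0 : ℝ) ≤ K b y n := Nat.cast_nonneg _
    unfold dd
    rw [sum_add_distrib, sum_add_distrib, sum_add_distrib, ← mul_sum, ← mul_sum, ← mul_sum,
      sum_add_distrib]
    have h1 := ep_sum (b := b) hb hy0 hy1 n
    have h2 : (∑ m ∈ range n, (x b y m : ℝ)) ≤ K b y n := by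
      unfold K
      exact_mod_cast sum_le_sum_of_subset (range_mono (Nat.le_succ n))
    have h3 : (∑ m ∈ range n, (exc b y m : ℝ)) ≤ K b y n := by
      exact_mod_cast exc_sum b y n
    have h4 : (∑ m ∈ range n, (if T b y m ≤ |(B : ℝ)| * ep b y m then (1 : ℝ) else 0)) ≤
        C1 * (K b y n + 1) + δ * n := by
      have h5 := hC1 n
      rw [card_filter] at h5
      push_cast at h5
      exact h5
    have h5 := few_sum 0 n τ hτ0.le
    rw [Nat.cast_zero, zero_add, mul_one] at h5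
    have h6 := mul_le_mul_of_nonneg_left h1 hB0
    have h7 := mul_le_mul_of_nonneg_left (add_le_add h2 h3) hτ0.le
    have h8 := mul_le_mul_of_nonneg_left h4 hτ0.le
    have h9 : 0 ≤ τ * K b y n := mul_nonneg hτ0.le hK
    have e : C2 * ((K b y n : ℝ) + 1) = |(B : ℝ)| * (K b y n + 1) + 2 * (τ * K b y n) + 2 * τ +
        τ * (C1 * (K b y n + 1)) + τ * K b y n + τ := by rw [hC2]; ring
    rw [e]
    linarith
  set C0 : ℝ := ((K b y N : ℕ) : ℝ) with hC0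
  have hC00 : 0 ≤ C0 := Nat.cast_nonneg _
  have hall : ∀ m : ℕ, (K b y m : ℝ) ≤ c * Real.sqrt m + C0 := by
    intro m
    rcases le_total N m with h | h
    · have := hcon m h
      linarith
    · have h1 : (K b y m : ℝ) ≤ K b y N := by exact_mod_cast K_mono h
      have h2 : 0 ≤ c * Real.sqrt m := by positivity
      linarith
  -- the constant
  set E : ℝ := ((b : ℝ) - 1) * C2 + 1 with hE
  have hE0 : 0 ≤ E := by positivity
  set Mx : ℝ := c * C0 + (C0 + E) * (c + C0 + 1) with hMx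
  have hMx0 : 0 ≤ Mx := by positivity
  obtain ⟨n, hn⟩ := exists_nat_gt ((4 * Mx / η) ^ 2 + 1)
  have hn1 : (1 : ℝ) < n := by
    have := sq_nonneg (4 * Mx / η)
    linarith
  have hnpos : 0 < n := by
    rcases Nat.eq_zero_or_pos n with h | h
    · rw [h] at hn1; norm_num at hn1
    · exact h
  have hs1 : 1 ≤ Real.sqrt n := by
    rw [show (1 : ℝ) = Real.sqrt 1 by simp]
    exact Real.sqrt_le_sqrt hn1.le
  have hs2 : 4 * Mx / η < Real.sqrt n := by
    apply Real.lt_sqrt_of_sq_lt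
    linarith
  have hsq : Real.sqrt n * Real.sqrt n = n := Real.mul_self_sqrt (Nat.cast_nonneg _)
  have hup := R_upper hy0 hy1 hc hC00 hall hnpos
  have hlow := T_sum_lower' (fun m => T_lower' hb hy0 hy1 hirr hA hq m) (hD n)
  have hR := R_eq hb hy0 hy1 (b := b) n
  have hT0 := T_pos hb hy0 hy1 hirr 0
  have hTn := T_le hb hy0 hy1 (b := b) n
  have hKn := hall n
  have hK0 : (0 : ℝ) ≤ K b y n := Nat.cast_nonneg _
  have h1 : ((b : ℝ) - 1) * (τ * n - (C2 * (K b y n + 1) + τ * δ * n)) ≤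
      ((b : ℝ) - 1) * ∑ m ∈ range n, T b y m := mul_le_mul_of_nonneg_left hlow hb1.le
  have h2 : ((b : ℝ) - 1) * τ * n - ((b : ℝ) - 1) * τ * δ * n ≤
      c ^ 2 * (Real.pi / 4 * n) + c * C0 * Real.sqrt n + (C0 + E) * (K b y n + 1) := by
    rw [hE]
    nlinarith
  have h3 : η / 2 * n ≤ c * C0 * Real.sqrt n + (C0 + E) * (K b y n + 1) := by
    have : ((b : ℝ) - 1) * τ * δ * n ≤ η / 2 * n := mul_le_mul_of_nonneg_right hδ2 (Nat.cast_nonneg _)
    rw [hη] at *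
    nlinarith
  have h4 : (C0 + E) * (K b y n + 1) ≤ (C0 + E) * ((c + C0 + 1) * Real.sqrt n) := by
    apply mul_le_mul_of_nonneg_left _ (by positivity)
    nlinarith
  have h5 : η / 2 * n ≤ Mx * Real.sqrt n := by
    rw [hMx]
    linarith
  rw [div_lt_iff₀ hη0] at hs2
  have h6 : η / 2 * Real.sqrt n ≤ Mx := by
    have h7 : (η / 2 * Real.sqrt n) * Real.sqrt n ≤ Mx * Real.sqrt n := by
      calc (η / 2 * Real.sqrt n) * Real.sqrt n = η / 2 * (Real.sqrt n * Real.sqrt n) := by ring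
        _ = η / 2 * n := by rw [hsq]
        _ ≤ _ := h5
    exact le_of_mul_le_mul_right h7 (by linarith)
  have h8 : 0 < η * Real.sqrt n := by positivity
  nlinarith

/-- infinitely many large values, real quadratic irrationals -/
theorem sup_real {b : ℕ} (hb : 2 ≤ b) {A B C : ℤ} (hA : 0 < A) {ξ : ℝ} (hirr : Irrational ξ)
    (hq : (A : ℝ) * ξ ^ 2 + B * ξ + C = 0) {c : ℝ} (hc : 0 ≤ c)
    (hcs : c ^ 2 * Real.pi * A < 4 * ((b : ℝ) - 1) * (Int.gcd b (2 * A) : ℕ)) (N : ℕ) :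
    ∃ n : ℕ, N ≤ n ∧ c * Real.sqrt n <
      ((∑ k ∈ range n, ⌊ξ * (b : ℝ) ^ (k + 1)⌋ % (b : ℤ) : ℤ) : ℝ) := by
  set y : ℝ := Int.fract ξ with hy
  have hξ : ξ = ⌊ξ⌋ + y := (Int.floor_add_fract ξ).symm
  have hyirr : Irrational y := by
    have : y = ξ - (⌊ξ⌋ : ℤ) := rfl
    rw [this]
    exact hirr.sub_intCast _
  have hy0 : 0 < y := lt_of_le_of_ne (Int.fract_nonneg ξ) (Ne.symm hyirr.ne_zero)
  have hy1 : y < 1 := Int.fract_lt_one ξ
  have hq' : (A : ℝ) * y ^ 2 + ((B + 2 * A * ⌊ξ⌋ : ℤ) : ℝ) * y +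
      ((C + B * ⌊ξ⌋ + A * ⌊ξ⌋ ^ 2 : ℤ) : ℝ) = 0 := by
    have h1 : (A : ℝ) * (⌊ξ⌋ + y) ^ 2 + B * (⌊ξ⌋ + y) + C = 0 := by rw [← hξ]; exact hq
    push_cast
    linarith
  obtain ⟨n, hn, hlt⟩ := sup_main hb hy0 hy1 hyirr hA hq' hc hcs N
  refine ⟨n, hn, hlt.trans_le (le_of_eq ?_)⟩
  have hdig : ∀ k : ℕ, ⌊ξ * (b : ℝ) ^ (k + 1)⌋ % (b : ℤ) = (x b y (k + 1) : ℤ) := by
    intro k
    have h1 : ξ * (b : ℝ) ^ (k + 1) = ((⌊ξ⌋ * (b : ℤ) ^ (k + 1) : ℤ) : ℝ) +
        y * (b : ℝ) ^ (k + 1) := by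
      nth_rewrite 1 [hξ]
      push_cast
      ring
    rw [h1, Int.floor_intCast_add]
    unfold x Pool.Agent.H394R2.Ones.B
    push_cast
    rw [Int.natCast_floor_eq_floor (by positivity)]
    rw [show ⌊ξ⌋ * (b : ℤ) ^ (k + 1) + ⌊y * (b : ℝ) ^ (k + 1)⌋ =
      ⌊y * (b : ℝ) ^ (k + 1)⌋ + (b : ℤ) * (⌊ξ⌋ * (b : ℤ) ^ k) by ring, Int.add_mul_emod_self_left]
  simp only [hdig]
  unfold K
  rw [sum_range_succ']
  rw [x_zero hy0 hy1, add_zero]
  push_cast
  rfl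

end Pool.Agent.H893R3.Dig
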